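import Pool.Agent.MT.SD
import Pool.Agent.MT.Defs
import Pool.Agent.MT.YY
import Pool.Agent.MT.Phi

set_option autoImplicit false

/-!
# PT: almost prime triplets (MP_c0d11e_nt), definitions

`L = log N`, `W = primorial w` with a large constant `w`, the sieving primes are the primes in
`(w, N^ρ]`.  The size `sz` of a prime is its logarithm divided by `L`, for the primes beyond
`N^(1/1000)` rounded up to a multiple of `1/M`.  `F` is the profile of the weights, a function of the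
sizes of the three parts of a configuration (the three linear forms are `n + sh 0, n + sh 1,
n + sh 2`).
-/

namespace Pool.Agent.PT

open Finset Filter Pool.Agent.MT

/-! ### The sieving primes -/

/-- the sieving primes `w < p ≤ X` -/
abbrev PP (w X : ℕ) : Type := {p : ℕ // p ∈ (Finset.Ioc w X).filter Nat.Prime}

/-- the prime as a natural number -/
def pr {w X : ℕ} (i : PP w X) : ℕ := i.1

/-- `N^ρ` rounded down -/
noncomputable def XR (ρ : ℝ) (N : ℕ) : ℕ := ⌊(N : ℝ) ^ ρ⌋₊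

/-- `1/p` -/
noncomputable def bb {w X : ℕ} (i : PP w X) : ℝ := 1 / (pr i : ℝ)

/-- `1/(p-1)` -/
noncomputable def qq {w X : ℕ} (i : PP w X) : ℝ := 1 / ((pr i : ℝ) - 1)

/-- the size of a prime -/
noncomputable def sz (M N p : ℕ) : ℝ :=
  if (p : ℝ) ≤ (N : ℝ) ^ (1 / 1000 : ℝ) then Real.log p / Real.log N
  else (⌈(M : ℝ) * (Real.log p / Real.log N)⌉₊ : ℝ) / M

/-- the size of a set of primes -/
noncomputable def ss {w X : ℕ} (M N : ℕ) (e : Finset (PP w X)) : ℝ := ∑ i ∈ e, sz M N (pr i)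

/-- the unit `A = (φ(W)/W) log N` -/
noncomputable def AA (w N : ℕ) : ℝ := phW w * Real.log N

/-! ### Profiles -/

/-- the region of the sizes -/
def Reg (ρ : ℝ) (a : Fin 3 → ℝ) : Prop := (∀ i, 0 ≤ a i) ∧ ∀ i j, i ≠ j → a i + a j ≤ ρ

/-- a profile: bounded, supported on the region, Lipschitz there -/
structure Prof (ρ K : ℝ) (F : (Fin 3 → ℝ) → ℝ) : Prop where
  bd : ∀ a, |F a| ≤ K
  zero : ∀ a, ¬ Reg ρ a → F a = 0
  lip : ∀ a a', Reg ρ a → Reg ρ a' → |F a - F a'| ≤ K * ∑ i, |a i - a' i|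

/-- the smaller of the two other indices -/
def o1 (j : Fin 3) : Fin 3 := if j = 0 then 1 else 0

/-- the larger of the two other indices -/
def o2 (j : Fin 3) : Fin 3 := if j = 2 then 1 else 2

/-- the point with `j`-th coordinate `t` and the other coordinates `a`, `b` -/
def cor (j : Fin 3) (a b t : ℝ) : Fin 3 → ℝ := fun i => if i = j then t else if i = o1 j then a else b

/-- the tail integral of the profile in the coordinate `j` -/
noncomputable def hh (F : (Fin 3 → ℝ) → ℝ) (ρ : ℝ) (j : Fin 3) (a b u : ℝ) : ℝ :=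
  ∫ t in u..ρ, F (cor j a b t)

/-- the value of the weight for a box with sizes `u` -/
noncomputable def hB (F : (Fin 3 → ℝ) → ℝ) (ρ : ℝ) (j : Fin 3) {n : ℕ} (u : Fin n → ℝ)
    (a b : ℝ) : ℝ :=
  ∑ S : Finset (Fin n), (-1 : ℝ) ^ S.card * hh F ρ j a b (∑ i ∈ S, u i)

/-- the mean square over the configurations of the two other forms -/
noncomputable def JJ (F : (Fin 3 → ℝ) → ℝ) (ρ σ : ℝ) (j : Fin 3) {n : ℕ} (u : Fin n → ℝ) : ℝ :=
  ∫ a in (0 : ℝ)..σ, ∫ b in (0 : ℝ)..(σ - a), hB F ρ j u a b ^ 2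

/-- `∫ F²` -/
noncomputable def II (F : (Fin 3 → ℝ) → ℝ) (ρ : ℝ) : ℝ :=
  ∫ a in (0 : ℝ)..ρ, ∫ b in (0 : ℝ)..ρ, ∫ t in (0 : ℝ)..ρ, F ![a, b, t] ^ 2

/-- sizes of the `n` smaller primes of a product of `n + 1` primes -/
def DD (ρ : ℝ) (n : ℕ) : Set (Fin n → ℝ) :=
  {u | (∀ i, 1 / 1000 < u i) ∧ StrictMono u ∧ (∀ i, u i < 1 - ∑ l, u l) ∧ ρ < 1 - ∑ l, u l}

/-- the density of products of `n + 1` primes -/
noncomputable def dens {n : ℕ} (u : Fin n → ℝ) : ℝ := 1 / ((∏ i, u i) * (1 - ∑ i, u i))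

/-- the contribution of the products of `n + 1` primes in the coordinate `j` -/
noncomputable def QQ (F : (Fin 3 → ℝ) → ℝ) (ρ σ : ℝ) (j : Fin 3) (n : ℕ) : ℝ :=
  ∫ u in DD ρ n, JJ F ρ σ j u * dens u

/-! ### The weights -/

/-- the sizes of the three parts -/
noncomputable def szs {w X : ℕ} (M N : ℕ) (τ : PP w X → Option (Fin 3)) : Fin 3 → ℝ :=
  fun h => ss M N (part τ h)

/-- the factor `∏ (-p/(p-1))` -/
noncomputable def sg {w X : ℕ} (τ : PP w X → Option (Fin 3)) : ℝ :=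
  ∏ i ∈ supp τ, (-((pr i : ℝ) / ((pr i : ℝ) - 1)))

/-- the coefficients for the profile `G` -/
noncomputable def cc {w X : ℕ} (G : (Fin 3 → ℝ) → ℝ) (M N : ℕ) (τ : PP w X → Option (Fin 3)) : ℝ :=
  G (szs M N τ) * sg τ

/-- the weight before squaring, `Λ(a)` -/
noncomputable def Lam (F : (Fin 3 → ℝ) → ℝ) (ρ : ℝ) (M w N : ℕ) (sh : Fin 3 → ℕ) (a : ℕ) : ℝ :=
  comb (bb (w := w) (X := XR ρ N)) (cc F M N) (YY pr sh a)

/-- the profile of a box with sizes `u` in the coordinate `j` -/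
noncomputable def FB (F : (Fin 3 → ℝ) → ℝ) (j : Fin 3) {n : ℕ} (u : Fin n → ℝ) :
    (Fin 3 → ℝ) → ℝ := fun a =>
  ∑ S : Finset (Fin n), (-1 : ℝ) ^ S.card * F (Function.update a j (a j + ∑ i ∈ S, u i))

/-- the configuration with the value `j` deleted -/
def dl {w X : ℕ} (j : Fin 3) (Y : PP w X → Option (Fin 3)) : PP w X → Option (Fin 3) :=
  fun i => if Y i = some j then none else Y i

/-- the coefficients for a box after the change of basis (no value `j` any more) -/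
noncomputable def tB {w X : ℕ} (F : (Fin 3 → ℝ) → ℝ) (M N : ℕ) (j : Fin 3) {n : ℕ}
    (u : Fin n → ℝ) (τ : PP w X → Option (Fin 3)) : ℝ :=
  sbst {j} bb qq (cc (FB F j u) M N) τ

open Classical in
/-- the inner part of `tB` -/
noncomputable def tK {w X : ℕ} (F : (Fin 3 → ℝ) → ℝ) (σ : ℝ) (M N : ℕ) (j : Fin 3) {n : ℕ}
    (u : Fin n → ℝ) (τ : PP w X → Option (Fin 3)) : ℝ :=
  if szs M N τ (o1 j) + szs M N τ (o2 j) ≤ σ then tB F M N j u τ else 0

open Classical in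
/-- the outer part of `tB` -/
noncomputable def tU {w X : ℕ} (F : (Fin 3 → ℝ) → ℝ) (σ : ℝ) (M N : ℕ) (j : Fin 3) {n : ℕ}
    (u : Fin n → ℝ) (τ : PP w X → Option (Fin 3)) : ℝ :=
  if szs M N τ (o1 j) + szs M N τ (o2 j) ≤ σ then 0 else tB F M N j u τ

/-! ### Boxes of almost primes -/

open Classical in
/-- indicator of the products `p_1 ... p_n` with `N^(k_i/M) < p_i ≤ N^((k_i+1)/M)` -/
noncomputable def al {n : ℕ} (k : Fin n → ℕ) (M N a : ℕ) : ℝ :=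
  if ∃ p : Fin n → ℕ, (∀ i, (p i).Prime ∧ (N : ℝ) ^ ((k i : ℝ) / M) < p i ∧
    (p i : ℝ) ≤ (N : ℝ) ^ (((k i : ℝ) + 1) / M)) ∧ a = ∏ i, p i then 1 else 0

/-- `∑_{a q = m} α(a)`, `q` prime -/
noncomputable def BB (α : ℕ → ℝ) (m : ℕ) : ℝ :=
  ∑ a ∈ m.divisors, α a * (if (m / a).Prime then 1 else 0)

/-- the indicator function of a box of almost primes -/
noncomputable def bx {n : ℕ} (k : Fin n → ℕ) (M N m : ℕ) : ℝ := BB (al k M N) m

/-- admissible boxes -/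
def BoxOK (ρ : ℝ) (M : ℕ) {n : ℕ} (k : Fin n → ℕ) : Prop :=
  StrictMono k ∧ (∀ i, (M : ℝ) / 1000 ≤ k i) ∧
    (∀ i, ((k i : ℝ) + 2) / M < 1 - ∑ l, ((k l : ℝ) + 1) / M) ∧
    ρ + 1 / M < 1 - ∑ l, ((k l : ℝ) + 1) / M

open Classical in
/-- all admissible boxes -/
noncomputable def boxes (ρ : ℝ) (M n : ℕ) : Finset (Fin n → ℕ) :=
  (Fintype.piFinset fun _ => range M).filter (fun k => BoxOK ρ M k)

/-- the sizes of the primes of a box -/
noncomputable def uu {n : ℕ} (k : Fin n → ℕ) (M : ℕ) : Fin n → ℝ := fun i => ((k i : ℝ) + 1) / M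

/-- (lower bound for) the mass of a box -/
noncomputable def mu {n : ℕ} (k : Fin n → ℕ) (M : ℕ) : ℝ :=
  (∏ i, Real.log (((k i : ℝ) + 1) / k i)) / (1 - ∑ i, (k i : ℝ) / M)

/-- `∑ b(m) η(m/N)` -/
noncomputable def B0 (η : ℝ → ℝ) (N : ℕ) (b : ℕ → ℝ) : ℝ :=
  ∑ m ∈ range (N + 1), b m * η ((m : ℝ) / N)

/-- Bombieri-Vinogradov for the sequence `b` -/
def BVOK (η : ℝ → ℝ) (θ : ℝ) (A K N : ℕ) (b : ℕ → ℝ) : Prop :=
  ∃ E : ℕ → ℝ, (∀ q, 0 ≤ E q) ∧
    (∀ q c : ℕ, 1 ≤ q → (q : ℝ) ≤ (N : ℝ) ^ θ → c.Coprime q →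
      |∑ m ∈ (range (N + 1)).filter (fun m => m % q = c % q), b m * η ((m : ℝ) / N) -
        B0 η N b / (q.totient : ℝ)| ≤ E q) ∧
    ∑ q ∈ (Icc 1 N).filter (fun q : ℕ => (q : ℝ) ≤ (N : ℝ) ^ θ),
      (K : ℝ) ^ q.primeFactors.card * E q ≤ N / Real.log N ^ A

/-- the `α` which are allowed in the Bombieri-Vinogradov theorem -/
def AlOK (N : ℕ) (α : ℕ → ℝ) : Prop :=
  (∀ a, 0 ≤ α a ∧ α a ≤ 1) ∧ ∀ a, α a ≠ 0 → (N : ℝ) ^ (1 / 1000 : ℝ) ≤ a ∧
    (a : ℝ) ≤ (N : ℝ) ^ (999 / 1000 : ℝ) ∧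
    ∀ p : ℕ, p.Prime → p ∣ a → (N : ℝ) ^ (1 / 1000 : ℝ) < p

/-- `∫ η` -/
noncomputable def mη (η : ℝ → ℝ) : ℝ := ∫ t in (0 : ℝ)..1, η t

end Pool.Agent.PT
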