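import Pool.Agent.PT.Stmts
import Pool.Agent.GBQ.RhoLow

set_option autoImplicit false

/-!
# PT: elementary facts on the sieving primes and the sizes
-/

namespace Pool.Agent.PT

open Finset Filter Pool.Agent.MT

theorem pr_prime {w X : ℕ} (i : PP w X) : (pr i).Prime := (mem_filter.1 i.2).2

theorem pr_gt {w X : ℕ} (i : PP w X) : w < pr i := (mem_Ioc.1 (mem_filter.1 i.2).1).1

theorem pr_le {w X : ℕ} (i : PP w X) : pr i ≤ X := (mem_Ioc.1 (mem_filter.1 i.2).1).2

theorem pr_inj {w X : ℕ} : Function.Injective (pr : PP w X → ℕ) := Subtype.val_injective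

theorem pr_cop {w X : ℕ} (i : PP w X) : (pr i).Coprime (primorial w) := by
  rw [Nat.Prime.coprime_iff_not_dvd (pr_prime i)]
  intro h
  have h1 := (pr_prime i).dvd_primorial_iff.1 h
  have h2 := pr_gt i
  omega

theorem pr_gtR {w X : ℕ} (i : PP w X) : (w : ℝ) < pr i := by exact_mod_cast pr_gt i

theorem pr_two {w X : ℕ} (i : PP w X) : (2 : ℝ) ≤ pr i := by
  exact_mod_cast (pr_prime i).two_le

theorem bb_pos {w X : ℕ} (i : PP w X) : 0 < bb i := by
  have := pr_two i
  unfold bb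
  positivity

theorem qq_pos {w X : ℕ} (i : PP w X) : 0 < qq i := by
  have := pr_two i
  unfold qq
  exact one_div_pos.2 (by linarith)

theorem qq_le {w X : ℕ} (i : PP w X) : qq i ≤ 1 / (w : ℝ) ∨ w = 0 := by
  rcases Nat.eq_zero_or_pos w with h | h
  · exact Or.inr h
  · left
    unfold qq
    have h1 : (1 : ℝ) ≤ w := by exact_mod_cast h
    have h2 : (w : ℝ) + 1 ≤ pr i := by exact_mod_cast pr_gt i
    exact one_div_le_one_div_of_le (by linarith) (by linarith)

theorem bb_le_qq {w X : ℕ} (i : PP w X) : bb i ≤ qq i := by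
  have := pr_two i
  unfold bb qq
  exact one_div_le_one_div_of_le (by linarith) (by linarith)

theorem one_add_qq {w X : ℕ} (i : PP w X) : (pr i : ℝ) / ((pr i : ℝ) - 1) = 1 + qq i := by
  have := pr_two i
  unfold qq
  have h : (pr i : ℝ) - 1 ≠ 0 := by linarith
  field_simp
  ring

theorem abs_sg {w X : ℕ} (τ : PP w X → Option (Fin 3)) :
    |sg τ| = ∏ i ∈ supp τ, (1 + qq i) := by
  unfold sg
  rw [Finset.abs_prod]
  refine prod_congr rfl fun i _ => ?_
  rw [abs_neg, one_add_qq, abs_of_pos]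
  linarith [qq_pos i]

theorem abs_sg_le {w X : ℕ} (τ : PP w X → Option (Fin 3)) :
    |sg τ| ≤ ∏ i : PP w X, (1 + qq i) := by
  rw [abs_sg]
  exact Finset.prod_le_prod_of_subset_of_one_le (subset_univ _)
    (fun i _ => by linarith [qq_pos i]) (fun i _ _ => by linarith [qq_pos i])

/-! ### Sizes -/

theorem sz_ge {M N p : ℕ} (hM : 1 ≤ M) : Real.log p / Real.log N ≤ sz M N p := by
  have hM0 : (0 : ℝ) < M := by exact_mod_cast hM
  unfold sz
  split_ifs
  · exact le_rfl
  · rw [le_div_iff₀ hM0, mul_comm]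
    exact Nat.le_ceil _

theorem sz_nonneg {M N p : ℕ} (hM : 1 ≤ M) (hN : 2 ≤ N) : 0 ≤ sz M N p := by
  refine le_trans ?_ (sz_ge hM)
  have h1 : (2 : ℝ) ≤ N := by exact_mod_cast hN
  exact div_nonneg (Real.log_natCast_nonneg p) (Real.log_nonneg (by linarith))

theorem sum_part {ι : Type} [Fintype ι] [DecidableEq ι] (τ : ι → Option (Fin 3)) (f : ι → ℝ) :
    ∑ h, ∑ i ∈ part τ h, f i = ∑ i ∈ supp τ, f i := by
  have h1 : supp τ = (univ : Finset (Fin 3)).biUnion (part τ) := by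
    ext i
    simp only [supp, part, mem_filter, mem_univ, true_and, mem_biUnion]
    exact Option.ne_none_iff_exists'
  rw [h1, Finset.sum_biUnion]
  intro a _ b _ hab
  rw [Function.onFun, Finset.disjoint_left]
  intro i hi hi'
  simp only [part, mem_filter, mem_univ, true_and] at hi hi'
  rw [hi] at hi'
  exact hab (Option.some.inj hi')

theorem szs_nonneg {w X M N : ℕ} (hM : 1 ≤ M) (hN : 2 ≤ N) (τ : PP w X → Option (Fin 3))
    (h : Fin 3) : 0 ≤ szs M N τ h := by
  unfold szs ss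
  exact Finset.sum_nonneg fun _ _ => sz_nonneg hM hN

theorem nrm_le {w X M N : ℕ} (hM : 1 ≤ M) (hN : 2 ≤ N) (τ : PP w X → Option (Fin 3)) :
    (nrm pr τ : ℝ) ≤ (N : ℝ) ^ (∑ h, szs M N τ h) := by
  have h1 : (2 : ℝ) ≤ N := by exact_mod_cast hN
  have hL : 0 < Real.log N := Real.log_pos (by linarith)
  have hpos : ∀ i ∈ supp τ, (0 : ℝ) < (pr i : ℝ) := fun i _ => by
    have := pr_two i
    linarith
  have h2 : (0 : ℝ) < (nrm pr τ : ℝ) := by
    unfold nrm
    push_cast
    exact Finset.prod_pos hpos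
  rw [← Real.log_le_log_iff h2 (by positivity), Real.log_rpow (by linarith)]
  unfold nrm
  push_cast
  rw [Real.log_prod (fun i hi => (hpos i hi).ne')]
  unfold szs ss
  rw [sum_part τ (fun i => sz M N (pr i)), Finset.sum_mul]
  refine Finset.sum_le_sum fun i _ => ?_
  have h3 := sz_ge (N := N) (p := pr i) hM
  rwa [div_le_iff₀ hL] at h3

theorem cc_level {w X M N : ℕ} (hM : 1 ≤ M) (hN : 2 ≤ N) {ρ K : ℝ} {F : (Fin 3 → ℝ) → ℝ}
    (hF : Prof ρ K F) (τ : PP w X → Option (Fin 3)) (h : cc F M N τ ≠ 0) :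
    (nrm pr τ : ℝ) ≤ (N : ℝ) ^ (3 / 2 * ρ) := by
  refine (nrm_le hM hN τ).trans ?_
  have h1 : (2 : ℝ) ≤ N := by exact_mod_cast hN
  have h2 : Reg ρ (szs M N τ) := by
    by_contra hc
    exact h (by rw [cc, hF.zero _ hc, zero_mul])
  refine Real.rpow_le_rpow_of_exponent_le (by linarith) ?_
  rw [Fin.sum_univ_three]
  have h3 := h2.2 0 1 (by decide)
  have h4 := h2.2 0 2 (by decide)
  have h5 := h2.2 1 2 (by decide)
  linarith

theorem nrm_le_two {w X M N : ℕ} (hM : 1 ≤ M) (hN : 2 ≤ N) (j : Fin 3)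
    (τ : PP w X → Option (Fin 3)) (hj : ∀ i, τ i ≠ some j) :
    (nrm pr τ : ℝ) ≤ (N : ℝ) ^ (szs M N τ (o1 j) + szs M N τ (o2 j)) := by
  refine (nrm_le hM hN τ).trans (le_of_eq ?_)
  congr 1
  have h0 : szs M N τ j = 0 := by
    unfold szs ss
    rw [show part τ j = ∅ from Finset.filter_eq_empty_iff.2 (fun i _ => hj i), Finset.sum_empty]
  rw [Fin.sum_univ_three]
  fin_cases j
  · simp only [o1, o2] at h0 ⊢
    simp at h0 ⊢
    linarith
  · simp only [o1, o2] at h0 ⊢
    simp at h0 ⊢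
    linarith
  · simp only [o1, o2] at h0 ⊢
    simp at h0 ⊢
    linarith

/-! ### Counting squarefree numbers (Rankin) -/

theorem one_add_nine (x : ℝ) (hx : 0 ≤ x) (k : ℕ) : 1 + (k : ℝ) * x ≤ (1 + x) ^ k :=
  one_add_mul_le_pow (by linarith) k

theorem count_rankin {w X : ℕ} (k D : ℕ) :
    ∑ e ∈ (univ : Finset (Finset (PP w X))).filter (fun e => ∏ i ∈ e, pr i ≤ D),
      (k : ℝ) ^ e.card ≤ D * ∏ i : PP w X, (1 + (k : ℝ) * bb i) := by
  rw [Finset.prod_one_add, Finset.powerset_univ, Finset.mul_sum]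
  refine (Finset.sum_le_sum (fun e he => ?_)).trans
    (Finset.sum_le_sum_of_subset_of_nonneg (Finset.filter_subset _ _) (fun e _ _ => ?_))
  · rw [Finset.mem_filter] at he
    have h1 : (0 : ℝ) < ((∏ i ∈ e, pr i : ℕ) : ℝ) := by
      exact_mod_cast Finset.prod_pos fun i _ => (pr_prime i).pos
    have h2 : ∏ i ∈ e, ((k : ℝ) * bb i) = (k : ℝ) ^ e.card / ((∏ i ∈ e, pr i : ℕ) : ℝ) := by
      rw [Finset.prod_mul_distrib, Finset.prod_const]
      push_cast
      unfold bb
      rw [Finset.prod_div_distrib, Finset.prod_const_one, mul_one_div]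
    rw [h2, mul_div_assoc', le_div_iff₀ h1, mul_comm]
    have h3 : ((∏ i ∈ e, pr i : ℕ) : ℝ) ≤ D := by exact_mod_cast he.2
    exact mul_le_mul_of_nonneg_right h3 (by positivity)
  · refine mul_nonneg (Nat.cast_nonneg _) (Finset.prod_nonneg fun i _ => ?_)
    exact mul_nonneg (Nat.cast_nonneg _) (bb_pos i).le

theorem prod_bb_le {w X : ℕ} (k : ℕ) : ∏ i : PP w X, (1 + (k : ℝ) * bb i) ≤
    (∏ i : PP w X, (1 + qq i)) ^ k := by
  rw [← Finset.prod_pow]
  refine Finset.prod_le_prod (fun i _ => ?_) (fun i _ => ?_)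
  · have := bb_pos i
    positivity
  · refine (one_add_nine _ (bb_pos i).le k).trans ?_
    exact pow_le_pow_left₀ (by linarith [bb_pos i]) (by linarith [bb_le_qq i]) k

theorem prod_qq_le {w X : ℕ} (k : ℕ) : ∏ i : PP w X, (1 + (k : ℝ) * qq i) ≤
    (∏ i : PP w X, (1 + qq i)) ^ k := by
  rw [← Finset.prod_pow]
  refine Finset.prod_le_prod (fun i _ => ?_) (fun i _ => ?_)
  · have := qq_pos i
    positivity
  · exact one_add_nine _ (qq_pos i).le k

theorem one_le_prod_qq {w X : ℕ} : 1 ≤ ∏ i : PP w X, (1 + qq i) :=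
  Finset.one_le_prod fun i _ => by linarith [qq_pos i]

/-! ### Mertens -/

theorem mert {w X : ℕ} (hw : 2 ≤ w) (hX : 3 ≤ X) :
    ∏ i : PP w X, (1 + qq i) ≤ Real.exp 8 * Real.log X := by
  have hX1 : (3 : ℝ) ≤ X := by exact_mod_cast hX
  have hL : 0 < Real.log X := Real.log_pos (by linarith)
  have h1 : ∏ i : PP w X, (1 + qq i) ≤ Real.exp (∑ i : PP w X, qq i) :=
    Real.prod_one_add_le_exp_sum _ (fun i => (qq_pos i).le)
  have h2 : ∑ i : PP w X, qq i =
      ∑ p ∈ (Ioc w X).filter Nat.Prime, 1 / ((p : ℝ) - 1) := by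
    unfold qq pr
    exact Finset.sum_coe_sort ((Ioc w X).filter Nat.Prime) (fun p : ℕ => 1 / ((p : ℝ) - 1))
  have h3 : ∑ p ∈ (Ioc w X).filter Nat.Prime, 1 / ((p : ℝ) - 1) ≤
      ∑ p ∈ Ioc 2 X, ((if p.Prime then 1 / (p : ℝ) else 0) + 1 / ((p : ℝ) * (p - 1))) := by
    rw [Finset.sum_filter]
    refine (Finset.sum_le_sum (fun p hp => ?_)).trans
      (Finset.sum_le_sum_of_subset_of_nonneg (Finset.Ioc_subset_Ioc_left hw) (fun p hp _ => ?_))
    · rw [mem_Ioc] at hp
      have h4 : (3 : ℝ) ≤ p := by exact_mod_cast (by omega : 3 ≤ p)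
      have h5 : 0 < 1 / ((p : ℝ) * (p - 1)) := one_div_pos.2 (mul_pos (by linarith) (by linarith))
      split_ifs
      · refine le_of_eq ?_
        have h6 : (p : ℝ) - 1 ≠ 0 := by linarith
        have h7 : (p : ℝ) ≠ 0 := by linarith
        field_simp
        ring
      · linarith
    · rw [mem_Ioc] at hp
      have h4 : (3 : ℝ) ≤ p := by exact_mod_cast (by omega : 3 ≤ p)
      have h5 : 0 < 1 / ((p : ℝ) * (p - 1)) := one_div_pos.2 (mul_pos (by linarith) (by linarith))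
      have h6 : 0 ≤ (if p.Prime then 1 / (p : ℝ) else 0) := by
        split_ifs
        · positivity
        · exact le_rfl
      linarith
  rw [Finset.sum_add_distrib] at h3
  have h4 := Pool.Agent.GBQ.rhl_recip X hX
  have h5 := Pool.Agent.GBQ.rhl_tel X (by omega)
  have h6 : (0 : ℝ) < 1 / X := by positivity
  calc ∏ i : PP w X, (1 + qq i) ≤ Real.exp (∑ i : PP w X, qq i) := h1
    _ ≤ Real.exp (8 + Real.log (Real.log X)) := Real.exp_le_exp.2 (by rw [h2]; linarith)
    _ = Real.exp 8 * Real.log X := by rw [Real.exp_add, Real.exp_log hL]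

theorem XR_tendsto {ρ : ℝ} (hρ : 0 < ρ) : Tendsto (fun N : ℕ => XR ρ N) atTop atTop := by
  unfold XR
  exact tendsto_nat_floor_atTop.comp
    ((tendsto_rpow_atTop hρ).comp tendsto_natCast_atTop_atTop)

theorem mert_ev {ρ : ℝ} (hρ : 0 < ρ) (hρ1 : ρ ≤ 1) {w : ℕ} (hw : 2 ≤ w) :
    ∀ᶠ N : ℕ in atTop, ∏ i : PP w (XR ρ N), (1 + qq i) ≤ Real.exp 8 * Real.log N := by
  filter_upwards [(XR_tendsto hρ).eventually_ge_atTop 3, eventually_ge_atTop 3] with N h1 h2
  refine (mert hw h1).trans ?_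
  have hN : (3 : ℝ) ≤ N := by exact_mod_cast h2
  refine mul_le_mul_of_nonneg_left (Real.log_le_log ?_ ?_) (Real.exp_pos _).le
  · exact_mod_cast (by omega : 0 < XR ρ N)
  · unfold XR
    refine (Nat.floor_le (by positivity)).trans ?_
    calc (N : ℝ) ^ ρ ≤ (N : ℝ) ^ (1 : ℝ) := Real.rpow_le_rpow_of_exponent_le (by linarith) hρ1
      _ = N := Real.rpow_one _

/-! ### Asymptotics -/

theorem log_pow_le (c : ℝ) (k : ℕ) {α : ℝ} (hα : 0 < α) :
    ∀ᶠ N : ℕ in atTop, c * Real.log N ^ k ≤ (N : ℝ) ^ α := by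
  have h1 := (isLittleO_log_rpow_rpow_atTop (k : ℝ) hα).bound
    (c := 1 / (|c| + 1)) (by positivity)
  have h2 := (tendsto_natCast_atTop_atTop (R := ℝ)).eventually h1
  filter_upwards [h2, eventually_ge_atTop 1] with N hN hN1
  have h3 : (1 : ℝ) ≤ N := by exact_mod_cast hN1
  have h4 : 0 ≤ Real.log N := Real.log_nonneg h3
  rw [Real.rpow_natCast, Real.norm_of_nonneg (by positivity),
    Real.norm_of_nonneg (by positivity), one_div, ← div_eq_inv_mul,
    le_div_iff₀ (by positivity)] at hN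
  have h5 : 0 ≤ Real.log N ^ k := by positivity
  nlinarith [le_abs_self c, abs_nonneg c]

theorem AA_nonneg (w N : ℕ) : 0 ≤ AA w N := by
  unfold AA phW
  exact mul_nonneg (by positivity) (Real.log_natCast_nonneg N)

theorem phW_pos1 (w : ℕ) : 0 < phW w := by
  unfold phW
  have h1 : 0 < primorial w := primorial_pos w
  have h2 : 0 < (primorial w).totient := Nat.totient_pos.2 h1
  positivity

theorem AA_tendsto (w : ℕ) : Tendsto (fun N : ℕ => AA w N) atTop atTop := by
  unfold AA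
  exact Tendsto.const_mul_atTop (phW_pos1 w)
    (Real.tendsto_log_atTop.comp tendsto_natCast_atTop_atTop)

end Pool.Agent.PT
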