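import Pool.Agent.PT.Stmts
import Pool.Agent.MT.Wt

set_option autoImplicit false

/-!
# PT / Z1

The sum of the weight over the integers is `N ∫ η + O(1)`, and the integral is positive.
-/

namespace Pool.Agent.PT

open Finset Filter Pool.Agent.MT

/-- Riemann sum of the weight -/
private theorem z1_riemann (η : ℝ → ℝ) (hη : IsWt η) : ∃ C : ℝ, 0 < C ∧ ∀ N : ℕ, 1 ≤ N →
    |Z1 η N - N * ∫ t in (0 : ℝ)..1, η t| ≤ C := by
  obtain ⟨C, hC, hL⟩ := wt_lipschitz η hη
  refine ⟨C, hC, fun N hN => ?_⟩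
  have hNR : (0 : ℝ) < N := by exact_mod_cast hN
  have hcont : Continuous fun x : ℝ => η (x / N) :=
    hη.smooth.continuous.comp (continuous_id.div_const _)
  have h1 : (N : ℝ) * ∫ t in (0 : ℝ)..1, η t = ∫ x in (0 : ℝ)..N, η (x / N) := by
    rw [intervalIntegral.integral_comp_div (fun x => η x) hNR.ne']
    rw [smul_eq_mul, zero_div, div_self hNR.ne']
  have h2 : ∫ x in (0 : ℝ)..N, η (x / N) =
      ∑ n ∈ range N, ∫ x in (n : ℝ)..((n + 1 : ℕ) : ℝ), η (x / N) := by
    have := intervalIntegral.sum_integral_adjacent_intervals (f := fun x : ℝ => η (x / N))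
      (a := fun n : ℕ => (n : ℝ)) (n := N) (μ := MeasureTheory.volume)
      (fun k _ => hcont.intervalIntegrable _ _)
    rw [this]
    simp
  have h3 : Z1 η N = ∑ n ∈ range N, η ((n : ℝ) / N) := by
    unfold Z1
    rw [Finset.sum_range_succ, div_self hNR.ne', wt_zero_of_large η hη 1 (by norm_num), add_zero]
  rw [h1, h2, h3, ← Finset.sum_sub_distrib]
  refine (Finset.abs_sum_le_sum_abs _ _).trans ?_
  have h4 : ∀ n ∈ range N, |η ((n : ℝ) / N) - ∫ x in (n : ℝ)..((n + 1 : ℕ) : ℝ), η (x / N)| ≤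
      C / N := by
    intro n _
    have h5 : η ((n : ℝ) / N) = ∫ _x in (n : ℝ)..((n + 1 : ℕ) : ℝ), η ((n : ℝ) / N) := by
      rw [intervalIntegral.integral_const]
      push_cast
      simp
    rw [h5, ← intervalIntegral.integral_sub (by simp) (hcont.intervalIntegrable _ _)]
    have h6 := intervalIntegral.norm_integral_le_of_norm_le_const (a := (n : ℝ))
      (b := ((n + 1 : ℕ) : ℝ)) (C := C / N)
      (f := fun x => η ((n : ℝ) / N) - η (x / N)) (fun x hx => by
        rw [Set.uIoc_of_le (by push_cast; linarith)] at hx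
        obtain ⟨hx1, hx2⟩ := hx
        push_cast at hx2
        rw [Real.norm_eq_abs]
        refine (hL _ _).trans ?_
        rw [← sub_div, abs_div, abs_of_pos hNR, mul_div_assoc']
        gcongr
        have : |(n : ℝ) - x| ≤ 1 := by
          rw [abs_le]
          constructor <;> linarith
        nlinarith)
    rw [Real.norm_eq_abs] at h6
    refine h6.trans (le_of_eq ?_)
    push_cast
    simp
  refine (Finset.sum_le_sum h4).trans (le_of_eq ?_)
  rw [Finset.sum_const, card_range, nsmul_eq_mul]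
  field_simp


private theorem z1_pos (η : ℝ → ℝ) (hη : IsWt η) : 0 < ∫ t in (0 : ℝ)..1, η t := by
  have hcont : Continuous η := hη.smooth.continuous
  have hi : ∀ a b : ℝ, IntervalIntegrable η MeasureTheory.volume a b :=
    fun a b => hcont.intervalIntegrable a b
  have h1 : ∫ t in (0 : ℝ)..1, η t = (∫ t in (0 : ℝ)..(1 / 4), η t) +
      (∫ t in (1 / 4 : ℝ)..(3 / 4), η t) + ∫ t in (3 / 4 : ℝ)..1, η t := by
    rw [intervalIntegral.integral_add_adjacent_intervals (hi _ _) (hi _ _),
      intervalIntegral.integral_add_adjacent_intervals (hi _ _) (hi _ _)]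
  have h2 : 0 ≤ ∫ t in (0 : ℝ)..(1 / 4), η t :=
    intervalIntegral.integral_nonneg (by norm_num) fun t _ => hη.nonneg t
  have h3 : 0 ≤ ∫ t in (3 / 4 : ℝ)..1, η t :=
    intervalIntegral.integral_nonneg (by norm_num) fun t _ => hη.nonneg t
  have h4 : ∫ t in (1 / 4 : ℝ)..(3 / 4), η t = ∫ _t in (1 / 4 : ℝ)..(3 / 4), (1 : ℝ) := by
    apply intervalIntegral.integral_congr
    intro t ht
    rw [Set.uIcc_of_le (by norm_num)] at ht
    exact hη.one t ht.1 ht.2
  rw [h1, h4, intervalIntegral.integral_const]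
  norm_num
  linarith

theorem thm_Z1 : St_Z1 := by
  intro η hη
  exact ⟨z1_pos η hη, z1_riemann η hη⟩

end Pool.Agent.PT
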