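import Pool.Agent.PT.StD

set_option autoImplicit false

/-!
# PT / SQ

Module of the density block of PT (see the docstring of the statement in `PT/StD.lean`).
-/

namespace Pool.Agent.PT

open Finset Filter Pool.Agent.MT MeasureTheory

private theorem sq_tel (w : ℕ) (hw : 2 ≤ w) (X : ℕ) (hX : w ≤ X) :
    ∑ p ∈ Ioc w X, (1 / ((p : ℝ) - 1)) ^ 2 ≤ 1 / ((w : ℝ) - 1) - 1 / ((X : ℝ) - 1) := by
  induction X, hX using Nat.le_induction with
  | base => simp
  | succ M hM ih =>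
    rw [Finset.sum_Ioc_succ_top (by omega)]
    have hM2 : (2 : ℝ) ≤ M := by exact_mod_cast hw.trans hM
    have h1 : (1 / (((M + 1 : ℕ) : ℝ) - 1)) ^ 2 ≤ 1 / ((M : ℝ) - 1) - 1 / (((M + 1 : ℕ) : ℝ) - 1) := by
      push_cast
      rw [add_sub_cancel_right, div_pow, one_pow,
        div_sub_div _ _ (by linarith) (by linarith), div_le_div_iff₀ (by positivity)
        (mul_pos (by linarith) (by linarith))]
      nlinarith
    linarith

theorem thm_SQ : St_SQ := by
  intro w X hw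
  have hw2 : (2 : ℝ) ≤ w := by exact_mod_cast hw
  have h1 : ∑ i : PP w X, qq i ^ 2 = ∑ p ∈ (Ioc w X).filter Nat.Prime, (1 / ((p : ℝ) - 1)) ^ 2 :=
    Finset.sum_coe_sort ((Ioc w X).filter Nat.Prime) (fun p : ℕ => (1 / ((p : ℝ) - 1)) ^ 2)
  rw [h1]
  have h2 : ∑ p ∈ (Ioc w X).filter Nat.Prime, (1 / ((p : ℝ) - 1)) ^ 2 ≤
      ∑ p ∈ Ioc w X, (1 / ((p : ℝ) - 1)) ^ 2 :=
    Finset.sum_le_sum_of_subset_of_nonneg (Finset.filter_subset _ _) fun p _ _ => sq_nonneg _
  have h3 : 1 / ((w : ℝ) - 1) ≤ 2 / (w : ℝ) := by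
    rw [div_le_div_iff₀ (by linarith) (by linarith)]
    linarith
  rcases le_or_gt w X with h | h
  · have h4 := sq_tel w hw X h
    have hX2 : (w : ℝ) ≤ X := by exact_mod_cast h
    have h5 : 0 ≤ 1 / ((X : ℝ) - 1) := div_nonneg zero_le_one (by linarith)
    linarith
  · rw [Finset.Ioc_eq_empty (by omega)]
    simp only [Finset.filter_empty, Finset.sum_empty]
    positivity

end Pool.Agent.PT
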