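import Pool.Agent.PT.StD
import Pool.Agent.MT.Phi

set_option autoImplicit false

/-!
# PT / DG

Module of the density block of PT (see the docstring of the statement in `PT/StD.lean`).
-/

namespace Pool.Agent.PT

open Finset Filter Pool.Agent.MT MeasureTheory

/-- the `n ≤ N` all of whose prime factors are in `S` -/
private def phF (S : Finset ℕ) (N : ℕ) : Finset ℕ :=
  (Icc 1 N).filter (fun n => n.primeFactors ⊆ S)

private noncomputable def phQ (S : Finset ℕ) (N : ℕ) : ℝ :=
  ∑ e ∈ S.powerset.filter (fun e => ∏ p ∈ e, p ≤ N), ∏ p ∈ e, 1 / ((p : ℝ) - 1)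

private theorem ph_split {S : Finset ℕ} {p : ℕ} (hp : p.Prime) (N : ℕ) :
    ∑ n ∈ phF (insert p S) N, 1 / (n : ℝ) ≤
      ∑ k ∈ range (N + 1), (1 / (p : ℝ)) ^ k * ∑ n ∈ phF S (N / p ^ k), 1 / (n : ℝ) := by
  have hmaps : ∀ n ∈ phF (insert p S) N, n.factorization p ∈ range (N + 1) := by
    intro n hn
    rw [phF, mem_filter, mem_Icc] at hn
    have := Nat.factorization_lt p (by omega : n ≠ 0)
    rw [mem_range]
    omega
  rw [← Finset.sum_fiberwise_of_maps_to hmaps]
  refine Finset.sum_le_sum fun k _ => ?_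
  have hpk : 0 < p ^ k := pow_pos hp.pos k
  have hsub : (phF (insert p S) N).filter (fun n => n.factorization p = k) ⊆
      (phF S (N / p ^ k)).image (fun m => p ^ k * m) := by
    intro n hn
    rw [mem_filter, phF, mem_filter, mem_Icc] at hn
    obtain ⟨⟨⟨h1, h2⟩, h3⟩, h4⟩ := hn
    have hn0 : n ≠ 0 := by omega
    rw [mem_image]
    refine ⟨n / p ^ n.factorization p, ?_, ?_⟩
    · rw [phF, mem_filter, mem_Icc]
      refine ⟨⟨Nat.ordCompl_pos p hn0, ?_⟩, ?_⟩
      · rw [h4]
        exact Nat.div_le_div_right h2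
      · intro q hq
        have hq1 := Nat.prime_of_mem_primeFactors hq
        have hq2 := Nat.dvd_of_mem_primeFactors hq
        have hq3 : q ∣ n := hq2.trans (Nat.ordCompl_dvd n p)
        have hq4 := h3 (Nat.mem_primeFactors.2 ⟨hq1, hq3, hn0⟩)
        rw [mem_insert] at hq4
        rcases hq4 with rfl | hq4
        · exact absurd hq2 (Nat.not_dvd_ordCompl hq1 hn0)
        · exact hq4
    · rw [← h4]
      exact Nat.ordProj_mul_ordCompl_eq_self n p
  calc ∑ n ∈ (phF (insert p S) N).filter (fun n => n.factorization p = k), 1 / (n : ℝ)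
      ≤ ∑ n ∈ (phF S (N / p ^ k)).image (fun m => p ^ k * m), 1 / (n : ℝ) :=
        Finset.sum_le_sum_of_subset_of_nonneg hsub (fun _ _ _ => by positivity)
    _ = ∑ m ∈ phF S (N / p ^ k), 1 / ((p ^ k * m : ℕ) : ℝ) := by
        refine Finset.sum_image ?_
        intro a _ b _ hab
        exact Nat.eq_of_mul_eq_mul_left hpk hab
    _ = (1 / (p : ℝ)) ^ k * ∑ n ∈ phF S (N / p ^ k), 1 / (n : ℝ) := by
        rw [Finset.mul_sum]
        refine Finset.sum_congr rfl fun m _ => ?_
        push_cast
        rw [one_div_pow, one_div_mul_one_div]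

private theorem ph_term_nonneg {S : Finset ℕ} (hS : ∀ p ∈ S, p.Prime) :
    ∀ e ∈ S.powerset, (0 : ℝ) ≤ ∏ p ∈ e, 1 / ((p : ℝ) - 1) := by
  intro e he
  refine Finset.prod_nonneg fun p hp => ?_
  have h1 : (1 : ℝ) ≤ p := by exact_mod_cast (hS p (mem_powerset.1 he hp)).one_lt.le
  exact one_div_nonneg.2 (by linarith)

private theorem phQ_nonneg {S : Finset ℕ} (hS : ∀ p ∈ S, p.Prime) (N : ℕ) : 0 ≤ phQ S N :=
  Finset.sum_nonneg fun e he => ph_term_nonneg hS e (mem_filter.1 he).1

private theorem phQ_mono {S : Finset ℕ} (hS : ∀ p ∈ S, p.Prime) {N N' : ℕ} (h : N ≤ N') :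
    phQ S N ≤ phQ S N' := by
  refine Finset.sum_le_sum_of_subset_of_nonneg ?_ ?_
  · intro e he
    rw [mem_filter] at he ⊢
    exact ⟨he.1, he.2.trans h⟩
  · intro e he _
    exact ph_term_nonneg hS e (mem_filter.1 he).1

private theorem phQ_insert {S : Finset ℕ} {p : ℕ} (hp : p.Prime) (hpS : p ∉ S) (N : ℕ) :
    phQ (insert p S) N = phQ S N + 1 / ((p : ℝ) - 1) * phQ S (N / p) := by
  unfold phQ
  rw [Finset.sum_filter, Finset.sum_powerset_insert hpS, Finset.sum_filter, Finset.sum_filter,
    Finset.mul_sum]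
  congr 1
  refine Finset.sum_congr rfl fun e he => ?_
  have hpe : p ∉ e := fun h => hpS (mem_powerset.1 he h)
  rw [Finset.prod_insert hpe, Finset.prod_insert hpe]
  have hiff : p * ∏ x ∈ e, x ≤ N ↔ ∏ x ∈ e, x ≤ N / p := by
    rw [Nat.le_div_iff_mul_le hp.pos, mul_comm]
  by_cases h : ∏ x ∈ e, x ≤ N / p
  · rw [if_pos (hiff.2 h), if_pos h]
  · rw [if_neg (fun h' => h (hiff.1 h')), if_neg h, mul_zero]

private theorem ph_geom {p : ℕ} (hp : p.Prime) (M : ℕ) :
    ∑ k ∈ range M, (1 / (p : ℝ)) ^ k ≤ (1 - 1 / (p : ℝ))⁻¹ := by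
  have h2 : (2 : ℝ) ≤ p := by exact_mod_cast hp.two_le
  have h0 : (0 : ℝ) ≤ 1 / (p : ℝ) := by positivity
  have h1 : 1 / (p : ℝ) < 1 := by
    rw [div_lt_one (by linarith)]; linarith
  rw [← tsum_geometric_of_lt_one h0 h1]
  exact (summable_geometric_of_lt_one h0 h1).sum_le_tsum _ (fun _ _ => pow_nonneg h0 _)

private theorem ph_lemA (S : Finset ℕ) (hS : ∀ p ∈ S, p.Prime) (N : ℕ) :
    ∑ n ∈ phF S N, 1 / (n : ℝ) ≤ phQ S N := by
  induction S using Finset.induction_on generalizing N with
  | empty =>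
    rcases Nat.eq_zero_or_pos N with rfl | hN
    · have h0 : phF ∅ 0 = ∅ := by simp [phF]
      rw [h0, Finset.sum_empty]
      exact phQ_nonneg hS 0
    · have h1 : phF ∅ N ⊆ {1} := by
        intro n hn
        rw [phF, mem_filter, mem_Icc, Finset.subset_empty, Nat.primeFactors_eq_empty] at hn
        rw [mem_singleton]
        omega
      have h2 : phQ ∅ N = 1 := by
        have : ((∅ : Finset ℕ).powerset.filter (fun e => ∏ p ∈ e, p ≤ N)) = {∅} := by
          rw [Finset.powerset_empty, Finset.filter_singleton, Finset.prod_empty,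
            if_pos (show 1 ≤ N from hN)]
        rw [phQ, this]
        simp
      rw [h2]
      calc ∑ n ∈ phF ∅ N, 1 / (n : ℝ) ≤ ∑ n ∈ ({1} : Finset ℕ), 1 / (n : ℝ) :=
            Finset.sum_le_sum_of_subset_of_nonneg h1 (fun _ _ _ => by positivity)
        _ = 1 := by simp
  | insert p S hpS ih =>
    have hp : p.Prime := hS p (mem_insert_self p S)
    have hS' : ∀ q ∈ S, q.Prime := fun q hq => hS q (mem_insert_of_mem hq)
    have h2 : (2 : ℝ) ≤ p := by exact_mod_cast hp.two_le
    refine (ph_split hp N).trans ?_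
    rw [Finset.sum_range_succ', phQ_insert hp hpS]
    have e0 : (1 / (p : ℝ)) ^ 0 * ∑ n ∈ phF S (N / p ^ 0), 1 / (n : ℝ) ≤ phQ S N := by
      rw [pow_zero, one_mul, pow_zero, Nat.div_one]
      exact ih hS' N
    have e1 : ∑ k ∈ range N, (1 / (p : ℝ)) ^ (k + 1) * ∑ n ∈ phF S (N / p ^ (k + 1)), 1 / (n : ℝ)
        ≤ 1 / ((p : ℝ) - 1) * phQ S (N / p) := by
      calc ∑ k ∈ range N, (1 / (p : ℝ)) ^ (k + 1) * ∑ n ∈ phF S (N / p ^ (k + 1)), 1 / (n : ℝ)
          ≤ ∑ k ∈ range N, (1 / (p : ℝ)) ^ (k + 1) * phQ S (N / p) := by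
            refine Finset.sum_le_sum fun k _ => ?_
            refine mul_le_mul_of_nonneg_left ?_ (by positivity)
            refine (ih hS' _).trans (phQ_mono hS' ?_)
            refine Nat.div_le_div_left ?_ hp.pos
            calc p = p ^ 1 := (pow_one p).symm
              _ ≤ p ^ (k + 1) := Nat.pow_le_pow_right hp.pos (by omega)
        _ = (1 / (p : ℝ) * ∑ k ∈ range N, (1 / (p : ℝ)) ^ k) * phQ S (N / p) := by
            rw [← Finset.sum_mul, Finset.mul_sum]
            congr 1
            exact Finset.sum_congr rfl fun k _ => by rw [pow_succ, mul_comm]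
        _ ≤ (1 / ((p : ℝ) - 1)) * phQ S (N / p) := by
            refine mul_le_mul_of_nonneg_right ?_ (phQ_nonneg hS' _)
            calc 1 / (p : ℝ) * ∑ k ∈ range N, (1 / (p : ℝ)) ^ k
                ≤ 1 / (p : ℝ) * (1 - 1 / (p : ℝ))⁻¹ :=
                  mul_le_mul_of_nonneg_left (ph_geom hp N) (by positivity)
              _ = 1 / ((p : ℝ) - 1) := by
                  have h3 : (p : ℝ) ≠ 0 := by linarith
                  have h4 : (p : ℝ) - 1 ≠ 0 := by linarith
                  field_simp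
    linarith

private theorem ph_lemB (S2 : Finset ℕ) (h2 : ∀ p ∈ S2, p.Prime) (S1 : Finset ℕ)
    (h1 : ∀ p ∈ S1, p.Prime) (N : ℕ) :
    ∑ n ∈ phF (S1 ∪ S2) N, 1 / (n : ℝ) ≤ (∏ p ∈ S1, (1 - 1 / (p : ℝ))⁻¹) * phQ S2 N := by
  induction S1 using Finset.induction_on generalizing N with
  | empty =>
    rw [Finset.empty_union, Finset.prod_empty, one_mul]
    exact ph_lemA S2 h2 N
  | insert p S hpS ih =>
    have hp : p.Prime := h1 p (mem_insert_self p S)
    have hS' : ∀ q ∈ S, q.Prime := fun q hq => h1 q (mem_insert_of_mem hq)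
    have hprod : (0 : ℝ) ≤ ∏ p ∈ S, (1 - 1 / (p : ℝ))⁻¹ := by
      refine Finset.prod_nonneg fun q hq => inv_nonneg.2 ?_
      have : (2 : ℝ) ≤ q := by exact_mod_cast (hS' q hq).two_le
      rw [sub_nonneg, div_le_one (by linarith)]
      linarith
    rw [Finset.insert_union]
    refine (ph_split hp N).trans ?_
    calc ∑ k ∈ range (N + 1), (1 / (p : ℝ)) ^ k * ∑ n ∈ phF (S ∪ S2) (N / p ^ k), 1 / (n : ℝ)
        ≤ ∑ k ∈ range (N + 1), (1 / (p : ℝ)) ^ k *
            ((∏ p ∈ S, (1 - 1 / (p : ℝ))⁻¹) * phQ S2 N) := by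
          refine Finset.sum_le_sum fun k _ => ?_
          refine mul_le_mul_of_nonneg_left ((ih hS' _).trans ?_) (by positivity)
          exact mul_le_mul_of_nonneg_left (phQ_mono h2 (Nat.div_le_self _ _)) hprod
      _ = (∑ k ∈ range (N + 1), (1 / (p : ℝ)) ^ k) *
            ((∏ p ∈ S, (1 - 1 / (p : ℝ))⁻¹) * phQ S2 N) := by rw [Finset.sum_mul]
      _ ≤ (1 - 1 / (p : ℝ))⁻¹ * ((∏ p ∈ S, (1 - 1 / (p : ℝ))⁻¹) * phQ S2 N) :=
          mul_le_mul_of_nonneg_right (ph_geom hp _) (mul_nonneg hprod (phQ_nonneg h2 N))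
      _ = (∏ p ∈ insert p S, (1 - 1 / (p : ℝ))⁻¹) * phQ S2 N := by
          rw [Finset.prod_insert hpS]; ring

private theorem phW_eq (w : ℕ) :
    phW w = ∏ p ∈ (range (w + 1)).filter Nat.Prime, (1 - 1 / (p : ℝ)) := by
  have hW : ((primorial w : ℕ) : ℝ) ≠ 0 := by exact_mod_cast primorial_ne_zero w
  have h1 := Nat.totient_eq_mul_prod_factors (primorial w)
  have h2 : (((primorial w).totient : ℚ) : ℝ) =
      ((((primorial w : ℕ) : ℚ) * ∏ p ∈ (primorial w).primeFactors, (1 - (p : ℚ)⁻¹) : ℚ) : ℝ) := by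
    rw [h1]
  push_cast at h2
  have h3 : (primorial w).primeFactors = (range (w + 1)).filter Nat.Prime := by
    rw [primorial]
    exact Nat.primeFactors_prod fun p hp => (mem_filter.1 hp).2
  rw [phW, h2, h3, mul_div_cancel_left₀ _ hW]
  exact Finset.prod_congr rfl fun p _ => by rw [one_div]

private theorem phW_pos (w : ℕ) : 0 < phW w := by
  rw [phW]
  have h1 : 0 < primorial w := primorial_pos w
  have h2 : 0 < (primorial w).totient := Nat.totient_pos.2 h1
  positivity

private theorem ph_harm (N : ℕ) (S : Finset ℕ) (hS : ∀ p : ℕ, p.Prime → p ≤ N → p ∈ S) :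
    Real.log ((N : ℝ) + 1) ≤ ∑ n ∈ phF S N, 1 / (n : ℝ) := by
  have h1 : phF S N = Icc 1 N := by
    rw [phF, Finset.filter_eq_self]
    intro n hn q hq
    rw [mem_Icc] at hn
    exact hS q (Nat.prime_of_mem_primeFactors hq)
      ((Nat.le_of_mem_primeFactors hq).trans hn.2)
  rw [h1]
  have h := log_add_one_le_harmonic N
  rw [harmonic_eq_sum_Icc] at h
  push_cast at h
  refine h.trans (le_of_eq ?_)
  exact Finset.sum_congr rfl fun n _ => by rw [one_div]

/-- blocks of length `W` -/
private theorem ph_blocks (W : ℕ) (hW : 0 < W) (K : ℕ) :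
    ∑ n ∈ (range (W * (K + 1))).filter (fun n => W.Coprime n), 1 / (n : ℝ) ≤
      W + (W.totient : ℝ) / W * (harmonic K : ℝ) := by
  have hWr : (0 : ℝ) < W := by exact_mod_cast hW
  induction K with
  | zero =>
    rw [harmonic_zero]
    calc ∑ n ∈ (range (W * (0 + 1))).filter (fun n => W.Coprime n), 1 / (n : ℝ)
        ≤ ∑ n ∈ range (W * (0 + 1)), 1 / (n : ℝ) :=
          Finset.sum_le_sum_of_subset_of_nonneg (Finset.filter_subset _ _)
            (fun _ _ _ => by positivity)
      _ ≤ ∑ n ∈ range (W * (0 + 1)), (1 : ℝ) := by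
          refine Finset.sum_le_sum fun n _ => ?_
          rcases Nat.eq_zero_or_pos n with rfl | hn
          · simp
          · rw [div_le_one (by exact_mod_cast hn)]
            exact_mod_cast hn
      _ = W + (W.totient : ℝ) / W * ((0 : ℚ) : ℝ) := by simp
  | succ K ih =>
    have hsplit : (range (W * (K + 1 + 1))).filter (fun n => W.Coprime n) =
        (range (W * (K + 1))).filter (fun n => W.Coprime n) ∪
          (Ico (W * (K + 1)) (W * (K + 1) + W)).filter (fun n => W.Coprime n) := by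
      rw [← Finset.filter_union, Finset.range_eq_Ico, Finset.range_eq_Ico,
        Finset.Ico_union_Ico_eq_Ico (Nat.zero_le _) (by omega)]
      congr 2
    have hdisj : Disjoint ((range (W * (K + 1))).filter (fun n => W.Coprime n))
        ((Ico (W * (K + 1)) (W * (K + 1) + W)).filter (fun n => W.Coprime n)) := by
      rw [Finset.disjoint_left]
      intro n h1 h2
      rw [mem_filter, mem_range] at h1
      rw [mem_filter, mem_Ico] at h2
      omega
    rw [hsplit, Finset.sum_union hdisj, harmonic_succ]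
    have hb : ∑ n ∈ (Ico (W * (K + 1)) (W * (K + 1) + W)).filter (fun n => W.Coprime n),
        1 / (n : ℝ) ≤ (W.totient : ℝ) / W * (1 / ((K : ℝ) + 1)) := by
      calc ∑ n ∈ (Ico (W * (K + 1)) (W * (K + 1) + W)).filter (fun n => W.Coprime n),
            1 / (n : ℝ)
          ≤ ∑ n ∈ (Ico (W * (K + 1)) (W * (K + 1) + W)).filter (fun n => W.Coprime n),
            1 / ((W : ℝ) * (K + 1)) := by
            refine Finset.sum_le_sum fun n hn => ?_
            rw [mem_filter, mem_Ico] at hn
            refine one_div_le_one_div_of_le (by positivity) ?_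
            exact_mod_cast hn.1.1
        _ = (W.totient : ℝ) / W * (1 / ((K : ℝ) + 1)) := by
            rw [Finset.sum_const, Nat.filter_coprime_Ico_eq_totient, nsmul_eq_mul]
            field_simp
    push_cast
    have h3 : (W.totient : ℝ) / W * ((harmonic K : ℝ) + ((K : ℝ) + 1)⁻¹) =
        (W.totient : ℝ) / W * (harmonic K : ℝ) + (W.totient : ℝ) / W * (1 / ((K : ℝ) + 1)) := by
      rw [one_div]; ring
    rw [h3]
    linarith

private theorem ph_coprime_sum (W : ℕ) (hW : 0 < W) (N : ℕ) (t : ℝ) (ht : 0 ≤ t)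
    (hN : (N : ℝ) ≤ Real.exp t) :
    ∑ n ∈ (Icc 1 N).filter (fun n => W.Coprime n), 1 / (n : ℝ) ≤
      W + (W.totient : ℝ) / W * (1 + t) := by
  have hsub : (Icc 1 N).filter (fun n => W.Coprime n) ⊆
      (range (W * (N / W + 1))).filter (fun n => W.Coprime n) := by
    intro n hn
    rw [mem_filter, mem_Icc] at hn
    rw [mem_filter, mem_range]
    refine ⟨?_, hn.2⟩
    have := Nat.lt_mul_div_succ N hW
    omega
  refine (Finset.sum_le_sum_of_subset_of_nonneg hsub (fun _ _ _ => by positivity)).trans ?_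
  refine (ph_blocks W hW (N / W)).trans ?_
  have h1 : (harmonic (N / W) : ℝ) ≤ 1 + t := by
    refine (harmonic_le_one_add_log (N / W)).trans ?_
    rcases Nat.eq_zero_or_pos (N / W) with h0 | h0
    · rw [h0]; simp [ht]
    · have h2 : ((N / W : ℕ) : ℝ) ≤ Real.exp t := by
        refine le_trans ?_ hN
        exact_mod_cast Nat.div_le_self N W
      have h3 : Real.log ((N / W : ℕ) : ℝ) ≤ t := by
        rw [Real.log_le_iff_le_exp (by exact_mod_cast h0)]
        exact h2
      linarith
  have h4 : (0 : ℝ) ≤ (W.totient : ℝ) / W := by positivity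
  have := mul_le_mul_of_nonneg_left h1 h4
  linarith

/-- the telescoping sum `∑ 1/(p (p-1)) ≤ 1/w` over distinct integers `> w` -/
private theorem dg_tel (w : ℕ) (hw : 1 ≤ w) (S : Finset ℕ) (hS : ∀ p ∈ S, w < p) :
    ∑ p ∈ S, 1 / ((p : ℝ) * ((p : ℝ) - 1)) ≤ 1 / (w : ℝ) := by
  have h1 : ∀ M : ℕ, w ≤ M →
      ∑ p ∈ Ioc w M, 1 / ((p : ℝ) * ((p : ℝ) - 1)) = 1 / (w : ℝ) - 1 / (M : ℝ) := by
    intro M hM
    induction M, hM using Nat.le_induction with
    | base => simp
    | succ M hM ih =>
      rw [Finset.sum_Ioc_succ_top (by omega), ih]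
      have hM0 : (M : ℝ) ≠ 0 := by
        have : M ≠ 0 := by omega
        exact_mod_cast this
      push_cast
      have h2 : (M : ℝ) + 1 ≠ 0 := by positivity
      have h3 : (M : ℝ) + 1 - 1 ≠ 0 := by simpa using hM0
      have h4 : (w : ℝ) ≠ 0 := by
        have : w ≠ 0 := by omega
        exact_mod_cast this
      field_simp
      ring
  set M := max w (S.sup id) with hM
  have hsub : S ⊆ Ioc w M := by
    intro p hp
    rw [mem_Ioc]
    refine ⟨hS p hp, ?_⟩
    have : p ≤ S.sup id := Finset.le_sup (f := id) hp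
    omega
  refine (Finset.sum_le_sum_of_subset_of_nonneg hsub ?_).trans ?_
  · intro p hp _
    rw [mem_Ioc] at hp
    have : (1 : ℝ) ≤ p := by exact_mod_cast (by omega : 1 ≤ p)
    exact one_div_nonneg.2 (mul_nonneg (by linarith) (by linarith))
  · rw [h1 M (le_max_left _ _)]
    have : (0 : ℝ) ≤ 1 / (M : ℝ) := by positivity
    linarith

private theorem dg_pr {w X : ℕ} (i : PP w X) : w < pr i ∧ pr i ≤ X ∧ (pr i).Prime := by
  have h := i.2
  rw [mem_filter, mem_Ioc] at h
  exact ⟨h.1.1, h.1.2, h.2⟩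

private theorem dg_inj {w X : ℕ} : Function.Injective (pr : PP w X → ℕ) := Subtype.val_injective

open Classical in
private noncomputable def dgG (w X : ℕ) (T : ℝ) : ℝ :=
  ∑ e : Finset (PP w X), if ∑ i ∈ e, Real.log (pr i) ≤ T then ∏ i ∈ e, qq i else 0

/-- the condition on the logarithms -/
private theorem dg_iff {w X : ℕ} (T : ℝ) (e : Finset (PP w X)) :
    ∑ i ∈ e, Real.log (pr i) ≤ T ↔ ∏ i ∈ e, pr i ≤ ⌊Real.exp T⌋₊ := by
  have hpos : 0 < ∏ i ∈ e, pr i := Finset.prod_pos fun i _ => (dg_pr i).2.2.pos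
  have h1 : ∑ i ∈ e, Real.log (pr i) = Real.log ((∏ i ∈ e, pr i : ℕ) : ℝ) := by
    push_cast
    rw [Real.log_prod]
    intro i _
    exact_mod_cast (dg_pr i).2.2.ne_zero
  rw [h1, Real.log_le_iff_le_exp (by exact_mod_cast hpos), Nat.le_floor_iff (Real.exp_pos T).le]

/-- lower bound -/
private theorem dg_lower {w X : ℕ} (T : ℝ) (hX : ⌊Real.exp T⌋₊ ≤ X) : phW w * T ≤ dgG w X T := by
  classical
  set n : ℕ := ⌊Real.exp T⌋₊ with hn
  have hNlt : Real.exp T < n + 1 := Nat.lt_floor_add_one _
  have hlog : T ≤ Real.log ((n : ℝ) + 1) := by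
    rw [Real.le_log_iff_exp_le (by positivity)]
    exact hNlt.le
  set S1 : Finset ℕ := (range (w + 1)).filter Nat.Prime with hS1
  set S2 : Finset ℕ := (Finset.Ioc w X).filter Nat.Prime with hS2
  have hS1p : ∀ p ∈ S1, p.Prime := fun p hp => (mem_filter.1 hp).2
  have hS2p : ∀ p ∈ S2, p.Prime := fun p hp => (mem_filter.1 hp).2
  have hcov : ∀ p : ℕ, p.Prime → p ≤ n → p ∈ S1 ∪ S2 := by
    intro p hpp hpN
    rw [mem_union, hS1, hS2, mem_filter, mem_filter, mem_range, mem_Ioc]
    by_cases h1 : p < w + 1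
    · exact Or.inl ⟨h1, hpp⟩
    · exact Or.inr ⟨⟨by omega, by omega⟩, hpp⟩
  have hmain := (hlog.trans (ph_harm n _ hcov)).trans (ph_lemB S2 hS2p S1 hS1p n)
  have hprod : ∏ p ∈ S1, (1 - 1 / (p : ℝ))⁻¹ = (phW w)⁻¹ := by
    rw [phW_eq, ← Finset.prod_inv_distrib]
  rw [hprod] at hmain
  have hG : phQ S2 n = dgG w X T := by
    unfold phQ dgG
    rw [← Finset.sum_filter]
    symm
    refine Finset.sum_bij (fun (e : Finset (PP w X)) _ => e.image pr) ?_ ?_ ?_ ?_
    · intro e he
      rw [mem_filter, dg_iff] at he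
      rw [mem_filter, mem_powerset, Finset.prod_image fun x _ y _ h => dg_inj h]
      refine ⟨?_, he.2⟩
      intro p hp
      obtain ⟨i, _, rfl⟩ := mem_image.1 hp
      exact i.2
    · intro a _ b _ hab
      exact Finset.image_injective dg_inj hab
    · intro s hs
      rw [mem_filter, mem_powerset] at hs
      have h1 : (univ.filter fun i : PP w X => pr i ∈ s).image pr = s := by
        ext p
        rw [mem_image]
        constructor
        · rintro ⟨i, hi, rfl⟩
          exact (mem_filter.1 hi).2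
        · intro hp
          exact ⟨⟨p, hs.1 hp⟩, mem_filter.2 ⟨mem_univ _, hp⟩, rfl⟩
      refine ⟨univ.filter fun i : PP w X => pr i ∈ s, ?_, h1⟩
      rw [mem_filter, dg_iff]
      refine ⟨mem_univ _, ?_⟩
      have h2 := Finset.prod_image (s := univ.filter fun i : PP w X => pr i ∈ s) (g := pr)
        (f := fun p : ℕ => p) fun x _ y _ h => dg_inj h
      rw [h1] at h2
      rw [← h2]
      exact hs.2
    · intro e _
      rw [Finset.prod_image fun x _ y _ h => dg_inj h]
      rfl
  rw [← hG]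
  have hp := phW_pos w
  have h1 := mul_le_mul_of_nonneg_left hmain hp.le
  rw [← mul_assoc, mul_inv_cancel₀ hp.ne', one_mul] at h1
  exact h1

/-- upper bound -/
private theorem dg_upper {w X : ℕ} (hw : 2 ≤ w) (T : ℝ) (hT : 0 ≤ T) :
    dgG w X T ≤ Real.exp (1 / (w : ℝ)) * ((primorial w : ℝ) + phW w * (1 + T)) := by
  classical
  set W : ℕ := primorial w with hWdef
  have hW : 0 < W := primorial_pos w
  have hphW := phW_pos w
  have hpr3 : ∀ i : PP w X, 3 ≤ pr i := fun i => by have := (dg_pr i).1; omega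
  have hpr3r : ∀ i : PP w X, (3 : ℝ) ≤ pr i := fun i => by exact_mod_cast hpr3 i
  set nn : Finset (PP w X) → ℕ := fun e => ∏ i ∈ e, pr i with hnn
  have hnnpos : ∀ e, 0 < nn e := fun e => Finset.prod_pos fun i _ => (dg_pr i).2.2.pos
  have hqq : ∀ i : PP w X, 0 ≤ qq i := by
    intro i
    unfold qq
    exact one_div_nonneg.2 (by linarith [hpr3r i])
  set N : ℕ := ⌊Real.exp T⌋₊ with hN
  have hNle : (N : ℝ) ≤ Real.exp T := Nat.floor_le (Real.exp_pos T).le
  -- the sum of the reciprocals
  set R : ℝ := ∑ e ∈ (univ : Finset (Finset (PP w X))).filter (fun e => nn e ≤ N),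
    1 / (nn e : ℝ) with hR
  have hRle : R ≤ W + phW w * (1 + T) := by
    have hinjn : Set.InjOn nn ((univ : Finset (Finset (PP w X))).filter (fun e => nn e ≤ N) :
        Finset (Finset (PP w X))) := by
      intro a _ b _ hab
      have key : ∀ c : Finset (PP w X), (nn c).primeFactors = c.image pr := by
        intro c
        have : nn c = ∏ p ∈ c.image pr, p := by
          rw [Finset.prod_image (fun x _ y _ h => dg_inj h)]
        rw [this]
        refine Nat.primeFactors_prod ?_
        intro p hp'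
        obtain ⟨i, _, rfl⟩ := mem_image.1 hp'
        exact (dg_pr i).2.2
      have h1 : a.image pr = b.image pr := by rw [← key a, ← key b, hab]
      exact Finset.image_injective dg_inj h1
    have h1 : R = ∑ n ∈ ((univ : Finset (Finset (PP w X))).filter (fun e => nn e ≤ N)).image nn,
        1 / (n : ℝ) := (Finset.sum_image (f := fun n : ℕ => 1 / (n : ℝ)) hinjn).symm
    rw [h1]
    refine le_trans ?_ (ph_coprime_sum W hW N T hT hNle)
    refine Finset.sum_le_sum_of_subset_of_nonneg ?_ (fun _ _ _ => by positivity)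
    intro n hn
    obtain ⟨e, he, rfl⟩ := mem_image.1 hn
    rw [mem_filter] at he
    rw [mem_filter, mem_Icc]
    refine ⟨⟨hnnpos e, he.2⟩, ?_⟩
    refine Nat.Coprime.prod_right fun i _ => ?_
    rw [hWdef, primorial]
    refine Nat.Coprime.prod_left fun q hq => ?_
    rw [mem_filter, mem_range] at hq
    refine (Nat.coprime_primes hq.2 (dg_pr i).2.2).2 ?_
    have := (dg_pr i).1
    omega
  have hR0 : 0 ≤ R := Finset.sum_nonneg fun e _ => by positivity
  -- the main inequality
  have hmain : dgG w X T ≤ (∏ i : PP w X, (1 + qq i / (pr i : ℝ))) * R := by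
    have hq : ∀ i : PP w X, qq i = 1 / (pr i : ℝ) * (1 + qq i) := by
      intro i
      unfold qq
      have h1 : (pr i : ℝ) ≠ 0 := by linarith [hpr3r i]
      have h2 : (pr i : ℝ) - 1 ≠ 0 := by linarith [hpr3r i]
      field_simp
      ring
    have hprodq : ∀ e : Finset (PP w X), ∏ i ∈ e, qq i =
        ∑ f ∈ e.powerset, (1 / (nn e : ℝ)) * ∏ i ∈ f, qq i := by
      intro e
      rw [← Finset.mul_sum, ← Finset.prod_one_add, hnn]
      push_cast
      rw [one_div, ← Finset.prod_inv_distrib, ← Finset.prod_mul_distrib]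
      refine Finset.prod_congr rfl fun i _ => ?_
      rw [← one_div]
      exact hq i
    unfold dgG
    rw [← Finset.sum_filter, Finset.prod_one_add, Finset.sum_mul]
    simp only [dg_iff]
    calc ∑ e ∈ (univ : Finset (Finset (PP w X))).filter (fun e => nn e ≤ N), ∏ i ∈ e, qq i
        = ∑ e ∈ (univ : Finset (Finset (PP w X))).filter (fun e => nn e ≤ N),
            ∑ f ∈ e.powerset, (1 / (nn e : ℝ)) * ∏ i ∈ f, qq i :=
          Finset.sum_congr rfl fun e _ => hprodq e
      _ = ∑ f : Finset (PP w X), ∑ e ∈ (univ : Finset (Finset (PP w X))).filter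
            (fun e => nn e ≤ N ∧ f ⊆ e), (1 / (nn e : ℝ)) * ∏ i ∈ f, qq i := by
          refine Finset.sum_comm' ?_
          intro e f
          simp only [mem_filter, mem_univ, true_and, mem_powerset, and_true]
      _ ≤ ∑ f ∈ (univ : Finset (PP w X)).powerset, (∏ i ∈ f, qq i / (pr i : ℝ)) * R := by
          rw [Finset.powerset_univ]
          refine Finset.sum_le_sum fun f _ => ?_
          -- `e = f ∪ e'`
          have hf : ∏ i ∈ f, qq i / (pr i : ℝ) = (∏ i ∈ f, qq i) * (1 / (nn f : ℝ)) := by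
            rw [Finset.prod_div_distrib, hnn]
            push_cast
            ring
          rw [hf, hR, Finset.mul_sum]
          have hinj2 : Set.InjOn (fun e : Finset (PP w X) => e \ f)
              ((univ : Finset (Finset (PP w X))).filter (fun e => nn e ≤ N ∧ f ⊆ e) :
                Finset (Finset (PP w X))) := by
            intro a ha b hb hab
            have ha1 : f ⊆ a := (mem_filter.1 (Finset.mem_coe.1 ha)).2.2
            have hb1 : f ⊆ b := (mem_filter.1 (Finset.mem_coe.1 hb)).2.2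
            have h3 : a \ f = b \ f := hab
            rw [← Finset.sdiff_union_of_subset ha1, ← Finset.sdiff_union_of_subset hb1, h3]
          have hval : ∀ e ∈ (univ : Finset (Finset (PP w X))).filter
              (fun e => nn e ≤ N ∧ f ⊆ e),
              (1 / (nn e : ℝ)) * ∏ i ∈ f, qq i =
              (∏ i ∈ f, qq i) * (1 / (nn f : ℝ)) * (1 / (nn (e \ f) : ℝ)) := by
            intro e he
            have he1 : f ⊆ e := (mem_filter.1 he).2.2
            have h4 : nn e = nn (e \ f) * nn f := by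
              rw [hnn]
              exact (Finset.prod_sdiff he1).symm
            have h5 : (nn (e \ f) : ℝ) ≠ 0 := by exact_mod_cast (hnnpos _).ne'
            have h6 : (nn f : ℝ) ≠ 0 := by exact_mod_cast (hnnpos _).ne'
            rw [h4]
            push_cast
            field_simp
          rw [Finset.sum_congr rfl hval, ← Finset.sum_image (f := fun e : Finset (PP w X) =>
            (∏ i ∈ f, qq i) * (1 / (nn f : ℝ)) * (1 / (nn e : ℝ))) hinj2]
          refine Finset.sum_le_sum_of_subset_of_nonneg ?_ ?_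
          · intro e' he'
            obtain ⟨e, he, rfl⟩ := mem_image.1 he'
            rw [mem_filter] at he ⊢
            refine ⟨mem_univ _, ?_⟩
            have h4 : nn e = nn (e \ f) * nn f := by
              rw [hnn]
              exact (Finset.prod_sdiff he.2.2).symm
            have h5 : nn (e \ f) ≤ nn e := by
              rw [h4]; exact Nat.le_mul_of_pos_right _ (hnnpos f)
            exact h5.trans he.2.1
          · intro e _ _
            have : 0 ≤ ∏ i ∈ f, qq i := Finset.prod_nonneg fun i _ => hqq i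
            positivity
  have hexp : ∏ i : PP w X, (1 + qq i / (pr i : ℝ)) ≤ Real.exp (1 / (w : ℝ)) := by
    refine (Real.prod_one_add_le_exp_sum univ ?_).trans (Real.exp_le_exp.2 ?_)
    · intro i
      exact div_nonneg (hqq i) (by linarith [hpr3r i])
    · have h1 : ∑ i : PP w X, qq i / (pr i : ℝ) =
          ∑ p ∈ (univ : Finset (PP w X)).image pr, 1 / ((p : ℝ) * ((p : ℝ) - 1)) := by
        rw [Finset.sum_image (fun x _ y _ h => dg_inj h)]
        refine Finset.sum_congr rfl fun i _ => ?_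
        unfold qq
        rw [div_div, mul_comm ((pr i : ℝ) - 1)]
      rw [h1]
      refine dg_tel w (by omega) _ ?_
      intro p hp'
      obtain ⟨i, _, rfl⟩ := mem_image.1 hp'
      exact (dg_pr i).1
  exact hmain.trans (mul_le_mul hexp hRle hR0 (Real.exp_pos _).le)

theorem thm_DG : St_DG := by
  intro ε hε
  obtain ⟨w0, hw0⟩ := exists_nat_ge (4 / ε + 2)
  refine ⟨max w0 2, fun w hw ρ hρ hρ1 => ?_⟩
  have hw2 : 2 ≤ w := (le_max_right _ _).trans hw
  have hww : (4 / ε + 2 : ℝ) ≤ w := hw0.trans (by exact_mod_cast (le_max_left _ _).trans hw)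
  have hw2r : (2 : ℝ) ≤ w := by exact_mod_cast hw2
  have hp := phW_pos w
  set W : ℝ := (primorial w : ℝ) with hW
  have hW0 : 0 < W := by
    rw [hW]
    exact_mod_cast primorial_pos w
  -- exp (1/w) - 1 ≤ ε / 2
  set x : ℝ := 1 / (w : ℝ) with hx
  have hx0 : 0 < x := by positivity
  have hx1 : x ≤ 1 / 2 := by
    rw [hx]
    exact one_div_le_one_div_of_le (by norm_num) hw2r
  have hx2 : x ≤ ε / 4 := by
    have h1 : 4 / ε ≤ w := by linarith
    rw [hx, div_le_iff₀ (by linarith)]
    rw [div_le_iff₀ hε] at h1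
    linarith
  have hexp : Real.exp x ≤ 1 + 2 * x := by
    have h7 := Real.one_sub_le_exp_neg x
    have h8 : Real.exp x * Real.exp (-x) = 1 := by rw [← Real.exp_add]; simp
    have h10 : Real.exp x * (1 - x) ≤ 1 :=
      (mul_le_mul_of_nonneg_left h7 (Real.exp_pos x).le).trans h8.le
    have h11 : 1 ≤ (1 + 2 * x) * (1 - x) := by nlinarith
    exact le_of_mul_le_mul_right (h10.trans h11) (by linarith)
  have hlog : ∀ᶠ N : ℕ in atTop, 4 * (W + phW w) / (phW w * ε) ≤ Real.log N :=
    (Real.tendsto_log_atTop.comp tendsto_natCast_atTop_atTop).eventually_ge_atTop _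
  filter_upwards [hlog, eventually_ge_atTop 2] with N hN hN2 t ht0 htρ
  have hNr : (2 : ℝ) ≤ N := by exact_mod_cast hN2
  have hL : 0 < Real.log N := Real.log_pos (by linarith)
  have hA : 0 < AA w N := mul_pos hp hL
  have hTN : Real.exp (t * Real.log N) = (N : ℝ) ^ t := by
    rw [Real.rpow_def_of_pos (by linarith), mul_comm]
  have hfl : ⌊Real.exp (t * Real.log N)⌋₊ ≤ XR ρ N := by
    rw [hTN]
    unfold XR
    exact Nat.floor_le_floor (Real.rpow_le_rpow_of_exponent_le (by linarith) htρ)
  have hlo := dg_lower (w := w) (X := XR ρ N) (t * Real.log N) hfl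
  have hup := dg_upper (w := w) (X := XR ρ N) hw2 (t * Real.log N) (by positivity)
  have hG : (∑ e : Finset (PP w (XR ρ N)),
      if ∑ i ∈ e, Real.log (pr i) ≤ t * Real.log N then ∏ i ∈ e, qq i else 0) =
      dgG w (XR ρ N) (t * Real.log N) := by
    unfold dgG
    rfl
  rw [hG]
  have hAt : AA w N * t = phW w * (t * Real.log N) := by
    unfold AA
    ring
  rw [hAt, abs_le]
  constructor
  · have : 0 ≤ ε * AA w N := by positivity
    linarith
  · rw [← hx, ← hW] at hup
    have h1 : 4 * (W + phW w) ≤ Real.log N * (phW w * ε) := by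
      rwa [div_le_iff₀ (by positivity)] at hN
    have h2 : W + phW w * (1 + t * Real.log N) ≥ 0 := by positivity
    have h3 : Real.exp x * (W + phW w * (1 + t * Real.log N)) ≤
        (1 + 2 * x) * (W + phW w * (1 + t * Real.log N)) :=
      mul_le_mul_of_nonneg_right hexp h2
    have h4 : (1 + 2 * x) * (W + phW w * (1 + t * Real.log N)) - phW w * (t * Real.log N) =
        (1 + 2 * x) * (W + phW w) + 2 * x * (phW w * (t * Real.log N)) := by ring
    have h5 : (1 + 2 * x) * (W + phW w) ≤ 2 * (W + phW w) :=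
      mul_le_mul_of_nonneg_right (by linarith) (by positivity)
    have h6 : 2 * x * (phW w * (t * Real.log N)) ≤ ε / 2 * (phW w * Real.log N) := by
      have h7 : phW w * (t * Real.log N) ≤ phW w * Real.log N := by
        refine mul_le_mul_of_nonneg_left ?_ hp.le
        have : t * Real.log N ≤ 1 * Real.log N :=
          mul_le_mul_of_nonneg_right (by linarith) hL.le
        linarith
      exact mul_le_mul (by linarith) h7 (by positivity) (by positivity)
    have h8 : AA w N = phW w * Real.log N := rfl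
    rw [h8]
    nlinarith

end Pool.Agent.PT
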