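import Pool.Agent.PT.Elem
import Pool.Agent.MT.YY
import Pool.Agent.MT.Model
import Pool.Agent.MT.EqPrime

set_option autoImplicit false

/-!
# PT / FaceX: bilinear expansion of the faces
-/

namespace Pool.Agent.PT

open Finset Filter Pool.Agent.MT

theorem facex_prod_inj {w X : ℕ} :
    Function.Injective (fun e : Finset (PP w X) => ∏ i ∈ e, pr i) := by
  have key : ∀ e e' : Finset (PP w X), ∏ i ∈ e, pr i = ∏ i ∈ e', pr i → e ⊆ e' := by
    intro e e' h i hi
    have h1 : pr i ∣ ∏ i ∈ e', pr i := by
      rw [← h]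
      exact Finset.dvd_prod_of_mem _ hi
    obtain ⟨i', hi', h2⟩ := (Prime.dvd_finsetProd_iff (pr_prime i).prime _).1 h1
    have h3 := (Nat.prime_dvd_prime_iff_eq (pr_prime i) (pr_prime i')).1 h2
    rwa [pr_inj h3]
  intro e e' h
  exact Finset.Subset.antisymm (key e e' h) (key e' e h.symm)

/-- shift of the summation variable -/
theorem facex_shift (N q c s : ℕ) (g : ℕ → ℝ) (h1 : ∀ m, m < s → g m = 0)
    (h2 : ∀ m, N < m → g m = 0) :
    ∑ a ∈ (range (N + 1)).filter (fun a => a % q = c % q), g (a + s) =
      ∑ m ∈ (range (N + 1)).filter (fun m => m % q = (c + s) % q), g m := by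
  rw [sum_filter, sum_filter]
  have e1 : ∀ a ∈ range (N + 1), (if a % q = c % q then g (a + s) else 0) =
      (fun m => if m % q = (c + s) % q then g m else 0) (a + s) := by
    intro a _
    have hiff : a % q = c % q ↔ (a + s) % q = (c + s) % q := by
      constructor
      · intro h
        exact Nat.ModEq.add_right s h
      · intro h
        exact Nat.ModEq.add_right_cancel' s h
    simp only [hiff]
  rw [sum_congr rfl e1, range_eq_Ico,
    sum_Ico_add' (fun m => if m % q = (c + s) % q then g m else 0) 0 (N + 1) s, zero_add]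
  rcases Nat.lt_or_ge (N + 1) s with hs | hs
  · have e2 : ∀ m ∈ Ico s (N + 1 + s), (fun m => if m % q = (c + s) % q then g m else 0) m = 0 := by
      intro m hm
      rw [mem_Ico] at hm
      simp only
      rw [h2 m (by omega), ite_self]
    have e3 : ∀ m ∈ Ico 0 (N + 1), (if m % q = (c + s) % q then g m else 0) = 0 := by
      intro m hm
      rw [mem_Ico] at hm
      rw [h1 m (by omega), ite_self]
    rw [sum_eq_zero e2, sum_eq_zero e3]
  · rw [← sum_Ico_consecutive _ (by omega : s ≤ N + 1) (by omega : N + 1 ≤ N + 1 + s),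
      ← sum_Ico_consecutive (fun m => if m % q = (c + s) % q then g m else 0)
        (by omega : 0 ≤ s) (by omega : s ≤ N + 1)]
    have e2 : ∑ m ∈ Ico (N + 1) (N + 1 + s),
        (fun m => if m % q = (c + s) % q then g m else 0) m = 0 := by
      refine sum_eq_zero fun m hm => ?_
      rw [mem_Ico] at hm
      rw [h2 m (by omega), ite_self]
    have e3 : ∑ m ∈ Ico 0 s, (fun m => if m % q = (c + s) % q then g m else 0) m = 0 := by
      refine sum_eq_zero fun m hm => ?_
      rw [mem_Ico] at hm
      rw [h1 m hm.2, ite_self]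
    rw [e2, e3, add_zero, zero_add]

theorem facex_dl_some {w X : ℕ} (j : Fin 3) (Y : PP w X → Option (Fin 3)) (i : PP w X)
    (h : Fin 3) : dl j Y i = some h ↔ h ≠ j ∧ Y i = some h := by
  unfold dl
  split_ifs with h1
  · constructor
    · intro h2
      cases h2
    · rintro ⟨h2, h3⟩
      rw [h1] at h3
      exact absurd (Option.some.inj h3).symm h2
  · constructor
    · intro h2
      refine ⟨fun h3 => h1 (by rw [h2, h3]), h2⟩
    · rintro ⟨_, h3⟩
      exact h3

theorem facex_exp (hBE : St_BExp) (η : ℝ → ℝ) (hη : IsWt η) (θ : ℝ) (hθ1 : θ ≤ 1) (A0 : ℕ)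
    (w X N v : ℕ) (sh : Fin 3 → ℕ) (j : Fin 3) (b : ℕ → ℝ) (hsh : Function.Injective sh)
    (hshw : ∀ h, sh h ≤ w) (hN : 1 ≤ N) (h8 : 8 * sh j ≤ N)
    (hv : (v + sh j).Coprime (primorial w)) (hBV : BVOK η θ A0 9 N b)
    (t u : (PP w X → Option (Fin 3)) → ℝ) (τ υ : ℝ) (D1 D2 : ℕ) (ht : ∀ σ, |t σ| ≤ τ)
    (hu : ∀ σ, |u σ| ≤ υ) (htD : ∀ σ, t σ ≠ 0 → nrm pr σ ≤ D1) (huD : ∀ σ, u σ ≠ 0 → nrm pr σ ≤ D2)
    (hlev : ((primorial w * (D1 * D2) : ℕ) : ℝ) ≤ (N : ℝ) ^ θ) :
    |∑ a ∈ (range (N + 1)).filter (fun a => a % primorial w = v % primorial w),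
        (η (((a + sh j : ℕ) : ℝ) / N) * b (a + sh j)) *
          (comb qq t (dl j (YY pr sh a)) * comb qq u (dl j (YY pr sh a))) -
      B0 η N b / (primorial w).totient *
        EE (univ.erase j) qq (fun Z => comb qq t Z * comb qq u Z)| ≤
      (τ * ∏ i : PP w X, (1 + 3 * qq i)) * (υ * ∏ i : PP w X, (1 + 3 * qq i)) *
        (N / Real.log N ^ A0) := by
  classical
  obtain ⟨E, hE0, hE1, hE2⟩ := hBV
  have hW : 1 ≤ primorial w := primorial_pos w
  have hNR : (1 : ℝ) ≤ N := by exact_mod_cast hN
  have hNpos : (0 : ℝ) < N := by linarith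
  have hlt : ∀ (i : PP w X) h, sh h < pr i := fun i h => lt_of_le_of_lt (hshw h) (pr_gt i)
  have hτ : 0 ≤ τ := (abs_nonneg _).trans (ht fun _ => none)
  have hυ : 0 ≤ υ := (abs_nonneg _).trans (hu fun _ => none)
  have hP0 : 0 ≤ ∏ i : PP w X, (1 + 3 * qq i) :=
    prod_nonneg fun i _ => by linarith [qq_pos i]
  have hmain := hBE w X ((range (N + 1)).filter (fun a => a % primorial w = v % primorial w))
    (fun a => η (((a + sh j : ℕ) : ℝ) / N) * b (a + sh j)) (fun a => dl j (YY pr sh a))
    (univ.erase j) qq qq (fun i => (qq_pos i).le) (B0 η N b / (primorial w).totient) t u τ υ ht hu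
    D1 D2 htD huD (fun e => E (primorial w * ∏ i ∈ e, pr i)) (fun e => hE0 _) ?_
  · refine hmain.trans ?_
    refine mul_le_mul_of_nonneg_left ?_ (mul_nonneg (mul_nonneg hτ hP0) (mul_nonneg hυ hP0))
    have hinj : Function.Injective (fun e : Finset (PP w X) => primorial w * ∏ i ∈ e, pr i) := by
      intro e e' h
      exact facex_prod_inj (Nat.eq_of_mul_eq_mul_left hW h)
    calc ∑ e ∈ (univ : Finset (Finset (PP w X))).filter (fun e => ∏ i ∈ e, pr i ≤ D1 * D2),
        (9 : ℝ) ^ e.card * E (primorial w * ∏ i ∈ e, pr i) ≤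
        ∑ e ∈ (univ : Finset (Finset (PP w X))).filter (fun e => ∏ i ∈ e, pr i ≤ D1 * D2),
          (fun q : ℕ => ((9 : ℕ) : ℝ) ^ q.primeFactors.card * E q)
            (primorial w * ∏ i ∈ e, pr i) := by
          refine sum_le_sum fun e _ => ?_
          refine mul_le_mul_of_nonneg_right ?_ (hE0 _)
          push_cast
          refine pow_le_pow_right₀ (by norm_num) ?_
          have h1 : e.image pr ⊆ (primorial w * ∏ i ∈ e, pr i).primeFactors := by
            intro p hp
            obtain ⟨i, hi, rfl⟩ := mem_image.1 hp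
            rw [Nat.mem_primeFactors]
            refine ⟨pr_prime i, (Finset.dvd_prod_of_mem _ hi).mul_left _, ?_⟩
            exact (Nat.mul_pos hW (prod_pos fun i _ => (pr_prime i).pos)).ne'
          calc e.card = (e.image pr).card := (card_image_of_injective e pr_inj).symm
            _ ≤ _ := card_le_card h1
      _ = ∑ q ∈ ((univ : Finset (Finset (PP w X))).filter
          (fun e => ∏ i ∈ e, pr i ≤ D1 * D2)).image
            (fun e : Finset (PP w X) => primorial w * ∏ i ∈ e, pr i),
          ((9 : ℕ) : ℝ) ^ q.primeFactors.card * E q := by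
          rw [sum_image (fun x _ y _ h => hinj h)]
      _ ≤ ∑ q ∈ (Icc 1 N).filter (fun q : ℕ => (q : ℝ) ≤ (N : ℝ) ^ θ),
          ((9 : ℕ) : ℝ) ^ q.primeFactors.card * E q := by
          refine sum_le_sum_of_subset_of_nonneg ?_ (fun q _ _ => mul_nonneg (by positivity) (hE0 _))
          intro q hq
          obtain ⟨e, he, rfl⟩ := mem_image.1 hq
          rw [mem_filter] at he
          have h2 : primorial w * ∏ i ∈ e, pr i ≤ primorial w * (D1 * D2) :=
            Nat.mul_le_mul_left _ he.2
          have h3 : ((primorial w * ∏ i ∈ e, pr i : ℕ) : ℝ) ≤ (N : ℝ) ^ θ :=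
            le_trans (by exact_mod_cast h2) hlev
          rw [mem_filter, mem_Icc]
          refine ⟨⟨Nat.mul_pos hW (prod_pos fun i _ => (pr_prime i).pos), ?_⟩, h3⟩
          have h4 : (N : ℝ) ^ θ ≤ N := by
            calc (N : ℝ) ^ θ ≤ (N : ℝ) ^ (1 : ℝ) := Real.rpow_le_rpow_of_exponent_le hNR hθ1
              _ = N := Real.rpow_one _
          exact_mod_cast h3.trans h4
      _ ≤ N / Real.log N ^ A0 := hE2
  · intro d hd
    rw [EE_indicator]
    by_cases hdm : ∃ i, d i = some j
    · obtain ⟨i, hi⟩ := hdm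
      have e1 : ¬ (∀ i h, d i = some h → h ∈ (univ : Finset (Fin 3)).erase j) := by
        intro hh
        exact (mem_erase.1 (hh i j hi)).1 rfl
      rw [if_neg e1, mul_zero, sub_zero]
      have e2 : ∑ a ∈ (range (N + 1)).filter (fun a => a % primorial w = v % primorial w),
          η (((a + sh j : ℕ) : ℝ) / N) * b (a + sh j) *
            (if ∀ i, d i ≠ none → dl j (YY pr sh a) i = d i then (1 : ℝ) else 0) = 0 := by
        apply sum_eq_zero
        intro a ha
        split_ifs with hc
        · have h1 : dl j (YY pr sh a) i = some j := by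
            rw [← hi]
            exact hc i (by rw [hi]; simp)
          exact absurd rfl ((facex_dl_some _ _ _ _).1 h1).1
        · rw [mul_zero]
      rw [e2, abs_zero]
      exact hE0 _
    · push Not at hdm
      have e1 : ∀ i h, d i = some h → h ∈ (univ : Finset (Fin 3)).erase j := by
        intro i h hih
        rw [mem_erase]
        refine ⟨?_, mem_univ _⟩
        intro hh
        exact hdm i (by rw [hih, hh])
      rw [if_pos e1]
      obtain ⟨c, hc1, hc2⟩ := YY_class pr sh hsh hlt pr_prime pr_inj (primorial w) v hW pr_cop d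
      have hcop := hc2 j hdm hv
      have hdl : ∀ a, (∀ i, d i ≠ none → dl j (YY pr sh a) i = d i) ↔
          ∀ i, d i ≠ none → YY pr sh a i = d i := by
        intro a
        refine forall_congr' fun i => ?_
        refine imp_congr_right fun hne => ?_
        obtain ⟨h, hh⟩ := Option.ne_none_iff_exists'.1 hne
        rw [hh, facex_dl_some]
        constructor
        · exact fun h1 => h1.2
        · exact fun h1 => ⟨fun h2 => hdm i (by rw [hh, h2]), h1⟩
      have e2 : ∑ a ∈ (range (N + 1)).filter (fun a => a % primorial w = v % primorial w),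
          η (((a + sh j : ℕ) : ℝ) / N) * b (a + sh j) *
            (if ∀ i, d i ≠ none → dl j (YY pr sh a) i = d i then (1 : ℝ) else 0) =
          ∑ a ∈ (range (N + 1)).filter (fun a => a % (primorial w * nrm pr d) =
            c % (primorial w * nrm pr d)),
            (fun m : ℕ => b m * η ((m : ℝ) / N)) (a + sh j) := by
        rw [sum_filter, sum_filter]
        apply sum_congr rfl
        intro a _
        by_cases h1 : a % (primorial w * nrm pr d) = c % (primorial w * nrm pr d)
        · have h2 := (hc1 a).2 h1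
          rw [if_pos h2.1, if_pos ((hdl a).2 h2.2), if_pos h1, mul_one]
          simp only
          ring
        · rw [if_neg h1]
          split_ifs with h4 h5
          · exact absurd ((hc1 a).1 ⟨h4, (hdl a).1 h5⟩) h1
          · rw [mul_zero]
          · rfl
      have hn1 : 1 ≤ nrm pr d := by
        unfold nrm
        exact Nat.succ_le_of_lt (prod_pos fun i _ => (pr_prime i).pos)
      have hq : ((primorial w * nrm pr d : ℕ) : ℝ) ≤ (N : ℝ) ^ θ := by
        refine le_trans ?_ hlev
        exact_mod_cast Nat.mul_le_mul_left _ hd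
      have e3 := hE1 (primorial w * nrm pr d) (c + sh j) (Nat.mul_pos hW hn1) hq hcop
      have e4 : B0 η N b / (primorial w).totient * ∏ i ∈ supp d, qq i =
          B0 η N b / ((primorial w * nrm pr d).totient : ℝ) := by
        unfold nrm qq
        rw [EqPrimeAux.totient_mod pr pr_prime pr_inj (primorial w) pr_cop, prod_div_distrib,
          prod_const_one, div_mul_div_comm, mul_one]
      rw [e4, e2, facex_shift N (primorial w * nrm pr d) c (sh j)
        (fun m : ℕ => b m * η ((m : ℝ) / N))]
      · exact e3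
      · intro m hm
        have h5 : (m : ℝ) / N ≤ 1 / 8 := by
          rw [div_le_iff₀ hNpos]
          have h6 : (8 * m : ℝ) ≤ N := by exact_mod_cast (by omega : 8 * m ≤ N)
          linarith
        show b m * η ((m : ℝ) / N) = 0
        rw [wt_zero_of_small η hη _ h5, mul_zero]
      · intro m hm
        have h5 : 7 / 8 ≤ (m : ℝ) / N := by
          rw [le_div_iff₀ hNpos]
          have h6 : (N : ℝ) ≤ m := by exact_mod_cast hm.le
          linarith
        show b m * η ((m : ℝ) / N) = 0
        rw [wt_zero_of_large η hη _ h5, mul_zero]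

end Pool.Agent.PT
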