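import Pool.Agent.PT.StD

set_option autoImplicit false

/-!
# PT / D1

Sums of Lipschitz functions over a weighted point set close to Lebesgue measure, one variable.
-/

namespace Pool.Agent.PT

open Finset Filter Pool.Agent.MT MeasureTheory

open Classical in
private theorem d1_cell {E : Type} [Fintype E] (wt s : E → ℝ) (hw : ∀ e, 0 ≤ wt e)
    (hs : ∀ e, 0 ≤ s e) {K τ : ℝ} {f : ℝ → ℝ}
    (hL : ∀ x y, 0 ≤ x → x ≤ τ → 0 ≤ y → y ≤ τ → |f x - f y| ≤ K * |x - y|)
    {x y : ℝ} (hxy : x ≤ y) (hy : y ≤ τ) (hK : 0 ≤ K) (hy0 : 0 ≤ y) :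
    |((∑ e, if s e ≤ y then wt e * f (s e) else 0) - ∑ e, if s e ≤ x then wt e * f (s e) else 0) -
      f y * ((∑ e, if s e ≤ y then wt e else 0) - ∑ e, if s e ≤ x then wt e else 0)| ≤
    K * (y - x) * ((∑ e, if s e ≤ y then wt e else 0) - ∑ e, if s e ≤ x then wt e else 0) := by
  rw [← Finset.sum_sub_distrib, ← Finset.sum_sub_distrib, Finset.mul_sum, ← Finset.sum_sub_distrib,
    Finset.mul_sum]
  refine (Finset.abs_sum_le_sum_abs _ _).trans (Finset.sum_le_sum fun e _ => ?_)
  by_cases h1 : s e ≤ x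
  · have h2 : s e ≤ y := h1.trans hxy
    rw [if_pos h1, if_pos h2, if_pos h1, if_pos h2]
    simp
  · by_cases h2 : s e ≤ y
    · rw [if_neg h1, if_pos h2, if_neg h1, if_pos h2, sub_zero, sub_zero]
      have h3 := hL (s e) y (hs e) (h2.trans hy) hy0 hy
      have h4 : |s e - y| ≤ y - x := by
        rw [abs_sub_comm, abs_of_nonneg (by linarith)]
        linarith [not_le.1 h1]
      have e1 : wt e * f (s e) - f y * wt e = wt e * (f (s e) - f y) := by ring
      rw [e1, abs_mul, abs_of_nonneg (hw e)]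
      calc wt e * |f (s e) - f y| ≤ wt e * (K * (y - x)) := by
            apply mul_le_mul_of_nonneg_left _ (hw e)
            exact h3.trans (mul_le_mul_of_nonneg_left h4 hK)
        _ = K * (y - x) * wt e := by ring
    · rw [if_neg h1, if_neg h2, if_neg h1, if_neg h2]
      simp

theorem thm_D1 : St_D1 := by
  classical
  intro K ε0 hε0
  by_cases hK : K < 0
  · refine ⟨1, one_pos, ?_⟩
    intro E _ wt s A ρ hA hρ hρ1 hD τ f hτ0 hτ hf hL
    have := (abs_nonneg (f 0)).trans (hf 0 le_rfl hτ0)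
    exact absurd this (not_le.2 hK)
  push Not at hK
  obtain ⟨m, hm⟩ := exists_nat_gt (6 * (K + 1) / ε0 + 1)
  have hm1 : (1 : ℝ) < m := by
    have : 0 ≤ 6 * (K + 1) / ε0 := by positivity
    linarith
  have hm0 : (0 : ℝ) < m := by linarith
  have hmK : 3 * K / m ≤ ε0 / 2 := by
    rw [div_le_iff₀ hm0]
    have h1 : 6 * (K + 1) / ε0 < m := by linarith
    rw [div_lt_iff₀ hε0] at h1
    linarith
  obtain ⟨ε, hε⟩ : ∃ ε : ℝ, ε = min 1 (ε0 / (6 * m * (K + 1))) := ⟨_, rfl⟩
  have hεpos : 0 < ε := by rw [hε]; positivity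
  have hε1 : ε ≤ 1 := by rw [hε]; exact min_le_left _ _
  have hε2 : 3 * K * m * ε ≤ ε0 / 2 := by
    have h1 : ε ≤ ε0 / (6 * m * (K + 1)) := by rw [hε]; exact min_le_right _ _
    have h2 : 3 * K * m * ε ≤ 3 * K * m * (ε0 / (6 * m * (K + 1))) :=
      mul_le_mul_of_nonneg_left h1 (by positivity)
    refine h2.trans ?_
    have h3 : 3 * K * m * (ε0 / (6 * m * (K + 1))) = (K / (K + 1)) * (ε0 / 2) := by
      field_simp
      ring
    rw [h3]
    have h4 : K / (K + 1) ≤ 1 := by rw [div_le_one (by linarith)]; linarith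
    have h5 : 0 ≤ ε0 / 2 := by positivity
    nlinarith
  refine ⟨ε, hεpos, ?_⟩
  intro E _ wt s A ρ hA hρ hρ1 hD τ f hτ0 hτ hf hL
  have hτ1 : τ ≤ 1 := hτ.trans hρ1
  obtain ⟨F, hF⟩ : ∃ F : ℝ → ℝ, ∀ t, F t = ∑ e, if s e ≤ t then wt e else 0 := ⟨_, fun _ => rfl⟩
  obtain ⟨S, hS⟩ : ∃ S : ℝ → ℝ, ∀ t, S t = ∑ e, if s e ≤ t then wt e * f (s e) else 0 :=
    ⟨_, fun _ => rfl⟩
  have hFd : ∀ t, 0 ≤ t → t ≤ τ → |F t - A * t| ≤ ε * A := by
    intro t h1 h2
    rw [hF]; exact hD.le t h1 (h2.trans hτ)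
  have hcell : ∀ x y, x ≤ y → 0 ≤ y → y ≤ τ → |(S y - S x) - f y * (F y - F x)| ≤
      K * (y - x) * (F y - F x) := by
    intro x y h1 h2 h3
    rw [hS, hS, hF, hF]
    exact d1_cell wt s hD.wn hD.sn hL h1 h3 hK h2
  rw [← hS]
  -- the points
  let x : ℕ → ℝ := fun j => τ * j / m
  have hx0 : x 0 = 0 := by simp [x]
  have hxm : x m = τ := by simp only [x]; field_simp
  have hxs : ∀ j, x (j + 1) - x j = τ / m := by
    intro j; simp only [x]; push_cast; ring
  have hxle : ∀ j, x j ≤ x (j + 1) := by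
    intro j
    have := hxs j
    have h1 : 0 ≤ τ / m := by positivity
    linarith
  have hxnn : ∀ j, 0 ≤ x j := by intro j; simp only [x]; positivity
  have hxτ : ∀ j, j ≤ m → x j ≤ τ := by
    intro j hj
    simp only [x]
    rw [div_le_iff₀ hm0]
    have : (j : ℝ) ≤ m := by exact_mod_cast hj
    exact mul_le_mul_of_nonneg_left this hτ0
  have hcont : ContinuousOn f (Set.Icc 0 τ) := by
    have : LipschitzOnWith (Real.toNNReal K) f (Set.Icc 0 τ) := by
      refine LipschitzOnWith.of_dist_le_mul fun a ha b hb => ?_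
      rw [Real.dist_eq, Real.dist_eq, Real.coe_toNNReal K hK]
      exact hL a b ha.1 ha.2 hb.1 hb.2
    exact this.continuousOn
  have hint : ∀ a b, 0 ≤ a → a ≤ τ → 0 ≤ b → b ≤ τ → IntervalIntegrable f volume a b := by
    intro a b ha ha' hb hb'
    refine ContinuousOn.intervalIntegrable (hcont.mono ?_)
    intro z hz
    rcases Set.mem_uIcc.1 hz with h | h
    · exact ⟨ha.trans h.1, h.2.trans hb'⟩
    · exact ⟨hb.trans h.1, h.2.trans ha'⟩
  have hI : ∫ z in (0 : ℝ)..τ, f z = ∑ j ∈ Finset.range m, ∫ z in x j..x (j + 1), f z := by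
    have := intervalIntegral.sum_integral_adjacent_intervals (f := f) (μ := volume) (a := x)
      (n := m) (fun j hj => hint _ _ (hxnn _) (hxτ _ (by omega)) (hxnn _) (hxτ _ (by omega)))
    rw [this, hx0, hxm]
  have hSsum : S τ = S 0 + ∑ j ∈ Finset.range m, (S (x (j + 1)) - S (x j)) := by
    rw [Finset.sum_range_sub (fun j => S (x j)), hx0, hxm]; ring
  have hFsum : F τ = F 0 + ∑ j ∈ Finset.range m, (F (x (j + 1)) - F (x j)) := by
    rw [Finset.sum_range_sub (fun j => F (x j)), hx0, hxm]; ring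
  -- the interval integrals
  have hIcell : ∀ j < m, |A * (∫ z in x j..x (j + 1), f z) - A * (f (x (j + 1)) * (τ / m))| ≤
      A * (K * (τ / m) * (τ / m)) := by
    intro j hj
    rw [← mul_sub, abs_mul, abs_of_pos hA]
    apply mul_le_mul_of_nonneg_left _ hA.le
    have e1 : f (x (j + 1)) * (τ / m) = ∫ z in x j..x (j + 1), f (x (j + 1)) := by
      rw [intervalIntegral.integral_const, hxs, smul_eq_mul, mul_comm]
    rw [e1, ← intervalIntegral.integral_sub (hint _ _ (hxnn _) (hxτ _ (by omega)) (hxnn _)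
      (hxτ _ (by omega))) (by simp), ← Real.norm_eq_abs]
    have h1 := intervalIntegral.norm_integral_le_of_norm_le_const (a := x j) (b := x (j + 1))
      (f := fun z => f z - f (x (j + 1))) (C := K * (τ / m)) (by
        intro z hz
        rw [Set.uIoc_of_le (hxle j)] at hz
        rw [Real.norm_eq_abs]
        refine (hL z (x (j + 1)) ((hxnn j).trans hz.1.le) (hz.2.trans (hxτ _ (by omega)))
          (hxnn _) (hxτ _ (by omega))).trans ?_
        apply mul_le_mul_of_nonneg_left _ hK
        rw [abs_sub_comm, abs_of_nonneg (by linarith [hz.2])]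
        linarith [hxs j, hz.1])
    rwa [hxs, abs_of_nonneg (by positivity)] at h1
  -- one cell
  have hone : ∀ j ∈ Finset.range m, |(S (x (j + 1)) - S (x j)) - A * ∫ z in x j..x (j + 1), f z| ≤
      K * (τ / m) * (F (x (j + 1)) - F (x j)) + K * (2 * (ε * A)) + A * (K * (τ / m) * (τ / m)) := by
    intro j hj
    rw [Finset.mem_range] at hj
    have h1 := hcell (x j) (x (j + 1)) (hxle j) (hxnn _) (hxτ _ (by omega))
    rw [hxs] at h1
    have h2 := hIcell j hj
    have h3 := hFd (x j) (hxnn _) (hxτ _ (by omega))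
    have h4 := hFd (x (j + 1)) (hxnn _) (hxτ _ (by omega))
    have h5 : |(F (x (j + 1)) - F (x j)) - A * (τ / m)| ≤ 2 * (ε * A) := by
      rw [← hxs j]
      rw [abs_le] at h3 h4 ⊢
      constructor <;> linarith [h3.1, h3.2, h4.1, h4.2]
    have h6 := hf (x (j + 1)) (hxnn _) (hxτ _ (by omega))
    have h7 : |f (x (j + 1)) * (F (x (j + 1)) - F (x j)) - A * (f (x (j + 1)) * (τ / m))| ≤
        K * (2 * (ε * A)) := by
      have e1 : f (x (j + 1)) * (F (x (j + 1)) - F (x j)) - A * (f (x (j + 1)) * (τ / m)) =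
          f (x (j + 1)) * ((F (x (j + 1)) - F (x j)) - A * (τ / m)) := by ring
      rw [e1, abs_mul]
      exact mul_le_mul h6 h5 (abs_nonneg _) hK
    have e2 : (S (x (j + 1)) - S (x j)) - A * ∫ z in x j..x (j + 1), f z =
        ((S (x (j + 1)) - S (x j)) - f (x (j + 1)) * (F (x (j + 1)) - F (x j))) +
        (f (x (j + 1)) * (F (x (j + 1)) - F (x j)) - A * (f (x (j + 1)) * (τ / m))) +
        -(A * (∫ z in x j..x (j + 1), f z) - A * (f (x (j + 1)) * (τ / m))) := by ring
    rw [e2]
    refine (abs_add_le _ _).trans (add_le_add ((abs_add_le _ _).trans (add_le_add h1 h7)) ?_)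
    rw [abs_neg]; exact h2
  -- the mass at zero
  have hzero : |S 0| ≤ K * (ε * A) := by
    have h1 := hFd 0 le_rfl hτ0
    rw [mul_zero, sub_zero] at h1
    have hneg : S (-1) = 0 := by
      rw [hS]
      exact Finset.sum_eq_zero fun e _ => if_neg (by linarith [hD.sn e])
    have hnegF : F (-1) = 0 := by
      rw [hF]
      exact Finset.sum_eq_zero fun e _ => if_neg (by linarith [hD.sn e])
    have h2 : S 0 = f 0 * F 0 := by
      rw [hS, hF, Finset.mul_sum]
      refine Finset.sum_congr rfl fun e _ => ?_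
      by_cases he : s e ≤ 0
      · have : s e = 0 := le_antisymm he (hD.sn e)
        rw [if_pos he, if_pos he, this]; ring
      · rw [if_neg he, if_neg he]; ring
    rw [h2, abs_mul]
    exact mul_le_mul (hf 0 le_rfl hτ0) h1 (abs_nonneg _) hK
  have hF0 : 0 ≤ F 0 := by
    rw [hF]
    refine Finset.sum_nonneg fun e _ => ?_
    split_ifs
    · exact hD.wn e
    · exact le_rfl
  have hFτ : F τ ≤ 2 * A := by
    have h1 := (abs_le.1 (hFd τ hτ0 le_rfl)).2
    nlinarith
  have htot : |S τ - A * ∫ z in (0 : ℝ)..τ, f z| ≤ K * (ε * A) +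
      (K * (τ / m) * (F τ - F 0) + m * (K * (2 * (ε * A))) + m * (A * (K * (τ / m) * (τ / m)))) := by
    have e1 : S τ - A * ∫ z in (0 : ℝ)..τ, f z = S 0 +
        ∑ j ∈ Finset.range m, ((S (x (j + 1)) - S (x j)) - A * ∫ z in x j..x (j + 1), f z) := by
      have e2 : ∑ j ∈ Finset.range m,
          ((S (x (j + 1)) - S (x j)) - A * ∫ z in x j..x (j + 1), f z) =
          ∑ j ∈ Finset.range m, (S (x (j + 1)) - S (x j)) -
            A * ∑ j ∈ Finset.range m, ∫ z in x j..x (j + 1), f z := by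
        rw [Finset.mul_sum, ← Finset.sum_sub_distrib]
      rw [e2, hSsum, hI]; ring
    rw [e1]
    refine (abs_add_le _ _).trans (add_le_add hzero ?_)
    refine (Finset.abs_sum_le_sum_abs _ _).trans ((Finset.sum_le_sum hone).trans (le_of_eq ?_))
    rw [Finset.sum_add_distrib, Finset.sum_add_distrib, Finset.sum_const, Finset.sum_const,
      Finset.card_range, nsmul_eq_mul, nsmul_eq_mul, ← Finset.mul_sum]
    have : ∑ j ∈ Finset.range m, (F (x (j + 1)) - F (x j)) = F τ - F 0 := by
      rw [hFsum]; ring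
    rw [this]
  refine htot.trans ?_
  have hτm : τ / m ≤ 1 / m := by gcongr
  have hτm0 : 0 ≤ τ / m := by positivity
  have b1 : K * (τ / m) * (F τ - F 0) ≤ 2 * K / m * A := by
    calc K * (τ / m) * (F τ - F 0) ≤ K * (1 / m) * (2 * A) := by
          apply mul_le_mul _ (by linarith) _ (by positivity)
          · exact mul_le_mul_of_nonneg_left hτm hK
          · have : 0 ≤ ∑ j ∈ Finset.range m, (F (x (j + 1)) - F (x j)) := by
              refine Finset.sum_nonneg fun j _ => ?_
              rw [hF, hF, ← Finset.sum_sub_distrib]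
              refine Finset.sum_nonneg fun e _ => ?_
              by_cases h1 : s e ≤ x j
              · rw [if_pos h1, if_pos (h1.trans (hxle j)), sub_self]
              · rw [if_neg h1, sub_zero]
                split_ifs
                · exact hD.wn e
                · exact le_rfl
            linarith [hFsum]
      _ = 2 * K / m * A := by ring
  have b2 : m * (A * (K * (τ / m) * (τ / m))) ≤ K / m * A := by
    calc m * (A * (K * (τ / m) * (τ / m))) ≤ m * (A * (K * (1 / m) * (1 / m))) := by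
          gcongr
      _ = K / m * A := by field_simp
  have b3 : K * (ε * A) + m * (K * (2 * (ε * A))) ≤ 3 * K * m * ε * A := by
    have h1 : K * (ε * A) ≤ m * (K * (ε * A)) := le_mul_of_one_le_left (by positivity) hm1.le
    calc K * (ε * A) + m * (K * (2 * (ε * A))) ≤ m * (K * (ε * A)) + m * (K * (2 * (ε * A))) := by
          linarith
      _ = _ := by ring
  have b4 : 3 * K / m * A + 3 * K * m * ε * A ≤ ε0 * A := by
    have := mul_le_mul_of_nonneg_right (add_le_add hmK hε2) hA.le
    linarith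
  have b5 : 2 * K / m * A + K / m * A = 3 * K / m * A := by ring
  linarith

end Pool.Agent.PT
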