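import Pool.Agent.PT.Defs

set_option autoImplicit false

/-!
# PT / StD: density block (DENS, SUBST, RIEMANN), statements with proofs

Order of the constants everywhere: `ε`, then `w ≥ w0(ε)`, then `M ≥ M0(ε, w)`, then `N → ∞`.
-/

namespace Pool.Agent.PT

open Finset Filter Pool.Agent.MT MeasureTheory

open Classical in
/-- the weighted points `(s e, wt e)` are within `ε A` of `A` times Lebesgue measure on `[0, ρ]` -/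
structure Dist {E : Type} [Fintype E] (wt s : E → ℝ) (A ε ρ : ℝ) : Prop where
  wn : ∀ e, 0 ≤ wt e
  sn : ∀ e, 0 ≤ s e
  le : ∀ t, 0 ≤ t → t ≤ ρ → |(∑ e, if s e ≤ t then wt e else 0) - A * t| ≤ ε * A

open Classical in
/-- DG. `G(t) = ∑_{r ≤ N^t} μ²(r)/φ(r)`, `r` composed of primes `> w`.
PROOF. Copy `MT.PH_lower`, `MT.PH_upper` (`MT/Phi.lean`, private lemmas `ph_lemA`, `ph_lemB`,
`ph_harm`, `ph_coprime_sum`, `ph_tel`). Lower bound (no prime `p₁` here):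
`phW w * log (⌊N^t⌋ + 1) ≤ phW w * ∑_{n ≤ N^t} 1/n ≤ G(t)`, so `phW w * t * log N ≤ G(t)`.
Upper bound: `G(t) ≤ exp(∑_{p > w} 1/(p(p-1))) * (W + phW w * (1 + t log N))`,
`∑_{p > w} 1/(p(p-1)) ≤ 1/w`; `W = primorial w` is a constant, so this is
`≤ phW w log N (t + (exp(1/w) - 1) ρ + o(1))`. -/
def St_DG : Prop :=
  ∀ ε : ℝ, 0 < ε → ∃ w0 : ℕ, ∀ w : ℕ, w0 ≤ w → ∀ ρ : ℝ, 0 < ρ → ρ ≤ 1 → ∀ᶠ N : ℕ in atTop,
    ∀ t : ℝ, 0 ≤ t → t ≤ ρ →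
      |(∑ e : Finset (PP w (XR ρ N)),
          if ∑ i ∈ e, Real.log (pr i) ≤ t * Real.log N then ∏ i ∈ e, qq i else 0) -
        AA w N * t| ≤ ε * AA w N

/-- DS. The same for the rounded sizes.
PROOF. For `e : Finset (PP w (XR ρ N))` put `l(e) = ∑_{i ∈ e} log (pr i) / log N`. Every prime has
`log p / log N ≤ sz M N p ≤ log p / log N + (1/M if p > N^(1/1000))`. So `l(e) ≤ ss M N e`, and if
`l(e) ≤ 1/2` then `e` has at most `500` primes `> N^(1/1000)`, so `ss M N e ≤ l(e) + 500/M`.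
Hence `G(t - 500/M) ≤ ∑_{ss e ≤ t} ∏ q ≤ G(t)` (for `t ≥ 500/M`, otherwise `0 ≤`), use DG with
`ε/2` and `M0 ≥ 1000/ε`. -/
def St_DS : Prop :=
  ∀ ε : ℝ, 0 < ε → ∃ w0 M0 : ℕ, ∀ w : ℕ, w0 ≤ w → ∀ M : ℕ, M0 ≤ M → ∀ ρ : ℝ, 0 < ρ → ρ ≤ 1 / 2 →
    ∀ᶠ N : ℕ in atTop,
      Dist (fun e : Finset (PP w (XR ρ N)) => ∏ i ∈ e, qq i) (ss M N) (AA w N) ε ρ

/-- DP. Two perturbed weights.
PROOF. (i) `∏_{i∈e} q(1+q) = ∑_{f ⊆ e} ∏_f q² ∏_{e \ f} q`, and `ss (e \ f) ≤ ss e`, so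
`G(t) ≤ G'(t) ≤ ∏_i (1 + q_i²) G(t)`, `∏ (1 + q²) ≤ exp(∑_{p > w} 1/(p-1)²) ≤ exp(2/w)`.
(ii) `∏_{i∈e} (1 - 4q²) ≥ 1 - 4 ∑_{i ∈ e} q_i²` and
`∑_{e : ss e ≤ t, i ∈ e} ∏_e q ≤ q_i G(t)`, so `G(t)(1 - 4 ∑ q_i³) ≤ G''(t) ≤ G(t)`.
With `G(t) ≤ 2 A` and DS for `ε/2`. -/
def St_DP : Prop :=
  ∀ ε : ℝ, 0 < ε → ∃ w0 M0 : ℕ, ∀ w : ℕ, w0 ≤ w → ∀ M : ℕ, M0 ≤ M → ∀ ρ : ℝ, 0 < ρ → ρ ≤ 1 / 2 →
    ∀ᶠ N : ℕ in atTop,
      Dist (fun e : Finset (PP w (XR ρ N)) => ∏ i ∈ e, (qq i * (1 + qq i)))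
        (ss M N) (AA w N) ε ρ ∧
      Dist (fun e : Finset (PP w (XR ρ N)) => ∏ i ∈ e, (qq i * (1 - 4 * qq i ^ 2)))
        (ss M N) (AA w N) ε ρ

open Classical in
/-- D1. Sums of Lipschitz functions, one variable.
PROOF. Cut `[0,τ]` into `m` equal intervals (the first one closed, the others half open). On each
interval replace `f (s e)` by the value at the right end point: error
`≤ K (τ/m) ∑_{s e ≤ τ} wt e ≤ K (1/m) (1+ε) A`. The mass of an interval is `A τ/m + O(2 ε A)`, so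
`∑_j f(x_j) mass_j = A (τ/m) ∑_j f(x_j) + O(2 m K ε A)`, and the Riemann sum is within `K/m` of the
integral. Choose `m` with `4K/m ≤ ε0/2`, then `ε`. (Case `τ = 0`: mass at `0` is `≤ ε A`.) -/
def St_D1 : Prop :=
  ∀ K ε0 : ℝ, 0 < ε0 → ∃ ε : ℝ, 0 < ε ∧ ∀ (E : Type) [Fintype E] (wt s : E → ℝ) (A ρ : ℝ),
    0 < A → 0 < ρ → ρ ≤ 1 → Dist wt s A ε ρ →
    ∀ (τ : ℝ) (f : ℝ → ℝ), 0 ≤ τ → τ ≤ ρ → (∀ x, 0 ≤ x → x ≤ τ → |f x| ≤ K) →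
      (∀ x y, 0 ≤ x → x ≤ τ → 0 ≤ y → y ≤ τ → |f x - f y| ≤ K * |x - y|) →
      |(∑ e, if s e ≤ τ then wt e * f (s e) else 0) - A * ∫ x in (0 : ℝ)..τ, f x| ≤ ε0 * A

open Classical in
/-- D2. Two variables, on a triangle.
PROOF. For `s e ≤ σ` apply D1 to `f (s e) ·` on `[0, σ - s e]` with `ε1`: the inner sum is
`A g(s e) + O(ε1 A)`, `g a = ∫_0^{σ-a} f a b db`; `|g| ≤ K`, `g` is `2K`-Lipschitz on `[0,σ]`
(for `a ≤ a'`: `|g a - g a'| ≤ K |a - a'| (σ - a') + K |a - a'|`). Then D1 for `g` with constant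
`2K` (or `max`), total mass `∑_{s e ≤ σ} wt e ≤ 2 A`. -/
def St_D2 : Prop :=
  ∀ K ε0 : ℝ, 0 < ε0 → ∃ ε : ℝ, 0 < ε ∧ ∀ (E : Type) [Fintype E] (wt s : E → ℝ) (A ρ : ℝ),
    0 < A → 0 < ρ → ρ ≤ 1 → Dist wt s A ε ρ →
    ∀ (σ : ℝ) (f : ℝ → ℝ → ℝ), 0 ≤ σ → σ ≤ ρ →
      (∀ a b, 0 ≤ a → 0 ≤ b → a + b ≤ σ → |f a b| ≤ K) →
      (∀ a b a' b', 0 ≤ a → 0 ≤ b → a + b ≤ σ → 0 ≤ a' → 0 ≤ b' → a' + b' ≤ σ →
        |f a b - f a' b'| ≤ K * (|a - a'| + |b - b'|)) →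
      |(∑ e, ∑ e', if s e + s e' ≤ σ then wt e * wt e' * f (s e) (s e') else 0) -
        A ^ 2 * ∫ a in (0 : ℝ)..σ, ∫ b in (0 : ℝ)..(σ - a), f a b| ≤ ε0 * A ^ 2

open Classical in
/-- D3. Three variables, on the region of the profiles.
PROOF. As D2: inner sum over `e''` by D1 for `f (s e) (s e') ·` on `[0, ρ - max (s e) (s e')]`,
`g a b = ∫_0^{ρ - max a b} f a b c dc` is bounded by `K` and `2K`-Lipschitz on `a + b ≤ ρ`; then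
D2 with `σ = ρ` and constant `2K`; total mass of the pairs `≤ 4 A²`. -/
def St_D3 : Prop :=
  ∀ K ε0 : ℝ, 0 < ε0 → ∃ ε : ℝ, 0 < ε ∧ ∀ (E : Type) [Fintype E] (wt s : E → ℝ) (A ρ : ℝ),
    0 < A → 0 < ρ → ρ ≤ 1 → Dist wt s A ε ρ →
    ∀ f : (Fin 3 → ℝ) → ℝ, (∀ a, Reg ρ a → |f a| ≤ K) →
      (∀ a a', Reg ρ a → Reg ρ a' → |f a - f a'| ≤ K * ∑ i, |a i - a' i|) →
      |(∑ e, ∑ e', ∑ e'', if Reg ρ ![s e, s e', s e''] then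
          wt e * wt e' * wt e'' * f ![s e, s e', s e''] else 0) -
        A ^ 3 * ∫ a in (0 : ℝ)..ρ, ∫ b in (0 : ℝ)..(ρ - a), ∫ c in (0 : ℝ)..(ρ - max a b),
          f ![a, b, c]| ≤ ε0 * A ^ 3

/-- HH. Analytic properties of the tail integrals.
PROOF. For `a, b ≥ 0`: if `a + b ≤ ρ` then `Reg ρ (cor j a b t)` iff `0 ≤ t ≤ ρ - max a b`, so
`t ↦ F (cor j a b t)` is `K`-Lipschitz there and `0` elsewhere, hence interval integrable; if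
`a + b > ρ` it is `0`. So `hh F ρ j a b u = ∫_u^{ρ - max a b}` if `0 ≤ u ≤ ρ - max a b`, and `0`
if `u > ρ - max a b`. All bounds follow (`ρ ≤ 1`): (4) split at the smaller of the two upper
limits: `K (|a-a'|+|b-b'|) ρ + K |max a b - max a' b'|`. For `hB`: `2^n` summands. -/
def St_HH : Prop :=
  ∀ (ρ K : ℝ) (F : (Fin 3 → ℝ) → ℝ), 0 < ρ → ρ ≤ 1 → Prof ρ K F → ∀ j : Fin 3,
    (∀ a b x y : ℝ, 0 ≤ a → 0 ≤ b →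
      IntervalIntegrable (fun t => F (cor j a b t)) volume x y) ∧
    (∀ a b u : ℝ, 0 ≤ a → 0 ≤ b → 0 ≤ u → |hh F ρ j a b u| ≤ K) ∧
    (∀ a b u : ℝ, 0 ≤ a → 0 ≤ b → 0 ≤ u → ρ < a + b → hh F ρ j a b u = 0) ∧
    (∀ a b a' b' u : ℝ, 0 ≤ a → 0 ≤ b → a + b ≤ ρ → 0 ≤ a' → 0 ≤ b' → a' + b' ≤ ρ → 0 ≤ u →
      |hh F ρ j a b u - hh F ρ j a' b' u| ≤ 2 * K * (|a - a'| + |b - b'|)) ∧
    (∀ a b u u' : ℝ, 0 ≤ a → 0 ≤ b → 0 ≤ u → 0 ≤ u' →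
      |hh F ρ j a b u - hh F ρ j a b u'| ≤ K * |u - u'|) ∧
    (∀ (n : ℕ) (u : Fin n → ℝ) (a b : ℝ), (∀ i, 0 ≤ u i) → 0 ≤ a → 0 ≤ b →
      |hB F ρ j u a b| ≤ 2 ^ n * K) ∧
    (∀ (n : ℕ) (u : Fin n → ℝ) (a b a' b' : ℝ), (∀ i, 0 ≤ u i) → 0 ≤ a → 0 ≤ b → a + b ≤ ρ →
      0 ≤ a' → 0 ≤ b' → a' + b' ≤ ρ →
      |hB F ρ j u a b - hB F ρ j u a' b'| ≤ 2 ^ n * (2 * K) * (|a - a'| + |b - b'|)) ∧
    (∀ (n : ℕ) (u u' : Fin n → ℝ) (a b : ℝ), (∀ i, 0 ≤ u i) → (∀ i, 0 ≤ u' i) → 0 ≤ a → 0 ≤ b →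
      |hB F ρ j u a b - hB F ρ j u' a b| ≤ 2 ^ n * K * ∑ i, |u i - u' i|)

/-- HJ. `JJ` is nonnegative, bounded and Lipschitz in the sizes.
PROOF. On the triangle `a, b ≥ 0`, `a + b ≤ σ ≤ ρ` the function `hB² ` is continuous (HH) and
`|hB(u)² - hB(u')²| ≤ 2 · 2^n K · 2^n K ∑|u_i - u'_i|`; the integrals over `b` are continuous in `a`
(Lipschitz integrand and limit), so all interval integrals exist; area `≤ 1`. -/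
def St_HJ : Prop :=
  ∀ (ρ σ K : ℝ) (F : (Fin 3 → ℝ) → ℝ), 0 < ρ → ρ ≤ 1 → 0 < σ → σ ≤ ρ → Prof ρ K F →
    ∀ (j : Fin 3) (n : ℕ) (u u' : Fin n → ℝ), (∀ i, 0 ≤ u i) → (∀ i, 0 ≤ u' i) →
      0 ≤ JJ F ρ σ j u ∧ JJ F ρ σ j u ≤ (2 ^ n * K) ^ 2 ∧
      |JJ F ρ σ j u - JJ F ρ σ j u'| ≤ 2 * (2 ^ n * K) ^ 2 * ∑ i, |u i - u' i|

/-- DI. Dropping the disjointness of the parts.
PROOF. `τ ↦ (part τ 0, part τ 1, part τ 2)` is injective (`MT.Sums_part_inj`), and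
`∏_{supp τ} v = ∏_h ∏_{part τ h} v` (`MT.Sums_supp`). -/
def St_DI : Prop :=
  ∀ (ι : Type) [Fintype ι] [DecidableEq ι] (v : ι → ℝ) (Φ : Finset ι → Finset ι → Finset ι → ℝ),
    (∀ i, 0 ≤ v i) → (∀ a b c, 0 ≤ Φ a b c) →
    ∑ τ : ι → Option (Fin 3), Φ (part τ 0) (part τ 1) (part τ 2) * ∏ i ∈ supp τ, v i ≤
      ∑ a : Finset ι, ∑ b : Finset ι, ∑ c : Finset ι,
        Φ a b c * ((∏ i ∈ a, v i) * (∏ i ∈ b, v i) * (∏ i ∈ c, v i))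

open Classical in
/-- DJ. Configurations without the value `j` are pairs of disjoint sets.
PROOF. Bijection `τ ↦ (part τ (o1 j), part τ (o2 j))` onto the disjoint pairs (`Fin 3` is
`{j, o1 j, o2 j}`, check by `fin_cases j`), `supp τ` is the union. -/
def St_DJ : Prop :=
  ∀ (ι : Type) [Fintype ι] [DecidableEq ι] (j : Fin 3) (v : ι → ℝ)
    (Φ : Finset ι → Finset ι → ℝ),
    (∑ τ : ι → Option (Fin 3), if ∀ i, τ i ≠ some j then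
      Φ (part τ (o1 j)) (part τ (o2 j)) * ∏ i ∈ supp τ, v i else 0) =
    ∑ a : Finset ι, ∑ b : Finset ι, if Disjoint a b then
      Φ a b * ((∏ i ∈ a, v i) * ∏ i ∈ b, v i) else 0

/-- SQ. PROOF. `∑_{p > w} 1/(p-1)² ≤ ∑_{m ≥ w} 1/m² ≤ 1/(w-1) ≤ 2/w` (telescoping, compare
`ph_tel` in `MT/Phi.lean`). -/
def St_SQ : Prop := ∀ w X : ℕ, 2 ≤ w → ∑ i : PP w X, qq i ^ 2 ≤ 2 / (w : ℝ)

open Classical in
/-- `G(ρ)` with the rounded sizes -/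
noncomputable def GG (w X M N : ℕ) (ρ : ℝ) : ℝ :=
  ∑ e : Finset (PP w X), if ss M N e ≤ ρ then ∏ i ∈ e, qq i else 0

/-- the main part of the coefficient `tB` -/
noncomputable def tm {w X : ℕ} (F : (Fin 3 → ℝ) → ℝ) (M N : ℕ) (j : Fin 3) {n : ℕ}
    (u : Fin n → ℝ) (a b : ℝ) : ℝ :=
  ∑ e : Finset (PP w X), (∏ i ∈ e, qq i) * FB F j u (cor j a b (ss M N e))

open Classical in
/-- PR. Pairs of sets with common elements; elements of the pair.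
PROOF. (i) a common element `i`: `∏_a v ∏_b v = v_i² ∏_{a \ i} v ∏_{b \ i} v` and `a ↦ a.erase i` is
injective on the sets which contain `i`, sizes decrease. (ii) `∑_{a} (∑_{i ∈ a} v_i) ∏_a v =
∑_i v_i ∑_{a ∋ i} ∏_a v ≤ ∑_i v_i² G`; `supp = a ∪ b`. (iii) single sum version. -/
def St_PR : Prop :=
  ∀ (ι : Type) [Fintype ι] [DecidableEq ι] (v z : ι → ℝ) (ρ G V : ℝ), (∀ i, 0 ≤ v i) →
    (∀ i, 0 ≤ z i) → G = (∑ a : Finset ι, if ∑ i ∈ a, z i ≤ ρ then ∏ i ∈ a, v i else 0) →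
    V = ∑ i, v i ^ 2 →
    (∑ a : Finset ι, ∑ b : Finset ι, (if ¬ Disjoint a b ∧ ∑ i ∈ a, z i ≤ ρ ∧ ∑ i ∈ b, z i ≤ ρ then
      (∏ i ∈ a, v i) * ∏ i ∈ b, v i else 0)) ≤ V * G ^ 2 ∧
    (∑ a : Finset ι, ∑ b : Finset ι, (if Disjoint a b ∧ ∑ i ∈ a, z i ≤ ρ ∧ ∑ i ∈ b, z i ≤ ρ then
      ((∑ i ∈ a, v i) + ∑ i ∈ b, v i) * ((∏ i ∈ a, v i) * ∏ i ∈ b, v i) else 0)) ≤
      2 * V * G ^ 2

/-- TB. Expansion of the coefficients `tB`.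
PROOF. In `tB τ = ∑_σ FB(szs σ) sg σ ∏_i lc {j} (1/p) (1/(p-1)) (σ i) (τ i)` the factor of a prime `i`
is: `τ i = some h`, `h ≠ j`: only `σ i = some h`, factor `-p/(p-1)` (so these give `sg τ`);
`τ i = some j`: always `0`; `τ i = none`: `σ i = none` gives `1`, `σ i = some j` gives
`(-p/(p-1)) (-1/p) = q_i`, `σ i = some h`, `h ≠ j`, gives `(-p/(p-1)) (1/(p-1) - 1/p) = -q_i²`.
`FB F j u a` is at most `2^n K` and vanishes if `a j > ρ` or `a (o1 j) + a (o2 j) > ρ` (`u ≥ 0`;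
`Reg`), and `σ ⊇ τ` has larger sizes. So `|tB| ≤ |sg τ| 2^n K GG ∏ (1 + 2 q_i²)`, and the product is
`≤ exp(4/w) ≤ 2` (SQ, `w ≥ 8`). Second part: the `σ` which have a value `h ≠ j` outside `supp τ`
contribute at most `2^n K GG (∏ (1 + 2 q²) - 1) ≤ 2^n K GG 8/w`; the other `σ` give
`∑_{e ∩ supp τ = ∅} ∏_e q FB(cor j a b (ss e))` (`szs σ = cor j a b (ss e)`), which differs from `tm`
by the `e` that meet `supp τ`: at most `2^n K GG ∑_{i ∈ supp τ} q_i`. -/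
def St_TB : Prop :=
  ∀ (ρ K : ℝ) (F : (Fin 3 → ℝ) → ℝ) (w X M N : ℕ) (j : Fin 3) (n : ℕ) (u : Fin n → ℝ), 8 ≤ w →
    0 < ρ → Prof ρ K F → (∀ i, 0 ≤ u i) → ∀ τ : PP w X → Option (Fin 3),
      ((∃ i, τ i = some j) → tB F M N j u τ = 0) ∧
      (ρ < szs M N τ (o1 j) + szs M N τ (o2 j) → tB F M N j u τ = 0) ∧
      |tB F M N j u τ| ≤ |sg τ| * (2 ^ n * K) * (2 * GG w X M N ρ) ∧
      ((∀ i, τ i ≠ some j) →
        |tB F M N j u τ - sg τ * tm (w := w) (X := X) F M N j u (szs M N τ (o1 j))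
          (szs M N τ (o2 j))| ≤
          |sg τ| * (2 ^ n * K) * GG w X M N ρ * (8 / w + ∑ i ∈ supp τ, qq i))

/-- TM. The main part of `tB`.
PROOF. `tm = ∑_S (-1)^|S| ∑_e ∏_e q F(cor j a b (ss e + u_S))`. If `a + b > ρ` everything is `0`.
Otherwise put `m = max a b`, `τ_S = ρ - m - u_S`. If `τ_S < 0` both sides vanish for this `S`. If
`τ_S ≥ 0`, the summand is `0` unless `ss e ≤ τ_S`, and D1 with `f x = F(cor j a b (x + u_S))` on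
`[0, τ_S]` (bounded by `K`, `K`-Lipschitz) gives `AA ∫_0^{τ_S} f = AA hh F ρ j a b u_S` (substitution,
`F = 0` on `(ρ - m, ρ]`). At most `8` sets `S`: D1 with `ε/8`. -/
def St_TM : Prop :=
  ∀ K ε : ℝ, 0 < ε → ∃ ε1 : ℝ, 0 < ε1 ∧ ∀ (ρ : ℝ) (F : (Fin 3 → ℝ) → ℝ) (w X M N : ℕ), 0 < ρ →
    ρ ≤ 1 → Prof ρ K F → 0 < AA w N →
    Dist (fun e : Finset (PP w X) => ∏ i ∈ e, qq i) (ss M N) (AA w N) ε1 ρ →
    ∀ (j : Fin 3) (n : ℕ) (u : Fin n → ℝ) (a b : ℝ), n ≤ 3 → (∀ i, 0 ≤ u i) → 0 ≤ a → 0 ≤ b →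
      |tm (w := w) (X := X) F M N j u a b - AA w N * hB F ρ j u a b| ≤ ε * AA w N

/-! ### The four results of the block -/

/-- I1. (`cc² ∏ bb` is at most `F² ∏ q (1 + q)`.)
PROOF. DI with `v = q (1 + q)`, `Φ a b c = F ![ss a, ss b, ss c]²` (`szs τ = ![..]` of the parts), then
D3 with `f = F²` (constant `2 K²`, `K ≥ 0`), `F = 0` outside `Reg`, Dist from DP (i). The iterated
integral of D3 is `II F ρ` because `F = 0` on the rest of the cube. `AA w N > 0` for `N ≥ 2`. -/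
def St_S1 : Prop :=
  ∀ (ρ K ε : ℝ) (F : (Fin 3 → ℝ) → ℝ), 0 < ρ → ρ < 1 / 2 → Prof ρ K F → 0 < ε →
    ∃ w0 M0 : ℕ, ∀ w M : ℕ, w0 ≤ w → M0 ≤ M → ∀ᶠ N : ℕ in atTop,
      ∑ τ : PP w (XR ρ N) → Option (Fin 3), F (szs M N τ) ^ 2 *
        ∏ i ∈ supp τ, (qq i * (1 + qq i)) ≤ AA w N ^ 3 * (II F ρ + ε)

/-- I2.
PROOF. TB and `GG ≤ AA` (DS with `ε = 1/2`, `t = ρ < 1/2`), `2^n ≤ 8`. -/
def St_tB : Prop :=
  ∀ (ρ K : ℝ) (F : (Fin 3 → ℝ) → ℝ), 0 < ρ → ρ < 1 / 2 → Prof ρ K F →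
    ∃ w0 M0 : ℕ, ∀ w M : ℕ, w0 ≤ w → M0 ≤ M → ∀ᶠ N : ℕ in atTop,
      ∀ (j : Fin 3) (n : ℕ) (u : Fin n → ℝ), n ≤ 3 → (∀ i, 0 ≤ u i) →
        ∀ τ : PP w (XR ρ N) → Option (Fin 3),
          |tB F M N j u τ| ≤ 16 * K * (|sg τ| * AA w N) ∧
          (ρ < szs M N τ (o1 j) + szs M N τ (o2 j) → tB F M N j u τ = 0) ∧
          ((∃ i, τ i = some j) → tB F M N j u τ = 0)

/-- I3.
PROOF. Let `A = AA w N`, `B = 8 K`. For `τ` without the value `j` and `a + b ≤ σ`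
(`a = szs τ (o1 j)`, `b = szs τ (o2 j)`), by TB, TM (`ε10`), `GG ≤ A`:
`tK τ = tB τ = sg τ (A h + r)`, `h = hB F ρ j u a b`, `|h| ≤ B`,
`|r| ≤ A (δ + B ∑_{supp τ} q)`, `δ = 8 B/w + ε10`. So
`tK² ∏ q (1 - 2q) ≥ sg² ∏ q (1 - 2q) (A² h² - 2 A |h| |r|)`, `sg² = ∏ (1 + q)²`,
`q (1 - 4 q²) ≤ (1 + q)² q (1 - 2 q) ≤ q` (`q ≤ 1/2`), hence
`≥ A² h² ∏ q (1 - 4 q²) - 2 A² B (δ + B ∑_{supp τ} q) ∏ q`.
Sum over `τ`: DJ turns the sums into sums over disjoint pairs. First term: all pairs minus the pairs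
which are not disjoint; all pairs: D2 with `f = hB²` (constant `4 B²`, HH) and Dist from DP (ii):
`≥ A^4 (JJ - ε2)`; not disjoint: `≤ A² B² (2/w) A²` (PR, SQ, `∏ q (1 - 4q²) ≤ ∏ q`). Second term:
`≤ 2 A² B δ A² + 2 A² B² (4/w) A²` (PR, SQ; `a + b ≤ σ ≤ ρ`). -/
def St_J : Prop :=
  ∀ (ρ σ K ε : ℝ) (F : (Fin 3 → ℝ) → ℝ), 0 < ρ → ρ < 1 / 2 → 0 < σ → σ ≤ ρ → Prof ρ K F →
    0 < ε → ∃ w0 M0 : ℕ, ∀ w M : ℕ, w0 ≤ w → M0 ≤ M → ∀ᶠ N : ℕ in atTop,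
      ∀ (j : Fin 3) (n : ℕ) (u : Fin n → ℝ), n ≤ 3 → (∀ i, 0 ≤ u i) →
        AA w N ^ 4 * (JJ F ρ σ j u - ε) ≤
          ∑ τ : PP w (XR ρ N) → Option (Fin 3), tK F σ M N j u τ ^ 2 *
            ∏ i ∈ supp τ, (qq i * (1 - 2 * qq i))

/-- I4. Riemann sums over the boxes.
PROOF. `cell k = ∏ (k_i/M, (k_i + 1)/M]`. Put
`f_M(u) = ∑_{k ∈ boxes} 1_{cell k}(u) JJ(uu k M) (∏ 1/u_i)/(1 - ∑ k_i/M)`. Then
`∫ f_M = ∑_k mu k M JJ(uu k M)` (product of one dimensional integrals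
`∫_{k/M}^{(k+1)/M} dx/x = log((k+1)/k)`), `f_M ≥ 0`. For `u ∈ DD ρ n` (an open set) and `M` large
the `k` with `u ∈ cell k` is in `boxes` (all the conditions of `DD` are strict) and
`f_M(u) → JJ(u) dens u` (HJ: Lipschitz). On `DD` (inside `[0,1]^n`) `f_M ≤ (2^n K)² 1000^n / ρ`
(cells are disjoint). Dominated convergence on `DD`:
`∫_DD JJ dens = lim ∫_DD f_M ≤ lim inf ∫ f_M`. -/
def St_R : Prop :=
  ∀ (ρ σ K ε : ℝ) (F : (Fin 3 → ℝ) → ℝ) (j : Fin 3) (n : ℕ), 0 < ρ → ρ < 1 / 2 → 0 < σ → σ ≤ ρ →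
    Prof ρ K F → 0 < ε → ∃ M0 : ℕ, ∀ M : ℕ, M0 ≤ M →
      QQ F ρ σ j n - ε ≤ ∑ k ∈ boxes ρ M n, mu k M * JJ F ρ σ j (uu k M)

/-! ### The mass of a box -/

/-- MC. PROOF. `CH.thm_MR` (`CH/MR.lean`) with `g = 1`, `∫_u^v dx/x = log (v/u)`. -/
def St_MC : Prop :=
  ∀ α β ε : ℝ, 0 < α → α < β → β ≤ 1 → 0 < ε → ∀ᶠ N : ℕ in atTop,
    |∑ p ∈ (range (N + 1)).filter (fun p : ℕ => p.Prime ∧ (N : ℝ) ^ α < p ∧ (p : ℝ) ≤ (N : ℝ) ^ β),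
      1 / (p : ℝ) - Real.log (β / α)| ≤ ε

/-- MG. Mass of a box.
PROOF. `n = 0`: `al = 1` only for `a = 1`, so `bx` is the indicator of the primes (`m ≥ 1`), and
`B0 ≥ PTB.w0 (PTB.wp η N) N`; use `PTB.St_MassP`. `n ≥ 1`: `al k M N` is `PTB.Adm κ N` with
`κ = 1/1000` (third condition of `BoxOK`: `1 - ∑ (k_l + 1)/M > 1/1000`), `B0 η N (bx k M N) =
PTB.w0 (PTB.wa η (al k M N) N) N`, so by `PTB.St_MassA` it is at least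
`mη N (∑_a al(a)/(a log(N/a))) - ε' (N/log N) ∑_a al(a)/a`. The products are pairwise different for
different `(p_1 < .. < p_n)` (the cells are disjoint and increasing, unique factorisation), so
`∑_a al(a)/a = ∏_i ∑_{p in cell i} 1/p → ∏ log((k_i + 1)/k_i)` (MC; finite product), and
`log(N/a) ≤ (1 - ∑ k_i/M) log N`. -/
def St_MG : Prop :=
  ∀ η : ℝ → ℝ, IsWt η → ∀ (ρ ε : ℝ) (M n : ℕ) (k : Fin n → ℕ), 0 < ρ → 0 < M → k ∈ boxes ρ M n →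
    0 < ε → ∀ᶠ N : ℕ in atTop,
      mη η * (N / Real.log N) * (mu k M - ε) ≤ B0 η N (bx k M N)

end Pool.Agent.PT
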