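import Pool.Agent.PT.FinA
import Pool.Agent.PTN.Prof

set_option autoImplicit false

/-!
# PT / FinC

The theorems for the profiles `FP c e ρ`.
-/

namespace Pool.Agent.PT

open Finset Filter Pool.Agent.PTN

theorem finc_key {c e ρ : ℝ} {x y : Fin 3 → ℝ} (h1 : Reg ρ x ↔ Reg ρ y)
    (h2 : x 0 + x 1 + x 2 = y 0 + y 1 + y 2)
    (h3 : x 0 * x 1 + x 0 * x 2 + x 1 * x 2 = y 0 * y 1 + y 0 * y 2 + y 1 * y 2) :
    FP c e ρ x = FP c e ρ y := by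
  unfold FP
  rw [h2, h3]
  by_cases h : Reg ρ y
  · rw [if_pos h, if_pos (h1.2 h)]
  · rw [if_neg h, if_neg fun h' => h (h1.1 h')]

theorem finc_sym (c e ρ : ℝ) : SymP (FP c e ρ) := by
  intro j a b t
  fin_cases j
  · rfl
  · refine finc_key ?_ ?_ ?_
    · unfold Reg cor o1
      simp only [Fin.forall_fin_succ]
      simp
      constructor <;> rintro ⟨h1, h2⟩ <;> constructor <;> grind
    · simp [cor, o1]; ring
    · simp [cor, o1]; ring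
  · refine finc_key ?_ ?_ ?_
    · unfold Reg cor o1
      simp only [Fin.forall_fin_succ]
      simp
      constructor <;> rintro ⟨h1, h2⟩ <;> constructor <;> grind
    · simp [cor, o1]; ring
    · simp [cor, o1]; ring

theorem finc_dat {ρ σ : ℝ} (c e : ℝ) (s0 : 0 < σ) (sr : σ ≤ ρ) (rs : ρ + σ < 1 / 2)
    (r3 : 3 * ρ < 1) : ∃ K, Dat ρ σ K (FP c e ρ) := by
  obtain ⟨K, hK⟩ := thm_Prof c e ρ (lt_of_lt_of_le s0 sr)
  have h0 : 0 ≤ K := (abs_nonneg _).trans (hK.bd 0)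
  refine ⟨K + 1, s0, sr, rs, by linarith, ⟨fun a => (hK.bd a).trans (by linarith), hK.zero,
    fun a a' h h' => (hK.lip a a' h h').trans ?_⟩, r3⟩
  have : 0 ≤ ∑ i, |a i - a' i| := sum_nonneg fun i _ => abs_nonneg _
  nlinarith

theorem finc_A (hcore : St_Core) {ρ σ c e : ℝ} (s0 : 0 < σ) (sr : σ ≤ ρ) (rs : ρ + σ < 1 / 2)
    (r3 : 3 * ρ < 1)
    (hn : 2 * II (FP c e ρ) ρ < ∑ j : Fin 3, ∑ n ∈ range 4,
      cA (n + 1) * QQ (FP c e ρ) ρ σ j n) : ThmA :=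
  fin_A hcore (finc_dat c e s0 sr rs r3).choose_spec hn

theorem finc_B (hcore : St_Core) {ρ σ c e : ℝ} (s0 : 0 < σ) (sr : σ ≤ ρ) (rs : ρ + σ < 1 / 2)
    (r3 : 3 * ρ < 1)
    (hn : 2 * II (FP c e ρ) ρ < ∑ j : Fin 3, ∑ n ∈ range 4,
      cA (n + 1) * QQ (FP c e ρ) ρ σ j n) : ThmB :=
  fin_B hcore (finc_dat c e s0 sr rs r3).choose_spec (finc_sym c e ρ) hn

theorem finc_C (hcore : St_Core) {ρ σ c e : ℝ} (s0 : 0 < σ) (sr : σ ≤ ρ) (rs : ρ + σ < 1 / 2)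
    (r3 : 3 * ρ < 1)
    (hn : 2 * II (FP c e ρ) ρ < 3 * QQ (FP c e ρ) ρ σ 0 0 +
      2 * (QQ (FP c e ρ) ρ σ 0 1 + QQ (FP c e ρ) ρ σ 0 2 + QQ (FP c e ρ) ρ σ 0 3)) : ThmC :=
  fin_C hcore (finc_dat c e s0 sr rs r3).choose_spec (finc_sym c e ρ) hn

end Pool.Agent.PT
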