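import Pool.Agent.PT.AllE
import Pool.Agent.PT.FinC
import Pool.Agent.PTN.NumA

set_option autoImplicit false

/-!
# PT / Out

The theorems A and B.
-/

namespace Pool.Agent.PT

open Finset Filter

/-- two `P_2` and one `P_3`, in some order -/
theorem thm_A : ThmA := by
  have h := Pool.Agent.PTN.thm_NumA
  unfold St_NumA at h
  rw [Pool.Agent.PTN.numa_FA] at h
  exact finc_A core_holds (by norm_num) (by norm_num) (by norm_num) (by norm_num) h

/-- `P_2` at a prescribed place, `P_3` at the two others -/
theorem thm_B : ThmB := by
  have h := Pool.Agent.PTN.thm_NumA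
  unfold St_NumA at h
  rw [Pool.Agent.PTN.numa_FA] at h
  exact finc_B core_holds (by norm_num) (by norm_num) (by norm_num) (by norm_num) h

end Pool.Agent.PT
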