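import Pool.Agent.PT.Stmts

set_option autoImplicit false

/-!
# PT / Adm

For every prime p <= w choose a residue, and glue them by the Chinese remainder theorem, by
induction on w.
-/

namespace Pool.Agent.PT

open Finset Filter Pool.Agent.MT

theorem thm_Adm : St_Adm := by
  intro sh hA w
  induction w with
  | zero => exact ⟨0, fun h => by rw [primorial_zero]; exact Nat.coprime_one_right _⟩
  | succ w ih =>
    obtain ⟨v, hv⟩ := ih
    by_cases hp : (w + 1).Prime
    · obtain ⟨a, ha⟩ := hA _ hp
      have hco : (w + 1).Coprime (primorial w) := by
        rw [hp.coprime_iff_not_dvd]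
        intro hd
        unfold primorial at hd
        rw [hp.prime.dvd_finsetProd_iff] at hd
        obtain ⟨q, hq, hd⟩ := hd
        simp only [Finset.mem_filter, Finset.mem_range] at hq
        have := (Nat.prime_dvd_prime_iff_eq hp hq.2).mp hd
        omega
      have hsucc : primorial (w + 1) = (w + 1) * primorial w := by
        unfold primorial
        rw [Finset.range_add_one, Finset.filter_insert, if_pos hp, Finset.prod_insert (by simp)]
      obtain ⟨v', h1, h2⟩ := Nat.chineseRemainder hco a v
      refine ⟨v', fun h => ?_⟩
      rw [hsucc]
      refine Nat.Coprime.mul_right ?_ ?_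
      · refine Nat.Coprime.symm ((hp.coprime_iff_not_dvd).2 fun hd => ha h ?_)
        exact ((h1.add_right (sh h)).dvd_iff dvd_rfl).mp hd
      · have h3 : (v' + sh h) ≡ (v + sh h) [MOD primorial w] := h2.add_right (sh h)
        have := h3.gcd_eq
        unfold Nat.Coprime
        rw [this]
        exact hv h
    · refine ⟨v, fun h => ?_⟩
      have : primorial (w + 1) = primorial w := by
        unfold primorial
        rw [Finset.range_add_one (n := w + 1), Finset.filter_insert, if_neg hp]
      rw [this]
      exact hv h

end Pool.Agent.PT
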