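import Pool.Agent.PT.Stmts

set_option autoImplicit false

/-!
# PT / BExp

Bilinear form of `MT.expand` (adapted from Pool/Agent/MT/Expand.lean).
-/

namespace Pool.Agent.PT

open Finset Filter Pool.Agent.MT

section

variable {ι κ : Type} [Fintype ι] [DecidableEq ι] [Fintype κ] [DecidableEq κ]

/-! ### Auxiliary facts -/

private theorem bexp_prod_sum (g : ι → Option κ → ℝ) :
    ∏ i, ∑ s, g i s = ∑ σ : ι → Option κ, ∏ i, g i (σ i) := by
  rw [Finset.prod_univ_sum, Fintype.piFinset_univ]

private theorem bexp_prod_sum2 (g : ι → Option κ → Option κ → ℝ) :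
    ∏ i, ∑ s, ∑ s', g i s s' = ∑ σ : ι → Option κ, ∑ σ' : ι → Option κ, ∏ i, g i (σ i) (σ' i) := by
  rw [bexp_prod_sum]
  refine Finset.sum_congr rfl fun σ _ => ?_
  rw [bexp_prod_sum]

/-- one-prime indicator -/
private def bexpCh (d y : Option κ) : ℝ := if d ≠ none → y = d then 1 else 0

private theorem bexpCh_none (y : Option κ) : bexpCh none y = 1 := by
  unfold bexpCh
  simp

private theorem bexpCh_some (h : κ) (y : Option κ) :
    bexpCh (some h) y = if y = some h then 1 else 0 := by
  unfold bexpCh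
  simp

private theorem bexpCh_prod (d Y : ι → Option κ) :
    ∏ i, bexpCh (d i) (Y i) = if ∀ i, d i ≠ none → Y i = d i then 1 else 0 := by
  unfold bexpCh
  rw [Finset.prod_boole]
  simp

/-- one-prime coefficients of a product of two basis functions -/
private def bexpN (b : ℝ) : Option κ → Option κ → Option κ → ℝ
  | none, none, none => 1
  | none, none, some _ => 0
  | some _, none, none => -b
  | some h, none, some f => if h = f then 1 else 0
  | none, some _, none => -b
  | none, some h', some f => if h' = f then 1 else 0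
  | some _, some _, none => b ^ 2
  | some h, some h', some f => (if h = f ∧ h' = f then 1 else 0) - (if h = f then b else 0) -
      (if h' = f then b else 0)

private theorem bexpN_spec (b : ℝ) (s s' y : Option κ) :
    bas b s y * bas b s' y = ∑ f, bexpN b s s' f * bexpCh f y := by
  rw [Fintype.sum_option]
  rcases s with _ | h <;> rcases s' with _ | h'
  · simp [bas, bexpN, bexpCh_none]
  · simp only [bas, bexpN, bexpCh_none, bexpCh_some, one_mul, mul_one]
    rcases y with _ | y
    · simp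
    · simp only [Option.some.injEq]
      have e : ∑ x : κ, (if h' = x then (1 : ℝ) else 0) * (if y = x then 1 else 0) =
          if y = h' then 1 else 0 := by
        rw [Finset.sum_eq_single h']
        · simp
        · intro x _ hx
          rw [if_neg (Ne.symm hx), zero_mul]
        · simp
      rw [e]
      ring
  · simp only [bas, bexpN, bexpCh_none, bexpCh_some, mul_one]
    rcases y with _ | y
    · simp
    · simp only [Option.some.injEq]
      have e : ∑ x : κ, (if h = x then (1 : ℝ) else 0) * (if y = x then 1 else 0) =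
          if y = h then 1 else 0 := by
        rw [Finset.sum_eq_single h]
        · simp
        · intro x _ hx
          rw [if_neg (Ne.symm hx), zero_mul]
        · simp
      rw [e]
      ring
  · simp only [bas, bexpN, bexpCh_none, bexpCh_some, mul_one]
    rcases y with _ | y
    · simp
      ring
    · simp only [Option.some.injEq]
      have e : ∑ x : κ, ((if h = x ∧ h' = x then (1 : ℝ) else 0) - (if h = x then b else 0) -
          (if h' = x then b else 0)) * (if y = x then 1 else 0) =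
          (if h = y ∧ h' = y then (1 : ℝ) else 0) - (if h = y then b else 0) -
          (if h' = y then b else 0) := by
        rw [Finset.sum_eq_single y]
        · simp
        · intro x _ hx
          rw [if_neg (Ne.symm hx), mul_zero]
        · simp
      rw [e]
      by_cases h1 : h = y <;> by_cases h2 : h' = y <;>
        simp [h1, h2, eq_comm] <;> ring

private theorem bexpN_bound {b : ℝ} (hb : 0 ≤ b) (f : Option κ) :
    ∑ s, ∑ s', |bexpN b s s' f| ≤
      (if f = none then 1 else 3) * (1 + Fintype.card κ * b) ^ 2 := by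
  have hk : (0 : ℝ) ≤ Fintype.card κ := Nat.cast_nonneg _
  rw [Fintype.sum_option, Fintype.sum_option]
  simp only [Fintype.sum_option (f := fun s' => |bexpN b (some _) s' f|)]
  rcases f with _ | f
  · simp only [bexpN, abs_one, abs_neg, abs_of_nonneg hb, abs_of_nonneg (sq_nonneg b),
      Finset.sum_const, Finset.card_univ, nsmul_eq_mul, if_true, one_mul]
    apply le_of_eq
    ring
  · have e1 : ∑ h : κ, |if h = f then (1 : ℝ) else 0| = 1 := by
      rw [Finset.sum_eq_single f]
      · simp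
      · intro x _ hx
        rw [if_neg hx, abs_zero]
      · simp
    have e2 : ∑ h : κ, ∑ h' : κ, |(if h = f ∧ h' = f then (1 : ℝ) else 0) -
        (if h = f then b else 0) - (if h' = f then b else 0)| ≤ 1 + 2 * (Fintype.card κ * b) := by
      have e3 : ∀ h h' : κ, |(if h = f ∧ h' = f then (1 : ℝ) else 0) -
          (if h = f then b else 0) - (if h' = f then b else 0)| ≤
          (if h = f then (if h' = f then (1 : ℝ) else 0) else 0) + (if h = f then b else 0) +
            (if h' = f then b else 0) := by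
        intro h h'
        by_cases h1 : h = f <;> by_cases h2 : h' = f
        · simp only [h1, h2, and_self, if_true]
          rw [abs_le]
          constructor <;> linarith
        · simp [h1, h2, abs_of_nonneg hb]
        · simp [h1, h2, abs_of_nonneg hb]
        · simp [h1, h2]
      refine (Finset.sum_le_sum fun h _ => Finset.sum_le_sum fun h' _ => e3 h h').trans ?_
      simp only [Finset.sum_add_distrib]
      have f1 : ∑ h : κ, ∑ h' : κ, (if h = f then (if h' = f then (1 : ℝ) else 0) else 0) = 1 := by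
        rw [Finset.sum_eq_single f]
        · simp
        · intro x _ hx
          simp [hx]
        · simp
      have f2 : ∑ h : κ, ∑ _h' : κ, (if h = f then b else 0) = Fintype.card κ * b := by
        simp
      have f3 : ∑ _h : κ, ∑ h' : κ, (if h' = f then b else 0) = Fintype.card κ * b := by
        simp
      rw [f1, f2, f3]
      linarith
    simp only [bexpN, abs_zero, zero_add, Finset.sum_add_distrib, e1, reduceCtorEq, if_false]
    have h3 : 0 ≤ Fintype.card κ * b := mul_nonneg hk hb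
    nlinarith [e2, sq_nonneg (Fintype.card κ * b)]

private theorem bexpN_supp {b : ℝ} {s s' f : Option κ} (h : bexpN b s s' f ≠ 0)
    (hf : f ≠ none) : s ≠ none ∨ s' ≠ none := by
  rcases s with _ | s <;> rcases s' with _ | s' <;> rcases f with _ | f <;>
    simp_all [bexpN]

/-- coefficients of the product -/
private noncomputable def bexpL (b : ι → ℝ) (t u : (ι → Option κ) → ℝ) (f : ι → Option κ) : ℝ :=
  ∑ σ : ι → Option κ, ∑ σ' : ι → Option κ, t σ * u σ' * ∏ i, bexpN (b i) (σ i) (σ' i) (f i)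

private theorem bexpL_spec (b : ι → ℝ) (t u : (ι → Option κ) → ℝ) (Y : ι → Option κ) :
    comb b t Y * comb b u Y = ∑ f : ι → Option κ, bexpL b t u f *
      (if ∀ i, f i ≠ none → Y i = f i then 1 else 0) := by
  unfold comb bexpL
  rw [Finset.sum_mul_sum]
  have hsw : ∑ f : ι → Option κ, (∑ σ : ι → Option κ, ∑ σ' : ι → Option κ,
      t σ * u σ' * ∏ i, bexpN (b i) (σ i) (σ' i) (f i)) *
        (if ∀ i, f i ≠ none → Y i = f i then (1 : ℝ) else 0) =
      ∑ σ : ι → Option κ, ∑ σ' : ι → Option κ, ∑ f : ι → Option κ,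
        (t σ * u σ' * ∏ i, bexpN (b i) (σ i) (σ' i) (f i)) *
        (if ∀ i, f i ≠ none → Y i = f i then (1 : ℝ) else 0) := by
    simp only [Finset.sum_mul]
    rw [Finset.sum_comm]
    refine Finset.sum_congr rfl fun σ _ => ?_
    rw [Finset.sum_comm]
  rw [hsw]
  refine Finset.sum_congr rfl fun σ _ => ?_
  refine Finset.sum_congr rfl fun σ' _ => ?_
  have e : (∏ i, bas (b i) (σ i) (Y i)) * ∏ i, bas (b i) (σ' i) (Y i) =
      ∑ f : ι → Option κ, (∏ i, bexpN (b i) (σ i) (σ' i) (f i)) *
        (if ∀ i, f i ≠ none → Y i = f i then 1 else 0) := by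
    rw [← Finset.prod_mul_distrib]
    simp only [bexpN_spec]
    rw [bexp_prod_sum (fun i f => bexpN (b i) (σ i) (σ' i) f * bexpCh f (Y i))]
    refine Finset.sum_congr rfl fun f _ => ?_
    rw [Finset.prod_mul_distrib, bexpCh_prod]
  calc t σ * (∏ i, bas (b i) (σ i) (Y i)) * (u σ' * ∏ i, bas (b i) (σ' i) (Y i)) =
      t σ * u σ' * ((∏ i, bas (b i) (σ i) (Y i)) * ∏ i, bas (b i) (σ' i) (Y i)) := by ring
    _ = _ := by
      rw [e, Finset.mul_sum]
      refine Finset.sum_congr rfl fun f _ => ?_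
      ring

private theorem bexp_prod_supp (b : ι → ℝ) (f : ι → Option κ) (k c : ℝ) :
    ∏ i, ((if f i = none then 1 else c) * (1 + k * b i) ^ 2) =
      c ^ (supp f).card * (∏ i, (1 + k * b i)) ^ 2 := by
  rw [Finset.prod_mul_distrib, Finset.prod_pow]
  congr 1
  unfold supp
  rw [Finset.prod_ite, Finset.prod_const_one, one_mul, Finset.prod_const]

private theorem bexpL_le (b : ι → ℝ) (hb : ∀ i, 0 ≤ b i) (t u : (ι → Option κ) → ℝ) (τ υ : ℝ)
    (ht : ∀ σ, |t σ| ≤ τ) (hu : ∀ σ, |u σ| ≤ υ) (f : ι → Option κ) :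
    |bexpL b t u f| ≤ 3 ^ (supp f).card * ((τ * ∏ i, (1 + Fintype.card κ * b i)) *
      (υ * ∏ i, (1 + Fintype.card κ * b i))) := by
  have hτ : 0 ≤ τ := (abs_nonneg _).trans (ht fun _ => none)
  have hυ : 0 ≤ υ := (abs_nonneg _).trans (hu fun _ => none)
  unfold bexpL
  refine (Finset.abs_sum_le_sum_abs _ _).trans ?_
  refine (Finset.sum_le_sum fun σ _ => Finset.abs_sum_le_sum_abs _ _).trans ?_
  have h1 : ∀ σ σ' : ι → Option κ,
      |t σ * u σ' * ∏ i, bexpN (b i) (σ i) (σ' i) (f i)| ≤
        τ * υ * ∏ i, |bexpN (b i) (σ i) (σ' i) (f i)| := by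
    intro σ σ'
    rw [abs_mul, abs_mul, Finset.abs_prod]
    refine mul_le_mul_of_nonneg_right ?_ (Finset.prod_nonneg fun i _ => abs_nonneg _)
    exact mul_le_mul (ht σ) (hu σ') (abs_nonneg _) hτ
  refine (Finset.sum_le_sum fun σ _ => Finset.sum_le_sum fun σ' _ => h1 σ σ').trans ?_
  simp only [← Finset.mul_sum]
  rw [← bexp_prod_sum2 (fun i s s' => |bexpN (b i) s s' (f i)|)]
  calc τ * υ * ∏ i, ∑ s, ∑ s', |bexpN (b i) s s' (f i)| ≤
      τ * υ * ∏ i, ((if f i = none then 1 else 3) * (1 + Fintype.card κ * b i) ^ 2) := by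
        refine mul_le_mul_of_nonneg_left ?_ (mul_nonneg hτ hυ)
        refine Finset.prod_le_prod (fun i _ => Finset.sum_nonneg fun s _ =>
          Finset.sum_nonneg fun s' _ => abs_nonneg _) fun i _ => ?_
        exact bexpN_bound (hb i) (f i)
    _ = _ := by
        rw [bexp_prod_supp]
        ring

private theorem bexpL_supp (p : ι → ℕ) (hp : ∀ i, 1 ≤ p i) (b : ι → ℝ)
    (t u : (ι → Option κ) → ℝ) (D1 D2 : ℕ) (hD : ∀ σ, t σ ≠ 0 → nrm p σ ≤ D1)
    (hD' : ∀ σ, u σ ≠ 0 → nrm p σ ≤ D2) (f : ι → Option κ)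
    (h : bexpL b t u f ≠ 0) : nrm p f ≤ D1 * D2 := by
  unfold bexpL at h
  obtain ⟨σ, -, h⟩ := Finset.exists_ne_zero_of_sum_ne_zero h
  obtain ⟨σ', -, h⟩ := Finset.exists_ne_zero_of_sum_ne_zero h
  have h3 : ∏ i, bexpN (b i) (σ i) (σ' i) (f i) ≠ 0 := right_ne_zero_of_mul h
  have h12 : t σ * u σ' ≠ 0 := left_ne_zero_of_mul h
  have h1 : t σ ≠ 0 := left_ne_zero_of_mul h12
  have h2 : u σ' ≠ 0 := right_ne_zero_of_mul h12
  have hsub : supp f ⊆ supp σ ∪ supp σ' := by
    intro i hi
    unfold supp at hi ⊢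
    rw [Finset.mem_filter] at hi
    have h4 := (Finset.prod_ne_zero_iff.1 h3) i (Finset.mem_univ i)
    have h5 := bexpN_supp h4 hi.2
    rw [Finset.mem_union, Finset.mem_filter, Finset.mem_filter]
    rcases h5 with h5 | h5
    · exact Or.inl ⟨Finset.mem_univ _, h5⟩
    · exact Or.inr ⟨Finset.mem_univ _, h5⟩
  have h6 : nrm p f ≤ ∏ i ∈ supp σ ∪ supp σ', p i :=
    Finset.prod_le_prod_of_subset_of_one_le' hsub fun i _ _ => hp i
  have h7 : (∏ i ∈ supp σ ∪ supp σ', p i) ≤ nrm p σ * nrm p σ' := by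
    unfold nrm
    rw [← Finset.prod_union_inter]
    exact Nat.le_mul_of_pos_right _ (Finset.prod_pos fun i _ => hp i)
  exact (h6.trans h7).trans (Nat.mul_le_mul (hD σ h1) (hD' σ' h2))

private theorem bexp_count (e : Finset ι) :
    ∑ f : ι → Option κ, (if supp f = e then (1 : ℝ) else 0) = (Fintype.card κ : ℝ) ^ e.card := by
  have h1 : ∀ f : ι → Option κ, (if supp f = e then (1 : ℝ) else 0) =
      ∏ i, (if (f i ≠ none ↔ i ∈ e) then (1 : ℝ) else 0) := by
    intro f
    by_cases h : supp f = e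
    · rw [if_pos h]
      symm
      refine Finset.prod_eq_one fun i _ => ?_
      rw [if_pos]
      rw [← h]
      unfold supp
      simp
    · rw [if_neg h]
      symm
      have hex : ∃ i, ¬ (f i ≠ none ↔ i ∈ e) := by
        by_contra hc
        refine h ?_
        ext i
        have hi : f i ≠ none ↔ i ∈ e := by
          by_contra hi
          exact hc ⟨i, hi⟩
        rw [← hi]
        unfold supp
        simp
      obtain ⟨i, hi⟩ := hex
      exact Finset.prod_eq_zero (Finset.mem_univ i) (if_neg hi)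
  simp only [h1]
  rw [← bexp_prod_sum (fun i s => if (s ≠ none ↔ i ∈ e) then (1 : ℝ) else 0)]
  have h2 : ∀ i : ι, (∑ s : Option κ, if (s ≠ none ↔ i ∈ e) then (1 : ℝ) else 0) =
      if i ∈ e then (Fintype.card κ : ℝ) else 1 := by
    intro i
    rw [Fintype.sum_option]
    by_cases h : i ∈ e
    · simp [h]
    · simp [h]
  simp only [h2]
  rw [Finset.prod_ite_mem, Finset.univ_inter, Finset.prod_const]

private theorem bexp_main (p : ι → ℕ) (hp : ∀ i, 1 ≤ p i) (A : Finset ℕ) (ω : ℕ → ℝ)
    (Y : ℕ → ι → Option κ) (K : Finset κ) (q b : ι → ℝ) (hb : ∀ i, 0 ≤ b i) (M₀ : ℝ)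
    (t u : (ι → Option κ) → ℝ) (τ υ : ℝ) (ht : ∀ σ, |t σ| ≤ τ) (hu : ∀ σ, |u σ| ≤ υ) (D1 D2 : ℕ)
    (hD : ∀ σ, t σ ≠ 0 → nrm p σ ≤ D1) (hD' : ∀ σ, u σ ≠ 0 → nrm p σ ≤ D2)
    (Err : Finset ι → ℝ) (hErr : ∀ e, 0 ≤ Err e)
    (h : ∀ d : ι → Option κ, nrm p d ≤ D1 * D2 →
      |∑ a ∈ A, ω a * (if ∀ i, d i ≠ none → Y a i = d i then 1 else 0) -
        M₀ * EE K q (fun Z => if ∀ i, d i ≠ none → Z i = d i then 1 else 0)| ≤ Err (supp d)) :
    |∑ a ∈ A, ω a * (comb b t (Y a) * comb b u (Y a)) -
      M₀ * EE K q (fun Z => comb b t Z * comb b u Z)| ≤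
      ((τ * ∏ i, (1 + Fintype.card κ * b i)) * (υ * ∏ i, (1 + Fintype.card κ * b i))) *
        ∑ e ∈ (univ : Finset (Finset ι)).filter (fun e => ∏ i ∈ e, p i ≤ D1 * D2),
          (3 * Fintype.card κ : ℝ) ^ e.card * Err e := by
  have hτ : 0 ≤ τ := (abs_nonneg _).trans (ht fun _ => none)
  have hυ : 0 ≤ υ := (abs_nonneg _).trans (hu fun _ => none)
  have hP : 0 ≤ ∏ i, (1 + Fintype.card κ * b i) :=
    Finset.prod_nonneg fun i _ => by
      have := mul_nonneg (Nat.cast_nonneg (Fintype.card κ) : (0 : ℝ) ≤ Fintype.card κ) (hb i)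
      linarith
  set Λ : ℝ := (τ * ∏ i, (1 + Fintype.card κ * b i)) * (υ * ∏ i, (1 + Fintype.card κ * b i))
    with hΛ
  have hΛ0 : 0 ≤ Λ := mul_nonneg (mul_nonneg hτ hP) (mul_nonneg hυ hP)
  have e1 : ∑ a ∈ A, ω a * (comb b t (Y a) * comb b u (Y a)) -
      M₀ * EE K q (fun Z => comb b t Z * comb b u Z) =
      ∑ f : ι → Option κ, bexpL b t u f *
        (∑ a ∈ A, ω a * (if ∀ i, f i ≠ none → Y a i = f i then 1 else 0) -
        M₀ * EE K q (fun Z => if ∀ i, f i ≠ none → Z i = f i then 1 else 0)) := by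
    have f1 : ∑ a ∈ A, ω a * (comb b t (Y a) * comb b u (Y a)) =
        ∑ f : ι → Option κ, bexpL b t u f *
        ∑ a ∈ A, ω a * (if ∀ i, f i ≠ none → Y a i = f i then 1 else 0) := by
      simp only [bexpL_spec, Finset.mul_sum]
      rw [Finset.sum_comm]
      refine Finset.sum_congr rfl fun f _ => Finset.sum_congr rfl fun a _ => ?_
      ring
    have f2 : EE K q (fun Z => comb b t Z * comb b u Z) = ∑ f : ι → Option κ, bexpL b t u f *
        EE K q (fun Z => if ∀ i, f i ≠ none → Z i = f i then 1 else 0) := by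
      unfold EE
      simp only [bexpL_spec, Finset.mul_sum]
      rw [Finset.sum_comm]
      refine Finset.sum_congr rfl fun f _ => Finset.sum_congr rfl fun a _ => ?_
      ring
    rw [f1, f2, Finset.mul_sum, ← Finset.sum_sub_distrib]
    refine Finset.sum_congr rfl fun f _ => ?_
    ring
  rw [e1]
  refine (Finset.abs_sum_le_sum_abs _ _).trans ?_
  have e2 : ∀ f : ι → Option κ, |bexpL b t u f *
      (∑ a ∈ A, ω a * (if ∀ i, f i ≠ none → Y a i = f i then 1 else 0) -
        M₀ * EE K q (fun Z => if ∀ i, f i ≠ none → Z i = f i then 1 else 0))| ≤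
      if (∏ i ∈ supp f, p i) ≤ D1 * D2 then Λ * (3 ^ (supp f).card * Err (supp f)) else 0 := by
    intro f
    split_ifs with hf
    · rw [abs_mul]
      calc _ ≤ (3 ^ (supp f).card * Λ) * Err (supp f) :=
            mul_le_mul (bexpL_le b hb t u τ υ ht hu f) (h f hf) (abs_nonneg _) (by positivity)
        _ = _ := by ring
    · have h0 : bexpL b t u f = 0 := by
        by_contra hne
        exact hf (bexpL_supp p hp b t u D1 D2 hD hD' f hne)
      rw [h0, zero_mul, abs_zero]
  refine (Finset.sum_le_sum fun f _ => e2 f).trans (le_of_eq ?_)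
  rw [← Finset.sum_fiberwise (univ : Finset (ι → Option κ)) supp, Finset.sum_filter, Finset.mul_sum]
  refine Finset.sum_congr rfl fun e _ => ?_
  rw [Finset.sum_filter]
  have e3 : ∀ f : ι → Option κ, (if supp f = e then
      (if (∏ i ∈ supp f, p i) ≤ D1 * D2 then Λ * (3 ^ (supp f).card * Err (supp f)) else 0)
      else 0) = (if supp f = e then (1 : ℝ) else 0) *
        (if (∏ i ∈ e, p i) ≤ D1 * D2 then Λ * (3 ^ e.card * Err e) else 0) := by
    intro f
    by_cases hf : supp f = e
    · subst hf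
      simp
    · simp [hf]
  simp only [e3]
  rw [← Finset.sum_mul, bexp_count, mul_pow]
  split_ifs
  · ring
  · ring

end

theorem thm_BExp : St_BExp := by
  intro w X A ω Y K q b hb M₀ t u τ υ ht hu D1 D2 hD hD' Err hErr h
  have hp : ∀ i : PP w X, 1 ≤ pr i := fun i => (mem_filter.1 i.2).2.one_lt.le
  have h1 := bexp_main pr hp A ω Y K q b hb M₀ t u τ υ ht hu D1 D2 hD hD' Err hErr h
  have e1 : ((Fintype.card (Fin 3) : ℕ) : ℝ) = 3 := by simp
  have e2 : (3 : ℝ) * ((Fintype.card (Fin 3) : ℕ) : ℝ) = 9 := by rw [e1]; norm_num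
  rw [e2] at h1
  simp only [e1] at h1
  exact h1

end Pool.Agent.PT
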