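import Pool.Agent.PT.Defs

set_option autoImplicit false

/-!
# PT: statements of the modules (MP_c0d11e_nt, almost prime triplets)

Paper: /team-store/PT3_paper.md.  Notation: `A = AA w N`, `q = qq i = 1/(p-1)`, `b = bb i = 1/p`,
`ι = PP w (XR ρ N)`.  The statements on densities, on the change of basis and on the Riemann sums
are in `StD.lean`.
-/

namespace Pool.Agent.PT

open Finset Filter Pool.Agent.MT

/-- the weight of a box; for `n = 0` the primes with the factor `log m / log N` -/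
noncomputable def bz {n : ℕ} (k : Fin n → ℕ) (M N m : ℕ) : ℝ :=
  if n = 0 then (if m.Prime then Real.log m / Real.log N else 0) else bx k M N m

/-! ### Algebra of the weights -/

/-- Bilinear form of `MT.expand` (two coefficient functions with levels `D1`, `D2`). -/
def St_BExp : Prop := ∀ (w X : ℕ) (A : Finset ℕ) (ω : ℕ → ℝ)
  (Y : ℕ → PP w X → Option (Fin 3)) (K : Finset (Fin 3)) (q b : PP w X → ℝ), (∀ i, 0 ≤ b i) →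
  ∀ (M₀ : ℝ) (t u : (PP w X → Option (Fin 3)) → ℝ) (τ υ : ℝ), (∀ σ, |t σ| ≤ τ) →
  (∀ σ, |u σ| ≤ υ) → ∀ D1 D2 : ℕ, (∀ σ, t σ ≠ 0 → nrm pr σ ≤ D1) →
  (∀ σ, u σ ≠ 0 → nrm pr σ ≤ D2) → ∀ Err : Finset (PP w X) → ℝ, (∀ e, 0 ≤ Err e) →
  (∀ d : PP w X → Option (Fin 3), nrm pr d ≤ D1 * D2 →
    |∑ a ∈ A, ω a * (if ∀ i, d i ≠ none → Y a i = d i then 1 else 0) -
      M₀ * EE K q (fun Z => if ∀ i, d i ≠ none → Z i = d i then 1 else 0)| ≤ Err (supp d)) →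
  |∑ a ∈ A, ω a * (comb b t (Y a) * comb b u (Y a)) -
      M₀ * EE K q (fun Z => comb b t Z * comb b u Z)| ≤
    (τ * ∏ i : PP w X, (1 + 3 * b i)) * (υ * ∏ i : PP w X, (1 + 3 * b i)) *
      ∑ e ∈ (univ : Finset (Finset (PP w X))).filter (fun e => ∏ i ∈ e, pr i ≤ D1 * D2),
        (9 : ℝ) ^ e.card * Err e

/-- Orthogonality: in the model `E[1[Y=h] - q] = 0`, so only pairs with equal supports count. -/
def St_EE0 : Prop := ∀ (w X : ℕ) (K : Finset (Fin 3)) (q : PP w X → ℝ)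
  (t u : (PP w X → Option (Fin 3)) → ℝ), (∀ σ τ, supp σ = supp τ → t σ * u τ = 0) →
  (∀ σ, (∃ i h, σ i = some h ∧ h ∉ K) → t σ = 0) →
  (∀ σ, (∃ i h, σ i = some h ∧ h ∉ K) → u σ = 0) →
  EE K q (fun Y => comb q t Y * comb q u Y) = 0

/-- Pointwise bound: `(p/(p-1)) |bas b (some h) y|` is `1` if `y = some h` and `q` otherwise. -/
def St_CBd : Prop := ∀ (w X : ℕ) (G : (Fin 3 → ℝ) → ℝ) (K : ℝ), (∀ a, |G a| ≤ K) →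
  ∀ (M N : ℕ) (Y : PP w X → Option (Fin 3)),
    |comb bb (cc G M N) Y| ≤ K * 2 ^ (supp Y).card * ∏ i : PP w X, (1 + 3 * qq i)

/-- Configuration of a box: for `m = a + sh j` in the box the primes of `m` are
`p_1 < .. < p_n < p`, `p > N^ρ`; those which are sieving primes have size `uu k M l` and form
`E = {i | Y i = some j}`, the others have `uu k M l > ρ`.  Expand over `σ` restricted to `E`:
`none` gives 1, `some j` gives `(-p/(p-1))(1-1/p) = -1`, another value gives a factor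
`q ≤ 2 N^(-1/1000)`; in the second function a value `≠ none` on `E` also costs a factor `q`. -/
def St_Cfg : Prop := ∀ (ρ K : ℝ) (F : (Fin 3 → ℝ) → ℝ), 0 < ρ → ρ < 1 → 0 < K → Prof ρ K F →
  ∃ C : ℝ, 0 < C ∧ ∀ sh : Fin 3 → ℕ, Function.Injective sh → ∀ w : ℕ, 2 ≤ w → (∀ h, sh h ≤ w) →
  ∀ M : ℕ, 1 ≤ M → ∀ᶠ N : ℕ in atTop, ∀ n : ℕ, n ≤ 3 → ∀ k : Fin n → ℕ, BoxOK ρ M k →
  ∀ (j : Fin 3) (a : ℕ), N < 8 * (a + sh j) → a + sh j ≤ N → bz k M N (a + sh j) ≠ 0 →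
    |Lam F ρ M w N sh a -
      comb (bb (w := w) (X := XR ρ N)) (cc (FB F j (uu k M)) M N) (dl j (YY pr sh a))| ≤
    C * (N : ℝ) ^ (-(1 / 1000) : ℝ) * 2 ^ (supp (YY (pr (w := w) (X := XR ρ N)) sh a)).card *
      ∏ i : PP w (XR ρ N), (1 + 3 * qq i)

/-! ### Boxes -/

/-- The boxes are disjoint and consist of products of `n + 1` primes, all `> N^(1/1000)`.
(For `n = 0` the weight is `log m / log N ≤ 1` on the primes.) -/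
def St_Box : Prop := ∀ ρ : ℝ, 0 < ρ → ∀ M : ℕ, 1 ≤ M → ∀ᶠ N : ℕ in atTop, ∀ c : ℕ → ℝ,
  (∀ r, 0 ≤ c r) → ∀ m : ℕ, N < 8 * m → m ≤ N →
  (∑ n ∈ range 4, ∑ k ∈ boxes ρ M n, c (n + 1) * bz k M N m ≤
    c (ArithmeticFunction.cardFactors m)) ∧
  (∑ n ∈ range 4, ∑ k ∈ boxes ρ M n, c (n + 1) * bz k M N m ≠ 0 →
    ArithmeticFunction.cardFactors m ≤ 4 ∧
      ∀ p : ℕ, p.Prime → p ∣ m → (N : ℝ) ^ (1 / 1000 : ℝ) < p)

/-- `∑_k mu k ≤ (∑_{M/1000 ≤ k < M} log((k+1)/k))^n / ρ ≤ 7^3 / ρ`. -/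
def St_MuSum : Prop := ∀ ρ : ℝ, 0 < ρ → ρ < 1 → ∃ C : ℝ, 0 < C ∧ ∀ M n : ℕ, 1 ≤ M → n ≤ 3 →
  (∀ k ∈ boxes ρ M n, 0 ≤ mu k M) ∧ ∑ k ∈ boxes ρ M n, mu k M ≤ C

/-- Bombieri-Vinogradov for the boxes (helper46). -/
def St_BVB : Prop := ∀ η : ℝ → ℝ, IsWt η → ∀ θ : ℝ, 0 < θ → θ < 1 / 2 → ∀ A K : ℕ,
  ∀ ρ : ℝ, 0 < ρ → ∀ M : ℕ, 1 ≤ M → ∀ n : ℕ, n ≤ 3 → ∀ k : Fin n → ℕ, BoxOK ρ M k →
  ∀ᶠ N : ℕ in atTop, BVOK η θ A K N (bz k M N)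

/-- Mass of a box (helper46: prime number theorem and Mertens). -/
def St_Mass : Prop := ∀ η : ℝ → ℝ, IsWt η → ∀ ρ : ℝ, 0 < ρ → ∀ M : ℕ, 1 ≤ M → ∀ n : ℕ, n ≤ 3 →
  ∀ k : Fin n → ℕ, BoxOK ρ M k → ∀ ε : ℝ, 0 < ε → ∀ᶠ N : ℕ in atTop,
  (1 - ε) * (mη η * (N / Real.log N) * mu k M) ≤ B0 η N (bz k M N)

/-! ### The sums over the integers -/

/-- `|∑_{n ≤ N} η(n/N) - N ∫ η| ≤ C` (`η` is Lipschitz). -/
def St_Z1 : Prop := ∀ η : ℝ → ℝ, IsWt η → 0 < mη η ∧ ∃ C : ℝ, 0 < C ∧ ∀ N : ℕ, 1 ≤ N →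
  |Z1 η N - N * mη η| ≤ C

/-- admissible shifts -/
def Adm (sh : Fin 3 → ℕ) : Prop := ∀ p : ℕ, p.Prime → ∃ a : ℕ, ∀ h, ¬ p ∣ a + sh h

/-- Chinese remainder theorem. -/
def St_Adm : Prop := ∀ sh : Fin 3 → ℕ, Adm sh → ∀ w : ℕ, ∃ v : ℕ, ∀ h,
  (v + sh h).Coprime (primorial w)

/-- The bound `2^(ω(m)) ≤ N^δ`, and Mertens. -/
def St_Crude : Prop := ∀ ρ δ : ℝ, 0 < ρ → ρ ≤ 1 → 0 < δ → ∀ sh : Fin 3 → ℕ,
  Function.Injective sh → ∀ w : ℕ, 2 ≤ w → (∀ h, sh h ≤ w) → ∀ᶠ N : ℕ in atTop,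
  ∀ a : ℕ, 1 ≤ a → a ≤ N →
    2 ^ (supp (YY (pr (w := w) (X := XR ρ N)) sh a)).card * ∏ i : PP w (XR ρ N), (1 + 3 * qq i) ≤
      (N : ℝ) ^ δ

/-- The sum without almost primes: `MT.expand` (level `N^(3ρ) < N`; the error is
`≪ A^8 ∑_{e ≤ N^(3ρ)} 9^|e| ≪ N^(3ρ) A^C`), `MT.EE_comb_sq_le`, density. -/
def St_Int : Prop := ∀ η : ℝ → ℝ, IsWt η → ∀ (ρ K ε : ℝ) (F : (Fin 3 → ℝ) → ℝ), 0 < ρ →
  3 * ρ < 1 → 0 < K → Prof ρ K F → 0 < ε → ∀ sh : Fin 3 → ℕ, Function.Injective sh →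
  ∃ w0 M0 : ℕ, ∀ w M : ℕ, w0 ≤ w → M0 ≤ M → ∀ v : ℕ, ∀ᶠ N : ℕ in atTop,
    ∑ a ∈ (range (N + 1)).filter (fun a => a % primorial w = v % primorial w),
      η ((a : ℝ) / N) * Lam F ρ M w N sh a ^ 2 ≤
    N * mη η / primorial w * (AA w N ^ 3 * (II F ρ + ε)) + N

/-- A face (section 3 of the paper): `St_Cfg`, `St_Crude`, `MT.comb_sbst`,
`(comb t)² ≥ (comb tK)² + 2 (comb tK)(comb tU)`, `St_BExp`, `St_BVB`, `MT.YY_class`, `St_EE0`,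
`MT.le_EE_comb_sq`, densities. -/
def St_Face : Prop := ∀ η : ℝ → ℝ, IsWt η → ∀ (ρ σ K ε : ℝ) (F : (Fin 3 → ℝ) → ℝ), 0 < σ →
  σ ≤ ρ → ρ + σ < 1 / 2 → 0 < K → Prof ρ K F → 0 < ε → ∀ sh : Fin 3 → ℕ,
  Function.Injective sh → ∃ w0 M0 : ℕ, ∀ w M : ℕ, w0 ≤ w → M0 ≤ M → ∀ v : ℕ,
  (∀ h, (v + sh h).Coprime (primorial w)) → ∀ n : ℕ, n ≤ 3 → ∀ k : Fin n → ℕ, BoxOK ρ M k →
  ∀ j : Fin 3, ∀ᶠ N : ℕ in atTop,
    B0 η N (bz k M N) / (primorial w).totient * (AA w N ^ 4 * (JJ F ρ σ j (uu k M) - ε)) - N ≤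
    ∑ a ∈ (range (N + 1)).filter (fun a => a % primorial w = v % primorial w),
      η ((a : ℝ) / N) * bz k M N (a + sh j) * Lam F ρ M w N sh a ^ 2

/-! ### The criterion -/

open Classical in
/-- The general criterion. -/
def St_Core : Prop := ∀ (ρ σ K : ℝ) (F : (Fin 3 → ℝ) → ℝ), 0 < σ → σ ≤ ρ → ρ + σ < 1 / 2 →
  0 < K → Prof ρ K F → 3 * ρ < 1 → ∀ c : Fin 3 → ℕ → ℝ, (∀ j r, 0 ≤ c j r ∧ c j r ≤ 1) →
  2 * II F ρ < ∑ j, ∑ n ∈ range 4, c j (n + 1) * QQ F ρ σ j n →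
  ∀ sh : Fin 3 → ℕ, Function.Injective sh → Adm sh → ∃ c₀ : ℝ, 0 < c₀ ∧ ∀ᶠ x : ℕ in atTop,
    c₀ * x / Real.log x ^ 3 ≤ (((range (x + 1)).filter (fun n : ℕ =>
      2 < ∑ j, c j (ArithmeticFunction.cardFactors (n + sh j)) ∧
      ∀ j, ∀ p : ℕ, p.Prime → p ∣ n + sh j → (x : ℝ) ^ (1 / 1000 : ℝ) < p)).card : ℝ)

/-! ### The profile for Theorem A -/

open Classical in
/-- `1 - s + (2/3) e_2` in the variables `a_i/ρ`, `ρ = 27/100` -/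
noncomputable def FA (a : Fin 3 → ℝ) : ℝ :=
  if Reg (27 / 100) a then
    1 - (a 0 + a 1 + a 2) / (27 / 100) +
      2 / 3 * (a 0 * a 1 + a 0 * a 2 + a 1 * a 2) / (27 / 100) ^ 2
  else 0

/-- coefficients for `P_2, P_2, P_3` -/
noncomputable def cA (r : ℕ) : ℝ := if r ≤ 2 then 1 else if r = 3 then 1 / 2 else 0

def St_ProfA : Prop := Prof (27 / 100) 20 FA

/-- The numerical inequality: the quotient is `2.0133`. -/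
def St_NumA : Prop := 2 * II FA (27 / 100) <
  ∑ j : Fin 3, ∑ n ∈ range 4, cA (n + 1) * QQ FA (27 / 100) (459 / 2000) j n

end Pool.Agent.PT
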