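import Mathlib
import Pool.Agent.PT.Stmts
import Pool.Agent.PTB.Out

set_option autoImplicit false

/-!
# PT / BVB

Bombieri-Vinogradov for the boxes.
-/

namespace Pool.Agent.PT

open Finset Filter Pool.Agent.MT

theorem BVB_zero {M N : ℕ} {k : Fin 0 → ℕ} : bz k M N = PTB.bP N := by
  funext m
  unfold bz PTB.bP
  rw [if_pos rfl]

theorem BVB_succ {M N n : ℕ} {k : Fin (n + 1) → ℕ} : bz k M N = bx k M N := by
  funext m
  unfold bz
  rw [if_neg (Nat.succ_ne_zero n)]

theorem thm_BVB : St_BVB := by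
  intro η hη θ h0 h1 A K ρ _ M hM n _ k hk
  cases n with
  | zero =>
    filter_upwards [PTB.out_prime η hη θ h0 h1 A K] with N hN
    rw [BVB_zero]
    exact hN
  | succ n =>
    filter_upwards [PTB.out_box η hη θ h0 h1 A K ρ M n hM k hk] with N hN
    rw [BVB_succ]
    exact hN

end Pool.Agent.PT
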