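import Pool.Agent.PT.Stmts

set_option autoImplicit false

/-!
# PT / Box

If `bz k M N m ≠ 0` then the sorted list of the prime factors of `m` is `p_1, .., p_n, q` with
`p_i` in the cell `k_i` and `q` larger than all `p_i` (`box_ex`).  Hence `n`, `k` and the divisor
`a = p_1 ... p_n` are determined by `m` (`box_n`, `box_uniq`), `bz ≤ 1`, and all primes are
`> N^(1/1000)`.
-/

namespace Pool.Agent.PT

open Finset Filter Pool.Agent.MT

/-- the factorisation seen by a box -/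
def boxD {n : ℕ} (k : Fin n → ℕ) (M N m a : ℕ) (P : Fin (n + 1) → ℕ) : Prop :=
  StrictMono P ∧ (∀ i, (P i).Prime) ∧ ∏ i, P i = m ∧ ∏ i : Fin n, P i.castSucc = a ∧
    ∀ i : Fin n, (N : ℝ) ^ ((k i : ℝ) / M) < P i.castSucc ∧
      (P i.castSucc : ℝ) ≤ (N : ℝ) ^ (((k i : ℝ) + 1) / M)

lemma box_list {n : ℕ} {k : Fin n → ℕ} {M N m a : ℕ} {P : Fin (n + 1) → ℕ}
    (h : boxD k M N m a P) : List.ofFn P = m.primeFactorsList := by
  obtain ⟨h1, h2, h3, -, -⟩ := h
  refine List.Perm.eq_of_sortedLE ?_ (Nat.primeFactorsList_sorted m)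
    (Nat.primeFactorsList_unique ?_ ?_)
  · exact h1.monotone.sortedLE_ofFn
  · rw [List.prod_ofFn, h3]
  · intro p hp
    rw [List.mem_ofFn] at hp
    obtain ⟨i, rfl⟩ := hp
    exact h2 i

lemma box_card {n : ℕ} {k : Fin n → ℕ} {M N m a : ℕ} {P : Fin (n + 1) → ℕ}
    (h : boxD k M N m a P) : ArithmeticFunction.cardFactors m = n + 1 := by
  rw [ArithmeticFunction.cardFactors_apply, ← box_list h, List.length_ofFn]

lemma box_uniq {n : ℕ} {k k' : Fin n → ℕ} {M N m a a' : ℕ} {P P' : Fin (n + 1) → ℕ}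
    (hN : 1 < N) (hM : 1 ≤ M) (h : boxD k M N m a P) (h' : boxD k' M N m a' P') :
    a = a' ∧ k = k' := by
  have hP : P = P' := List.ofFn_injective ((box_list h).trans (box_list h').symm)
  subst hP
  obtain ⟨-, -, -, h4, h5⟩ := h
  obtain ⟨-, -, -, h4', h5'⟩ := h'
  refine ⟨h4.symm.trans h4', funext fun i => ?_⟩
  have hN' : (1 : ℝ) < N := by exact_mod_cast hN
  have hM' : (0 : ℝ) < M := by exact_mod_cast hM
  have aux : ∀ x y : ℕ, (N : ℝ) ^ ((y : ℝ) / M) < P i.castSucc →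
      (P i.castSucc : ℝ) ≤ (N : ℝ) ^ (((x : ℝ) + 1) / M) → y ≤ x := by
    intro x y hy hx
    by_contra hcon
    push Not at hcon
    have h1 : (x : ℝ) + 1 ≤ y := by exact_mod_cast hcon
    have h2 : (N : ℝ) ^ (((x : ℝ) + 1) / M) ≤ (N : ℝ) ^ ((y : ℝ) / M) :=
      Real.rpow_le_rpow_of_exponent_le hN'.le (div_le_div_of_nonneg_right h1 hM'.le)
    exact absurd (lt_of_lt_of_le hy (hx.trans h2)) (lt_irrefl _)
  exact le_antisymm (aux _ _ (h5 i).1 (h5' i).2) (aux _ _ (h5' i).1 (h5 i).2)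

lemma box_snoc {n : ℕ} {p : Fin n → ℕ} {q : ℕ} (hp : StrictMono p) (hq : ∀ i, p i < q) :
    StrictMono (Fin.snoc (α := fun _ => ℕ) p q) := by
  intro i j
  refine Fin.lastCases ?_ (fun j' => ?_) j
  · refine Fin.lastCases ?_ (fun i' => ?_) i
    · intro h
      exact absurd h (lt_irrefl _)
    · intro _
      rw [Fin.snoc_castSucc, Fin.snoc_last]
      exact hq i'
  · refine Fin.lastCases ?_ (fun i' => ?_) i
    · intro h
      exact absurd h (not_lt.2 (Fin.le_last _))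
    · intro h
      simp only [Fin.snoc_castSucc]
      exact hp (Fin.castSucc_lt_castSucc_iff.1 h)

lemma box_ex {ρ : ℝ} {M N m n a : ℕ} (hM : 1 ≤ M) (hN : 1 < N)
    (h8 : (8 : ℝ) < (N : ℝ) ^ (1 / (M : ℝ))) (hm : N < 8 * m) {k : Fin n → ℕ}
    (hk : k ∈ boxes ρ M n) (ha : al k M N a ≠ 0) (hd : a ∣ m) (hq : (m / a).Prime) :
    ∃ P, boxD k M N m a P := by
  classical
  have hN' : (1 : ℝ) < N := by exact_mod_cast hN
  have hN0 : (0 : ℝ) < N := by linarith
  have hM' : (0 : ℝ) < M := by exact_mod_cast hM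
  rw [boxes, mem_filter] at hk
  obtain ⟨-, hk1, -, hk3, -⟩ := hk
  unfold al at ha
  split_ifs at ha with hex
  swap
  · exact absurd rfl ha
  obtain ⟨p, hp, hap⟩ := hex
  have hpm : StrictMono p := by
    intro i j hij
    have h1 : k i < k j := hk1 hij
    have h2 : (k i : ℝ) + 1 ≤ k j := by exact_mod_cast h1
    have h3 : (N : ℝ) ^ (((k i : ℝ) + 1) / M) ≤ (N : ℝ) ^ ((k j : ℝ) / M) :=
      Real.rpow_le_rpow_of_exponent_le hN'.le (div_le_div_of_nonneg_right h2 hM'.le)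
    have h4 : (p i : ℝ) < p j := lt_of_le_of_lt ((hp i).2.2.trans h3) (hp j).2.1
    exact_mod_cast h4
  have hmul : a * (m / a) = m := Nat.mul_div_cancel' hd
  set S : ℝ := ∑ l, ((k l : ℝ) + 1) / M with hS
  have haS : (a : ℝ) ≤ (N : ℝ) ^ S := by
    rw [hap, hS, Nat.cast_prod, Real.rpow_sum_of_pos hN0]
    exact prod_le_prod (fun i _ => Nat.cast_nonneg _) (fun i _ => (hp i).2.2)
  have hqlt : ∀ i, p i < m / a := by
    intro i
    by_contra hcon
    push Not at hcon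
    have h1 : ((m / a : ℕ) : ℝ) ≤ (N : ℝ) ^ (((k i : ℝ) + 1) / M) :=
      le_trans (by exact_mod_cast hcon) (hp i).2.2
    have h2 : (N : ℝ) < 8 * ((a : ℝ) * ((m / a : ℕ) : ℝ)) := by
      have : (N : ℝ) < 8 * (m : ℝ) := by exact_mod_cast hm
      rw [← Nat.cast_mul, hmul]
      exact this
    have h3 : (a : ℝ) * ((m / a : ℕ) : ℝ) ≤ (N : ℝ) ^ S * (N : ℝ) ^ (((k i : ℝ) + 1) / M) :=
      mul_le_mul haS h1 (Nat.cast_nonneg _) (Real.rpow_nonneg hN0.le _)
    have h4 : 0 < (N : ℝ) ^ S * (N : ℝ) ^ (((k i : ℝ) + 1) / M) :=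
      mul_pos (Real.rpow_pos_of_pos hN0 _) (Real.rpow_pos_of_pos hN0 _)
    have h5 : (N : ℝ) < (N : ℝ) ^ (1 / (M : ℝ)) *
        ((N : ℝ) ^ S * (N : ℝ) ^ (((k i : ℝ) + 1) / M)) := by
      refine lt_trans (lt_of_lt_of_le h2 (mul_le_mul_of_nonneg_left h3 (by norm_num))) ?_
      exact mul_lt_mul_of_pos_right h8 h4
    rw [← Real.rpow_add hN0, ← Real.rpow_add hN0] at h5
    have h6 : 1 / (M : ℝ) + (S + ((k i : ℝ) + 1) / M) ≤ 1 := by
      have h7 := hk3 i
      have h8' : ((k i : ℝ) + 2) / M = 1 / (M : ℝ) + ((k i : ℝ) + 1) / M := by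
        rw [← add_div]
        congr 1
        ring
      rw [h8'] at h7
      linarith
    have h7 : (N : ℝ) ^ (1 / (M : ℝ) + (S + ((k i : ℝ) + 1) / M)) ≤ (N : ℝ) ^ (1 : ℝ) :=
      Real.rpow_le_rpow_of_exponent_le hN'.le h6
    rw [Real.rpow_one] at h7
    exact absurd (lt_of_lt_of_le h5 h7) (lt_irrefl _)
  refine ⟨Fin.snoc (α := fun _ => ℕ) p (m / a), box_snoc hpm hqlt, ?_, ?_, ?_, ?_⟩
  · intro i
    refine Fin.lastCases ?_ (fun i' => ?_) i
    · rw [Fin.snoc_last]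
      exact hq
    · rw [Fin.snoc_castSucc]
      exact (hp i').1
  · rw [Fin.prod_univ_castSucc]
    simp only [Fin.snoc_castSucc, Fin.snoc_last]
    rw [← hap, hmul]
  · simp only [Fin.snoc_castSucc]
    exact hap.symm
  · intro i
    simp only [Fin.snoc_castSucc]
    exact ⟨(hp i).2.1, (hp i).2.2⟩

lemma box_al {n : ℕ} (k : Fin n → ℕ) (M N a : ℕ) : al k M N a = 0 ∨ al k M N a = 1 := by
  unfold al
  split_ifs
  · exact Or.inr rfl
  · exact Or.inl rfl

lemma box_bx {ρ : ℝ} {M N m n : ℕ} (hM : 1 ≤ M) (hN : 1 < N)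
    (h8 : (8 : ℝ) < (N : ℝ) ^ (1 / (M : ℝ))) (hm : N < 8 * m) {k : Fin n → ℕ}
    (hk : k ∈ boxes ρ M n) :
    0 ≤ bx k M N m ∧ bx k M N m ≤ 1 ∧ (bx k M N m ≠ 0 → ∃ a P, boxD k M N m a P) := by
  have hm0 : m ≠ 0 := by omega
  have hterm : ∀ a ∈ m.divisors, al k M N a * (if (m / a).Prime then (1 : ℝ) else 0) ≠ 0 →
      ∃ P, boxD k M N m a P := by
    intro a ha hne
    have h1 : al k M N a ≠ 0 := left_ne_zero_of_mul hne
    have h2 : (m / a).Prime := by
      by_contra hcon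
      rw [if_neg hcon, mul_zero] at hne
      exact hne rfl
    exact box_ex hM hN h8 hm hk h1 (Nat.dvd_of_mem_divisors ha) h2
  have hnn : ∀ a ∈ m.divisors, 0 ≤ al k M N a * (if (m / a).Prime then (1 : ℝ) else 0) := by
    intro a _
    refine mul_nonneg ?_ ?_
    · rcases box_al k M N a with h | h <;> rw [h]
      norm_num
    · split_ifs <;> norm_num
  have hle : ∀ a ∈ m.divisors, al k M N a * (if (m / a).Prime then (1 : ℝ) else 0) ≤ 1 := by
    intro a _
    rcases box_al k M N a with h | h <;> rw [h] <;> split_ifs <;> norm_num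
  unfold bx BB
  refine ⟨sum_nonneg hnn, ?_, ?_⟩
  · by_cases hz : ∀ a ∈ m.divisors, al k M N a * (if (m / a).Prime then (1 : ℝ) else 0) = 0
    · rw [sum_eq_zero hz]
      norm_num
    · push Not at hz
      obtain ⟨a, ha, hne⟩ := hz
      rw [sum_eq_single_of_mem a ha]
      · exact hle a ha
      · intro b hb hba
        by_contra hcon
        obtain ⟨P, hP⟩ := hterm a ha hne
        obtain ⟨P', hP'⟩ := hterm b hb hcon
        exact hba (box_uniq hN hM hP' hP).1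
  · intro hne
    obtain ⟨a, ha, hne'⟩ := exists_ne_zero_of_sum_ne_zero hne
    obtain ⟨P, hP⟩ := hterm a ha hne'
    exact ⟨a, P, hP⟩

lemma box_bz {ρ : ℝ} {M N m n : ℕ} (hM : 1 ≤ M) (hN : 1 < N)
    (h8 : (8 : ℝ) < (N : ℝ) ^ (1 / (M : ℝ))) (hm : N < 8 * m) (hmN : m ≤ N) {k : Fin n → ℕ}
    (hk : k ∈ boxes ρ M n) :
    0 ≤ bz k M N m ∧ bz k M N m ≤ 1 ∧ (bz k M N m ≠ 0 → ∃ a P, boxD k M N m a P) := by
  unfold bz
  by_cases hn : n = 0
  · subst hn
    have hm1 : 1 ≤ m := by omega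
    have hlN : 0 < Real.log N := Real.log_pos (by exact_mod_cast hN)
    have hlm : 0 ≤ Real.log m := Real.log_nonneg (by exact_mod_cast hm1)
    have hle : Real.log m ≤ Real.log N :=
      Real.log_le_log (by exact_mod_cast hm1) (by exact_mod_cast hmN)
    rw [if_pos rfl]
    split_ifs with hp
    · refine ⟨div_nonneg hlm hlN.le, (div_le_one hlN).2 hle, fun _ => ?_⟩
      refine ⟨1, fun _ => m, ?_, fun _ => hp, ?_, ?_, fun i => i.elim0⟩
      · intro i j hij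
        exfalso
        have hi := i.isLt
        have hj := j.isLt
        rw [Fin.lt_def] at hij
        omega
      · simp
      · simp
    · exact ⟨le_rfl, zero_le_one, fun h => absurd rfl h⟩
  · rw [if_neg hn]
    exact box_bx hM hN h8 hm hk

lemma box_big {ρ : ℝ} {M N m n a : ℕ} (hM : 1 ≤ M) (hN : 1 < N)
    (h8 : (8 : ℝ) < (N : ℝ) ^ (999 / 1000 : ℝ)) (hm : N < 8 * m) {k : Fin n → ℕ}
    (hk : k ∈ boxes ρ M n) {P : Fin (n + 1) → ℕ} (h : boxD k M N m a P) (p : ℕ) (hp : p.Prime)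
    (hpm : p ∣ m) : (N : ℝ) ^ (1 / 1000 : ℝ) < p := by
  classical
  have hN' : (1 : ℝ) < N := by exact_mod_cast hN
  have hN0 : (0 : ℝ) < N := by linarith
  have hM' : (0 : ℝ) < M := by exact_mod_cast hM
  rw [boxes, mem_filter] at hk
  obtain ⟨-, -, hk2, -, -⟩ := hk
  have hm0 : m ≠ 0 := by omega
  have hmem : p ∈ m.primeFactorsList := (Nat.mem_primeFactorsList hm0).2 ⟨hp, hpm⟩
  rw [← box_list h, List.mem_ofFn] at hmem
  obtain ⟨i, hi⟩ := hmem
  obtain ⟨h1, h2, h3, h4, h5⟩ := h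
  have hcell : ∀ l : Fin n, (N : ℝ) ^ (1 / 1000 : ℝ) < P l.castSucc := by
    intro l
    refine lt_of_le_of_lt ?_ (h5 l).1
    refine Real.rpow_le_rpow_of_exponent_le hN'.le ?_
    rw [le_div_iff₀ hM']
    have := hk2 l
    linarith
  by_cases hn : n = 0
  · subst hn
    have hPm : P i = m := by
      rw [← h3, Fin.prod_univ_castSucc]
      simp only [univ_eq_empty, prod_empty, one_mul]
      congr 1
      exact Fin.ext (by have hi' := i.isLt; simp only [Fin.val_last]; omega)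
    rw [← hi, hPm]
    have e1 : (N : ℝ) = (N : ℝ) ^ (999 / 1000 : ℝ) * (N : ℝ) ^ (1 / 1000 : ℝ) := by
      rw [← Real.rpow_add hN0]
      norm_num
    have e2 : (N : ℝ) < 8 * (m : ℝ) := by exact_mod_cast hm
    have e3 : 0 < (N : ℝ) ^ (1 / 1000 : ℝ) := Real.rpow_pos_of_pos hN0 _
    have e4 : 8 * (N : ℝ) ^ (1 / 1000 : ℝ) < N := by
      calc 8 * (N : ℝ) ^ (1 / 1000 : ℝ) < (N : ℝ) ^ (999 / 1000 : ℝ) * (N : ℝ) ^ (1 / 1000 : ℝ) :=
            mul_lt_mul_of_pos_right h8 e3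
        _ = N := e1.symm
    linarith
  · have hlt : P (Fin.castSucc ⟨0, Nat.pos_of_ne_zero hn⟩) ≤ P i :=
      h1.monotone (by rw [Fin.le_def]; exact Nat.zero_le _)
    rw [← hi]
    refine lt_of_lt_of_le (hcell ⟨0, Nat.pos_of_ne_zero hn⟩) ?_
    exact_mod_cast hlt

theorem thm_Box : St_Box := by
  intro ρ hρ M hM
  have hMp : (0 : ℝ) < 1 / (M : ℝ) := by
    have : (0 : ℝ) < M := by exact_mod_cast hM
    positivity
  have e1 : ∀ᶠ N : ℕ in atTop, (8 : ℝ) < (N : ℝ) ^ (1 / (M : ℝ)) :=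
    ((tendsto_rpow_atTop hMp).comp tendsto_natCast_atTop_atTop).eventually_gt_atTop 8
  have e2 : ∀ᶠ N : ℕ in atTop, (8 : ℝ) < (N : ℝ) ^ (999 / 1000 : ℝ) :=
    ((tendsto_rpow_atTop (by norm_num)).comp tendsto_natCast_atTop_atTop).eventually_gt_atTop 8
  filter_upwards [e1, e2, eventually_ge_atTop 2] with N h1 h2 h3 c hc m hm1 hm2
  have hN : 1 < N := h3
  by_cases hz : ∀ n ∈ range 4, ∀ k ∈ boxes ρ M n, bz k M N m = 0
  · have h0 : ∑ n ∈ range 4, ∑ k ∈ boxes ρ M n, c (n + 1) * bz k M N m = 0 := by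
      refine sum_eq_zero fun n hn => sum_eq_zero fun k hk => ?_
      rw [hz n hn k hk, mul_zero]
    rw [h0]
    exact ⟨hc _, fun h => absurd rfl h⟩
  · push Not at hz
    obtain ⟨n, hn, k, hk, hne⟩ := hz
    obtain ⟨a, P, hD⟩ := (box_bz hM hN h1 hm1 hm2 hk).2.2 hne
    have hcard := box_card hD
    have hsum : ∑ n ∈ range 4, ∑ k ∈ boxes ρ M n, c (n + 1) * bz k M N m =
        c (n + 1) * bz k M N m := by
      rw [sum_eq_single_of_mem n hn, sum_eq_single_of_mem k hk]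
      · intro k' hk' hkk
        by_contra hcon
        have hne' : bz k' M N m ≠ 0 := right_ne_zero_of_mul hcon
        obtain ⟨a', P', hD'⟩ := (box_bz hM hN h1 hm1 hm2 hk').2.2 hne'
        exact hkk (box_uniq hN hM hD' hD).2
      · intro n' _ hnn
        refine sum_eq_zero fun k' hk' => ?_
        by_contra hcon
        have hne' : bz k' M N m ≠ 0 := right_ne_zero_of_mul hcon
        obtain ⟨a', P', hD'⟩ := (box_bz hM hN h1 hm1 hm2 hk').2.2 hne'
        have := box_card hD'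
        omega
    rw [hsum, hcard]
    refine ⟨?_, fun _ => ⟨?_, fun p hp hpm => box_big hM hN h2 hm1 hk hD p hp hpm⟩⟩
    · calc c (n + 1) * bz k M N m ≤ c (n + 1) * 1 :=
            mul_le_mul_of_nonneg_left (box_bz hM hN h1 hm1 hm2 hk).2.1 (hc _)
        _ = c (n + 1) := mul_one _
    · have := mem_range.1 hn
      omega

end Pool.Agent.PT
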