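import Pool.Agent.PT.Stmts

set_option autoImplicit false

/-!
# PT / CBd

Pointwise bound of the weights.
-/

namespace Pool.Agent.PT

open Finset Filter Pool.Agent.MT

theorem cbd_pr {w X : ℕ} (i : PP w X) : (2 : ℝ) ≤ pr i := by
  have h := i.2
  rw [mem_filter] at h
  exact_mod_cast h.2.two_le

/-- the absolute values of the one-prime factors -/
noncomputable def cbdG {w X : ℕ} (Y : PP w X → Option (Fin 3)) (i : PP w X)
    (s : Option (Fin 3)) : ℝ :=
  (if s ≠ none then (pr i : ℝ) / ((pr i : ℝ) - 1) else 1) * |bas (bb i) s (Y i)|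

theorem cbd_one {w X : ℕ} (Y : PP w X → Option (Fin 3)) (i : PP w X) :
    ∑ s, cbdG Y i s ≤ (if Y i = none then 1 else 2) * (1 + 3 * qq i) := by
  have hp := cbd_pr i
  have hp1 : (0 : ℝ) < (pr i : ℝ) - 1 := by linarith
  have hp0 : (0 : ℝ) < (pr i : ℝ) := by linarith
  have hq0 : 0 < qq i := by
    unfold qq
    positivity
  have hn : cbdG Y i none = 1 := by
    unfold cbdG
    rw [if_neg (by simp)]
    show 1 * |(1 : ℝ)| = 1
    simp
  have hs : ∀ h : Fin 3, cbdG Y i (some h) = if Y i = some h then 1 else qq i := by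
    intro h
    unfold cbdG
    rw [if_pos (by simp)]
    show _ * |(if Y i = some h then (1 : ℝ) else 0) - bb i| = _
    by_cases hy : Y i = some h
    · rw [if_pos hy, if_pos hy]
      unfold bb
      have e1 : 0 ≤ 1 - 1 / (pr i : ℝ) := by
        rw [sub_nonneg, div_le_one hp0]
        linarith
      rw [abs_of_nonneg e1]
      field_simp
    · rw [if_neg hy, if_neg hy]
      unfold bb qq
      rw [zero_sub, abs_neg, abs_of_nonneg (by positivity)]
      field_simp
  rw [Fintype.sum_option, hn, Finset.sum_congr rfl fun h _ => hs h]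
  by_cases hy : Y i = none
  · rw [if_pos hy, one_mul]
    have e2 : ∀ h : Fin 3, (if Y i = some h then (1 : ℝ) else qq i) = qq i := by
      intro h
      rw [if_neg]
      rw [hy]
      simp
    rw [Finset.sum_congr rfl fun h _ => e2 h, Finset.sum_const, Finset.card_univ,
      Fintype.card_fin, nsmul_eq_mul]
    norm_num
  · rw [if_neg hy]
    obtain ⟨h0, hh0⟩ := Option.ne_none_iff_exists'.1 hy
    have e3 : ∀ h : Fin 3, (if Y i = some h then (1 : ℝ) else qq i) ≤
        (if h = h0 then 1 else 0) + qq i := by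
      intro h
      rw [hh0]
      by_cases hh : h = h0
      · rw [if_pos (by rw [hh]), if_pos hh]
        linarith
      · rw [if_neg (fun e => hh (Option.some.inj e).symm), if_neg hh]
        linarith
    have e4 : ∑ h : Fin 3, (if Y i = some h then (1 : ℝ) else qq i) ≤ 1 + 3 * qq i := by
      refine (Finset.sum_le_sum fun h _ => e3 h).trans ?_
      rw [Finset.sum_add_distrib, Finset.sum_ite_eq' Finset.univ h0, if_pos (Finset.mem_univ _),
        Finset.sum_const, Finset.card_univ, Fintype.card_fin, nsmul_eq_mul]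
      norm_num
    linarith

theorem thm_CBd : St_CBd := by
  intro w X G K hG M N Y
  have hK : 0 ≤ K := (abs_nonneg _).trans (hG fun _ => 0)
  unfold comb
  refine (Finset.abs_sum_le_sum_abs _ _).trans ?_
  have h1 : ∀ σ : PP w X → Option (Fin 3),
      |cc G M N σ * ∏ i, bas (bb i) (σ i) (Y i)| ≤ K * ∏ i, cbdG Y i (σ i) := by
    intro σ
    unfold cc cbdG
    rw [abs_mul, abs_mul, Finset.prod_mul_distrib, Finset.abs_prod, mul_assoc]
    have h2 : |sg σ| = ∏ i, (if σ i ≠ none then (pr i : ℝ) / ((pr i : ℝ) - 1) else 1) := by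
      unfold sg supp
      rw [Finset.abs_prod, Finset.prod_filter]
      refine Finset.prod_congr rfl fun i _ => ?_
      have hp := cbd_pr i
      have hp1 : (0 : ℝ) < (pr i : ℝ) - 1 := by linarith
      by_cases hs : σ i ≠ none
      · rw [if_pos hs, if_pos hs, abs_neg, abs_of_nonneg (by positivity)]
      · rw [if_neg hs, if_neg hs]
    rw [h2]
    refine mul_le_mul_of_nonneg_right (hG _) ?_
    refine mul_nonneg (Finset.prod_nonneg fun i _ => ?_) (Finset.prod_nonneg fun i _ => abs_nonneg _)
    have hp := cbd_pr i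
    have hp1 : (0 : ℝ) < (pr i : ℝ) - 1 := by linarith
    split_ifs
    · positivity
    · exact zero_le_one
  refine (Finset.sum_le_sum fun σ _ => h1 σ).trans ?_
  rw [← Finset.mul_sum]
  have h3 : ∑ σ : PP w X → Option (Fin 3), ∏ i, cbdG Y i (σ i) = ∏ i, ∑ s, cbdG Y i s := by
    rw [Finset.prod_univ_sum, Fintype.piFinset_univ]
  rw [h3, mul_assoc]
  refine mul_le_mul_of_nonneg_left ?_ hK
  have h4 : ∏ i : PP w X, ((if Y i = none then (1 : ℝ) else 2) * (1 + 3 * qq i)) =
      2 ^ (supp Y).card * ∏ i : PP w X, (1 + 3 * qq i) := by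
    rw [Finset.prod_mul_distrib]
    congr 1
    unfold supp
    rw [Finset.prod_ite, Finset.prod_const_one, one_mul, Finset.prod_const]
  rw [← h4]
  refine Finset.prod_le_prod (fun i _ => Finset.sum_nonneg fun s _ => ?_) fun i _ => cbd_one Y i
  unfold cbdG
  refine mul_nonneg ?_ (abs_nonneg _)
  have hp := cbd_pr i
  have hp1 : (0 : ℝ) < (pr i : ℝ) - 1 := by linarith
  split_ifs
  · positivity
  · exact zero_le_one

end Pool.Agent.PT
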