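import Pool.Agent.PT.Face

set_option autoImplicit false

/-!
# PT / Core: the criterion
-/

namespace Pool.Agent.PT

open Finset Filter Pool.Agent.MT

/-- the number of sieving primes which divide one of the three numbers -/
theorem core_supp {w X : ℕ} (sh : Fin 3 → ℕ) (hsh : Function.Injective sh)
    (hlt : ∀ (i : PP w X) h, sh h < pr i) (a : ℕ) (ha : ∀ h, a + sh h ≠ 0) :
    (supp (YY (pr (w := w) (X := X)) sh a)).card ≤
      ∑ h, ArithmeticFunction.cardFactors (a + sh h) := by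
  classical
  have h1 : supp (YY (pr (w := w) (X := X)) sh a) ⊆ (univ : Finset (Fin 3)).biUnion (fun h =>
      (univ : Finset (PP w X)).filter (fun i => pr i ∣ a + sh h)) := by
    intro i hi
    unfold supp at hi
    rw [mem_filter] at hi
    obtain ⟨h, hh⟩ := Option.ne_none_iff_exists'.1 hi.2
    rw [mem_biUnion]
    refine ⟨h, mem_univ _, ?_⟩
    rw [mem_filter]
    exact ⟨mem_univ _, (YY_eq_some pr sh hsh hlt a i h).1 hh⟩
  refine (card_le_card h1).trans (card_biUnion_le.trans (sum_le_sum fun h _ => ?_))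
  have h2 : ((univ : Finset (PP w X)).filter (fun i => pr i ∣ a + sh h)).card ≤
      (a + sh h).primeFactors.card := by
    refine card_le_card_of_injOn pr (fun i hi => ?_) (fun i _ i' _ h => pr_inj h)
    have h3 := (mem_filter.1 (mem_coe.1 hi)).2
    exact mem_coe.2 (Nat.mem_primeFactors.2 ⟨pr_prime i, h3, ha h⟩)
  refine h2.trans ?_
  rw [ArithmeticFunction.cardFactors_apply, Nat.primeFactors]
  exact Multiset.toFinset_card_le _

theorem thm_Core (hInt : St_Int) (hFace : St_Face) (hBox : St_Box) (hMu : St_MuSum)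
    (hMass : St_Mass) (hR : St_R) (hCBd : St_CBd) (hAdm : St_Adm) (hZ : St_Z1) : St_Core := by
  classical
  intro ρ σ K F hσ hσρ hρσ hK hF h3 c hc hgap sh hsh hadm
  have hρ : 0 < ρ := lt_of_lt_of_le hσ hσρ
  have hρ2 : ρ < 1 / 2 := by linarith
  obtain ⟨η, hη⟩ := exists_wt
  obtain ⟨hmη, -⟩ := hZ η hη
  obtain ⟨CM, hCM, hmu⟩ := hMu ρ hρ (by linarith)
  obtain ⟨Q, hQ⟩ : ∃ Q : ℝ, Q = ∑ j, ∑ n ∈ range 4, c j (n + 1) * QQ F ρ σ j n := ⟨_, rfl⟩
  rw [← hQ] at hgap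
  obtain ⟨I, hI⟩ : ∃ I : ℝ, I = II F ρ := ⟨_, rfl⟩
  rw [← hI] at hgap
  obtain ⟨G, hG⟩ : ∃ G : ℝ, G = Q - 2 * I := ⟨_, rfl⟩
  have hG0 : 0 < G := by rw [hG]; linarith
  obtain ⟨V, hV⟩ : ∃ V : ℝ, V = |Q| + 12 * (1 + CM) + 2 := ⟨_, rfl⟩
  have hV0 : 0 < V := by rw [hV]; positivity
  obtain ⟨ε, hεd⟩ : ∃ ε : ℝ, ε = min (1 / 2) (G / (2 * V)) := ⟨_, rfl⟩
  have hε : 0 < ε := by rw [hεd]; exact lt_min (by norm_num) (by positivity)
  have hε1 : ε ≤ 1 / 2 := by rw [hεd]; exact min_le_left _ _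
  have hεV : ε * V ≤ G / 2 := by
    have h1 : ε ≤ G / (2 * V) := by rw [hεd]; exact min_le_right _ _
    calc ε * V ≤ G / (2 * V) * V := mul_le_mul_of_nonneg_right h1 hV0.le
      _ = G / 2 := by field_simp
  have hkey : G / 2 ≤ (1 - ε) * (Q - 12 * (ε * (1 + CM))) - 2 * (I + ε) := by
    have h1 : Q ≤ |Q| := le_abs_self Q
    have h2 : 0 ≤ ε * ε * (1 + CM) := by positivity
    have h3 : ε * Q ≤ ε * |Q| := mul_le_mul_of_nonneg_left h1 hε.le
    rw [hV] at hεV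
    rw [hG] at hεV ⊢
    nlinarith
  obtain ⟨w1, M1, hI1⟩ := hInt η hη ρ K ε F hρ h3 hK hF hε sh hsh
  obtain ⟨w2, M2, hF1⟩ := hFace η hη ρ σ K ε F hσ hσρ hρσ hK hF hε sh hsh
  choose M3 hM3 using fun (j : Fin 3) (n : ℕ) => hR ρ σ K ε F j n hρ hρ2 hσ hσρ hF hε
  obtain ⟨w, hw⟩ : ∃ w : ℕ, w = w1 + w2 + 14 + ∑ h, sh h := ⟨_, rfl⟩
  obtain ⟨M, hM⟩ : ∃ M : ℕ, M = M1 + M2 + 1 + ∑ j, ∑ n ∈ range 4, M3 j n := ⟨_, rfl⟩
  have hM1 : 1 ≤ M := by omega
  have hM3' : ∀ j, ∀ n ∈ range 4, M3 j n ≤ M := by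
    intro j n hn
    have h1 : M3 j n ≤ ∑ n ∈ range 4, M3 j n :=
      single_le_sum (f := fun n => M3 j n) (fun _ _ => Nat.zero_le _) hn
    have h2 : ∑ n ∈ range 4, M3 j n ≤ ∑ j, ∑ n ∈ range 4, M3 j n :=
      single_le_sum (f := fun j => ∑ n ∈ range 4, M3 j n) (fun _ _ => Nat.zero_le _) (mem_univ j)
    omega
  have hshw : ∀ h, sh h ≤ w := fun h => by
    have h2 : sh h ≤ ∑ h, sh h := single_le_sum (fun _ _ => Nat.zero_le _) (mem_univ h)
    omega
  obtain ⟨v, hv⟩ := hAdm sh hadm w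
  obtain ⟨E, hE⟩ : ∃ E : ℝ, E = Real.exp 8 := ⟨_, rfl⟩
  have hE0 : 0 < E := by rw [hE]; exact Real.exp_pos _
  have hWn : 0 < primorial w := primorial_pos w
  obtain ⟨W, hW⟩ : ∃ W : ℝ, W = (primorial w : ℝ) := ⟨_, rfl⟩
  have hW0 : 0 < W := by rw [hW]; exact_mod_cast hWn
  obtain ⟨B, hB⟩ : ∃ B : ℝ, B = ∑ _j : Fin 3, ∑ n ∈ range 4, ((boxes ρ M n).card : ℝ) := ⟨_, rfl⟩
  have hph := phW_pos1 w
  refine ⟨mη η / W * phW w ^ 3 * (G / 4) / (K ^ 2 * 2 ^ 24 * E ^ 6), by positivity, ?_⟩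
  have hev1 : ∀ᶠ N : ℕ in atTop, ∀ j : Fin 3, ∀ n ∈ range 4, ∀ k ∈ boxes ρ M n,
      B0 η N (bz k M N) / (primorial w).totient *
        (AA w N ^ 4 * (JJ F ρ σ j (uu k M) - ε)) - N ≤
      ∑ a ∈ (range (N + 1)).filter (fun a => a % primorial w = v % primorial w),
        η ((a : ℝ) / N) * bz k M N (a + sh j) * Lam F ρ M w N sh a ^ 2 := by
    rw [eventually_all]
    intro j
    rw [eventually_all_finset]
    intro n hn
    rw [eventually_all_finset]
    intro k hk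
    have hk' : BoxOK ρ M k := by
      unfold boxes at hk
      exact (mem_filter.1 hk).2
    exact hF1 w M (by omega) (by omega) v hv n (by have := mem_range.1 hn; omega) k hk' j
  have hev2 : ∀ᶠ N : ℕ in atTop, ∀ n ∈ range 4, ∀ k ∈ boxes ρ M n,
      (1 - ε) * (mη η * (N / Real.log N) * mu k M) ≤ B0 η N (bz k M N) := by
    rw [eventually_all_finset]
    intro n hn
    rw [eventually_all_finset]
    intro k hk
    have hk' : BoxOK ρ M k := by
      unfold boxes at hk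
      exact (mem_filter.1 hk).2
    exact hMass η hη ρ hρ M hM1 n (by have := mem_range.1 hn; omega) k hk' ε hε
  have hA3 : ∀ᶠ N : ℕ in atTop, (B + 2) ≤ mη η / W * AA w N ^ 3 * (G / 4) := by
    have h1 : Tendsto (fun N : ℕ => AA w N ^ 3) atTop atTop :=
      (tendsto_pow_atTop (by norm_num)).comp (AA_tendsto w)
    have h2 : Tendsto (fun N : ℕ => mη η / W * (G / 4) * AA w N ^ 3) atTop atTop :=
      Tendsto.const_mul_atTop (by positivity) h1
    filter_upwards [h2.eventually_ge_atTop (B + 2)] with N hN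
    linarith
  filter_upwards [hI1 w M (by omega) (by omega) v, hev1, hev2, hBox ρ hρ M hM1,
    mert_ev hρ (by linarith) (by omega : 2 ≤ w), hA3, eventually_ge_atTop (8 * w + 8)]
    with N g1 g2 g3 g4 g5 g6 hN
  rw [← hE] at g5
  have hN1 : 1 ≤ N := by omega
  have hNR : (2 : ℝ) ≤ N := by exact_mod_cast (by omega : 2 ≤ N)
  have hN0 : (0 : ℝ) < N := by linarith
  obtain ⟨L, hL⟩ : ∃ L : ℝ, L = Real.log N := ⟨_, rfl⟩
  have hL0 : 0 < L := by rw [hL]; exact Real.log_pos (by linarith)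
  obtain ⟨A, hA⟩ : ∃ A : ℝ, A = AA w N := ⟨_, rfl⟩
  have hAL : A = phW w * L := by rw [hA, hL]; rfl
  have hA0 : 0 < A := by rw [hAL]; positivity
  obtain ⟨X, hX⟩ : ∃ X : ℝ, X = N * mη η / W * A ^ 3 := ⟨_, rfl⟩
  have hX0 : 0 < X := by rw [hX]; positivity
  obtain ⟨T, hT⟩ : ∃ T : Finset ℕ,
    T = (range (N + 1)).filter (fun a => a % primorial w = v % primorial w) := ⟨_, rfl⟩
  rw [← hT, ← hW, ← hA, ← hI] at g1
  rw [← hA] at g6
  simp only [← hT, ← hA] at g2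
  rw [← hL] at g5
  simp only [← hL] at g3
  obtain ⟨ϕ, hϕ⟩ : ∃ ϕ : ℝ, ϕ = ((primorial w).totient : ℝ) := ⟨_, rfl⟩
  have hϕ0 : 0 < ϕ := by rw [hϕ]; exact_mod_cast Nat.totient_pos.2 hWn
  have hphϕ : phW w = ϕ / W := by rw [hϕ, hW]; rfl
  -- lower bound for one box
  have hbox : ∀ j : Fin 3, ∀ n ∈ range 4, ∀ k ∈ boxes ρ M n,
      (1 - ε) * (X * (mu k M * JJ F ρ σ j (uu k M) - ε * mu k M)) - N ≤
      ∑ a ∈ T, η ((a : ℝ) / N) * bz k M N (a + sh j) * Lam F ρ M w N sh a ^ 2 := by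
    intro j n hn k hk
    have e0 := g2 j n hn k hk
    have e1 := g3 n hn k hk
    have hmu0 := (hmu M n hM1 (by have := mem_range.1 hn; omega)).1 k hk
    rw [← hϕ] at e0
    rcases le_or_gt 0 (JJ F ρ σ j (uu k M) - ε) with h | h
    · refine le_trans ?_ e0
      have e2 : (1 - ε) * (mη η * (N / L) * mu k M) / ϕ * (A ^ 4 * (JJ F ρ σ j (uu k M) - ε)) ≤
          B0 η N (bz k M N) / ϕ * (A ^ 4 * (JJ F ρ σ j (uu k M) - ε)) := by
        refine mul_le_mul_of_nonneg_right (div_le_div_of_nonneg_right e1 hϕ0.le) ?_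
        exact mul_nonneg (by positivity) h
      have e3 : (1 - ε) * (mη η * (N / L) * mu k M) / ϕ * (A ^ 4 * (JJ F ρ σ j (uu k M) - ε)) =
          (1 - ε) * (X * (mu k M * JJ F ρ σ j (uu k M) - ε * mu k M)) := by
        have e4 : A ^ 4 = A ^ 3 * (ϕ / W * L) := by
          rw [pow_succ, hAL, hphϕ]
        rw [hX, e4]
        field_simp
      linarith
    · have e5 : 0 ≤ ∑ a ∈ T, η ((a : ℝ) / N) * bz k M N (a + sh j) *
          Lam F ρ M w N sh a ^ 2 :=
        sum_nonneg fun a _ => mul_nonneg (mul_nonneg (hη.nonneg _) (face_bz_nonneg _ _ _ _))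
          (sq_nonneg _)
      have e6 : mu k M * JJ F ρ σ j (uu k M) - ε * mu k M ≤ 0 := by
        have : mu k M * JJ F ρ σ j (uu k M) - ε * mu k M =
          mu k M * (JJ F ρ σ j (uu k M) - ε) := by ring
        rw [this]
        exact mul_nonpos_of_nonneg_of_nonpos hmu0 h.le
      have e7 : (1 - ε) * (X * (mu k M * JJ F ρ σ j (uu k M) - ε * mu k M)) ≤ 0 :=
        mul_nonpos_of_nonneg_of_nonpos (by linarith) (mul_nonpos_of_nonneg_of_nonpos hX0.le e6)
      linarith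
  -- sum over the boxes
  have hjn : ∀ j : Fin 3, ∀ n ∈ range 4,
      (1 - ε) * X * (c j (n + 1) * QQ F ρ σ j n - ε * (1 + CM)) -
        N * ((boxes ρ M n).card : ℝ) ≤
      ∑ k ∈ boxes ρ M n, c j (n + 1) *
        ∑ a ∈ T, η ((a : ℝ) / N) * bz k M N (a + sh j) * Lam F ρ M w N sh a ^ 2 := by
    intro j n hn
    have e1 := hM3 j n M (hM3' j n hn)
    have e2 := (hmu M n hM1 (by have := mem_range.1 hn; omega)).2
    have e3 : ∑ k ∈ boxes ρ M n,
        ((1 - ε) * (X * (mu k M * JJ F ρ σ j (uu k M) - ε * mu k M)) - N) ≤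
        ∑ k ∈ boxes ρ M n,
          ∑ a ∈ T, η ((a : ℝ) / N) * bz k M N (a + sh j) * Lam F ρ M w N sh a ^ 2 :=
      sum_le_sum fun k hk => hbox j n hn k hk
    rw [sum_sub_distrib, ← mul_sum, ← mul_sum, sum_sub_distrib, ← mul_sum, sum_const,
      nsmul_eq_mul] at e3
    obtain ⟨hc0, hc1⟩ := hc j (n + 1)
    have e4 := mul_le_mul_of_nonneg_left e3 hc0
    rw [← mul_sum]
    refine le_trans ?_ e4
    have e5 : QQ F ρ σ j n - ε - ε * CM ≤
        ∑ k ∈ boxes ρ M n, mu k M * JJ F ρ σ j (uu k M) - ε * ∑ k ∈ boxes ρ M n, mu k M := by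
      have := mul_le_mul_of_nonneg_left e2 hε.le
      linarith
    have e6 : 0 ≤ (1 - ε) * X := mul_nonneg (by linarith) hX0.le
    have e7 := mul_le_mul_of_nonneg_left e5 e6
    have e8 := mul_le_mul_of_nonneg_left e7 hc0
    have e9 : c j (n + 1) * (((boxes ρ M n).card : ℝ) * N) ≤ N * ((boxes ρ M n).card : ℝ) := by
      calc c j (n + 1) * (((boxes ρ M n).card : ℝ) * N) ≤
          1 * (((boxes ρ M n).card : ℝ) * N) := mul_le_mul_of_nonneg_right hc1 (by positivity)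
        _ = N * ((boxes ρ M n).card : ℝ) := by ring
    have e10 : c j (n + 1) * ((1 - ε) * X * (ε * (1 + CM))) ≤ (1 - ε) * X * (ε * (1 + CM)) :=
      mul_le_of_le_one_left (mul_nonneg e6 (by positivity)) hc1
    linarith
  -- the function g
  obtain ⟨gj, hgj⟩ : ∃ gj : Fin 3 → ℕ → ℝ, gj = fun j a => ∑ n ∈ range 4, ∑ k ∈ boxes ρ M n,
    c j (n + 1) * bz k M N (a + sh j) := ⟨_, rfl⟩
  have hgsum : ∑ a ∈ T, η ((a : ℝ) / N) * Lam F ρ M w N sh a ^ 2 * (∑ j, gj j a) =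
      ∑ j, ∑ n ∈ range 4, ∑ k ∈ boxes ρ M n, c j (n + 1) *
        ∑ a ∈ T, η ((a : ℝ) / N) * bz k M N (a + sh j) * Lam F ρ M w N sh a ^ 2 := by
    simp only [hgj, mul_sum]
    rw [sum_comm]
    refine sum_congr rfl fun j _ => ?_
    rw [sum_comm]
    refine sum_congr rfl fun n _ => ?_
    rw [sum_comm]
    refine sum_congr rfl fun k _ => ?_
    refine sum_congr rfl fun a _ => ?_
    ring
  have hlow : X * (G / 4) ≤
      ∑ a ∈ T, η ((a : ℝ) / N) * Lam F ρ M w N sh a ^ 2 * (∑ j, gj j a - 2) := by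
    have e1 : ∑ a ∈ T, η ((a : ℝ) / N) * Lam F ρ M w N sh a ^ 2 * (∑ j, gj j a - 2) =
        ∑ a ∈ T, η ((a : ℝ) / N) * Lam F ρ M w N sh a ^ 2 * (∑ j, gj j a) -
          2 * ∑ a ∈ T, η ((a : ℝ) / N) * Lam F ρ M w N sh a ^ 2 := by
      rw [mul_sum, ← sum_sub_distrib]
      refine sum_congr rfl fun a _ => ?_
      ring
    rw [e1, hgsum]
    have e2 : ∑ j, ∑ n ∈ range 4,
        ((1 - ε) * X * (c j (n + 1) * QQ F ρ σ j n - ε * (1 + CM)) -
          N * ((boxes ρ M n).card : ℝ)) ≤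
        ∑ j, ∑ n ∈ range 4, ∑ k ∈ boxes ρ M n, c j (n + 1) *
        ∑ a ∈ T, η ((a : ℝ) / N) * bz k M N (a + sh j) * Lam F ρ M w N sh a ^ 2 :=
      sum_le_sum fun j _ => sum_le_sum fun n hn => hjn j n hn
    have e3 : ∑ j : Fin 3, ∑ n ∈ range 4,
        ((1 - ε) * X * (c j (n + 1) * QQ F ρ σ j n - ε * (1 + CM)) -
          N * ((boxes ρ M n).card : ℝ)) =
        (1 - ε) * X * (Q - 12 * (ε * (1 + CM))) - N * B := by
      rw [hQ, hB]
      simp only [sum_sub_distrib, ← mul_sum, sum_const, card_range, card_univ, Fintype.card_fin,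
        nsmul_eq_mul]
      push_cast
      ring
    rw [e3] at e2
    have e4 : X * (G / 2) ≤ X * ((1 - ε) * (Q - 12 * (ε * (1 + CM))) - 2 * (I + ε)) :=
      mul_le_mul_of_nonneg_left hkey hX0.le
    have e5 : N * (B + 2) ≤ X * (G / 4) := by
      have := mul_le_mul_of_nonneg_left g6 hN0.le
      rw [hX]
      calc N * (B + 2) ≤ N * (mη η / W * A ^ 3 * (G / 4)) := this
        _ = N * mη η / W * A ^ 3 * (G / 4) := by ring
    have e6 : N * mη η / W * (A ^ 3 * (I + ε)) = X * (I + ε) := by rw [hX]; ring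
    rw [e6] at g1
    linarith
  -- upper bound
  obtain ⟨R, hRd⟩ : ∃ R : Finset ℕ, R = (range (N + 1)).filter (fun n : ℕ =>
      2 < ∑ j, c j (ArithmeticFunction.cardFactors (n + sh j)) ∧
      ∀ j, ∀ p : ℕ, p.Prime → p ∣ n + sh j → (N : ℝ) ^ (1 / 1000 : ℝ) < p) := ⟨_, rfl⟩
  obtain ⟨Z, hZd⟩ : ∃ Z : ℝ, Z = K * 2 ^ 12 * (E * L) ^ 3 := ⟨_, rfl⟩
  have hZ0 : 0 < Z := by rw [hZd]; positivity
  have hpt : ∀ a ∈ T, η ((a : ℝ) / N) * Lam F ρ M w N sh a ^ 2 * (∑ j, gj j a - 2) ≤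
      if a ∈ R then Z ^ 2 else 0 := by
    intro a ha
    have haN : a ≤ N := by
      rw [hT, mem_filter, mem_range] at ha
      omega
    have hrhs : 0 ≤ if a ∈ R then Z ^ 2 else 0 := by
      split_ifs
      · positivity
      · exact le_rfl
    by_cases hz : η ((a : ℝ) / N) = 0
    · rw [hz, zero_mul, zero_mul]
      exact hrhs
    rcases le_or_gt (∑ j, gj j a) 2 with h2 | h2
    · refine le_trans ?_ hrhs
      exact mul_nonpos_of_nonneg_of_nonpos (mul_nonneg (hη.nonneg _) (sq_nonneg _)) (by linarith)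
    have hz' := hη.supp _ hz
    have ha1 : N < 8 * a := by
      have := hz'.1
      rw [lt_div_iff₀ hN0] at this
      have h6 : (N : ℝ) < 8 * (a : ℝ) := by linarith
      exact_mod_cast h6
    have ha2 : 8 * a < 7 * N := by
      have := hz'.2
      rw [div_lt_iff₀ hN0] at this
      have h6 : 8 * (a : ℝ) < 7 * N := by linarith
      exact_mod_cast h6
    have hbx : ∀ j, gj j a ≤ c j (ArithmeticFunction.cardFactors (a + sh j)) ∧ (gj j a ≠ 0 →
        ArithmeticFunction.cardFactors (a + sh j) ≤ 4 ∧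
        ∀ p : ℕ, p.Prime → p ∣ a + sh j → (N : ℝ) ^ (1 / 1000 : ℝ) < p) := by
      intro j
      have h7 := hshw j
      have h8 := g4 (c j) (fun r => (hc j r).1) (a + sh j) (by omega) (by omega)
      rw [hgj]
      exact h8
    have hle1 : ∀ j, gj j a ≤ 1 := fun j => (hbx j).1.trans (hc j _).2
    have hsum3 : ∑ j, gj j a = gj 0 a + gj 1 a + gj 2 a := Fin.sum_univ_three _
    have hne : ∀ j, gj j a ≠ 0 := by
      intro j hj
      rw [hsum3] at h2
      have e0 := hle1 0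
      have e1 := hle1 1
      have e2 := hle1 2
      fin_cases j
      · simp at hj
        linarith
      · simp at hj
        linarith
      · simp at hj
        linarith
    have haR : a ∈ R := by
      rw [hRd, mem_filter, mem_range]
      refine ⟨by omega, ?_, fun j => ((hbx j).2 (hne j)).2⟩
      exact lt_of_lt_of_le h2 (sum_le_sum fun j _ => (hbx j).1)
    rw [if_pos haR]
    have hlt : ∀ (i : PP w (XR ρ N)) h, sh h < pr i := fun i h =>
      lt_of_le_of_lt (hshw h) (pr_gt i)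
    have hcard := core_supp (w := w) (X := XR ρ N) sh hsh hlt a (fun h => by omega)
    have h12 : (supp (YY (pr (w := w) (X := XR ρ N)) sh a)).card ≤ 12 := by
      refine hcard.trans ?_
      rw [Fin.sum_univ_three]
      have e0 := ((hbx 0).2 (hne 0)).1
      have e1 := ((hbx 1).2 (hne 1)).1
      have e2 := ((hbx 2).2 (hne 2)).1
      omega
    have hLam : |Lam F ρ M w N sh a| ≤ Z := by
      unfold Lam
      refine (hCBd w (XR ρ N) F K hF.bd M N (YY pr sh a)).trans ?_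
      rw [hZd]
      have e1 : (2 : ℝ) ^ (supp (YY (pr (w := w) (X := XR ρ N)) sh a)).card ≤ 2 ^ 12 :=
        pow_le_pow_right₀ (by norm_num) h12
      have e2 : ∏ i : PP w (XR ρ N), (1 + 3 * qq i) ≤ (E * L) ^ 3 := by
        have e3 := prod_qq_le (w := w) (X := XR ρ N) 3
        push_cast at e3
        refine e3.trans (pow_le_pow_left₀ ?_ g5 3)
        exact le_trans zero_le_one one_le_prod_qq
      refine mul_le_mul (mul_le_mul_of_nonneg_left e1 hK.le) e2
        (prod_nonneg fun i _ => by linarith [qq_pos i]) (by positivity)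
    have hLam2 : Lam F ρ M w N sh a ^ 2 ≤ Z ^ 2 := by
      rw [← sq_abs]
      exact pow_le_pow_left₀ (abs_nonneg _) hLam 2
    have h13 : ∑ j, gj j a - 2 ≤ 1 := by
      rw [hsum3]
      have e0 := hle1 0
      have e1 := hle1 1
      have e2 := hle1 2
      linarith
    have h14 : η ((a : ℝ) / N) * Lam F ρ M w N sh a ^ 2 ≤ Z ^ 2 := by
      calc η ((a : ℝ) / N) * Lam F ρ M w N sh a ^ 2 ≤ 1 * Lam F ρ M w N sh a ^ 2 :=
            mul_le_mul_of_nonneg_right (hη.le_one _) (sq_nonneg _)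
        _ ≤ Z ^ 2 := by rw [one_mul]; exact hLam2
    calc η ((a : ℝ) / N) * Lam F ρ M w N sh a ^ 2 * (∑ j, gj j a - 2) ≤ Z ^ 2 * 1 :=
          mul_le_mul h14 h13 (by linarith) (by positivity)
      _ = Z ^ 2 := mul_one _
  have hup : ∑ a ∈ T, η ((a : ℝ) / N) * Lam F ρ M w N sh a ^ 2 * (∑ j, gj j a - 2) ≤
      (R.card : ℝ) * Z ^ 2 := by
    refine (sum_le_sum hpt).trans ?_
    rw [← sum_filter, sum_const, nsmul_eq_mul]
    refine mul_le_mul_of_nonneg_right ?_ (by positivity)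
    exact_mod_cast card_le_card (fun a ha => (mem_filter.1 ha).2)
  have hfin := hlow.trans hup
  rw [← hRd, ← hL]
  have hZ2 : 0 < Z ^ 2 := by positivity
  have h15 : X * (G / 4) / Z ^ 2 ≤ (R.card : ℝ) := by
    rw [div_le_iff₀ hZ2]
    exact hfin
  refine le_trans (le_of_eq ?_) h15
  rw [hX, hZd, hAL]
  field_simp

end Pool.Agent.PT
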