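import Pool.Agent.PT.Stmts
import Pool.Agent.MT.Omega

set_option autoImplicit false

/-!
# PT / Crude

`supp (YY pr sh a)` is contained in the union over `h` of the primes dividing `a + sh h`, and
`2 ^ #{p : p ∣ m} ≤ 2 ^ B m ^ δ'` as soon as `2 ≤ B ^ δ'` (a prime `p ≥ B` has `2 ≤ p ^ δ'`, and
there are at most `B` primes `< B`).  The product over the primes is bounded by a power of the
logarithm (`MT.prod_primes`).
-/

namespace Pool.Agent.PT

open Finset Filter Pool.Agent.MT

theorem crude_pr_prime {w X : ℕ} (i : PP w X) : (pr i).Prime :=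
  (Finset.mem_filter.1 i.2).2

theorem crude_pr_gt {w X : ℕ} (i : PP w X) : w < pr i :=
  (Finset.mem_Ioc.1 (Finset.mem_filter.1 i.2).1).1

theorem crude_pr_inj {w X : ℕ} : Function.Injective (pr (w := w) (X := X)) :=
  fun _ _ h => Subtype.ext h

/-- the divisor bound, for a family of primes -/
theorem crude_two_pow {w X : ℕ} (δ : ℝ) (hδ : 0 ≤ δ) (B : ℕ) (hB : 2 ≤ (B : ℝ) ^ δ) (m : ℕ)
    (hm : 1 ≤ m) (S : Finset (PP w X)) (hS : ∀ i ∈ S, pr i ∣ m) :
    (2 : ℝ) ^ S.card ≤ 2 ^ B * (m : ℝ) ^ δ := by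
  classical
  have h1 : (2 : ℝ) ^ S.card = ∏ _i ∈ S, (2 : ℝ) := by simp
  have h2 : ∏ _i ∈ S, (2 : ℝ) ≤ ∏ i ∈ S, ((if pr i < B then 2 else 1) * (pr i : ℝ) ^ δ) := by
    apply Finset.prod_le_prod
    · intro i _
      norm_num
    · intro i _
      have hp : (1 : ℝ) ≤ pr i := by exact_mod_cast (crude_pr_prime i).one_lt.le
      split_ifs with h
      · have := Real.one_le_rpow hp hδ
        linarith
      · rw [one_mul]
        exact hB.trans (Real.rpow_le_rpow (Nat.cast_nonneg B) (by exact_mod_cast not_lt.1 h) hδ)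
  have h3 : ∏ i ∈ S, (if pr i < B then (2 : ℝ) else 1) ≤ 2 ^ B := by
    rw [Finset.prod_ite, Finset.prod_const, Finset.prod_const_one, mul_one]
    apply pow_le_pow_right₀ (by norm_num)
    have h4 : (S.filter fun i => pr i < B).card ≤ (Finset.range B).card := by
      apply Finset.card_le_card_of_injOn (fun i => pr i)
      · intro i hi
        have := (Finset.mem_filter.1 (Finset.mem_coe.1 hi)).2
        exact Finset.mem_coe.2 (Finset.mem_range.2 this)
      · intro i _ j _ hij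
        exact crude_pr_inj hij
    simpa using h4
  have h5 : ∏ i ∈ S, (pr i : ℝ) ^ δ ≤ (m : ℝ) ^ δ := by
    rw [Real.finsetProd_rpow _ _ (fun i _ => Nat.cast_nonneg _)]
    apply Real.rpow_le_rpow (Finset.prod_nonneg fun i _ => Nat.cast_nonneg _) _ hδ
    have h6 : ∏ i ∈ S, pr i ∣ m := by
      have e : ∏ i ∈ S, pr i = ∏ p ∈ S.image pr, p := by
        rw [Finset.prod_image]
        intro i _ j _ hij
        exact crude_pr_inj hij
      rw [e]
      apply Finset.prod_primes_dvd
      · intro p hp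
        obtain ⟨i, _, rfl⟩ := Finset.mem_image.1 hp
        exact (crude_pr_prime i).prime
      · intro p hp
        obtain ⟨i, hi, rfl⟩ := Finset.mem_image.1 hp
        exact hS i hi
    have h7 := Nat.le_of_dvd hm h6
    exact_mod_cast h7
  rw [h1]
  refine h2.trans ?_
  rw [Finset.prod_mul_distrib]
  exact mul_le_mul h3 h5 (Finset.prod_nonneg fun i _ => Real.rpow_nonneg (Nat.cast_nonneg _) _)
    (by positivity)

theorem crude_prod (w : ℕ) (ρ : ℝ) (hρ : ρ ≤ 1) : ∃ C : ℕ, ∀ N : ℕ, 3 ≤ N →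
    ∏ i : PP w (XR ρ N), (1 + 3 * qq i) ≤ C * Real.log N ^ C := by
  obtain ⟨C, hC⟩ := prod_primes 6
  refine ⟨C, fun N hN => ?_⟩
  refine le_trans ?_ (hC N hN)
  have hN1 : (1 : ℝ) ≤ N := by exact_mod_cast (by omega : 1 ≤ N)
  have hX : XR ρ N ≤ N := by
    unfold XR
    apply Nat.floor_le_of_le
    calc (N : ℝ) ^ ρ ≤ (N : ℝ) ^ (1 : ℝ) := Real.rpow_le_rpow_of_exponent_le hN1 hρ
      _ = N := Real.rpow_one _
  have h1 : ∏ i : PP w (XR ρ N), (1 + 3 * qq i) ≤
      ∏ i : PP w (XR ρ N), (1 + ((6 : ℕ) : ℝ) / (pr i : ℝ)) := by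
    apply Finset.prod_le_prod
    · intro i _
      have hp : (1 : ℝ) < pr i := by exact_mod_cast (crude_pr_prime i).one_lt
      unfold qq
      have : 0 ≤ 1 / ((pr i : ℝ) - 1) := by
        apply div_nonneg zero_le_one
        linarith
      linarith
    · intro i _
      have hp : (2 : ℝ) ≤ pr i := by exact_mod_cast (crude_pr_prime i).two_le
      unfold qq
      have h2 : 1 / ((pr i : ℝ) - 1) ≤ 2 / (pr i : ℝ) := by
        rw [div_le_div_iff₀ (by linarith) (by linarith)]
        linarith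
      have h3 : ((6 : ℕ) : ℝ) / (pr i : ℝ) = 3 * (2 / (pr i : ℝ)) := by
        push_cast
        ring
      rw [h3]
      linarith
  refine h1.trans ?_
  have h2 : ∏ i : PP w (XR ρ N), (1 + ((6 : ℕ) : ℝ) / (pr i : ℝ)) =
      ∏ p ∈ (Finset.Ioc w (XR ρ N)).filter Nat.Prime, (1 + ((6 : ℕ) : ℝ) / (p : ℝ)) :=
    Finset.prod_coe_sort ((Finset.Ioc w (XR ρ N)).filter Nat.Prime)
      (fun p : ℕ => 1 + ((6 : ℕ) : ℝ) / (p : ℝ))
  rw [h2]
  apply Finset.prod_le_prod_of_subset_of_one_le
  · intro p hp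
    rw [mem_filter, mem_Ioc] at hp
    rw [mem_filter, mem_range]
    exact ⟨by omega, hp.2⟩
  · intro p _
    positivity
  · intro p _ _
    have : (0 : ℝ) ≤ ((6 : ℕ) : ℝ) / (p : ℝ) := by positivity
    linarith

theorem crude_log_pow (C : ℕ) (ε : ℝ) (hε : 0 < ε) :
    ∀ᶠ N : ℕ in atTop, (C : ℝ) * Real.log N ^ C ≤ (N : ℝ) ^ ε := by
  have h1 := (isLittleO_log_rpow_rpow_atTop (C : ℝ) hε).const_mul_left (C : ℝ)
  have h2 := h1.bound (show (0 : ℝ) < 1 by norm_num)
  have h3 := tendsto_natCast_atTop_atTop.eventually h2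
  filter_upwards [h3, eventually_ge_atTop 1] with N hN hN1
  have h4 : (0 : ℝ) ≤ (N : ℝ) ^ ε := Real.rpow_nonneg (Nat.cast_nonneg N) ε
  rw [Real.norm_of_nonneg h4, one_mul, Real.rpow_natCast] at hN
  exact (le_abs_self _).trans hN

theorem thm_Crude : St_Crude := by
  intro ρ δ hρ hρ1 hδ sh hsh w hw hshw
  obtain ⟨C, hC⟩ := crude_prod w ρ hρ1
  set δ' : ℝ := δ / 12 with hδ'
  have hδ'0 : 0 < δ' := by positivity
  obtain ⟨B, hB⟩ : ∃ B : ℕ, 2 ≤ (B : ℝ) ^ δ' := by
    have h1 := ((tendsto_rpow_atTop hδ'0).comp tendsto_natCast_atTop_atTop).eventually_ge_atTop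
      (2 : ℝ)
    exact h1.exists
  have hev1 : ∀ᶠ N : ℕ in atTop, ((2 : ℝ) ^ B * 2 ^ δ') ^ 3 ≤ (N : ℝ) ^ δ' :=
    ((tendsto_rpow_atTop hδ'0).comp tendsto_natCast_atTop_atTop).eventually_ge_atTop _
  filter_upwards [hev1, crude_log_pow C (δ / 2) (by positivity), eventually_ge_atTop 3,
    eventually_ge_atTop w] with N h1 h2 h3 h4 a ha1 haN
  have hN0 : (0 : ℝ) < N := by exact_mod_cast (by omega : 0 < N)
  have h5 := (hC N h3).trans h2
  have hlt : ∀ (i : PP w (XR ρ N)) h, sh h < pr i := fun i h =>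
    (hshw h).trans_lt (crude_pr_gt i)
  classical
  set Y := YY (pr (w := w) (X := XR ρ N)) sh a with hY
  set S : Fin 3 → Finset (PP w (XR ρ N)) := fun h => univ.filter fun i => pr i ∣ a + sh h with hSdef
  have h6 : (supp Y).card ≤ ∑ h, (S h).card := by
    have h7 : supp Y ⊆ univ.biUnion S := by
      intro i hi
      unfold supp at hi
      have h8 : Y i ≠ none := by simpa using hi
      obtain ⟨h, hh⟩ := Option.ne_none_iff_exists'.1 h8
      rw [mem_biUnion]
      refine ⟨h, mem_univ h, ?_⟩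
      rw [hSdef]
      simp only [mem_filter, mem_univ, true_and]
      exact (YY_eq_some pr sh hsh hlt a i h).1 hh
    exact (card_le_card h7).trans card_biUnion_le
  have h7 : (2 : ℝ) ^ (supp Y).card ≤ (N : ℝ) ^ (δ / 2) := by
    calc (2 : ℝ) ^ (supp Y).card ≤ 2 ^ (∑ h, (S h).card) :=
          pow_le_pow_right₀ (by norm_num) h6
      _ = ∏ h, (2 : ℝ) ^ (S h).card := by rw [Finset.prod_pow_eq_pow_sum]
      _ ≤ ∏ _h : Fin 3, ((2 : ℝ) ^ B * (2 * N : ℝ) ^ δ') := by
          apply Finset.prod_le_prod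
          · intro h _
            positivity
          · intro h _
            refine (crude_two_pow δ' hδ'0.le B hB (a + sh h) (by omega) (S h) ?_).trans ?_
            · intro i hi
              rw [hSdef] at hi
              simpa using hi
            · apply mul_le_mul_of_nonneg_left _ (by positivity)
              apply Real.rpow_le_rpow (Nat.cast_nonneg _) _ hδ'0.le
              have := hshw h
              exact_mod_cast (by omega : a + sh h ≤ 2 * N)
      _ = ((2 : ℝ) ^ B * 2 ^ δ') ^ 3 * ((N : ℝ) ^ δ') ^ 3 := by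
          rw [Finset.prod_const, Finset.card_univ, Fintype.card_fin,
            Real.mul_rpow (by norm_num) hN0.le]
          ring
      _ ≤ (N : ℝ) ^ δ' * ((N : ℝ) ^ δ') ^ 3 :=
          mul_le_mul_of_nonneg_right h1 (by positivity)
      _ = ((N : ℝ) ^ δ') ^ 4 := by ring
      _ = (N : ℝ) ^ (δ' * 4) := by
          rw [Real.rpow_mul hN0.le]
          norm_num
      _ ≤ (N : ℝ) ^ (δ / 2) := by
          apply Real.rpow_le_rpow_of_exponent_le
          · exact_mod_cast (by omega : 1 ≤ N)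
          · rw [hδ']
            linarith
  calc (2 : ℝ) ^ (supp Y).card * ∏ i : PP w (XR ρ N), (1 + 3 * qq i)
      ≤ (N : ℝ) ^ (δ / 2) * (N : ℝ) ^ (δ / 2) := by
        apply mul_le_mul h7 h5 _ (by positivity)
        apply Finset.prod_nonneg
        intro i _
        have hp : (1 : ℝ) < pr i := by exact_mod_cast (crude_pr_prime i).one_lt
        unfold qq
        have : 0 ≤ 1 / ((pr i : ℝ) - 1) := by
          apply div_nonneg zero_le_one
          linarith
        linarith
    _ = (N : ℝ) ^ δ := by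
        rw [← Real.rpow_add hN0]
        congr 1
        ring

end Pool.Agent.PT
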