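import Pool.Agent.PT.Stmts
import Pool.Agent.MT.Model

set_option autoImplicit false

/-!
# PT / EE0

Orthogonality in the exclusive model: expand `comb q t Y * comb q u Y`, factorise the expectation
(`ee0_bil`); the one-prime factor with one argument `none` and the other `some h`, `h ∈ K`, is `0`
(`mG_none_some`), so only pairs with equal supports count.
-/

namespace Pool.Agent.PT

open Finset Filter Pool.Agent.MT

section

variable {ι κ : Type} [Fintype ι] [DecidableEq ι] [Fintype κ] [DecidableEq κ]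

lemma ee0_bil (K : Finset κ) (q : ι → ℝ) (t u : (ι → Option κ) → ℝ) :
    EE K q (fun Y => comb q t Y * comb q u Y) =
      ∑ σ : ι → Option κ, ∑ τ : ι → Option κ, t σ * u τ * ∏ i, mG K (q i) (σ i) (τ i) := by
  have h1 : ∀ σ τ : ι → Option κ, ∏ i, mG K (q i) (σ i) (τ i) =
      ∑ g : ι → Option κ, ∏ i, (wt1 K (q i) (g i) *
        (bas (q i) (σ i) (g i) * bas (q i) (τ i) (g i))) := by
    intro σ τ
    unfold mG
    rw [Finset.prod_univ_sum, Fintype.piFinset_univ]
  simp_rw [h1, mul_sum]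
  rw [sum_comm (s := (univ : Finset (ι → Option κ)))]
  have h2 : ∀ τ : ι → Option κ, ∑ σ : ι → Option κ, ∑ g : ι → Option κ,
      t σ * u τ * ∏ i, (wt1 K (q i) (g i) * (bas (q i) (σ i) (g i) * bas (q i) (τ i) (g i))) =
      ∑ g : ι → Option κ, ∑ σ : ι → Option κ,
        t σ * u τ * ∏ i, (wt1 K (q i) (g i) *
          (bas (q i) (σ i) (g i) * bas (q i) (τ i) (g i))) := fun τ => sum_comm
  simp_rw [h2]
  rw [sum_comm]
  unfold EE comb
  refine sum_congr rfl fun g _ => ?_
  dsimp only
  rw [sum_mul_sum, mul_sum]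
  simp_rw [mul_sum]
  rw [sum_comm]
  refine sum_congr rfl fun τ _ => ?_
  refine sum_congr rfl fun σ _ => ?_
  rw [prod_mul_distrib, prod_mul_distrib]
  ring

lemma ee0_gen (K : Finset κ) (q : ι → ℝ) (t u : (ι → Option κ) → ℝ)
    (h : ∀ σ τ, supp σ = supp τ → t σ * u τ = 0)
    (ht : ∀ σ, (∃ i h, σ i = some h ∧ h ∉ K) → t σ = 0)
    (hu : ∀ σ, (∃ i h, σ i = some h ∧ h ∉ K) → u σ = 0) :
    EE K q (fun Y => comb q t Y * comb q u Y) = 0 := by
  rw [ee0_bil]
  refine sum_eq_zero fun σ _ => sum_eq_zero fun τ _ => ?_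
  by_cases hs : supp σ = supp τ
  · rw [h σ τ hs, zero_mul]
  · have hne : ∃ i, ¬ ((i ∈ supp σ) ↔ (i ∈ supp τ)) := by
      by_contra hcon
      push Not at hcon
      exact hs (Finset.ext hcon)
    obtain ⟨i, hi⟩ := hne
    have hi' : ¬ ((σ i ≠ none) ↔ (τ i ≠ none)) := by
      intro hh
      apply hi
      simp only [supp, mem_filter, mem_univ, true_and]
      exact hh
    rcases hσ : σ i with _ | a
    · rcases hτ : τ i with _ | b
      · exact absurd (by rw [hσ, hτ]) hi'
      · by_cases hb : b ∈ K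
        · rw [prod_eq_zero (mem_univ i) (by rw [hσ, hτ]; exact mG_none_some (q i) hb), mul_zero]
        · rw [hu τ ⟨i, b, hτ, hb⟩]
          ring
    · rcases hτ : τ i with _ | b
      · by_cases ha : a ∈ K
        · rw [prod_eq_zero (mem_univ i)
            (by rw [hσ, hτ, mG_symm]; exact mG_none_some (q i) ha), mul_zero]
        · rw [ht σ ⟨i, a, hσ, ha⟩]
          ring
      · exact absurd (by rw [hσ, hτ]; simp) hi'

end

theorem thm_EE0 : St_EE0 := by
  intro w X K q t u h ht hu
  exact ee0_gen K q t u h ht hu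

end Pool.Agent.PT
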