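import Mathlib
import Pool.Agent.PT.BVB

set_option autoImplicit false

/-!
# PT / Mass

Mass of a box.
-/

namespace Pool.Agent.PT

open Finset Filter Pool.Agent.MT

theorem Mass_bz_nonneg {n : ℕ} (k : Fin n → ℕ) (M N m : ℕ) : 0 ≤ bz k M N m := by
  unfold bz
  split_ifs
  · exact div_nonneg (Real.log_natCast_nonneg m) (Real.log_natCast_nonneg N)
  · exact le_refl _
  · unfold bx BB
    refine sum_nonneg fun a _ => mul_nonneg ?_ ?_
    · unfold al
      split_ifs <;> norm_num
    · split_ifs <;> norm_num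

theorem Mass_mu_nonneg {ρ : ℝ} {M n : ℕ} (hM : 1 ≤ M) {k : Fin (n + 1) → ℕ}
    (hk : BoxOK ρ M k) : 0 ≤ mu k M := by
  have hM0 : (0 : ℝ) < M := by exact_mod_cast hM
  unfold mu
  refine div_nonneg (prod_nonneg fun i _ => Real.log_nonneg ?_) ?_
  · have h1 : (0 : ℝ) < k i := lt_of_lt_of_le (by positivity) (hk.2.1 i)
    rw [le_div_iff₀ h1]
    linarith
  · have h1 := hk.2.2.1 0
    have h2 : (0 : ℝ) ≤ ((k 0 : ℝ) + 2) / M := by positivity
    have h3 : ∑ i, (k i : ℝ) / M ≤ ∑ i, ((k i : ℝ) + 1) / M :=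
      sum_le_sum fun i _ => div_le_div_of_nonneg_right (by linarith) hM0.le
    linarith

/-- from an additive to a multiplicative lower bound -/
theorem Mass_mul {c ε : ℝ} {f : ℕ → ℝ} (hc : 0 ≤ c) (hε : 0 < ε) (hf : ∀ N, 0 ≤ f N)
    (h : ∀ e : ℝ, 0 < e → ∀ᶠ N : ℕ in atTop, c * (N / Real.log N) - e * (N / Real.log N) ≤ f N) :
    ∀ᶠ N : ℕ in atTop, (1 - ε) * (c * (N / Real.log N)) ≤ f N := by
  rcases hc.eq_or_lt with h0 | h0
  · filter_upwards with N
    rw [← h0, zero_mul, mul_zero]
    exact hf N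
  · filter_upwards [h (ε * c) (by positivity)] with N hN
    have e : (1 - ε) * (c * (N / Real.log N)) =
        c * (N / Real.log N) - ε * c * (N / Real.log N) := by ring
    rw [e]
    exact hN

theorem thm_Mass : St_Mass := by
  intro η hη ρ _ M hM n _ k hk ε hε
  have hm0 : 0 ≤ mη η := by
    unfold mη
    exact intervalIntegral.integral_nonneg zero_le_one fun t _ => hη.nonneg t
  have hB0 : ∀ N : ℕ, 0 ≤ B0 η N (bz k M N) := fun N => by
    unfold B0
    exact sum_nonneg fun m _ => mul_nonneg (Mass_bz_nonneg k M N m) (hη.nonneg _)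
  cases n with
  | zero =>
    have hmu : mu k M = 1 := by
      unfold mu
      simp
    have h := Mass_mul (c := mη η) (ε := ε) (f := fun N => B0 η N (bz k M N)) hm0 hε hB0
      (fun e he => by
        filter_upwards [PTB.out_massP η hη e he] with N hN
        rw [BVB_zero, ← mul_div_assoc, ← mul_div_assoc]
        exact hN)
    filter_upwards [h] with N hN
    rw [hmu, mul_one]
    exact hN
  | succ n =>
    have h := Mass_mul (c := mη η * mu k M) (ε := ε) (f := fun N => B0 η N (bz k M N))
      (mul_nonneg hm0 (Mass_mu_nonneg hM hk)) hε hB0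
      (fun e he => by
        filter_upwards [PTB.out_mass η hη ρ M n hM k hk e he] with N hN
        rw [BVB_succ, ← mul_div_assoc, ← mul_div_assoc]
        exact hN)
    filter_upwards [h] with N hN
    have e : mη η * (N / Real.log N) * mu k M = mη η * mu k M * (N / Real.log N) := by ring
    rw [e]
    exact hN

end Pool.Agent.PT
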