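import Pool.Agent.PT.Stmts

set_option autoImplicit false

/-!
# PT / MuSum

The sum of the masses of the boxes is bounded: the masses are at most `1/ρ` times products of
logarithms, and the sum of the logarithms telescopes.
-/

namespace Pool.Agent.PT

open Finset Filter Pool.Agent.MT

private lemma musum_tel (a : ℕ) (ha : 1 ≤ a) : ∀ b : ℕ, a ≤ b →
    ∑ k ∈ Ico a b, Real.log (((k : ℝ) + 1) / k) = Real.log b - Real.log a := by
  intro b hb
  induction b, hb using Nat.le_induction with
  | base => simp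
  | succ b hb ih =>
    rw [Finset.sum_Ico_succ_top hb, ih]
    have hb0 : (0 : ℝ) < b := by exact_mod_cast lt_of_lt_of_le ha hb
    rw [Real.log_div (by positivity) hb0.ne']
    push_cast
    ring

private lemma musum_nonneg {M : ℕ} (hM : 1 ≤ M) {k : ℕ} (hk : (M : ℝ) / 1000 ≤ k) :
    0 ≤ Real.log (((k : ℝ) + 1) / k) := by
  have hMpos : (0 : ℝ) < M := by exact_mod_cast hM
  have hk0 : (0 : ℝ) < k := lt_of_lt_of_le (by positivity) hk
  apply Real.log_nonneg
  rw [le_div_iff₀ hk0]
  linarith

private lemma musum_one {M : ℕ} (hM : 1 ≤ M) :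
    ∑ k ∈ (range M).filter (fun k : ℕ => (M : ℝ) / 1000 ≤ k), Real.log (((k : ℝ) + 1) / k) ≤ 8 := by
  have hMpos : (0 : ℝ) < M := by exact_mod_cast hM
  set a : ℕ := ⌈(M : ℝ) / 1000⌉₊ with ha
  have ha1 : 1 ≤ a := Nat.one_le_ceil_iff.mpr (by positivity)
  have haM : a ≤ M := by
    apply Nat.ceil_le.mpr
    have : (M : ℝ) / 1000 ≤ M := by
      rw [div_le_iff₀ (by norm_num)]
      nlinarith
    exact this
  have hsub : (range M).filter (fun k : ℕ => (M : ℝ) / 1000 ≤ k) ⊆ Ico a M := by
    intro k hk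
    rw [mem_filter, mem_range] at hk
    rw [mem_Ico]
    exact ⟨Nat.ceil_le.mpr hk.2, hk.1⟩
  have hle : (M : ℝ) / 1000 ≤ a := Nat.le_ceil _
  calc ∑ k ∈ (range M).filter (fun k : ℕ => (M : ℝ) / 1000 ≤ k), Real.log (((k : ℝ) + 1) / k)
      ≤ ∑ k ∈ Ico a M, Real.log (((k : ℝ) + 1) / k) := by
        apply Finset.sum_le_sum_of_subset_of_nonneg hsub
        intro k hk _
        rw [mem_Ico] at hk
        apply musum_nonneg hM
        exact hle.trans (by exact_mod_cast hk.1)
    _ = Real.log M - Real.log a := musum_tel a ha1 M haM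
    _ = Real.log (M / a) := by
        rw [Real.log_div hMpos.ne']
        have : (0 : ℝ) < a := by exact_mod_cast ha1
        exact this.ne'
    _ ≤ Real.log (2 ^ 10) := by
        have ha0 : (0 : ℝ) < a := by exact_mod_cast ha1
        apply Real.log_le_log (by positivity)
        rw [div_le_iff₀ ha0]
        rw [div_le_iff₀ (by norm_num)] at hle
        nlinarith
    _ ≤ 8 := by
        rw [Real.log_pow]
        have := Real.log_two_lt_d9
        push_cast
        linarith

theorem thm_MuSum : St_MuSum := by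
  classical
  intro ρ hρ hρ1
  refine ⟨512 / ρ, by positivity, ?_⟩
  intro M n hM hn
  have hMpos : (0 : ℝ) < M := by exact_mod_cast hM
  have key : ∀ k ∈ boxes ρ M n, (∀ i, k i ∈ (range M).filter (fun k : ℕ => (M : ℝ) / 1000 ≤ k)) ∧
      ρ < 1 - ∑ i, (k i : ℝ) / M := by
    intro k hk
    rw [boxes, mem_filter, Fintype.mem_piFinset] at hk
    obtain ⟨h1, _, h2, _, h3⟩ := hk
    refine ⟨fun i => mem_filter.mpr ⟨h1 i, h2 i⟩, ?_⟩
    have h4 : ∑ i, (k i : ℝ) / M ≤ ∑ i, ((k i : ℝ) + 1) / M := by
      apply Finset.sum_le_sum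
      intro i _
      gcongr
      linarith
    have h5 : (0 : ℝ) < 1 / M := by positivity
    linarith
  have hprod : ∀ k ∈ boxes ρ M n, 0 ≤ ∏ i, Real.log (((k i : ℝ) + 1) / k i) := by
    intro k hk
    apply Finset.prod_nonneg
    intro i _
    exact musum_nonneg hM (mem_filter.mp ((key k hk).1 i)).2
  refine ⟨fun k hk => div_nonneg (hprod k hk) (by linarith [(key k hk).2]), ?_⟩
  set S := (range M).filter (fun k : ℕ => (M : ℝ) / 1000 ≤ k) with hS
  have hS0 : 0 ≤ ∑ k ∈ S, Real.log (((k : ℝ) + 1) / k) :=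
    Finset.sum_nonneg fun k hk => musum_nonneg hM (mem_filter.mp hk).2
  calc ∑ k ∈ boxes ρ M n, mu k M
      ≤ ∑ k ∈ boxes ρ M n, (∏ i, Real.log (((k i : ℝ) + 1) / k i)) / ρ := by
        apply Finset.sum_le_sum
        intro k hk
        exact div_le_div_of_nonneg_left (hprod k hk) hρ (key k hk).2.le
    _ = (∑ k ∈ boxes ρ M n, ∏ i, Real.log (((k i : ℝ) + 1) / k i)) / ρ := by
        rw [Finset.sum_div]
    _ ≤ (∑ k ∈ Fintype.piFinset fun _ : Fin n => S, ∏ i, Real.log (((k i : ℝ) + 1) / k i)) / ρ := by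
        apply div_le_div_of_nonneg_right _ hρ.le
        apply Finset.sum_le_sum_of_subset_of_nonneg
        · intro k hk
          rw [Fintype.mem_piFinset]
          exact (key k hk).1
        · intro k hk _
          rw [Fintype.mem_piFinset] at hk
          apply Finset.prod_nonneg
          intro i _
          exact musum_nonneg hM (mem_filter.mp (hk i)).2
    _ = (∑ k ∈ S, Real.log (((k : ℝ) + 1) / k)) ^ n / ρ := by
        congr 1
        rw [← Finset.prod_univ_sum (fun _ : Fin n => S)
          (fun _ (k : ℕ) => Real.log (((k : ℝ) + 1) / k))]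
        simp
    _ ≤ 8 ^ n / ρ := by
        apply div_le_div_of_nonneg_right _ hρ.le
        exact pow_le_pow_left₀ hS0 (musum_one hM) n
    _ ≤ 8 ^ 3 / ρ := by
        apply div_le_div_of_nonneg_right _ hρ.le
        exact pow_le_pow_right₀ (by norm_num) hn
    _ = 512 / ρ := by norm_num

end Pool.Agent.PT
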