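import Pool.Agent.PT.AllD
import Pool.Agent.PT.Adm
import Pool.Agent.PT.BExp
import Pool.Agent.PT.BVB
import Pool.Agent.PT.Box
import Pool.Agent.PT.CBd
import Pool.Agent.PT.Core
import Pool.Agent.PT.Crude
import Pool.Agent.PT.EE0
import Pool.Agent.PT.Int
import Pool.Agent.PT.Mass
import Pool.Agent.PT.MuSum
import Pool.Agent.PT.Z1

set_option autoImplicit false

/-!
# PT / AllC: the criterion from the configuration lemma
-/

namespace Pool.Agent.PT

theorem face_of_cfg (h : St_Cfg) : St_Face :=
  thm_Face thm_BExp thm_EE0 thm_CBd h thm_Crude thm_Box tB_holds J_holds thm_BVB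

theorem core_of_cfg (h : St_Cfg) : St_Core :=
  thm_Core (thm_Int S1_holds thm_Z1) (face_of_cfg h) thm_Box thm_MuSum thm_Mass R_holds thm_CBd
    thm_Adm thm_Z1

end Pool.Agent.PT
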