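import Pool.Agent.PT.StD

set_option autoImplicit false

/-!
# PT / D2

Module of the density block of PT (see the docstring of the statement in `PT/StD.lean`).
-/

namespace Pool.Agent.PT

open Finset Filter Pool.Agent.MT MeasureTheory

private theorem d2_mono {E : Type} [Fintype E] {wt s : E → ℝ} {A ε ε' ρ : ℝ} (hA : 0 < A)
    (h : Dist wt s A ε ρ) (he : ε ≤ ε') : Dist wt s A ε' ρ where
  wn := h.wn
  sn := h.sn
  le := fun t h0 h1 => (h.le t h0 h1).trans (mul_le_mul_of_nonneg_right he hA.le)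

private theorem d2_cont {K σ : ℝ} (hK : 0 ≤ K) {f : ℝ → ℝ → ℝ}
    (hl : ∀ a b a' b', 0 ≤ a → 0 ≤ b → a + b ≤ σ → 0 ≤ a' → 0 ≤ b' → a' + b' ≤ σ →
      |f a b - f a' b'| ≤ K * (|a - a'| + |b - b'|)) {a : ℝ} (ha : 0 ≤ a) :
    ContinuousOn (f a) (Set.Icc 0 (σ - a)) := by
  have h : LipschitzOnWith K.toNNReal (f a) (Set.Icc 0 (σ - a)) := by
    refine LipschitzOnWith.of_dist_le_mul fun x hx y hy => ?_
    rw [Real.coe_toNNReal K hK, Real.dist_eq, Real.dist_eq]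
    have h1 := hl a x a y ha hx.1 (by linarith [hx.2]) ha hy.1 (by linarith [hy.2])
    rwa [sub_self, abs_zero, zero_add] at h1
  exact h.continuousOn

private theorem d2_int {K σ : ℝ} (hK : 0 ≤ K) {f : ℝ → ℝ → ℝ}
    (hl : ∀ a b a' b', 0 ≤ a → 0 ≤ b → a + b ≤ σ → 0 ≤ a' → 0 ≤ b' → a' + b' ≤ σ →
      |f a b - f a' b'| ≤ K * (|a - a'| + |b - b'|)) {a : ℝ} (ha : 0 ≤ a) {x y : ℝ} (hx : 0 ≤ x)
    (hxy : x ≤ y) (hy : y ≤ σ - a) : IntervalIntegrable (f a) volume x y := by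
  refine ContinuousOn.intervalIntegrable ((d2_cont hK hl ha).mono ?_)
  rw [Set.uIcc_of_le hxy]
  exact Set.Icc_subset_Icc hx hy

private theorem d2_bd {K σ : ℝ} {f : ℝ → ℝ → ℝ}
    (hb : ∀ a b, 0 ≤ a → 0 ≤ b → a + b ≤ σ → |f a b| ≤ K) {a : ℝ} (ha : 0 ≤ a)
    {x y : ℝ} (hx : 0 ≤ x) (hxy : x ≤ y) (hy : y ≤ σ - a) :
    |∫ b in x..y, f a b| ≤ K * (y - x) := by
  have h := intervalIntegral.norm_integral_le_of_norm_le_const (a := x) (b := y) (C := K)
    (f := f a) (fun b hb' => by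
      rw [Set.uIoc_of_le hxy] at hb'
      exact hb a b ha (hx.trans hb'.1.le) (by linarith [hb'.2]))
  rwa [Real.norm_eq_abs, abs_of_nonneg (sub_nonneg.2 hxy)] at h

private theorem d2_lip {K σ : ℝ} (hK : 0 ≤ K) (hσ1 : σ ≤ 1) {f : ℝ → ℝ → ℝ}
    (hb : ∀ a b, 0 ≤ a → 0 ≤ b → a + b ≤ σ → |f a b| ≤ K)
    (hl : ∀ a b a' b', 0 ≤ a → 0 ≤ b → a + b ≤ σ → 0 ≤ a' → 0 ≤ b' → a' + b' ≤ σ →
      |f a b - f a' b'| ≤ K * (|a - a'| + |b - b'|)) {a a' : ℝ} (ha : 0 ≤ a) (haa : a ≤ a')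
    (ha' : a' ≤ σ) :
    |(∫ b in (0 : ℝ)..(σ - a), f a b) - ∫ b in (0 : ℝ)..(σ - a'), f a' b| ≤
      2 * K * (a' - a) := by
  have h0 : (0 : ℝ) ≤ σ - a' := by linarith
  have h1 : σ - a' ≤ σ - a := by linarith
  have e1 : (∫ b in (0 : ℝ)..(σ - a), f a b) =
      (∫ b in (0 : ℝ)..(σ - a'), f a b) + ∫ b in (σ - a')..(σ - a), f a b :=
    (intervalIntegral.integral_add_adjacent_intervals (d2_int hK hl ha le_rfl h0 h1)
      (d2_int hK hl ha h0 h1 le_rfl)).symm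
  have e2 : (∫ b in (0 : ℝ)..(σ - a'), f a b) - (∫ b in (0 : ℝ)..(σ - a'), f a' b) =
      ∫ b in (0 : ℝ)..(σ - a'), (f a b - f a' b) :=
    (intervalIntegral.integral_sub (d2_int hK hl ha le_rfl h0 h1)
      (d2_int hK hl (ha.trans haa) le_rfl h0 le_rfl)).symm
  have e3 : |∫ b in (0 : ℝ)..(σ - a'), (f a b - f a' b)| ≤ K * (a' - a) := by
    have h := intervalIntegral.norm_integral_le_of_norm_le_const (a := (0 : ℝ)) (b := σ - a')
      (C := K * (a' - a)) (f := fun b => f a b - f a' b) (fun b hb' => by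
        rw [Set.uIoc_of_le h0] at hb'
        have h2 := hl a b a' b ha hb'.1.le (by linarith [hb'.2]) (ha.trans haa) hb'.1.le
          (by linarith [hb'.2])
        rw [sub_self, abs_zero, add_zero, abs_sub_comm a a', abs_of_nonneg (sub_nonneg.2 haa)] at h2
        exact h2)
    rw [Real.norm_eq_abs, sub_zero, abs_of_nonneg h0] at h
    refine h.trans ?_
    have h3 : 0 ≤ K * (a' - a) := mul_nonneg hK (sub_nonneg.2 haa)
    have h4 : σ - a' ≤ 1 := by linarith [ha.trans haa]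
    calc K * (a' - a) * (σ - a') ≤ K * (a' - a) * 1 := mul_le_mul_of_nonneg_left h4 h3
      _ = K * (a' - a) := mul_one _
  have e4 : |∫ b in (σ - a')..(σ - a), f a b| ≤ K * (a' - a) := by
    have h := d2_bd hb ha h0 h1 (le_refl (σ - a))
    have h5 : σ - a - (σ - a') = a' - a := by ring
    rwa [h5] at h
  have e5 : (∫ b in (0 : ℝ)..(σ - a), f a b) - (∫ b in (0 : ℝ)..(σ - a'), f a' b) =
      (∫ b in (0 : ℝ)..(σ - a'), (f a b - f a' b)) + ∫ b in (σ - a')..(σ - a), f a b := by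
    rw [e1, ← e2]
    ring
  rw [e5]
  refine (abs_add_le _ _).trans ?_
  linarith

open Classical in
theorem thm_D2 (hD1 : St_D1) : St_D2 := by
  intro K ε0 hε0
  obtain ⟨ε1, hε1, H1⟩ := hD1 K (ε0 / 4) (by positivity)
  obtain ⟨ε2, hε2, H2⟩ := hD1 (2 * K) (ε0 / 2) (by positivity)
  refine ⟨min ε1 (min ε2 1), lt_min hε1 (lt_min hε2 one_pos), ?_⟩
  intro E _ wt s A ρ hA hρ hρ1 hD σ f hσ hσρ hb hl
  have hK : 0 ≤ K := (abs_nonneg _).trans (hb 0 0 le_rfl le_rfl (by linarith))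
  have D1 : Dist wt s A ε1 ρ := d2_mono hA hD (min_le_left _ _)
  have D2 : Dist wt s A ε2 ρ := d2_mono hA hD ((min_le_right _ _).trans (min_le_left _ _))
  have D3 : Dist wt s A 1 ρ := d2_mono hA hD ((min_le_right _ _).trans (min_le_right _ _))
  have hσ1 : σ ≤ 1 := hσρ.trans hρ1
  -- total mass
  have hm : (∑ e, if s e ≤ σ then wt e else 0) ≤ 2 * A := by
    have h := (abs_le.1 (D3.le σ hσ hσρ)).2
    nlinarith
  -- the function g
  obtain ⟨g, hg⟩ : ∃ g : ℝ → ℝ, ∀ a, g a = ∫ b in (0 : ℝ)..(σ - a), f a b := ⟨_, fun _ => rfl⟩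
  have hgb : ∀ x, 0 ≤ x → x ≤ σ → |g x| ≤ 2 * K := by
    intro x h0 h1
    rw [hg]
    refine (d2_bd hb h0 le_rfl (by linarith) le_rfl).trans ?_
    nlinarith
  have hgl : ∀ x y, 0 ≤ x → x ≤ σ → 0 ≤ y → y ≤ σ → |g x - g y| ≤ 2 * K * |x - y| := by
    intro x y hx0 hx1 hy0 hy1
    rw [hg, hg]
    rcases le_total x y with h | h
    · have h2 := d2_lip hK hσ1 hb hl hx0 h hy1
      rwa [abs_sub_comm x y, abs_of_nonneg (sub_nonneg.2 h)]
    · have h2 := d2_lip hK hσ1 hb hl hy0 h hx1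
      rwa [abs_of_nonneg (sub_nonneg.2 h), abs_sub_comm]
  have T2 := H2 E wt s A ρ hA hρ hρ1 D2 σ g hσ hσρ hgb hgl
  -- the inner sums
  have inner : ∀ e, |(∑ e', if s e + s e' ≤ σ then wt e * wt e' * f (s e) (s e') else 0) -
      A * (if s e ≤ σ then wt e * g (s e) else 0)| ≤
        (ε0 / 4 * A) * (if s e ≤ σ then wt e else 0) := by
    intro e
    by_cases he : s e ≤ σ
    · rw [if_pos he, if_pos he]
      have h1 := H1 E wt s A ρ hA hρ hρ1 D1 (σ - s e) (f (s e)) (by linarith)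
        (by linarith [hD.sn e]) (fun x hx0 hx1 => hb (s e) x (hD.sn e) hx0 (by linarith))
        (fun x y hx0 hx1 hy0 hy1 => by
          have h2 := hl (s e) x (s e) y (hD.sn e) hx0 (by linarith) (hD.sn e) hy0 (by linarith)
          rwa [sub_self, abs_zero, zero_add] at h2)
      have h3 : (∑ e', if s e + s e' ≤ σ then wt e * wt e' * f (s e) (s e') else 0) =
          wt e * ∑ e', if s e' ≤ σ - s e then wt e' * f (s e) (s e') else 0 := by
        rw [Finset.mul_sum]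
        refine Finset.sum_congr rfl fun e' _ => ?_
        by_cases h : s e + s e' ≤ σ
        · rw [if_pos h, if_pos (by linarith)]
          ring
        · rw [if_neg h, if_neg (by intro h'; exact h (by linarith)), mul_zero]
      have h4 : (∑ e', if s e + s e' ≤ σ then wt e * wt e' * f (s e) (s e') else 0) -
          A * (wt e * g (s e)) = wt e * ((∑ e', if s e' ≤ σ - s e then wt e' * f (s e) (s e')
            else 0) - A * ∫ x in (0 : ℝ)..(σ - s e), f (s e) x) := by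
        rw [h3, hg]
        ring
      rw [h4, abs_mul, abs_of_nonneg (hD.wn e), mul_comm (ε0 / 4 * A)]
      exact mul_le_mul_of_nonneg_left h1 (hD.wn e)
    · rw [if_neg he, if_neg he]
      have h3 : (∑ e', if s e + s e' ≤ σ then wt e * wt e' * f (s e) (s e') else 0) = 0 := by
        refine Finset.sum_eq_zero fun e' _ => if_neg ?_
        intro h
        exact he (by linarith [hD.sn e'])
      rw [h3]
      simp
  have T1 : |(∑ e, ∑ e', if s e + s e' ≤ σ then wt e * wt e' * f (s e) (s e') else 0) -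
      A * ∑ e, (if s e ≤ σ then wt e * g (s e) else 0)| ≤ (ε0 / 4 * A) * (2 * A) := by
    rw [Finset.mul_sum, ← Finset.sum_sub_distrib]
    refine (Finset.abs_sum_le_sum_abs _ _).trans ?_
    refine (Finset.sum_le_sum fun e _ => inner e).trans ?_
    rw [← Finset.mul_sum]
    exact mul_le_mul_of_nonneg_left hm (by positivity)
  have T3 : |A * (∑ e, (if s e ≤ σ then wt e * g (s e) else 0)) -
      A ^ 2 * ∫ a in (0 : ℝ)..σ, ∫ b in (0 : ℝ)..(σ - a), f a b| ≤ A * (ε0 / 2 * A) := by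
    have h1 : (∫ a in (0 : ℝ)..σ, ∫ b in (0 : ℝ)..(σ - a), f a b) = ∫ a in (0 : ℝ)..σ, g a := by
      refine intervalIntegral.integral_congr fun a _ => ?_
      exact (hg a).symm
    have h2 : A * (∑ e, (if s e ≤ σ then wt e * g (s e) else 0)) -
        A ^ 2 * ∫ a in (0 : ℝ)..σ, g a =
        A * ((∑ e, (if s e ≤ σ then wt e * g (s e) else 0)) - A * ∫ a in (0 : ℝ)..σ, g a) := by
      ring
    rw [h1, h2, abs_mul, abs_of_pos hA]
    exact mul_le_mul_of_nonneg_left T2 hA.le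
  have h5 := abs_sub_le (∑ e, ∑ e', if s e + s e' ≤ σ then wt e * wt e' * f (s e) (s e') else 0)
    (A * ∑ e, (if s e ≤ σ then wt e * g (s e) else 0))
    (A ^ 2 * ∫ a in (0 : ℝ)..σ, ∫ b in (0 : ℝ)..(σ - a), f a b)
  refine h5.trans ((add_le_add T1 T3).trans (le_of_eq ?_))
  ring

end Pool.Agent.PT
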