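import Pool.Agent.PT.StD

set_option autoImplicit false

/-!
# PT / D3

Module of the density block of PT (see the docstring of the statement in `PT/StD.lean`).
-/

namespace Pool.Agent.PT

open Finset Filter Pool.Agent.MT MeasureTheory

private theorem d3_mono {E : Type} [Fintype E] {wt s : E → ℝ} {A ε ε' ρ : ℝ} (hA : 0 < A)
    (h : Dist wt s A ε ρ) (he : ε ≤ ε') : Dist wt s A ε' ρ where
  wn := h.wn
  sn := h.sn
  le := fun t h0 h1 => (h.le t h0 h1).trans (mul_le_mul_of_nonneg_right he hA.le)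

private theorem d3_reg {ρ a b c : ℝ} :
    Reg ρ ![a, b, c] ↔ 0 ≤ a ∧ 0 ≤ b ∧ 0 ≤ c ∧ a + b ≤ ρ ∧ c ≤ ρ - max a b := by
  constructor
  · rintro ⟨h0, h1⟩
    have ha := h0 0
    have hb := h0 1
    have hc := h0 2
    have h01 := h1 0 1 (by decide)
    have h02 := h1 0 2 (by decide)
    have h12 := h1 1 2 (by decide)
    simp only [Matrix.cons_val] at ha hb hc h01 h02 h12
    refine ⟨ha, hb, hc, h01, ?_⟩
    rcases max_choice a b with h | h <;> rw [h] <;> linarith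
  · rintro ⟨ha, hb, hc, hab, hm⟩
    have h1 := le_max_left a b
    have h2 := le_max_right a b
    refine ⟨fun i => ?_, fun i j hij => ?_⟩
    · fin_cases i <;> simpa
    · fin_cases i <;> fin_cases j <;> simp at hij ⊢ <;> linarith

private theorem d3_lip1 {K ρ : ℝ} {f : (Fin 3 → ℝ) → ℝ}
    (hl : ∀ a a', Reg ρ a → Reg ρ a' → |f a - f a'| ≤ K * ∑ i, |a i - a' i|)
    {a b c a' b' c' : ℝ} (h : Reg ρ ![a, b, c]) (h' : Reg ρ ![a', b', c']) :
    |f ![a, b, c] - f ![a', b', c']| ≤ K * (|a - a'| + |b - b'| + |c - c'|) := by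
  have := hl _ _ h h'
  simpa [Fin.sum_univ_three] using this

private theorem d3_int {K ρ : ℝ} (hK : 0 ≤ K) {f : (Fin 3 → ℝ) → ℝ}
    (hl : ∀ a a', Reg ρ a → Reg ρ a' → |f a - f a'| ≤ K * ∑ i, |a i - a' i|)
    {a b : ℝ} (ha : 0 ≤ a) (hb : 0 ≤ b) (hab : a + b ≤ ρ) {x y : ℝ} (hx : 0 ≤ x)
    (hxy : x ≤ y) (hy : y ≤ ρ - max a b) :
    IntervalIntegrable (fun c => f ![a, b, c]) volume x y := by
  have h : LipschitzOnWith K.toNNReal (fun c => f ![a, b, c]) (Set.Icc 0 (ρ - max a b)) := by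
    refine LipschitzOnWith.of_dist_le_mul fun x hx y hy => ?_
    rw [Real.coe_toNNReal K hK, Real.dist_eq, Real.dist_eq]
    have h1 := d3_lip1 hl (d3_reg.2 ⟨ha, hb, hx.1, hab, hx.2⟩)
      (d3_reg.2 ⟨ha, hb, hy.1, hab, hy.2⟩)
    simpa using h1
  refine ContinuousOn.intervalIntegrable (h.continuousOn.mono ?_)
  rw [Set.uIcc_of_le hxy]
  exact Set.Icc_subset_Icc hx hy

private theorem d3_bd {K ρ : ℝ} {f : (Fin 3 → ℝ) → ℝ} (hbd : ∀ a, Reg ρ a → |f a| ≤ K)
    {a b : ℝ} (ha : 0 ≤ a) (hb : 0 ≤ b) (hab : a + b ≤ ρ) {x y : ℝ} (hx : 0 ≤ x)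
    (hxy : x ≤ y) (hy : y ≤ ρ - max a b) :
    |∫ c in x..y, f ![a, b, c]| ≤ K * (y - x) := by
  have h := intervalIntegral.norm_integral_le_of_norm_le_const (a := x) (b := y) (C := K)
    (f := fun c => f ![a, b, c]) (fun c hc => by
      rw [Set.uIoc_of_le hxy] at hc
      exact hbd _ (d3_reg.2 ⟨ha, hb, hx.trans hc.1.le, hab, hc.2.trans hy⟩))
  rwa [Real.norm_eq_abs, abs_of_nonneg (sub_nonneg.2 hxy)] at h

private theorem d3_glip {K ρ : ℝ} (hK : 0 ≤ K) (hρ1 : ρ ≤ 1) {f : (Fin 3 → ℝ) → ℝ}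
    (hbd : ∀ a, Reg ρ a → |f a| ≤ K)
    (hl : ∀ a a', Reg ρ a → Reg ρ a' → |f a - f a'| ≤ K * ∑ i, |a i - a' i|)
    {a b a' b' : ℝ} (ha : 0 ≤ a) (hb : 0 ≤ b) (hab : a + b ≤ ρ) (ha' : 0 ≤ a') (hb' : 0 ≤ b')
    (hab' : a' + b' ≤ ρ) (hm : max a b ≤ max a' b') :
    |(∫ c in (0 : ℝ)..(ρ - max a b), f ![a, b, c]) -
      ∫ c in (0 : ℝ)..(ρ - max a' b'), f ![a', b', c]| ≤ 2 * K * (|a - a'| + |b - b'|) := by
  have h0 : (0 : ℝ) ≤ ρ - max a' b' := by
    rcases max_choice a' b' with h | h <;> rw [h] <;> linarith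
  have h1 : ρ - max a' b' ≤ ρ - max a b := by linarith
  have hmm : max a' b' - max a b ≤ |a - a'| + |b - b'| := by
    have e1 := le_max_left a b
    have e2 := le_max_right a b
    have e3 := neg_abs_le (a - a')
    have e4 := neg_abs_le (b - b')
    have e5 := abs_nonneg (a - a')
    have e6 := abs_nonneg (b - b')
    rcases max_choice a' b' with h | h <;> rw [h] <;> linarith
  have e1 : (∫ c in (0 : ℝ)..(ρ - max a b), f ![a, b, c]) =
      (∫ c in (0 : ℝ)..(ρ - max a' b'), f ![a, b, c]) +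
        ∫ c in (ρ - max a' b')..(ρ - max a b), f ![a, b, c] :=
    (intervalIntegral.integral_add_adjacent_intervals (d3_int hK hl ha hb hab le_rfl h0 h1)
      (d3_int hK hl ha hb hab h0 h1 le_rfl)).symm
  have e2 : (∫ c in (0 : ℝ)..(ρ - max a' b'), f ![a, b, c]) -
      (∫ c in (0 : ℝ)..(ρ - max a' b'), f ![a', b', c]) =
      ∫ c in (0 : ℝ)..(ρ - max a' b'), (f ![a, b, c] - f ![a', b', c]) :=
    (intervalIntegral.integral_sub (d3_int hK hl ha hb hab le_rfl h0 h1)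
      (d3_int hK hl ha' hb' hab' le_rfl h0 le_rfl)).symm
  have e3 : |∫ c in (0 : ℝ)..(ρ - max a' b'), (f ![a, b, c] - f ![a', b', c])| ≤
      K * (|a - a'| + |b - b'|) := by
    have h := intervalIntegral.norm_integral_le_of_norm_le_const (a := (0 : ℝ))
      (b := ρ - max a' b') (C := K * (|a - a'| + |b - b'|))
      (f := fun c => f ![a, b, c] - f ![a', b', c]) (fun c hc => by
        rw [Set.uIoc_of_le h0] at hc
        have h2 := d3_lip1 hl (d3_reg.2 ⟨ha, hb, hc.1.le, hab, hc.2.trans h1⟩)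
          (d3_reg.2 ⟨ha', hb', hc.1.le, hab', hc.2⟩)
        rw [sub_self, abs_zero, add_zero] at h2
        exact h2)
    rw [Real.norm_eq_abs, sub_zero, abs_of_nonneg h0] at h
    refine h.trans ?_
    have h3 : 0 ≤ K * (|a - a'| + |b - b'|) :=
      mul_nonneg hK (add_nonneg (abs_nonneg _) (abs_nonneg _))
    have h4 : ρ - max a' b' ≤ 1 := by linarith [ha'.trans (le_max_left a' b')]
    calc K * (|a - a'| + |b - b'|) * (ρ - max a' b') ≤ K * (|a - a'| + |b - b'|) * 1 :=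
          mul_le_mul_of_nonneg_left h4 h3
      _ = K * (|a - a'| + |b - b'|) := mul_one _
  have e4 : |∫ c in (ρ - max a' b')..(ρ - max a b), f ![a, b, c]| ≤
      K * (|a - a'| + |b - b'|) := by
    have h := d3_bd hbd ha hb hab h0 h1 (le_refl (ρ - max a b))
    refine h.trans (mul_le_mul_of_nonneg_left ?_ hK)
    linarith
  have e5 : (∫ c in (0 : ℝ)..(ρ - max a b), f ![a, b, c]) -
      (∫ c in (0 : ℝ)..(ρ - max a' b'), f ![a', b', c]) =
      (∫ c in (0 : ℝ)..(ρ - max a' b'), (f ![a, b, c] - f ![a', b', c])) +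
        ∫ c in (ρ - max a' b')..(ρ - max a b), f ![a, b, c] := by
    rw [e1, ← e2]
    ring
  rw [e5]
  refine (abs_add_le _ _).trans ?_
  linarith

open Classical in
theorem thm_D3 (hD1 : St_D1) (hD2 : St_D2) : St_D3 := by
  intro K ε0 hε0
  obtain ⟨ε1, hε1, H1⟩ := hD1 K (ε0 / 8) (by positivity)
  obtain ⟨ε2, hε2, H2⟩ := hD2 (2 * K) (ε0 / 2) (by positivity)
  refine ⟨min ε1 (min ε2 1), lt_min hε1 (lt_min hε2 one_pos), ?_⟩
  intro E _ wt s A ρ hA hρ hρ1 hD f hbd hl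
  have hR0 : Reg ρ ![0, 0, 0] := d3_reg.2 ⟨le_rfl, le_rfl, le_rfl, by linarith, by simpa using hρ.le⟩
  have hK : 0 ≤ K := (abs_nonneg _).trans (hbd _ hR0)
  have D1 : Dist wt s A ε1 ρ := d3_mono hA hD (min_le_left _ _)
  have D2 : Dist wt s A ε2 ρ := d3_mono hA hD ((min_le_right _ _).trans (min_le_left _ _))
  have D3 : Dist wt s A 1 ρ := d3_mono hA hD ((min_le_right _ _).trans (min_le_right _ _))
  -- total mass
  have hm : (∑ e, if s e ≤ ρ then wt e else 0) ≤ 2 * A := by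
    have h := (abs_le.1 (D3.le ρ hρ.le le_rfl)).2
    nlinarith
  have hm0 : 0 ≤ ∑ e, if s e ≤ ρ then wt e else 0 := by
    refine Finset.sum_nonneg fun e _ => ?_
    split_ifs
    · exact hD.wn e
    · exact le_rfl
  have hm2 : (∑ e, ∑ e', if s e + s e' ≤ ρ then wt e * wt e' else 0) ≤ 4 * A ^ 2 := by
    have h1 : (∑ e, ∑ e', if s e + s e' ≤ ρ then wt e * wt e' else 0) ≤
        (∑ e, if s e ≤ ρ then wt e else 0) * (∑ e, if s e ≤ ρ then wt e else 0) := by
      rw [Finset.sum_mul_sum]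
      refine Finset.sum_le_sum fun e _ => Finset.sum_le_sum fun e' _ => ?_
      have h2 := hD.sn e
      have h3 := hD.sn e'
      have h4 := mul_nonneg (hD.wn e) (hD.wn e')
      by_cases h : s e + s e' ≤ ρ
      · rw [if_pos h, if_pos (by linarith), if_pos (by linarith)]
      · rw [if_neg h]
        split_ifs
        · exact h4
        · simp
        · simp
        · simp
    refine h1.trans ?_
    calc (∑ e, if s e ≤ ρ then wt e else 0) * (∑ e, if s e ≤ ρ then wt e else 0)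
        ≤ (2 * A) * (2 * A) := mul_le_mul hm hm hm0 (by positivity)
      _ = 4 * A ^ 2 := by ring
  -- the function g
  obtain ⟨g, hg⟩ : ∃ g : ℝ → ℝ → ℝ, ∀ a b, g a b = ∫ c in (0 : ℝ)..(ρ - max a b), f ![a, b, c] :=
    ⟨_, fun _ _ => rfl⟩
  have hmax : ∀ a b : ℝ, 0 ≤ a → 0 ≤ b → a + b ≤ ρ → 0 ≤ ρ - max a b ∧ ρ - max a b ≤ ρ := by
    intro a b ha hb hab
    refine ⟨?_, by linarith [ha.trans (le_max_left a b)]⟩
    rcases max_choice a b with h | h <;> rw [h] <;> linarith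
  have hgb : ∀ a b, 0 ≤ a → 0 ≤ b → a + b ≤ ρ → |g a b| ≤ 2 * K := by
    intro a b ha hb hab
    obtain ⟨h0, h1⟩ := hmax a b ha hb hab
    rw [hg]
    refine (d3_bd hbd ha hb hab le_rfl h0 le_rfl).trans ?_
    nlinarith
  have hgl : ∀ a b a' b', 0 ≤ a → 0 ≤ b → a + b ≤ ρ → 0 ≤ a' → 0 ≤ b' → a' + b' ≤ ρ →
      |g a b - g a' b'| ≤ 2 * K * (|a - a'| + |b - b'|) := by
    intro a b a' b' ha hb hab ha' hb' hab'
    rw [hg, hg]
    rcases le_total (max a b) (max a' b') with h | h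
    · exact d3_glip hK hρ1 hbd hl ha hb hab ha' hb' hab' h
    · have h2 := d3_glip hK hρ1 hbd hl ha' hb' hab' ha hb hab h
      rwa [abs_sub_comm, abs_sub_comm a a', abs_sub_comm b b']
  have T2 := H2 E wt s A ρ hA hρ hρ1 D2 ρ g hρ.le le_rfl hgb hgl
  -- the inner sums
  have inner : ∀ e e', |(∑ e'', if Reg ρ ![s e, s e', s e''] then
      wt e * wt e' * wt e'' * f ![s e, s e', s e''] else 0) -
      A * (if s e + s e' ≤ ρ then wt e * wt e' * g (s e) (s e') else 0)| ≤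
        (ε0 / 8 * A) * (if s e + s e' ≤ ρ then wt e * wt e' else 0) := by
    intro e e'
    have hse := hD.sn e
    have hse' := hD.sn e'
    by_cases he : s e + s e' ≤ ρ
    · rw [if_pos he, if_pos he]
      obtain ⟨h0, h0'⟩ := hmax (s e) (s e') hse hse' he
      have h1 := H1 E wt s A ρ hA hρ hρ1 D1 (ρ - max (s e) (s e')) (fun c => f ![s e, s e', c])
        h0 h0' (fun x hx0 hx1 => hbd _ (d3_reg.2 ⟨hse, hse', hx0, he, hx1⟩))
        (fun x y hx0 hx1 hy0 hy1 => by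
          have h2 := d3_lip1 hl (d3_reg.2 ⟨hse, hse', hx0, he, hx1⟩)
            (d3_reg.2 ⟨hse, hse', hy0, he, hy1⟩)
          simpa using h2)
      have h3 : (∑ e'', if Reg ρ ![s e, s e', s e''] then
          wt e * wt e' * wt e'' * f ![s e, s e', s e''] else 0) =
          wt e * wt e' * ∑ e'', if s e'' ≤ ρ - max (s e) (s e') then
            wt e'' * f ![s e, s e', s e''] else 0 := by
        rw [Finset.mul_sum]
        refine Finset.sum_congr rfl fun e'' _ => ?_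
        by_cases h : s e'' ≤ ρ - max (s e) (s e')
        · rw [if_pos h, if_pos (d3_reg.2 ⟨hse, hse', hD.sn e'', he, h⟩)]
          ring
        · rw [if_neg h, if_neg (fun h' => h (d3_reg.1 h').2.2.2.2), mul_zero]
      have h4 : (∑ e'', if Reg ρ ![s e, s e', s e''] then
          wt e * wt e' * wt e'' * f ![s e, s e', s e''] else 0) -
          A * (wt e * wt e' * g (s e) (s e')) = wt e * wt e' *
            ((∑ e'', if s e'' ≤ ρ - max (s e) (s e') then wt e'' * f ![s e, s e', s e''] else 0) -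
              A * ∫ c in (0 : ℝ)..(ρ - max (s e) (s e')), f ![s e, s e', c]) := by
        rw [h3, hg]
        ring
      have h5 : 0 ≤ wt e * wt e' := mul_nonneg (hD.wn e) (hD.wn e')
      rw [h4, abs_mul, abs_of_nonneg h5, mul_comm (ε0 / 8 * A)]
      exact mul_le_mul_of_nonneg_left h1 h5
    · rw [if_neg he, if_neg he]
      have h3 : (∑ e'', if Reg ρ ![s e, s e', s e''] then
          wt e * wt e' * wt e'' * f ![s e, s e', s e''] else 0) = 0 :=
        Finset.sum_eq_zero fun e'' _ => if_neg fun h => he (d3_reg.1 h).2.2.2.1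
      rw [h3]
      simp
  have T1 : |(∑ e, ∑ e', ∑ e'', if Reg ρ ![s e, s e', s e''] then
      wt e * wt e' * wt e'' * f ![s e, s e', s e''] else 0) -
      A * ∑ e, ∑ e', (if s e + s e' ≤ ρ then wt e * wt e' * g (s e) (s e') else 0)| ≤
        (ε0 / 8 * A) * (4 * A ^ 2) := by
    rw [Finset.mul_sum, ← Finset.sum_sub_distrib]
    refine (Finset.abs_sum_le_sum_abs _ _).trans ?_
    refine (Finset.sum_le_sum (g := fun e => ∑ e', (ε0 / 8 * A) *
      (if s e + s e' ≤ ρ then wt e * wt e' else 0)) fun e _ => ?_).trans ?_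
    · rw [Finset.mul_sum, ← Finset.sum_sub_distrib]
      refine (Finset.abs_sum_le_sum_abs _ _).trans ?_
      exact Finset.sum_le_sum fun e' _ => inner e e'
    · simp only [← Finset.mul_sum]
      exact mul_le_mul_of_nonneg_left hm2 (by positivity)
  have T3 : |A * (∑ e, ∑ e', (if s e + s e' ≤ ρ then wt e * wt e' * g (s e) (s e') else 0)) -
      A ^ 3 * ∫ a in (0 : ℝ)..ρ, ∫ b in (0 : ℝ)..(ρ - a), ∫ c in (0 : ℝ)..(ρ - max a b),
        f ![a, b, c]| ≤ A * (ε0 / 2 * A ^ 2) := by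
    have h1 : (∫ a in (0 : ℝ)..ρ, ∫ b in (0 : ℝ)..(ρ - a), ∫ c in (0 : ℝ)..(ρ - max a b),
        f ![a, b, c]) = ∫ a in (0 : ℝ)..ρ, ∫ b in (0 : ℝ)..(ρ - a), g a b := by
      refine intervalIntegral.integral_congr fun a _ => ?_
      refine intervalIntegral.integral_congr fun b _ => ?_
      exact (hg a b).symm
    have h2 : A * (∑ e, ∑ e', (if s e + s e' ≤ ρ then wt e * wt e' * g (s e) (s e') else 0)) -
        A ^ 3 * (∫ a in (0 : ℝ)..ρ, ∫ b in (0 : ℝ)..(ρ - a), g a b) =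
        A * ((∑ e, ∑ e', (if s e + s e' ≤ ρ then wt e * wt e' * g (s e) (s e') else 0)) -
          A ^ 2 * ∫ a in (0 : ℝ)..ρ, ∫ b in (0 : ℝ)..(ρ - a), g a b) := by
      ring
    rw [h1, h2, abs_mul, abs_of_pos hA]
    exact mul_le_mul_of_nonneg_left T2 hA.le
  refine (abs_sub_le _ (A * ∑ e, ∑ e', (if s e + s e' ≤ ρ then
    wt e * wt e' * g (s e) (s e') else 0)) _).trans ((add_le_add T1 T3).trans (le_of_eq ?_))
  ring

end Pool.Agent.PT
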