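import Pool.Agent.PT.StD
import Pool.Agent.MT.Sums

set_option autoImplicit false

/-!
# PT / DI

Module of the density block of PT (see the docstring of the statement in `PT/StD.lean`).
-/

namespace Pool.Agent.PT

open Finset Filter Pool.Agent.MT MeasureTheory

theorem thm_DI : St_DI := by
  intro ι _ _ v Φ hv hΦ
  have h1 : ∀ τ : ι → Option (Fin 3), ∏ i ∈ supp τ, v i =
      (∏ i ∈ part τ 0, v i) * (∏ i ∈ part τ 1, v i) * (∏ i ∈ part τ 2, v i) := by
    intro τ
    rw [Sums_supp univ τ (fun _ _ _ => mem_univ _) v, Fin.prod_univ_three]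
  have h2 : ∀ τ : ι → Option (Fin 3), Φ (part τ 0) (part τ 1) (part τ 2) * ∏ i ∈ supp τ, v i =
      (fun t : Finset ι × Finset ι × Finset ι => Φ t.1 t.2.1 t.2.2 *
        ((∏ i ∈ t.1, v i) * (∏ i ∈ t.2.1, v i) * (∏ i ∈ t.2.2, v i)))
        (part τ 0, part τ 1, part τ 2) := fun τ => by rw [h1]
  have hinj : Function.Injective (fun τ : ι → Option (Fin 3) => (part τ 0, part τ 1, part τ 2)) := by
    intro σ τ h
    simp only [Prod.mk.injEq] at h
    refine Sums_part_inj (funext fun j => ?_)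
    fin_cases j
    · exact h.1
    · exact h.2.1
    · exact h.2.2
  have h3 : ∑ a : Finset ι, ∑ b : Finset ι, ∑ c : Finset ι,
        Φ a b c * ((∏ i ∈ a, v i) * (∏ i ∈ b, v i) * (∏ i ∈ c, v i)) =
      ∑ t : Finset ι × Finset ι × Finset ι, Φ t.1 t.2.1 t.2.2 *
        ((∏ i ∈ t.1, v i) * (∏ i ∈ t.2.1, v i) * (∏ i ∈ t.2.2, v i)) := by
    rw [Fintype.sum_prod_type]
    refine sum_congr rfl fun a _ => ?_
    rw [Fintype.sum_prod_type]
  rw [h3, Fintype.sum_congr _ _ h2]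
  rw [← Finset.sum_image (s := univ) (g := fun τ : ι → Option (Fin 3) =>
    (part τ 0, part τ 1, part τ 2)) (f := fun t : Finset ι × Finset ι × Finset ι =>
      Φ t.1 t.2.1 t.2.2 * ((∏ i ∈ t.1, v i) * (∏ i ∈ t.2.1, v i) * (∏ i ∈ t.2.2, v i)))
      (fun a _ b _ h => hinj h)]
  refine Finset.sum_le_sum_of_subset_of_nonneg (Finset.subset_univ _) fun t _ _ => ?_
  exact mul_nonneg (hΦ _ _ _) (mul_nonneg (mul_nonneg (prod_nonneg fun i _ => hv i)
    (prod_nonneg fun i _ => hv i)) (prod_nonneg fun i _ => hv i))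

end Pool.Agent.PT
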