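import Pool.Agent.PT.StD
import Pool.Agent.MT.Sums

set_option autoImplicit false

/-!
# PT / DJ

Module of the density block of PT (see the docstring of the statement in `PT/StD.lean`).
-/

namespace Pool.Agent.PT

open Finset Filter Pool.Agent.MT MeasureTheory

private theorem DJ_12 : ∀ j : Fin 3, o1 j ≠ o2 j := by decide
private theorem DJ_1 : ∀ j : Fin 3, o1 j ≠ j := by decide
private theorem DJ_2 : ∀ j : Fin 3, o2 j ≠ j := by decide
private theorem DJ_3 : ∀ j h : Fin 3, h = j ∨ h = o1 j ∨ h = o2 j := by decide

private theorem DJ_part {ι : Type} [Fintype ι] [DecidableEq ι] {σ : ι → Option (Fin 3)} {h : Fin 3}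
    {i : ι} : i ∈ part σ h ↔ σ i = some h := by
  simp [part]

private theorem DJ_supp {ι : Type} [Fintype ι] [DecidableEq ι] {σ : ι → Option (Fin 3)}
    {i : ι} : i ∈ supp σ ↔ σ i ≠ none := by
  simp [supp]

theorem thm_DJ : St_DJ := by
  classical
  intro ι _ _ j v Φ
  have hdisj : ∀ τ : ι → Option (Fin 3), Disjoint (part τ (o1 j)) (part τ (o2 j)) := by
    intro τ
    rw [Finset.disjoint_left]
    intro i h1 h2
    rw [DJ_part] at h1 h2
    rw [h1] at h2
    exact DJ_12 j (Option.some.inj h2)
  rw [← Finset.sum_filter, ← Finset.sum_product', ← Finset.sum_filter]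
  refine Finset.sum_nbij' (fun τ => (part τ (o1 j), part τ (o2 j)))
    (fun p => fun i => if i ∈ p.1 then some (o1 j) else if i ∈ p.2 then some (o2 j) else none)
    ?_ ?_ ?_ ?_ ?_
  · intro τ _
    exact mem_filter.2 ⟨mem_product.2 ⟨mem_univ _, mem_univ _⟩, hdisj τ⟩
  · intro p _
    refine mem_filter.2 ⟨mem_univ _, fun i => ?_⟩
    show (if i ∈ p.1 then some (o1 j) else if i ∈ p.2 then some (o2 j) else none) ≠ some j
    by_cases h1 : i ∈ p.1
    · rw [if_pos h1]
      exact fun h => DJ_1 j (Option.some.inj h)
    · rw [if_neg h1]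
      by_cases h2 : i ∈ p.2
      · rw [if_pos h2]
        exact fun h => DJ_2 j (Option.some.inj h)
      · rw [if_neg h2]
        exact fun h => Option.some_ne_none j h.symm
  · intro τ hτ
    have hτ' := (mem_filter.1 hτ).2
    funext i
    show (if i ∈ part τ (o1 j) then some (o1 j) else
      if i ∈ part τ (o2 j) then some (o2 j) else none) = τ i
    by_cases h1 : i ∈ part τ (o1 j)
    · rw [if_pos h1, DJ_part.1 h1]
    · rw [if_neg h1]
      by_cases h2 : i ∈ part τ (o2 j)
      · rw [if_pos h2, DJ_part.1 h2]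
      · rw [if_neg h2]
        rcases h : τ i with _ | x
        · rfl
        · rcases DJ_3 j x with rfl | rfl | rfl
          · exact absurd h (hτ' i)
          · exact absurd (DJ_part.2 h) h1
          · exact absurd (DJ_part.2 h) h2
  · rintro ⟨a, b⟩ hp
    have hab : Disjoint a b := (mem_filter.1 hp).2
    rw [Finset.disjoint_left] at hab
    refine Prod.ext (Finset.ext fun i => ?_) (Finset.ext fun i => ?_)
    · rw [DJ_part]
      by_cases h1 : i ∈ a
      · simp [h1]
      · by_cases h2 : i ∈ b
        · simp [h1, h2, (DJ_12 j).symm]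
        · simp [h1, h2]
    · rw [DJ_part]
      by_cases h1 : i ∈ a
      · have h2 := hab h1
        simp [h1, h2, DJ_12 j]
      · by_cases h2 : i ∈ b
        · simp [h1, h2]
        · simp [h1, h2]
  · intro τ hτ
    have hτ' := (mem_filter.1 hτ).2
    have hs : supp τ = part τ (o1 j) ∪ part τ (o2 j) := by
      ext i
      rw [DJ_supp, mem_union, DJ_part, DJ_part]
      constructor
      · intro h
        rcases h' : τ i with _ | x
        · exact absurd h' h
        · rcases DJ_3 j x with rfl | rfl | rfl
          · exact absurd h' (hτ' i)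
          · exact Or.inl rfl
          · exact Or.inr rfl
      · rintro (h | h)
        · rw [h]; simp
        · rw [h]; simp
    show Φ (part τ (o1 j)) (part τ (o2 j)) * ∏ i ∈ supp τ, v i =
      Φ (part τ (o1 j)) (part τ (o2 j)) *
        ((∏ i ∈ part τ (o1 j), v i) * ∏ i ∈ part τ (o2 j), v i)
    rw [hs, Finset.prod_union (hdisj τ)]

end Pool.Agent.PT
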