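import Pool.Agent.PT.StD

set_option autoImplicit false

/-!
# PT / DP

Module of the density block of PT (see the docstring of the statement in `PT/StD.lean`).
-/

namespace Pool.Agent.PT

open Finset Filter Pool.Agent.MT MeasureTheory

section aux

variable {ι : Type} [Fintype ι] [DecidableEq ι] (v z : ι → ℝ)

open Classical in
private noncomputable def dp_b (t : ℝ) (e : Finset ι) : ℝ :=
  if ∑ i ∈ e, z i ≤ t then ∏ i ∈ e, v i else 0

private theorem dp_b_nn (hv : ∀ i, 0 ≤ v i) (t : ℝ) (e : Finset ι) : 0 ≤ dp_b v z t e := by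
  unfold dp_b
  split_ifs
  · exact prod_nonneg fun i _ => hv i
  · exact le_rfl

/-- the sets containing `f` -/
private theorem dp_inj (hv : ∀ i, 0 ≤ v i) (hz : ∀ i, 0 ≤ z i) (t : ℝ) (f : Finset ι) :
    ∑ e ∈ univ.filter (fun e : Finset ι => f ⊆ e),
      (if ∑ i ∈ e, z i ≤ t then ∏ i ∈ e \ f, v i else 0) ≤ ∑ e, dp_b v z t e := by
  have h1 : ∀ e ∈ univ.filter (fun e : Finset ι => f ⊆ e),
      (if ∑ i ∈ e, z i ≤ t then ∏ i ∈ e \ f, v i else 0) ≤ dp_b v z t (e \ f) := by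
    intro e _
    by_cases h : ∑ i ∈ e, z i ≤ t
    · have h2 : ∑ i ∈ e \ f, z i ≤ t :=
        (sum_le_sum_of_subset_of_nonneg sdiff_subset fun i _ _ => hz i).trans h
      unfold dp_b
      rw [if_pos h, if_pos h2]
    · rw [if_neg h]
      exact dp_b_nn v z hv t _
  refine (sum_le_sum h1).trans ?_
  have h2 : Set.InjOn (fun e : Finset ι => e \ f)
      (univ.filter (fun e : Finset ι => f ⊆ e) : Finset (Finset ι)) := by
    intro e he e' he' h
    have he : f ⊆ e := (mem_filter.1 (mem_coe.1 he)).2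
    have he' : f ⊆ e' := (mem_filter.1 (mem_coe.1 he')).2
    have h : e \ f = e' \ f := h
    rw [← sdiff_union_of_subset he, ← sdiff_union_of_subset he', h]
  rw [← sum_image (f := dp_b v z t) h2]
  exact sum_le_sum_of_subset_of_nonneg (subset_univ _) fun e _ _ => dp_b_nn v z hv t e

private theorem dp_up (hv : ∀ i, 0 ≤ v i) (hz : ∀ i, 0 ≤ z i) (t : ℝ) :
    ∑ e : Finset ι, (if ∑ i ∈ e, z i ≤ t then ∏ i ∈ e, (v i * (1 + v i)) else 0) ≤
      (∏ i, (1 + v i ^ 2)) * ∑ e, dp_b v z t e := by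
  have h1 : ∀ e : Finset ι, (if ∑ i ∈ e, z i ≤ t then ∏ i ∈ e, (v i * (1 + v i)) else 0) =
      ∑ f ∈ e.powerset, (∏ i ∈ f, v i ^ 2) *
        (if ∑ i ∈ e, z i ≤ t then ∏ i ∈ e \ f, v i else 0) := by
    intro e
    by_cases h : ∑ i ∈ e, z i ≤ t
    · simp only [if_pos h]
      rw [← prod_add]
      exact prod_congr rfl fun i _ => by ring
    · simp only [if_neg h, mul_zero, sum_const_zero]
  rw [sum_congr rfl fun e _ => h1 e]
  have h2 : ∑ e : Finset ι, ∑ f ∈ e.powerset, (∏ i ∈ f, v i ^ 2) *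
        (if ∑ i ∈ e, z i ≤ t then ∏ i ∈ e \ f, v i else 0) =
      ∑ f : Finset ι, ∑ e ∈ univ.filter (fun e : Finset ι => f ⊆ e), (∏ i ∈ f, v i ^ 2) *
        (if ∑ i ∈ e, z i ≤ t then ∏ i ∈ e \ f, v i else 0) := by
    refine sum_comm' fun e f => ?_
    simp only [mem_univ, true_and, and_true, mem_powerset, mem_filter]
  rw [h2, prod_one_add, powerset_univ, sum_mul]
  refine sum_le_sum fun f _ => ?_
  rw [← mul_sum]
  exact mul_le_mul_of_nonneg_left (dp_inj v z hv hz t f) (prod_nonneg fun i _ => sq_nonneg _)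

private theorem dp_wei (a : ι → ℝ) (ha : ∀ i, 0 ≤ a i) (ha1 : ∀ i, a i ≤ 1) (e : Finset ι) :
    1 - ∑ i ∈ e, a i ≤ ∏ i ∈ e, (1 - a i) ∧ ∏ i ∈ e, (1 - a i) ≤ 1 := by
  induction e using Finset.induction_on with
  | empty => simp
  | insert i e hi ih =>
    rw [sum_insert hi, prod_insert hi]
    obtain ⟨h1, h2⟩ := ih
    have h3 := ha i
    have h4 := ha1 i
    constructor
    · nlinarith
    · have h5 : 0 ≤ ∏ i ∈ e, (1 - a i) := prod_nonneg fun j _ => by linarith [ha1 j]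
      nlinarith

private theorem dp_low (hv : ∀ i, 0 ≤ v i) (hv1 : ∀ i, v i ≤ 1 / 2) (hz : ∀ i, 0 ≤ z i)
    (t : ℝ) : ∑ e, dp_b v z t e - 4 * (∑ i, v i ^ 2) * ∑ e, dp_b v z t e ≤
      ∑ e : Finset ι, (if ∑ i ∈ e, z i ≤ t then ∏ i ∈ e, (v i * (1 - 4 * v i ^ 2)) else 0) := by
  have h0 : ∀ i, 4 * v i ^ 2 ≤ 1 := by
    intro i
    have := hv i
    have := hv1 i
    nlinarith
  have h1 : ∀ e : Finset ι, dp_b v z t e - ∑ i ∈ e, 4 * v i ^ 2 * dp_b v z t e ≤
      (if ∑ i ∈ e, z i ≤ t then ∏ i ∈ e, (v i * (1 - 4 * v i ^ 2)) else 0) := by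
    intro e
    rw [← sum_mul]
    unfold dp_b
    by_cases h : ∑ i ∈ e, z i ≤ t
    · rw [if_pos h, if_pos h, prod_mul_distrib]
      have h2 := (dp_wei (fun i => 4 * v i ^ 2) (fun i => by positivity) h0 e).1
      have h3 : 0 ≤ ∏ i ∈ e, v i := prod_nonneg fun i _ => hv i
      nlinarith
    · rw [if_neg h, if_neg h]
      simp
  refine le_trans ?_ (sum_le_sum fun e _ => h1 e)
  rw [sum_sub_distrib]
  refine sub_le_sub_left ?_ _
  have h2 : ∑ e : Finset ι, ∑ i ∈ e, 4 * v i ^ 2 * dp_b v z t e =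
      ∑ i, ∑ e ∈ univ.filter (fun e : Finset ι => {i} ⊆ e), 4 * v i ^ 2 * dp_b v z t e := by
    refine sum_comm' fun e i => ?_
    simp only [mem_univ, true_and, and_true, mem_filter, singleton_subset_iff]
  rw [h2, mul_sum univ (fun i => v i ^ 2) 4, sum_mul]
  refine sum_le_sum fun i _ => ?_
  rw [← mul_sum]
  refine mul_le_mul_of_nonneg_left ?_ (by positivity)
  have h3 : ∑ e ∈ univ.filter (fun e : Finset ι => {i} ⊆ e), dp_b v z t e =
      v i * ∑ e ∈ univ.filter (fun e : Finset ι => {i} ⊆ e),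
        (if ∑ i ∈ e, z i ≤ t then ∏ i ∈ e \ {i}, v i else 0) := by
    rw [mul_sum]
    refine sum_congr rfl fun e he => ?_
    have hie : i ∈ e := singleton_subset_iff.1 (mem_filter.1 he).2
    unfold dp_b
    by_cases h : ∑ i ∈ e, z i ≤ t
    · rw [if_pos h, if_pos h, sdiff_singleton_eq_erase, mul_prod_erase e v hie]
    · rw [if_neg h, if_neg h, mul_zero]
  rw [h3]
  have h4 := dp_inj v z hv hz t {i}
  have h5 : 0 ≤ ∑ e, dp_b v z t e := sum_nonneg fun e _ => dp_b_nn v z hv t e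
  have h6 := hv i
  have h7 := hv1 i
  nlinarith

end aux

theorem thm_DP (hDS : St_DS) (hSQ : St_SQ) : St_DP := by
  classical
  intro ε hε
  obtain ⟨w0, M0, h⟩ := hDS (min (ε / 2) 1) (lt_min (by linarith) one_pos)
  refine ⟨max w0 (max 4 ⌈32 / ε⌉₊), M0, fun w hw M hM ρ hρ hρ2 => ?_⟩
  have hw0 : w0 ≤ w := (le_max_left _ _).trans hw
  have hw4 : 4 ≤ w := (le_max_left _ _).trans ((le_max_right _ _).trans hw)
  have hwε : 32 / ε ≤ (w : ℝ) := by
    have h1 : ⌈32 / ε⌉₊ ≤ w := (le_max_right _ _).trans ((le_max_right _ _).trans hw)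
    exact (Nat.le_ceil _).trans (by exact_mod_cast h1)
  filter_upwards [h w hw0 M hM ρ hρ hρ2] with N hN
  set ε' := min (ε / 2) 1 with hε'
  have he1 : ε' ≤ ε / 2 := min_le_left _ _
  have he2 : ε' ≤ 1 := min_le_right _ _
  have he0 : 0 < ε' := lt_min (by linarith) one_pos
  have hq0 : ∀ i : PP w (XR ρ N), 3 ≤ (pr i : ℝ) := by
    intro i
    have h1 := (mem_Ioc.1 (mem_filter.1 i.2).1).1
    have h2 : 3 ≤ pr i := by
      unfold pr
      omega
    exact_mod_cast h2
  have hq1 : ∀ i : PP w (XR ρ N), 0 ≤ qq i := by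
    intro i
    unfold qq
    have := hq0 i
    exact div_nonneg zero_le_one (by linarith)
  have hq2 : ∀ i : PP w (XR ρ N), qq i ≤ 1 / 2 := by
    intro i
    unfold qq
    have := hq0 i
    exact one_div_le_one_div_of_le (by norm_num) (by linarith)
  have hz : ∀ i : PP w (XR ρ N), 0 ≤ sz M N (pr i) := by
    intro i
    have := hN.sn {i}
    unfold ss at this
    rwa [sum_singleton] at this
  have hA : 0 ≤ AA w N := by
    have h1 := hN.le 0 le_rfl hρ.le
    have h2 := (abs_nonneg _).trans h1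
    exact nonneg_of_mul_nonneg_right h2 he0
  have hG : ∀ t, 0 ≤ t → t ≤ ρ →
      |∑ e : Finset (PP w (XR ρ N)), dp_b qq (fun i => sz M N (pr i)) t e - AA w N * t| ≤
        ε' * AA w N := fun t ht htρ => hN.le t ht htρ
  have hV := hSQ w (XR ρ N) (by omega)
  have hwpos : (0 : ℝ) < w := by
    have : 0 < w := by omega
    exact_mod_cast this
  have hw32 : 32 / (w : ℝ) ≤ ε := by
    rw [div_le_iff₀ hwpos]
    rw [div_le_iff₀ hε] at hwε
    linarith
  have hG2 : ∀ t, 0 ≤ t → t ≤ ρ →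
      0 ≤ ∑ e : Finset (PP w (XR ρ N)), dp_b qq (fun i => sz M N (pr i)) t e ∧
      ∑ e : Finset (PP w (XR ρ N)), dp_b qq (fun i => sz M N (pr i)) t e ≤ 2 * AA w N := by
    intro t ht htρ
    refine ⟨sum_nonneg fun e _ => dp_b_nn _ _ hq1 t e, ?_⟩
    have h1 := (abs_le.1 (hG t ht htρ)).2
    nlinarith
  have hw8 : 0 ≤ 2 / (w : ℝ) ∧ 2 / (w : ℝ) ≤ 1 := by
    refine ⟨by positivity, ?_⟩
    rw [div_le_one hwpos]
    have : (4 : ℝ) ≤ w := by exact_mod_cast hw4
    linarith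
  have hw2 : 32 / (w : ℝ) = 16 * (2 / (w : ℝ)) := by ring
  constructor
  · refine ⟨fun e => prod_nonneg fun i _ => mul_nonneg (hq1 i) (by linarith [hq1 i]), hN.sn,
      fun t ht htρ => ?_⟩
    have h1 := abs_le.1 (hG t ht htρ)
    obtain ⟨h2, h3⟩ := hG2 t ht htρ
    have h4 := dp_up (qq (w := w) (X := XR ρ N)) (fun i => sz M N (pr i)) hq1 hz t
    have h5 : ∏ i : PP w (XR ρ N), (1 + qq i ^ 2) ≤ Real.exp (2 / w) := by
      calc ∏ i : PP w (XR ρ N), (1 + qq i ^ 2) ≤ ∏ i : PP w (XR ρ N), Real.exp (qq i ^ 2) :=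
            prod_le_prod (fun i _ => by positivity) fun i _ => by
              rw [add_comm]
              exact Real.add_one_le_exp _
        _ = Real.exp (∑ i : PP w (XR ρ N), qq i ^ 2) := (Real.exp_sum _ _).symm
        _ ≤ Real.exp (2 / w) := Real.exp_le_exp.2 hV
    have h6 : Real.exp (2 / w) - 1 ≤ 2 * (2 / w) := by
      have := Real.abs_exp_sub_one_le (x := 2 / (w : ℝ)) (by rw [abs_of_nonneg hw8.1]; exact hw8.2)
      rw [abs_of_nonneg hw8.1] at this
      exact (le_abs_self _).trans this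
    have h7 : ∑ e : Finset (PP w (XR ρ N)), dp_b qq (fun i => sz M N (pr i)) t e ≤
        ∑ e : Finset (PP w (XR ρ N)),
          (if ss M N e ≤ t then ∏ i ∈ e, (qq i * (1 + qq i)) else 0) := by
      refine sum_le_sum fun e _ => ?_
      unfold dp_b ss
      split_ifs
      · exact prod_le_prod (fun i _ => hq1 i) fun i _ => by nlinarith [hq1 i]
      · exact le_rfl
    have h8 : ∑ e : Finset (PP w (XR ρ N)),
          (if ss M N e ≤ t then ∏ i ∈ e, (qq i * (1 + qq i)) else 0) ≤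
        (1 + 2 * (2 / w)) *
          ∑ e : Finset (PP w (XR ρ N)), dp_b qq (fun i => sz M N (pr i)) t e :=
      h4.trans (mul_le_mul_of_nonneg_right (h5.trans (by linarith)) h2)
    rw [abs_le]
    constructor
    · nlinarith [h1.1]
    · have h9 : 2 * (2 / (w : ℝ)) *
          ∑ e : Finset (PP w (XR ρ N)), dp_b qq (fun i => sz M N (pr i)) t e ≤
          2 * (2 / (w : ℝ)) * (2 * AA w N) :=
        mul_le_mul_of_nonneg_left h3 (by linarith [hw8.1])
      nlinarith [h1.2]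
  · refine ⟨fun e => prod_nonneg fun i _ => mul_nonneg (hq1 i) ?_, hN.sn, fun t ht htρ => ?_⟩
    · have := hq1 i
      have := hq2 i
      nlinarith
    have h1 := abs_le.1 (hG t ht htρ)
    obtain ⟨h2, h3⟩ := hG2 t ht htρ
    have h4 := dp_low (qq (w := w) (X := XR ρ N)) (fun i => sz M N (pr i)) hq1 hq2 hz t
    have h7 : ∑ e : Finset (PP w (XR ρ N)),
          (if ss M N e ≤ t then ∏ i ∈ e, (qq i * (1 - 4 * qq i ^ 2)) else 0) ≤
        ∑ e : Finset (PP w (XR ρ N)), dp_b qq (fun i => sz M N (pr i)) t e := by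
      refine sum_le_sum fun e _ => ?_
      unfold dp_b ss
      split_ifs
      · refine prod_le_prod (fun i _ => mul_nonneg (hq1 i) ?_) fun i _ => ?_
        · have := hq1 i
          have := hq2 i
          nlinarith
        · have := hq1 i
          nlinarith [mul_nonneg (hq1 i) (sq_nonneg (qq i))]
      · exact le_rfl
    have h8 : 4 * (∑ i : PP w (XR ρ N), qq i ^ 2) *
        ∑ e : Finset (PP w (XR ρ N)), dp_b qq (fun i => sz M N (pr i)) t e ≤
        4 * (2 / w) * (2 * AA w N) :=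
      mul_le_mul (mul_le_mul_of_nonneg_left hV (by norm_num)) h3 h2 (by linarith [hw8.1])
    rw [abs_le]
    constructor
    · have h9 : ∑ e : Finset (PP w (XR ρ N)), dp_b qq (fun i => sz M N (pr i)) t e -
          4 * (2 / w) * (2 * AA w N) ≤ ∑ e : Finset (PP w (XR ρ N)),
          (if ss M N e ≤ t then ∏ i ∈ e, (qq i * (1 - 4 * qq i ^ 2)) else 0) :=
        le_trans (by linarith) h4
      nlinarith [h1.1]
    · nlinarith [h1.2]

end Pool.Agent.PT
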