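import Pool.Agent.PT.StD

set_option autoImplicit false

/-!
# PT / DS

Module of the density block of PT (see the docstring of the statement in `PT/StD.lean`).
-/

namespace Pool.Agent.PT

open Finset Filter Pool.Agent.MT MeasureTheory

private theorem ds_pr {w X : ℕ} (i : PP w X) : 2 ≤ pr i :=
  (mem_filter.1 i.2).2.two_le

private theorem ds_qq {w X : ℕ} (i : PP w X) : 0 ≤ qq i := by
  unfold qq
  have h : (2 : ℝ) ≤ (pr i : ℝ) := by exact_mod_cast ds_pr i
  exact div_nonneg zero_le_one (by linarith)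

private theorem ds_log {w X : ℕ} (i : PP w X) : 0 ≤ Real.log (pr i) := by
  apply Real.log_nonneg
  have h : (2 : ℝ) ≤ (pr i : ℝ) := by exact_mod_cast ds_pr i
  linarith

private theorem ds_sz0 (M N p : ℕ) (hN : 0 < Real.log N) (hp : 0 ≤ Real.log (p : ℝ)) :
    0 ≤ sz M N p := by
  unfold sz
  split_ifs
  · exact div_nonneg hp hN.le
  · positivity

/-- the size is at least the logarithm -/
private theorem ds_lower (M N p : ℕ) (hM : 0 < M) :
    Real.log (p : ℝ) / Real.log N ≤ sz M N p := by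
  unfold sz
  split_ifs
  · exact le_rfl
  · have hM' : (0 : ℝ) < M := by exact_mod_cast hM
    rw [le_div_iff₀ hM', mul_comm]
    exact Nat.le_ceil _

/-- the size is at most the logarithm plus `1/M` -/
private theorem ds_upper (M N p : ℕ) (hM : 0 < M) (hN : 0 < Real.log N)
    (hp : 0 ≤ Real.log (p : ℝ)) :
    sz M N p ≤ Real.log (p : ℝ) / Real.log N +
      (if (p : ℝ) ≤ (N : ℝ) ^ (1 / 1000 : ℝ) then 0 else 1) * (1 / (M : ℝ)) := by
  unfold sz
  split_ifs
  · simp
  · have hM' : (0 : ℝ) < M := by exact_mod_cast hM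
    have h0 : 0 ≤ (M : ℝ) * (Real.log p / Real.log N) := by
      have := div_nonneg hp hN.le
      positivity
    have h1 := (Nat.ceil_lt_add_one h0).le
    rw [div_le_iff₀ hM']
    have h2 : (Real.log p / Real.log N + 1 * (1 / (M : ℝ))) * M =
        (M : ℝ) * (Real.log p / Real.log N) + 1 := by
      field_simp
    rw [h2]
    exact h1

/-- a large prime has logarithm at least `log N / 1000` -/
private theorem ds_big (N p : ℕ) (hN : 0 < Real.log N) (h : ¬ (p : ℝ) ≤ (N : ℝ) ^ (1 / 1000 : ℝ)) :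
    (1 : ℝ) / 1000 ≤ Real.log (p : ℝ) / Real.log N := by
  have hN0 : (0 : ℝ) < N := by
    rcases Nat.eq_zero_or_pos N with h0 | h0
    · rw [h0] at hN
      simp at hN
    · exact_mod_cast h0
  have h1 : (N : ℝ) ^ (1 / 1000 : ℝ) < p := not_le.1 h
  have h2 := Real.log_le_log (Real.rpow_pos_of_pos hN0 _) h1.le
  rw [Real.log_rpow hN0] at h2
  rw [le_div_iff₀ hN]
  exact h2

private theorem ds_ss_lower {w X : ℕ} (M N : ℕ) (hM : 0 < M) (hN : 0 < Real.log N)
    (e : Finset (PP w X)) : ∑ i ∈ e, Real.log (pr i) ≤ ss M N e * Real.log N := by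
  have h : (∑ i ∈ e, Real.log (pr i)) / Real.log N ≤ ss M N e := by
    unfold ss
    rw [Finset.sum_div]
    exact Finset.sum_le_sum fun i _ => ds_lower M N (pr i) hM
  rwa [div_le_iff₀ hN] at h

private theorem ds_ss_upper {w X : ℕ} (M N : ℕ) (hM : 0 < M) (hN : 0 < Real.log N)
    (e : Finset (PP w X)) (t : ℝ) (ht : t ≤ 1 / 2)
    (he : ∑ i ∈ e, Real.log (pr i) ≤ t * Real.log N) : ss M N e ≤ t + 500 / M := by
  have hM' : (0 : ℝ) < M := by exact_mod_cast hM
  have hl : ∑ i ∈ e, Real.log (pr i) / Real.log N ≤ t := by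
    rw [← Finset.sum_div, div_le_iff₀ hN]
    exact he
  have h1 : ss M N e ≤ ∑ i ∈ e, (Real.log (pr i : ℝ) / Real.log N +
      (if (pr i : ℝ) ≤ (N : ℝ) ^ (1 / 1000 : ℝ) then 0 else 1) * (1 / (M : ℝ))) := by
    unfold ss
    exact Finset.sum_le_sum fun i _ => ds_upper M N (pr i) hM hN (ds_log i)
  have h2 : ∑ i ∈ e, (if (pr i : ℝ) ≤ (N : ℝ) ^ (1 / 1000 : ℝ) then (0 : ℝ) else 1) *
      (1 / 1000) ≤ t := by
    refine le_trans (Finset.sum_le_sum fun i _ => ?_) hl
    split_ifs with h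
    · rw [zero_mul]
      exact div_nonneg (ds_log i) hN.le
    · rw [one_mul]
      exact ds_big N (pr i) hN h
  rw [← Finset.sum_mul] at h2
  have h3 : ∑ i ∈ e, (if (pr i : ℝ) ≤ (N : ℝ) ^ (1 / 1000 : ℝ) then (0 : ℝ) else 1) ≤ 500 := by
    linarith
  rw [Finset.sum_add_distrib, ← Finset.sum_mul] at h1
  have h4 : (∑ i ∈ e, (if (pr i : ℝ) ≤ (N : ℝ) ^ (1 / 1000 : ℝ) then (0 : ℝ) else 1)) *
      (1 / (M : ℝ)) ≤ 500 / M := by
    rw [← mul_one_div (500 : ℝ) (M : ℝ)]
    exact mul_le_mul_of_nonneg_right h3 (by positivity)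
  linarith

theorem thm_DS (hDG : St_DG) : St_DS := by
  intro ε hε
  obtain ⟨w0, hw0⟩ := hDG (ε / 2) (by positivity)
  refine ⟨w0, ⌈1000 / ε⌉₊ + 1, ?_⟩
  intro w hw M hM ρ hρ hρ2
  have hM1 : 0 < M := by omega
  have hM' : (0 : ℝ) < M := by exact_mod_cast hM1
  have hMε : 500 / (M : ℝ) ≤ ε / 2 := by
    have h1 : 1000 / ε ≤ M := by
      refine (Nat.le_ceil _).trans ?_
      exact_mod_cast (by omega : ⌈1000 / ε⌉₊ ≤ M)
    rw [div_le_iff₀ hε] at h1
    rw [div_le_iff₀ hM']
    linarith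
  filter_upwards [hw0 w hw ρ hρ (by linarith), eventually_ge_atTop 2] with N hN hN2
  have hN2' : (2 : ℝ) ≤ N := by exact_mod_cast hN2
  have hL : 0 < Real.log N := Real.log_pos (by linarith)
  have hph : 0 ≤ phW w := by
    unfold phW
    positivity
  have hA : 0 ≤ AA w N := mul_nonneg hph hL.le
  have hq : ∀ e : Finset (PP w (XR ρ N)), 0 ≤ ∏ i ∈ e, qq i :=
    fun e => Finset.prod_nonneg fun i _ => ds_qq i
  refine ⟨fun e => hq e, fun e => ?_, ?_⟩
  · exact Finset.sum_nonneg fun i _ => ds_sz0 M N (pr i) hL (ds_log i)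
  intro t ht0 htρ
  have hup : (∑ e : Finset (PP w (XR ρ N)), if ss M N e ≤ t then ∏ i ∈ e, qq i else 0) ≤
      ∑ e : Finset (PP w (XR ρ N)),
        if ∑ i ∈ e, Real.log (pr i) ≤ t * Real.log N then ∏ i ∈ e, qq i else 0 := by
    refine Finset.sum_le_sum fun e _ => ?_
    split_ifs with h1 h2
    · exact le_rfl
    · exact absurd ((ds_ss_lower M N hM1 hL e).trans (mul_le_mul_of_nonneg_right h1 hL.le)) h2
    · exact hq e
    · exact le_rfl
  have hU := (abs_le.1 (hN t ht0 htρ)).2
  rw [abs_le]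
  constructor
  · rcases le_or_gt (500 / (M : ℝ)) t with h5 | h5
    · have hlow : (∑ e : Finset (PP w (XR ρ N)),
          if ∑ i ∈ e, Real.log (pr i) ≤ (t - 500 / M) * Real.log N then ∏ i ∈ e, qq i else 0) ≤
          ∑ e : Finset (PP w (XR ρ N)), if ss M N e ≤ t then ∏ i ∈ e, qq i else 0 := by
        refine Finset.sum_le_sum fun e _ => ?_
        split_ifs with h1 h2
        · exact le_rfl
        · exfalso
          apply h2
          have := ds_ss_upper M N hM1 hL e (t - 500 / M) (by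
            have : 0 < 500 / (M : ℝ) := by positivity
            linarith) h1
          linarith
        · exact hq e
        · exact le_rfl
      have hLo := (abs_le.1 (hN (t - 500 / M) (by linarith) (by
        have : 0 < 500 / (M : ℝ) := by positivity
        linarith))).1
      have h6 : AA w N * (500 / M) ≤ AA w N * (ε / 2) := mul_le_mul_of_nonneg_left hMε hA
      have h7 : AA w N * (t - 500 / M) = AA w N * t - AA w N * (500 / M) := by ring
      rw [h7] at hLo
      linarith
    · have h8 : 0 ≤ ∑ e : Finset (PP w (XR ρ N)), if ss M N e ≤ t then ∏ i ∈ e, qq i else 0 := by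
        refine Finset.sum_nonneg fun e _ => ?_
        split_ifs
        · exact hq e
        · exact le_rfl
      have h9 : AA w N * t ≤ AA w N * ε := mul_le_mul_of_nonneg_left (by linarith) hA
      linarith
  · have h10 : 0 ≤ ε * AA w N := by positivity
    linarith

end Pool.Agent.PT
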