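import Pool.Agent.PT.StD

set_option autoImplicit false

/-!
# PT / HH

Module of the density block of PT (see the docstring of the statement in `PT/StD.lean`).
-/

namespace Pool.Agent.PT

open Finset Filter Pool.Agent.MT MeasureTheory

theorem HH_reg (j : Fin 3) (ρ a b t : ℝ) : Reg ρ (cor j a b t) ↔
    0 ≤ t ∧ 0 ≤ a ∧ 0 ≤ b ∧ a + b ≤ ρ ∧ t + a ≤ ρ ∧ t + b ≤ ρ := by
  constructor
  · rintro ⟨h1, h2⟩
    have a0 := h1 0
    have a1 := h1 1
    have a2 := h1 2
    have b0 := h2 0 1 (by decide)
    have b1 := h2 0 2 (by decide)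
    have b2 := h2 1 2 (by decide)
    fin_cases j <;> simp [cor, o1] at a0 a1 a2 b0 b1 b2 <;>
      refine ⟨?_, ?_, ?_, ?_, ?_, ?_⟩ <;> linarith
  · rintro ⟨h1, h2, h3, h4, h5, h6⟩
    refine ⟨fun i => ?_, fun i l hil => ?_⟩
    · fin_cases j <;> fin_cases i <;> simp [cor, o1] <;> assumption
    · fin_cases j <;> fin_cases i <;> fin_cases l <;> simp [cor, o1] at hil ⊢ <;> linarith

theorem HH_sum (j : Fin 3) (a b t a' b' t' : ℝ) :
    ∑ i, |cor j a b t i - cor j a' b' t' i| = |t - t'| + |a - a'| + |b - b'| := by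
  rw [Fin.sum_univ_three]
  fin_cases j <;> simp [cor, o1] <;> ring

section

variable {ρ K : ℝ} {F : (Fin 3 → ℝ) → ℝ}

theorem HH_K (hF : Prof ρ K F) : 0 ≤ K := (abs_nonneg _).trans (hF.bd 0)

/-- integrability -/
theorem HH_int (hF : Prof ρ K F) (j : Fin 3) (a b : ℝ) (ha : 0 ≤ a) (hb : 0 ≤ b) :
    Integrable (fun t => F (cor j a b t)) volume := by
  by_cases hab : a + b ≤ ρ
  · have hc : ContinuousOn (fun t => F (cor j a b t)) (Set.Icc 0 (ρ - max a b)) := by
      have hL : LipschitzOnWith ⟨K, HH_K hF⟩ (fun t => F (cor j a b t))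
          (Set.Icc 0 (ρ - max a b)) := by
        apply LipschitzOnWith.of_dist_le_mul
        intro t ht t' ht'
        rw [Real.dist_eq, Real.dist_eq]
        have hm1 := le_max_left a b
        have hm2 := le_max_right a b
        have h1 := hF.lip (cor j a b t) (cor j a b t')
          ((HH_reg j ρ a b t).2 ⟨ht.1, ha, hb, hab, by linarith [ht.2], by linarith [ht.2]⟩)
          ((HH_reg j ρ a b t').2 ⟨ht'.1, ha, hb, hab, by linarith [ht'.2], by linarith [ht'.2]⟩)
        rw [HH_sum, sub_self, sub_self, abs_zero, add_zero, add_zero] at h1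
        exact h1
      exact hL.continuousOn
    have h2 : (fun t => F (cor j a b t)) =
        Set.indicator (Set.Icc 0 (ρ - max a b)) (fun t => F (cor j a b t)) := by
      funext t
      by_cases ht : t ∈ Set.Icc 0 (ρ - max a b)
      · rw [Set.indicator_of_mem ht]
      · rw [Set.indicator_of_notMem ht]
        apply hF.zero
        rw [HH_reg]
        rintro ⟨h3, -, -, -, h4, h5⟩
        apply ht
        refine ⟨h3, ?_⟩
        rcases max_choice a b with h | h <;> rw [h] <;> linarith
    rw [h2]
    exact (hc.integrableOn_Icc).integrable_indicator measurableSet_Icc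
  · have h2 : (fun t => F (cor j a b t)) = fun _ => 0 := by
      funext t
      apply hF.zero
      rw [HH_reg]
      rintro ⟨-, -, -, h4, -, -⟩
      exact hab h4
    rw [h2]
    exact integrable_zero _ _ _

theorem HH_u (hF : Prof ρ K F) (j : Fin 3) (a b u u' : ℝ) (ha : 0 ≤ a) (hb : 0 ≤ b) :
    |hh F ρ j a b u - hh F ρ j a b u'| ≤ K * |u - u'| := by
  have hi := HH_int hF j a b ha hb
  unfold hh
  rw [intervalIntegral.integral_interval_sub_interval_comm hi.intervalIntegrable
    hi.intervalIntegrable hi.intervalIntegrable, intervalIntegral.integral_same, sub_zero]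
  have h1 := intervalIntegral.norm_integral_le_of_norm_le_const (a := u) (b := u')
    (f := fun t => F (cor j a b t)) (C := K) fun t _ => hF.bd _
  rw [Real.norm_eq_abs, abs_sub_comm] at h1
  exact h1

theorem HH_far (hF : Prof ρ K F) (j : Fin 3) (a b u : ℝ) (ha : 0 ≤ a) (hu : ρ ≤ u) :
    hh F ρ j a b u = 0 := by
  unfold hh
  rw [intervalIntegral.integral_symm, neg_eq_zero]
  refine (intervalIntegral.integral_congr_ae (g := fun _ => (0 : ℝ)) ?_).trans ?_
  · refine Filter.Eventually.of_forall fun t ht => ?_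
    rw [Set.uIoc_of_le hu] at ht
    apply hF.zero
    rw [HH_reg]
    rintro ⟨-, -, -, -, h4, -⟩
    linarith [ht.1]
  · rw [intervalIntegral.integral_zero]

theorem HH_bd (hF : Prof ρ K F) (hρ : ρ ≤ 1) (j : Fin 3) (a b u : ℝ) (ha : 0 ≤ a)
    (hb : 0 ≤ b) (hu : 0 ≤ u) : |hh F ρ j a b u| ≤ K := by
  have hK := HH_K hF
  by_cases h : ρ ≤ u
  · rw [HH_far hF j a b u ha h, abs_zero]
    exact hK
  · push Not at h
    have h1 := HH_u hF j a b u ρ ha hb
    have h2 : |u - ρ| = ρ - u := by rw [abs_of_neg (by linarith : u - ρ < 0)]; ring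
    rw [HH_far hF j a b ρ ha le_rfl, sub_zero, h2] at h1
    have h3 : K * (ρ - u) ≤ K * 1 := mul_le_mul_of_nonneg_left (by linarith) hK
    linarith

theorem HH_ab (hF : Prof ρ K F) (hρ : ρ ≤ 1) (j : Fin 3) (a b a' b' u : ℝ) (ha : 0 ≤ a)
    (hb : 0 ≤ b) (hab : a + b ≤ ρ) (ha' : 0 ≤ a') (hb' : 0 ≤ b') (hab' : a' + b' ≤ ρ)
    (hu : 0 ≤ u) :
    |hh F ρ j a b u - hh F ρ j a' b' u| ≤ 2 * K * (|a - a'| + |b - b'|) := by
  have hK := HH_K hF
  have hD : 0 ≤ |a - a'| + |b - b'| := by positivity
  set D := |a - a'| + |b - b'| with hDdef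
  by_cases h : ρ ≤ u
  · rw [HH_far hF j a b u ha h, HH_far hF j a' b' u ha' h, sub_zero, abs_zero]
    positivity
  push Not at h
  have hi := HH_int hF j a b ha hb
  have hi' := HH_int hF j a' b' ha' hb'
  set m := min (ρ - max a b) (ρ - max a' b') with hm
  set m' := max (ρ - max a b) (ρ - max a' b') with hm'
  have hmm : m ≤ m' := min_le_max
  have hmd : m' - m ≤ D := by
    rw [hm, hm', max_sub_min_eq_abs]
    have h1 : ρ - max a' b' - (ρ - max a b) = max a b - max a' b' := by ring
    rw [h1]
    refine (abs_max_sub_max_le_max _ _ _ _).trans ?_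
    exact max_le (le_add_of_nonneg_right (abs_nonneg _)) (le_add_of_nonneg_left (abs_nonneg _))
  unfold hh
  rw [← intervalIntegral.integral_sub hi.intervalIntegrable hi'.intervalIntegrable]
  have hpt : ∀ t ∈ Set.Ioc u ρ, ‖F (cor j a b t) - F (cor j a' b' t)‖ ≤
      K * D + Set.indicator (Set.Icc m m') (fun _ => K) t := by
    intro t ht
    have ht0 : 0 ≤ t := hu.trans ht.1.le
    rw [Real.norm_eq_abs]
    have hind : 0 ≤ Set.indicator (Set.Icc m m') (fun _ => K) t :=
      Set.indicator_nonneg (fun _ _ => hK) t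
    by_cases h1 : t ≤ m
    · have h2 : t ≤ ρ - max a b := h1.trans (min_le_left _ _)
      have h3 : t ≤ ρ - max a' b' := h1.trans (min_le_right _ _)
      have m1 := le_max_left a b
      have m2 := le_max_right a b
      have m3 := le_max_left a' b'
      have m4 := le_max_right a' b'
      have h4 := hF.lip (cor j a b t) (cor j a' b' t)
          ((HH_reg j ρ a b t).2 ⟨ht0, ha, hb, hab, by linarith, by linarith⟩)
          ((HH_reg j ρ a' b' t).2 ⟨ht0, ha', hb', hab', by linarith, by linarith⟩)
      rw [HH_sum, sub_self, abs_zero, zero_add] at h4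
      linarith
    · push Not at h1
      have hz : F (cor j a b t) = 0 ∨ F (cor j a' b' t) = 0 := by
        rcases min_choice (ρ - max a b) (ρ - max a' b') with h2 | h2
        · left
          apply hF.zero
          rw [HH_reg]
          rintro ⟨-, -, -, -, h4, h5⟩
          rw [hm, h2] at h1
          rcases max_choice a b with h6 | h6 <;> rw [h6] at h1 <;> linarith
        · right
          apply hF.zero
          rw [HH_reg]
          rintro ⟨-, -, -, -, h4, h5⟩
          rw [hm, h2] at h1
          rcases max_choice a' b' with h6 | h6 <;> rw [h6] at h1 <;> linarith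
      by_cases h3 : t ≤ m'
      · rw [Set.indicator_of_mem (show t ∈ Set.Icc m m' from ⟨h1.le, h3⟩)]
        have h4 : |F (cor j a b t) - F (cor j a' b' t)| ≤ K := by
          rcases hz with h5 | h5
          · rw [h5, zero_sub, abs_neg]
            exact hF.bd _
          · rw [h5, sub_zero]
            exact hF.bd _
        have : 0 ≤ K * D := by positivity
        linarith
      · push Not at h3
        have h4 : F (cor j a b t) = 0 := by
          apply hF.zero
          rw [HH_reg]
          rintro ⟨-, -, -, -, h4, h5⟩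
          have h6 := (le_max_left (ρ - max a b) (ρ - max a' b')).trans_lt h3
          rcases max_choice a b with h7 | h7 <;> rw [h7] at h6 <;> linarith
        have h4' : F (cor j a' b' t) = 0 := by
          apply hF.zero
          rw [HH_reg]
          rintro ⟨-, -, -, -, h4, h5⟩
          have h6 := (le_max_right (ρ - max a b) (ρ - max a' b')).trans_lt h3
          rcases max_choice a' b' with h7 | h7 <;> rw [h7] at h6 <;> linarith
        rw [h4, h4', sub_zero, abs_zero]
        have : 0 ≤ K * D := by positivity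
        linarith
  have hindI : Integrable (Set.indicator (Set.Icc m m') (fun _ => K)) (volume : Measure ℝ) :=
    (integrableOn_const (by rw [Real.volume_Icc]; exact ENNReal.ofReal_ne_top)).integrable_indicator
      measurableSet_Icc
  have h1 := intervalIntegral.norm_integral_le_of_norm_le h.le
    (Filter.Eventually.of_forall fun t ht => hpt t ht)
    ((intervalIntegrable_const).add hindI.intervalIntegrable)
  rw [Real.norm_eq_abs] at h1
  refine h1.trans ?_
  rw [intervalIntegral.integral_add intervalIntegrable_const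
    hindI.intervalIntegrable, intervalIntegral.integral_const, smul_eq_mul]
  have h2 : ∫ t in u..ρ, Set.indicator (Set.Icc m m') (fun _ => K) t ≤ K * (m' - m) := by
    rw [intervalIntegral.integral_of_le h.le]
    refine (setIntegral_le_integral hindI (Filter.Eventually.of_forall fun t =>
      Set.indicator_nonneg (fun _ _ => hK) t)).trans ?_
    rw [integral_indicator measurableSet_Icc, setIntegral_const, smul_eq_mul,
      Real.volume_real_Icc_of_le hmm, mul_comm]
  have h3 : (ρ - u) * (K * D) ≤ 1 * (K * D) :=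
    mul_le_mul_of_nonneg_right (by linarith) (by positivity)
  have h4 : K * (m' - m) ≤ K * D := mul_le_mul_of_nonneg_left hmd hK
  linarith

theorem HH_sumB {n : ℕ} (f : Finset (Fin n) → ℝ) (C : ℝ) (h : ∀ S, |f S| ≤ C) :
    |∑ S : Finset (Fin n), (-1 : ℝ) ^ S.card * f S| ≤ 2 ^ n * C := by
  refine (Finset.abs_sum_le_sum_abs _ _).trans ?_
  refine (Finset.sum_le_card_nsmul _ _ C fun S _ => ?_).trans (le_of_eq ?_)
  · rw [abs_mul, abs_pow, abs_neg, abs_one, one_pow, one_mul]
    exact h S
  · rw [Finset.card_univ, Fintype.card_finset, Fintype.card_fin, nsmul_eq_mul]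
    push_cast
    ring

end

theorem thm_HH : St_HH := by
  intro ρ K F hρ hρ1 hF j
  refine ⟨fun a b x y ha hb => (HH_int hF j a b ha hb).intervalIntegrable,
    fun a b u ha hb hu => HH_bd hF hρ1 j a b u ha hb hu, ?_,
    fun a b a' b' u ha hb hab ha' hb' hab' hu =>
      HH_ab hF hρ1 j a b a' b' u ha hb hab ha' hb' hab' hu,
    fun a b u u' ha hb _ _ => HH_u hF j a b u u' ha hb, ?_, ?_, ?_⟩
  · intro a b u _ _ _ hab
    unfold hh
    have h2 : (fun t => F (cor j a b t)) = fun _ => 0 := by
      funext t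
      apply hF.zero
      rw [HH_reg]
      rintro ⟨-, -, -, h4, -, -⟩
      linarith
    rw [h2, intervalIntegral.integral_zero]
  · intro n u a b hu ha hb
    unfold hB
    exact HH_sumB _ _ fun S => HH_bd hF hρ1 j a b _ ha hb (Finset.sum_nonneg fun i _ => hu i)
  · intro n u a b a' b' hu ha hb hab ha' hb' hab'
    unfold hB
    rw [← Finset.sum_sub_distrib]
    simp only [← mul_sub]
    refine (HH_sumB (fun S => hh F ρ j a b (∑ i ∈ S, u i) - hh F ρ j a' b' (∑ i ∈ S, u i))
      (2 * K * (|a - a'| + |b - b'|)) fun S => ?_).trans (le_of_eq (by ring))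
    exact HH_ab hF hρ1 j a b a' b' _ ha hb hab ha' hb' hab' (Finset.sum_nonneg fun i _ => hu i)
  · intro n u u' a b hu hu' ha hb
    unfold hB
    rw [← Finset.sum_sub_distrib]
    simp only [← mul_sub]
    refine (HH_sumB (fun S => hh F ρ j a b (∑ i ∈ S, u i) - hh F ρ j a b (∑ i ∈ S, u' i))
      (K * ∑ i, |u i - u' i|) fun S => ?_).trans (le_of_eq (by ring))
    refine (HH_u hF j a b _ _ ha hb).trans (mul_le_mul_of_nonneg_left ?_ (HH_K hF))
    rw [← Finset.sum_sub_distrib]
    refine (Finset.abs_sum_le_sum_abs _ _).trans ?_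
    exact Finset.sum_le_sum_of_subset_of_nonneg (Finset.subset_univ _) fun _ _ _ => abs_nonneg _

end Pool.Agent.PT
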