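import Pool.Agent.PT.StD

set_option autoImplicit false

/-!
# PT / IB

The bound of the box coefficients.
-/

namespace Pool.Agent.PT

open Finset Filter Pool.Agent.MT MeasureTheory

theorem thm_tB (hTB : St_TB) (hDS : St_DS) : St_tB := by
  intro ρ K F hρ hρ2 hF
  have hK : 0 ≤ K := (abs_nonneg _).trans (hF.bd 0)
  obtain ⟨w1, M1, h1⟩ := hDS (1 / 2) (by norm_num)
  refine ⟨max w1 8, M1, fun w M hw hM => ?_⟩
  filter_upwards [h1 w ((le_max_left _ _).trans hw) M hM ρ hρ hρ2.le] with N hN j n u hn hu τ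
  obtain ⟨g1, g2, g3, -⟩ := hTB ρ K F w (XR ρ N) M N j n u ((le_max_right _ _).trans hw) hρ hF hu τ
  have hA : 0 ≤ AA w N := by
    unfold AA phW
    exact mul_nonneg (div_nonneg (Nat.cast_nonneg _) (Nat.cast_nonneg _))
      (Real.log_natCast_nonneg _)
  have hG : GG w (XR ρ N) M N ρ ≤ AA w N := by
    have h4 := (abs_le.mp (hN.le ρ hρ.le le_rfl)).2
    have h5 : AA w N * ρ ≤ AA w N * (1 / 2) := mul_le_mul_of_nonneg_left hρ2.le hA
    have h6 : GG w (XR ρ N) M N ρ - AA w N * ρ ≤ 1 / 2 * AA w N := h4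
    linarith
  have h2n : (2 : ℝ) ^ n ≤ 8 := by
    calc (2 : ℝ) ^ n ≤ 2 ^ 3 := pow_le_pow_right₀ (by norm_num) hn
      _ = 8 := by norm_num
  refine ⟨?_, g2, g1⟩
  have h7 : (2 ^ n * K) * (2 * GG w (XR ρ N) M N ρ) ≤ (8 * K) * (2 * AA w N) := by
    calc (2 ^ n * K) * (2 * GG w (XR ρ N) M N ρ) ≤ (2 ^ n * K) * (2 * AA w N) :=
          mul_le_mul_of_nonneg_left (by linarith) (by positivity)
      _ ≤ (8 * K) * (2 * AA w N) :=
          mul_le_mul_of_nonneg_right (mul_le_mul_of_nonneg_right h2n hK) (by linarith)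
  calc |tB F M N j u τ| ≤ |sg τ| * ((2 ^ n * K) * (2 * GG w (XR ρ N) M N ρ)) := by
        rw [← mul_assoc]
        exact g3
    _ ≤ |sg τ| * ((8 * K) * (2 * AA w N)) := mul_le_mul_of_nonneg_left h7 (abs_nonneg _)
    _ = 16 * K * (|sg τ| * AA w N) := by ring

end Pool.Agent.PT
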