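import Pool.Agent.PT.StD

set_option autoImplicit false

/-!
# PT / IR

Module of the density block of PT (see the docstring of the statement in `PT/StD.lean`).
-/

namespace Pool.Agent.PT

open Finset Filter Pool.Agent.MT MeasureTheory

open Topology

/-- one coordinate -/
noncomputable def IRh (M m : ℕ) (x : ℝ) : ℝ :=
  Set.indicator (Set.Ioc ((m : ℝ) / M) (((m : ℝ) + 1) / M)) (fun x => 1 / x) x

/-- the coefficient of a box -/
noncomputable def IRc (F : (Fin 3 → ℝ) → ℝ) (ρ σ : ℝ) (j : Fin 3) (M : ℕ) {n : ℕ}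
    (k : Fin n → ℕ) : ℝ := JJ F ρ σ j (uu k M) / (1 - ∑ i, (k i : ℝ) / M)

/-- the step function -/
noncomputable def IRf (F : (Fin 3 → ℝ) → ℝ) (ρ σ : ℝ) (j : Fin 3) (n M : ℕ)
    (u : Fin n → ℝ) : ℝ :=
  ∑ k ∈ boxes ρ M n, IRc F ρ σ j M k * ∏ i, IRh M (k i) (u i)

theorem IR_h_nonneg (M m : ℕ) (x : ℝ) : 0 ≤ IRh M m x := by
  unfold IRh
  refine Set.indicator_apply_nonneg fun h => ?_
  have h1 : (0 : ℝ) ≤ (m : ℝ) / M := by positivity
  exact one_div_nonneg.2 (h1.trans h.1.le)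

theorem IR_h_int (M m : ℕ) (hM : 0 < M) (hm : 0 < m) :
    Integrable (IRh M m) ∧ ∫ x, IRh M m x = Real.log (((m : ℝ) + 1) / m) := by
  have hMr : (0 : ℝ) < M := by exact_mod_cast hM
  have hmr : (0 : ℝ) < m := by exact_mod_cast hm
  have ha : (0 : ℝ) < (m : ℝ) / M := by positivity
  have hab : (m : ℝ) / M ≤ ((m : ℝ) + 1) / M := div_le_div_of_nonneg_right (by linarith) hMr.le
  have hc : ContinuousOn (fun x : ℝ => 1 / x) (Set.Icc ((m : ℝ) / M) (((m : ℝ) + 1) / M)) := by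
    refine continuousOn_const.div continuousOn_id fun x hx => ?_
    exact (ha.trans_le hx.1).ne'
  have hi : IntegrableOn (fun x : ℝ => 1 / x) (Set.Ioc ((m : ℝ) / M) (((m : ℝ) + 1) / M)) :=
    hc.integrableOn_Icc.mono_set Set.Ioc_subset_Icc_self
  refine ⟨hi.integrable_indicator measurableSet_Ioc, ?_⟩
  unfold IRh
  rw [integral_indicator measurableSet_Ioc, ← intervalIntegral.integral_of_le hab,
    integral_one_div_of_pos ha (by positivity)]
  congr 1
  field_simp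

theorem IR_box {ρ : ℝ} {M n : ℕ} {k : Fin n → ℕ} (hM : 0 < M) (hk : k ∈ boxes ρ M n) :
    (∀ i, 0 < k i) ∧ ρ < 1 - ∑ i, (k i : ℝ) / M := by
  classical
  have hMr : (0 : ℝ) < M := by exact_mod_cast hM
  simp only [boxes, Finset.mem_filter] at hk
  obtain ⟨-, -, h2, -, h4⟩ := hk
  refine ⟨fun i => ?_, ?_⟩
  · have h5 := h2 i
    have h6 : (0 : ℝ) < k i := lt_of_lt_of_le (by positivity) h5
    exact_mod_cast h6
  · have h7 : ∑ l, (k l : ℝ) / M ≤ ∑ l, ((k l : ℝ) + 1) / M :=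
      Finset.sum_le_sum fun l _ => div_le_div_of_nonneg_right (by linarith) hMr.le
    have h8 : (0 : ℝ) < 1 / M := by positivity
    linarith

/-- the box that contains `u` -/
noncomputable def IRk {n : ℕ} (M : ℕ) (u : Fin n → ℝ) : Fin n → ℕ := fun i => ⌈(M : ℝ) * u i⌉₊ - 1

theorem IR_k {n : ℕ} (M : ℕ) (hM : 0 < M) (u : Fin n → ℝ) (hu : ∀ i, 0 < u i) (i : Fin n) :
    (IRk M u i : ℝ) < M * u i ∧ (M : ℝ) * u i ≤ (IRk M u i : ℝ) + 1 := by
  have hMr : (0 : ℝ) < M := by exact_mod_cast hM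
  have h1 : 0 < (M : ℝ) * u i := mul_pos hMr (hu i)
  have h2 : 0 < ⌈(M : ℝ) * u i⌉₊ := Nat.ceil_pos.2 h1
  have h3 := Nat.ceil_lt_add_one h1.le
  have h4 := Nat.le_ceil ((M : ℝ) * u i)
  have h5 : ((IRk M u i : ℕ) : ℝ) = (⌈(M : ℝ) * u i⌉₊ : ℝ) - 1 := by
    unfold IRk
    rw [Nat.cast_sub h2, Nat.cast_one]
  rw [h5]
  constructor <;> linarith

theorem IR_prod {n : ℕ} (M : ℕ) (hM : 0 < M) (u : Fin n → ℝ) (hu : ∀ i, 0 < u i)
    (k : Fin n → ℕ) :
    ∏ i, IRh M (k i) (u i) = if k = IRk M u then ∏ i, 1 / u i else 0 := by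
  have hMr : (0 : ℝ) < M := by exact_mod_cast hM
  have hmem : ∀ i (m : ℕ), u i ∈ Set.Ioc ((m : ℝ) / M) (((m : ℝ) + 1) / M) ↔ m = IRk M u i := by
    intro i m
    obtain ⟨h1, h2⟩ := IR_k M hM u hu i
    rw [Set.mem_Ioc, div_lt_iff₀ hMr, le_div_iff₀ hMr, mul_comm (u i)]
    constructor
    · rintro ⟨h3, h4⟩
      have h5 : m < IRk M u i + 1 := by
        have : (m : ℝ) < ((IRk M u i + 1 : ℕ) : ℝ) := by push_cast; linarith
        exact_mod_cast this
      have h6 : IRk M u i < m + 1 := by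
        have : (IRk M u i : ℝ) < ((m + 1 : ℕ) : ℝ) := by push_cast; linarith
        exact_mod_cast this
      omega
    · intro h
      rw [h]
      exact ⟨h1, h2⟩
  by_cases h : k = IRk M u
  · rw [if_pos h]
    refine Finset.prod_congr rfl fun i _ => ?_
    unfold IRh
    rw [Set.indicator_of_mem]
    rw [hmem i, h]
  · rw [if_neg h]
    obtain ⟨i, hi⟩ := Function.ne_iff.1 h
    refine Finset.prod_eq_zero (mem_univ i) ?_
    unfold IRh
    rw [Set.indicator_of_notMem]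
    rw [hmem i]
    exact hi

section main

variable {ρ σ K : ℝ} {F : (Fin 3 → ℝ) → ℝ} {j : Fin 3} {n : ℕ}

theorem IR_f (M : ℕ) (hM : 0 < M) (u : Fin n → ℝ) (hu : ∀ i, 0 < u i) :
    IRf F ρ σ j n M u =
      if IRk M u ∈ boxes ρ M n then IRc F ρ σ j M (IRk M u) * ∏ i, 1 / u i else 0 := by
  unfold IRf
  have h1 : ∀ k ∈ boxes ρ M n, IRc F ρ σ j M k * ∏ i, IRh M (k i) (u i) =
      if k = IRk M u then IRc F ρ σ j M (IRk M u) * ∏ i, 1 / u i else 0 := by
    intro k _
    rw [IR_prod M hM u hu]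
    split_ifs with h
    · rw [h]
    · rw [mul_zero]
  rw [Finset.sum_congr rfl h1, Finset.sum_ite_eq']

theorem IR_integral (M : ℕ) (hM : 0 < M) :
    Integrable (IRf F ρ σ j n M) ∧
      ∫ u, IRf F ρ σ j n M u = ∑ k ∈ boxes ρ M n, mu k M * JJ F ρ σ j (uu k M) := by
  have h1 : ∀ k ∈ boxes ρ M n, Integrable (fun u : Fin n → ℝ =>
      IRc F ρ σ j M k * ∏ i, IRh M (k i) (u i)) := by
    intro k hk
    refine Integrable.const_mul ?_ _
    exact Integrable.fintype_prod fun i => (IR_h_int M (k i) hM ((IR_box hM hk).1 i)).1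
  refine ⟨integrable_finsetSum _ h1, ?_⟩
  unfold IRf
  rw [integral_finsetSum _ h1]
  refine Finset.sum_congr rfl fun k hk => ?_
  rw [integral_const_mul, integral_fintype_prod_volume_eq_prod (fun i => IRh M (k i))]
  have h2 : ∀ i, ∫ x, IRh M (k i) x = Real.log (((k i : ℝ) + 1) / k i) := fun i =>
    (IR_h_int M (k i) hM ((IR_box hM hk).1 i)).2
  rw [Finset.prod_congr rfl fun i _ => h2 i]
  unfold IRc mu
  ring

theorem IR_DD_meas : MeasurableSet (DD ρ n) := by
  have h : DD ρ n = {u : Fin n → ℝ | ∀ i, 1 / 1000 < u i} ∩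
      ({u : Fin n → ℝ | ∀ a b, a < b → u a < u b} ∩ ({u : Fin n → ℝ | ∀ i, u i < 1 - ∑ l, u l} ∩
        {u : Fin n → ℝ | ρ < 1 - ∑ l, u l})) := by
    ext u
    constructor
    · rintro ⟨h1, h2, h3, h4⟩
      exact ⟨h1, fun a b hab => h2 hab, h3, h4⟩
    · rintro ⟨h1, h2, h3, h4⟩
      exact ⟨h1, fun a b hab => h2 a b hab, h3, h4⟩
  have hs : Measurable fun u : Fin n → ℝ => 1 - ∑ l, u l := by fun_prop
  rw [h]
  refine MeasurableSet.inter ?_ (MeasurableSet.inter ?_ (MeasurableSet.inter ?_ ?_))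
  · rw [Set.ofPred_forall]
    exact MeasurableSet.iInter fun i => measurableSet_lt measurable_const (measurable_pi_apply i)
  · rw [Set.ofPred_forall]
    refine MeasurableSet.iInter fun a => ?_
    rw [Set.ofPred_forall]
    refine MeasurableSet.iInter fun b => ?_
    by_cases hab : a < b
    · simp only [hab, forall_true_left]
      exact measurableSet_lt (measurable_pi_apply a) (measurable_pi_apply b)
    · simp only [hab, IsEmpty.forall_iff]
      exact MeasurableSet.univ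
  · rw [Set.ofPred_forall]
    exact MeasurableSet.iInter fun i => measurableSet_lt (measurable_pi_apply i) hs
  · exact measurableSet_lt measurable_const hs

theorem IR_DD_fin (hρ : 0 < ρ) : volume (DD ρ n) < ⊤ := by
  have h : DD ρ n ⊆ Set.Icc 0 1 := by
    rintro u ⟨h1, -, h3, h4⟩
    have h0 : ∀ i, 0 ≤ u i := fun i => (lt_trans (by norm_num) (h1 i)).le
    refine ⟨h0, fun i => ?_⟩
    have h5 : u i ≤ ∑ l, u l := Finset.single_le_sum (fun l _ => h0 l) (mem_univ i)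
    show u i ≤ 1
    linarith
  refine (measure_mono h).trans_lt ?_
  exact isCompact_Icc.measure_lt_top

theorem IR_tendsto (hHJ : St_HJ) (hρ : 0 < ρ) (hρ1 : ρ ≤ 1) (hσ : 0 < σ) (hσρ : σ ≤ ρ)
    (hF : Prof ρ K F) (u : Fin n → ℝ) (hu : u ∈ DD ρ n) :
    Tendsto (fun M : ℕ => IRf F ρ σ j n M u) atTop (𝓝 (JJ F ρ σ j u * dens u)) := by
  obtain ⟨hu1, hu2, hu3, hu4⟩ := hu
  have hu0 : ∀ i, 0 < u i := fun i => lt_trans (by norm_num) (hu1 i)
  have hS0 : 0 ≤ ∑ l, u l := Finset.sum_nonneg fun i _ => (hu0 i).le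
  have hev : ∀ c : ℝ, 0 < c → ∀ᶠ M : ℕ in atTop, (n : ℝ) + 2 ≤ c * M := by
    intro c hc
    have h1 : Tendsto (fun M : ℕ => c * (M : ℝ)) atTop atTop :=
      tendsto_natCast_atTop_atTop.const_mul_atTop hc
    exact h1.eventually_ge_atTop _
  have eA : ∀ᶠ M : ℕ in atTop, ∀ i, (n : ℝ) + 2 ≤ (u i - 1 / 1000) * M :=
    eventually_all.2 fun i => hev _ (by linarith [hu1 i])
  have eB : ∀ᶠ M : ℕ in atTop, ∀ a b, a < b → (n : ℝ) + 2 ≤ (u b - u a) * M := by
    refine eventually_all.2 fun a => eventually_all.2 fun b => ?_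
    by_cases hab : a < b
    · filter_upwards [hev (u b - u a) (by linarith [hu2 hab])] with M hM _
      exact hM
    · exact Eventually.of_forall fun M h => absurd h hab
  have eC : ∀ᶠ M : ℕ in atTop, ∀ i, (n : ℝ) + 2 ≤ (1 - ∑ l, u l - u i) * M :=
    eventually_all.2 fun i => hev _ (by linarith [hu3 i])
  have eD : ∀ᶠ M : ℕ in atTop, (n : ℝ) + 2 ≤ (1 - ∑ l, u l - ρ) * M := hev _ (by linarith)
  -- the box is admissible
  have hbox : ∀ᶠ M : ℕ in atTop, IRk M u ∈ boxes ρ M n := by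
    filter_upwards [eA, eB, eC, eD, eventually_ge_atTop 1] with M hA hB hC hD hM
    have hMr : (0 : ℝ) < M := by exact_mod_cast hM
    have hk := IR_k M hM u hu0
    have hn0 : (0 : ℝ) ≤ n := Nat.cast_nonneg n
    have hsum : ∑ l, ((IRk M u l : ℝ) + 1) ≤ M * (∑ l, u l) + n := by
      calc ∑ l, ((IRk M u l : ℝ) + 1) ≤ ∑ l, ((M : ℝ) * u l + 1) :=
            Finset.sum_le_sum fun l _ => by linarith [(hk l).1]
        _ = M * (∑ l, u l) + n := by
            rw [Finset.sum_add_distrib, Finset.mul_sum]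
            simp
    simp only [boxes, Finset.mem_filter, Fintype.mem_piFinset]
    refine ⟨fun i => ?_, ?_, ?_, ?_, ?_⟩
    · rw [mem_range]
      have h1 : (IRk M u i : ℝ) < M := by
        have h2 : (M : ℝ) * u i ≤ M * 1 := mul_le_mul_of_nonneg_left (by linarith [hu3 i]) hMr.le
        linarith [(hk i).1]
      exact_mod_cast h1
    · intro a b hab
      have h1 := hB a b hab
      have h2 : (IRk M u a : ℝ) < IRk M u b := by
        have h3 : (u b - u a) * M = M * u b - M * u a := by ring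
        linarith [(hk a).1, (hk b).2]
      exact_mod_cast h2
    · intro i
      have h1 := hA i
      have h3 : (u i - 1 / 1000) * M = M * u i - M / 1000 := by ring
      linarith [(hk i).2]
    · intro i
      rw [← Finset.sum_div, div_lt_iff₀ hMr]
      have h1 := hC i
      have h3 : (1 - ∑ l, u l - u i) * M = M - M * ∑ l, u l - M * u i := by ring
      have h4 : (1 - (∑ l, ((IRk M u l : ℝ) + 1)) / M) * M = M - ∑ l, ((IRk M u l : ℝ) + 1) := by
        field_simp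
      rw [h4]
      linarith [(hk i).1]
    · rw [← Finset.sum_div]
      have h3 : (1 - ∑ l, u l - ρ) * M = M - M * ∑ l, u l - M * ρ := by ring
      have h4 : (1 - (∑ l, ((IRk M u l : ℝ) + 1)) / M) * M = M - ∑ l, ((IRk M u l : ℝ) + 1) := by
        field_simp
      refine lt_of_mul_lt_mul_right ?_ hMr.le
      rw [h4]
      have h5 : (ρ + 1 / (M : ℝ)) * M = M * ρ + 1 := by field_simp
      rw [h5]
      linarith
  -- limits
  have hinv : Tendsto (fun M : ℕ => 1 / (M : ℝ)) atTop (𝓝 0) :=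
    tendsto_one_div_atTop_nhds_zero_nat
  have hlim1 : ∀ i, Tendsto (fun M : ℕ => (IRk M u i : ℝ) / M) atTop (𝓝 (u i)) := by
    intro i
    have h1 : Tendsto (fun M : ℕ => u i - 1 / (M : ℝ)) atTop (𝓝 (u i)) := by
      have := (tendsto_const_nhds (x := u i)).sub hinv
      rwa [sub_zero] at this
    refine tendsto_of_tendsto_of_tendsto_of_le_of_le' h1 tendsto_const_nhds ?_ ?_
    · filter_upwards [eventually_ge_atTop 1] with M hM
      have hMr : (0 : ℝ) < M := by exact_mod_cast hM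
      rw [le_div_iff₀ hMr]
      have h2 : (u i - 1 / (M : ℝ)) * M = M * u i - 1 := by field_simp
      rw [h2]
      linarith [(IR_k M hM u hu0 i).2]
    · filter_upwards [eventually_ge_atTop 1] with M hM
      have hMr : (0 : ℝ) < M := by exact_mod_cast hM
      rw [div_le_iff₀ hMr, mul_comm]
      exact (IR_k M hM u hu0 i).1.le
  have hlim2 : ∀ i, Tendsto (fun M : ℕ => uu (IRk M u) M i) atTop (𝓝 (u i)) := by
    intro i
    have h1 := (hlim1 i).add hinv
    rw [add_zero] at h1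
    refine h1.congr fun M => ?_
    unfold uu
    ring
  have hJ := hHJ ρ σ K F hρ hρ1 hσ hσρ hF j n
  have hlimJ : Tendsto (fun M : ℕ => JJ F ρ σ j (uu (IRk M u) M)) atTop (𝓝 (JJ F ρ σ j u)) := by
    rw [tendsto_iff_norm_sub_tendsto_zero]
    have h1 : Tendsto (fun M : ℕ => 2 * (2 ^ n * K) ^ 2 * ∑ i, |uu (IRk M u) M i - u i|) atTop
        (𝓝 (2 * (2 ^ n * K) ^ 2 * ∑ i : Fin n, |u i - u i|)) := by
      refine Tendsto.const_mul _ (tendsto_finsetSum _ fun i _ => ?_)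
      exact ((hlim2 i).sub tendsto_const_nhds).abs
    have h2 : 2 * (2 ^ n * K) ^ 2 * ∑ i : Fin n, |u i - u i| = 0 := by simp
    rw [h2] at h1
    refine squeeze_zero (fun _ => norm_nonneg _) (fun M => ?_) h1
    rw [Real.norm_eq_abs]
    exact (hJ (uu (IRk M u) M) u (fun i => by unfold uu; positivity) fun i => (hu0 i).le).2.2
  have hlimc : Tendsto (fun M : ℕ => IRc F ρ σ j M (IRk M u) * ∏ i, 1 / u i) atTop
      (𝓝 (JJ F ρ σ j u / (1 - ∑ i, u i) * ∏ i, 1 / u i)) := by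
    refine Tendsto.mul_const _ ?_
    unfold IRc
    refine hlimJ.div ((tendsto_const_nhds).sub (tendsto_finsetSum _ fun i _ => hlim1 i)) ?_
    linarith
  have hfin : JJ F ρ σ j u / (1 - ∑ i, u i) * ∏ i, 1 / u i = JJ F ρ σ j u * dens u := by
    unfold dens
    rw [Finset.prod_div_distrib, Finset.prod_const_one, one_div, one_div, mul_inv,
      div_eq_mul_inv]
    ring
  rw [hfin] at hlimc
  refine hlimc.congr' ?_
  filter_upwards [hbox, eventually_ge_atTop 1] with M h1 h2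
  rw [IR_f M h2 u hu0, if_pos h1]

theorem IR_bound (hHJ : St_HJ) (hρ : 0 < ρ) (hρ1 : ρ ≤ 1) (hσ : 0 < σ) (hσρ : σ ≤ ρ)
    (hF : Prof ρ K F) (u : Fin n → ℝ) (hu : u ∈ DD ρ n) (M : ℕ) (hM : 0 < M) :
    ‖IRf F ρ σ j n M u‖ ≤ (2 ^ n * K) ^ 2 / ρ * 1000 ^ n := by
  obtain ⟨hu1, hu2, hu3, hu4⟩ := hu
  have hu0 : ∀ i, 0 < u i := fun i => lt_trans (by norm_num) (hu1 i)
  have hJ := hHJ ρ σ K F hρ hρ1 hσ hσρ hF j n
  rw [IR_f M hM u hu0]
  split_ifs with h
  · obtain ⟨h1, h2⟩ := IR_box hM h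
    obtain ⟨h3, h4, -⟩ := hJ (uu (IRk M u) M) u (fun i => by unfold uu; positivity)
      fun i => (hu0 i).le
    have h5 : 0 ≤ IRc F ρ σ j M (IRk M u) := div_nonneg h3 (by linarith)
    have h6 : IRc F ρ σ j M (IRk M u) ≤ (2 ^ n * K) ^ 2 / ρ :=
      div_le_div₀ (sq_nonneg _) h4 hρ h2.le
    have h7 : 0 ≤ ∏ i, 1 / u i := Finset.prod_nonneg fun i _ => one_div_nonneg.2 (hu0 i).le
    have h8 : ∏ i, 1 / u i ≤ 1000 ^ n := by
      calc ∏ i, 1 / u i ≤ ∏ _i : Fin n, (1000 : ℝ) := by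
            refine Finset.prod_le_prod (fun i _ => one_div_nonneg.2 (hu0 i).le) fun i _ => ?_
            rw [div_le_iff₀ (hu0 i)]
            linarith [hu1 i]
        _ = 1000 ^ n := by simp
    rw [Real.norm_eq_abs, abs_of_nonneg (mul_nonneg h5 h7)]
    exact mul_le_mul h6 h8 h7 (by positivity)
  · rw [norm_zero]
    positivity

end main

theorem thm_R (hHJ : St_HJ) : St_R := by
  intro ρ σ K ε F j n hρ hρ2 hσ hσρ hF hε
  have hρ1 : ρ ≤ 1 := by linarith
  have hlim : Tendsto (fun M : ℕ => ∫ u in DD ρ n, IRf F ρ σ j n M u) atTop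
      (𝓝 (∫ u in DD ρ n, JJ F ρ σ j u * dens u)) := by
    refine tendsto_integral_filter_of_dominated_convergence
      (fun _ => (2 ^ n * K) ^ 2 / ρ * 1000 ^ n) ?_ ?_ ?_ ?_
    · filter_upwards [eventually_ge_atTop 1] with M hM
      exact (IR_integral M hM).1.aestronglyMeasurable.restrict
    · filter_upwards [eventually_ge_atTop 1] with M hM
      filter_upwards [self_mem_ae_restrict IR_DD_meas] with u hu
      exact IR_bound hHJ hρ hρ1 hσ hσρ hF u hu M hM
    · exact integrableOn_const (IR_DD_fin hρ).ne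
    · filter_upwards [self_mem_ae_restrict IR_DD_meas] with u hu
      exact IR_tendsto hHJ hρ hρ1 hσ hσρ hF u hu
  have hev : ∀ᶠ M : ℕ in atTop, QQ F ρ σ j n - ε < ∫ u in DD ρ n, IRf F ρ σ j n M u := by
    refine hlim.eventually_const_lt ?_
    unfold QQ
    linarith
  obtain ⟨M0, hM0⟩ := eventually_atTop.1 (hev.and (eventually_ge_atTop 1))
  refine ⟨M0, fun M hM => ?_⟩
  obtain ⟨h1, h2⟩ := hM0 M hM
  obtain ⟨h3, h4⟩ := IR_integral (F := F) (ρ := ρ) (σ := σ) (j := j) (n := n) M h2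
  rw [← h4]
  refine h1.le.trans (setIntegral_le_integral h3 (Eventually.of_forall fun u => ?_))
  unfold IRf
  refine Finset.sum_nonneg fun k hk => ?_
  refine mul_nonneg (div_nonneg ?_ ?_) (Finset.prod_nonneg fun i _ => IR_h_nonneg _ _ _)
  · exact (hHJ ρ σ K F hρ hρ1 hσ hσρ hF j n (uu k M) (uu k M)
      (fun i => by unfold uu; positivity) fun i => by unfold uu; positivity).1
  · linarith [(IR_box h2 hk).2]

end Pool.Agent.PT
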