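import Pool.Agent.PT.StD

set_option autoImplicit false

/-!
# PT / IS

The mean square of the weight (upper bound) from the density statements.
-/

namespace Pool.Agent.PT

open Finset Filter Pool.Agent.MT MeasureTheory

private theorem is_cut (f : ℝ → ℝ) (x y : ℝ) (hy : 0 ≤ y) (hyx : y ≤ x)
    (h : ∀ t, y < t → t ≤ x → f t = 0) : ∫ t in (0 : ℝ)..x, f t = ∫ t in (0 : ℝ)..y, f t := by
  rw [intervalIntegral.integral_of_le (hy.trans hyx), intervalIntegral.integral_of_le hy]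
  refine setIntegral_eq_of_subset_of_forall_sdiff_eq_zero measurableSet_Ioc
    (fun t ht => ⟨ht.1, ht.2.trans hyx⟩) (fun t ht => ?_)
  refine h t ?_ ht.1.2
  by_contra hcon
  exact ht.2 ⟨ht.1.1, not_lt.mp hcon⟩

private theorem is_reg (ρ a b t : ℝ) (h : Reg ρ ![a, b, t]) :
    a + b ≤ ρ ∧ a + t ≤ ρ ∧ b + t ≤ ρ := by
  refine ⟨?_, ?_, ?_⟩
  · simpa using h.2 0 1 (by decide)
  · simpa using h.2 0 2 (by decide)
  · simpa using h.2 1 2 (by decide)

private theorem is_II (ρ K : ℝ) (F : (Fin 3 → ℝ) → ℝ) (hρ : 0 < ρ) (hF : Prof ρ K F) :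
    ∫ a in (0 : ℝ)..ρ, ∫ b in (0 : ℝ)..(ρ - a), ∫ c in (0 : ℝ)..(ρ - max a b),
      F ![a, b, c] ^ 2 = II F ρ := by
  unfold II
  refine intervalIntegral.integral_congr fun a ha => ?_
  rw [Set.uIcc_of_le hρ.le] at ha
  have h1 : (∫ b in (0 : ℝ)..ρ, ∫ t in (0 : ℝ)..ρ, F ![a, b, t] ^ 2) =
      ∫ b in (0 : ℝ)..(ρ - a), ∫ t in (0 : ℝ)..ρ, F ![a, b, t] ^ 2 := by
    refine is_cut _ _ _ (by linarith [ha.2]) (by linarith [ha.1]) fun b hb _ => ?_
    have h2 : ∀ t : ℝ, F ![a, b, t] ^ 2 = 0 := by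
      intro t
      rw [hF.zero, zero_pow two_ne_zero]
      intro hR
      have := (is_reg ρ a b t hR).1
      linarith
    simp_rw [h2]
    simp
  rw [h1]
  refine intervalIntegral.integral_congr fun b hb => ?_
  rw [Set.uIcc_of_le (by linarith [ha.2])] at hb
  have hm : max a b ≤ ρ := max_le ha.2 (by linarith [hb.2, ha.1])
  have hm0 : 0 ≤ max a b := le_max_of_le_left ha.1
  rw [is_cut (fun t => F ![a, b, t] ^ 2) ρ (ρ - max a b) (by linarith) (by linarith)]
  intro t ht _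
  rw [hF.zero, zero_pow two_ne_zero]
  intro hR
  obtain ⟨-, h3, h4⟩ := is_reg ρ a b t hR
  rcases le_total a b with hab | hab
  · rw [max_eq_right hab] at ht
    linarith
  · rw [max_eq_left hab] at ht
    linarith

open Classical in
theorem thm_S1 (hDI : St_DI) (hDP : St_DP) (hD3 : St_D3) : St_S1 := by
  intro ρ K ε F hρ hρ2 hF hε
  have hK : 0 ≤ K := (abs_nonneg _).trans (hF.bd 0)
  obtain ⟨εD, hεD, hD⟩ := hD3 (2 * K ^ 2) ε hε
  obtain ⟨w1, M1, h1⟩ := hDP εD hεD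
  refine ⟨w1, M1, fun w M hw hM => ?_⟩
  filter_upwards [h1 w hw M hM ρ hρ hρ2.le, eventually_ge_atTop 2] with N hN1 hN
  have hA : 0 < AA w N := by
    unfold AA phW
    have h := primorial_pos w
    exact mul_pos (div_pos (by exact_mod_cast Nat.totient_pos.mpr h) (by exact_mod_cast h))
      (Real.log_pos (by exact_mod_cast (by omega : 1 < N)))
  have hq : ∀ i : PP w (XR ρ N), 0 ≤ qq i := by
    intro i
    have h2 := (mem_filter.mp i.2).2.one_le
    unfold qq pr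
    exact div_nonneg zero_le_one (sub_nonneg.mpr (by exact_mod_cast h2))
  -- the squares
  have hb : ∀ a, Reg ρ a → |F a ^ 2| ≤ 2 * K ^ 2 := by
    intro a _
    rw [abs_of_nonneg (sq_nonneg _), ← sq_abs]
    have := pow_le_pow_left₀ (abs_nonneg _) (hF.bd a) 2
    nlinarith [sq_nonneg K]
  have hl : ∀ a a', Reg ρ a → Reg ρ a' → |F a ^ 2 - F a' ^ 2| ≤ 2 * K ^ 2 * ∑ i, |a i - a' i| := by
    intro a a' ha ha'
    have g1 := hF.lip a a' ha ha'
    have g2 := abs_le.mp (hF.bd a)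
    have g3 := abs_le.mp (hF.bd a')
    have g4 : |F a + F a'| ≤ 2 * K := by
      rw [abs_le]
      constructor <;> linarith [g2.1, g2.2, g3.1, g3.2]
    rw [show F a ^ 2 - F a' ^ 2 = (F a + F a') * (F a - F a') by ring, abs_mul]
    calc _ ≤ (2 * K) * (K * ∑ i, |a i - a' i|) := mul_le_mul g4 g1 (abs_nonneg _) (by positivity)
      _ = _ := by ring
  have hDD := hD (Finset (PP w (XR ρ N))) (fun e => ∏ i ∈ e, (qq i * (1 + qq i)))
    (ss M N) (AA w N) ρ hA hρ (by linarith) hN1.1 (fun a => F a ^ 2) hb hl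
  rw [is_II ρ K F hρ hF] at hDD
  have hDD1 := (abs_le.mp hDD).2
  -- the sum over the configurations
  have hI := hDI (PP w (XR ρ N)) (fun i => qq i * (1 + qq i))
    (fun a b c => F ![ss M N a, ss M N b, ss M N c] ^ 2)
    (fun i => mul_nonneg (hq i) (by linarith [hq i])) (fun a b c => sq_nonneg _)
  have hs : ∀ τ : PP w (XR ρ N) → Option (Fin 3), szs M N τ =
      ![ss M N (part τ 0), ss M N (part τ 1), ss M N (part τ 2)] := by
    intro τ
    funext h
    fin_cases h <;> rfl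
  have e1 : (∑ τ : PP w (XR ρ N) → Option (Fin 3), F (szs M N τ) ^ 2 *
        ∏ i ∈ supp τ, (qq i * (1 + qq i))) =
      ∑ τ : PP w (XR ρ N) → Option (Fin 3),
        F ![ss M N (part τ 0), ss M N (part τ 1), ss M N (part τ 2)] ^ 2 *
        ∏ i ∈ supp τ, (qq i * (1 + qq i)) := by
    refine sum_congr rfl fun τ _ => ?_
    rw [hs τ]
  have e2 : (∑ a : Finset (PP w (XR ρ N)), ∑ b : Finset (PP w (XR ρ N)),
      ∑ c : Finset (PP w (XR ρ N)), F ![ss M N a, ss M N b, ss M N c] ^ 2 *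
        ((∏ i ∈ a, (qq i * (1 + qq i))) * (∏ i ∈ b, (qq i * (1 + qq i))) *
          (∏ i ∈ c, (qq i * (1 + qq i))))) =
      ∑ e : Finset (PP w (XR ρ N)), ∑ e' : Finset (PP w (XR ρ N)),
      ∑ e'' : Finset (PP w (XR ρ N)), if Reg ρ ![ss M N e, ss M N e', ss M N e''] then
        (∏ i ∈ e, (qq i * (1 + qq i))) * (∏ i ∈ e', (qq i * (1 + qq i))) *
          (∏ i ∈ e'', (qq i * (1 + qq i))) * F ![ss M N e, ss M N e', ss M N e''] ^ 2 else 0 := by
    refine sum_congr rfl fun a _ => sum_congr rfl fun b _ => sum_congr rfl fun c _ => ?_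
    split_ifs with hR
    · ring
    · rw [hF.zero _ hR]
      ring
  rw [e1]
  refine hI.trans ?_
  rw [e2]
  have h9 : AA w N ^ 3 * (II F ρ + ε) = AA w N ^ 3 * II F ρ + ε * AA w N ^ 3 := by ring
  rw [h9]
  linarith

end Pool.Agent.PT
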