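import Pool.Agent.PT.Defs
import Pool.Agent.GBQ.RhoLow

set_option autoImplicit false

/-!
# PT / Mert

Third theorem of Mertens for the sieving primes: `∏ (1 + 1/(p-1)) ≤ C A`.
-/

namespace Pool.Agent.PT

open Finset Filter Pool.Agent.MT

def St_Mert : Prop := ∃ C : ℝ, 0 < C ∧ ∀ ρ : ℝ, 0 < ρ → ρ ≤ 1 → ∀ w : ℕ, 2 ≤ w →
  ∀ᶠ N : ℕ in atTop, ∏ i : PP w (XR ρ N), (1 + qq i) ≤ C * AA w N

private theorem mert_phW (w : ℕ) :
    phW w = ∏ p ∈ (range (w + 1)).filter Nat.Prime, (1 - 1 / (p : ℝ)) := by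
  have hW : ((primorial w : ℕ) : ℝ) ≠ 0 := by exact_mod_cast primorial_ne_zero w
  have h1 := Nat.totient_eq_mul_prod_factors (primorial w)
  have h2 : (((primorial w).totient : ℚ) : ℝ) =
      ((((primorial w : ℕ) : ℚ) * ∏ p ∈ (primorial w).primeFactors, (1 - (p : ℚ)⁻¹) : ℚ) : ℝ) := by
    rw [h1]
  push_cast at h2
  have h3 : (primorial w).primeFactors = (range (w + 1)).filter Nat.Prime := by
    rw [primorial]
    exact Nat.primeFactors_prod fun p hp => (mem_filter.1 hp).2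
  rw [phW, h2, h3, mul_div_cancel_left₀ _ hW]
  exact Finset.prod_congr rfl fun p _ => by rw [one_div]

theorem thm_Mert : St_Mert := by
  obtain ⟨c, hc, h⟩ := GBQ.thm_RhoLow
  refine ⟨c⁻¹, inv_pos.mpr hc, fun ρ hρ hρ1 w hw => ?_⟩
  have hX : ∀ᶠ N : ℕ in atTop, (w : ℝ) ≤ (N : ℝ) ^ ρ :=
    ((tendsto_rpow_atTop hρ).comp tendsto_natCast_atTop_atTop).eventually_ge_atTop _
  filter_upwards [hX, eventually_ge_atTop 2] with N hN hN2
  have hwX : w ≤ XR ρ N := Nat.le_floor hN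
  have hX2 : 2 ≤ XR ρ N := hw.trans hwX
  have hN1 : (1 : ℝ) ≤ N := by exact_mod_cast (by omega : 1 ≤ N)
  have hXN : (XR ρ N : ℝ) ≤ N := by
    refine (Nat.floor_le (by positivity)).trans ?_
    calc (N : ℝ) ^ ρ ≤ (N : ℝ) ^ (1 : ℝ) := Real.rpow_le_rpow_of_exponent_le hN1 hρ1
      _ = N := Real.rpow_one _
  set X := XR ρ N with hXdef
  have hlog : Real.log X ≤ Real.log N :=
    Real.log_le_log (by exact_mod_cast (by omega : 0 < X)) hXN
  have hlX : 0 < Real.log X := Real.log_pos (by exact_mod_cast (by omega : 1 < X))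
  have h1 := h X hX2
  -- the product over the sieving primes
  have h2 : ∏ i : PP w X, (1 + qq i) = ∏ p ∈ (Ioc w X).filter Nat.Prime, (1 - 1 / (p : ℝ))⁻¹ := by
    rw [← Finset.prod_coe_sort ((Ioc w X).filter Nat.Prime) (fun p => (1 - 1 / (p : ℝ))⁻¹)]
    refine Finset.prod_congr rfl fun i _ => ?_
    have hp : (2 : ℝ) ≤ (i.1 : ℝ) := by exact_mod_cast (mem_filter.mp i.2).2.two_le
    unfold qq pr
    have h3 : (i.1 : ℝ) - 1 ≠ 0 := by linarith
    have h4 : (i.1 : ℝ) ≠ 0 := by linarith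
    have h5 : 1 - 1 / (i.1 : ℝ) ≠ 0 := by
      rw [ne_eq, sub_eq_zero]
      intro h6
      rw [eq_div_iff h4] at h6
      linarith
    field_simp
    ring
  have h3 : GBQ.rho X = phW w * ∏ p ∈ (Ioc w X).filter Nat.Prime, (1 - 1 / (p : ℝ)) := by
    rw [mert_phW, ← Finset.prod_union]
    · unfold GBQ.rho
      refine Finset.prod_congr ?_ fun _ _ => rfl
      ext p
      simp only [GBQ.pr, mem_union, mem_filter, mem_range, mem_Ioc]
      constructor
      · rintro ⟨h4, h5⟩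
        rcases Nat.lt_or_ge w p with h6 | h6
        · exact Or.inr ⟨⟨h6, by omega⟩, h5⟩
        · exact Or.inl ⟨by omega, h5⟩
      · rintro (⟨h4, h5⟩ | ⟨⟨h4, h6⟩, h5⟩)
        · exact ⟨by omega, h5⟩
        · exact ⟨by omega, h5⟩
    · rw [disjoint_left]
      intro p hp hp'
      have := mem_range.mp (mem_filter.mp hp).1
      have := (mem_Ioc.mp (mem_filter.mp hp').1).1
      omega
  have hpos : 0 < ∏ p ∈ (Ioc w X).filter Nat.Prime, (1 - 1 / (p : ℝ)) := by
    refine Finset.prod_pos fun p hp => ?_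
    have hp2 : (2 : ℝ) ≤ p := by exact_mod_cast (mem_filter.mp hp).2.two_le
    have : 1 / (p : ℝ) ≤ 1 / 2 := one_div_le_one_div_of_le (by norm_num) hp2
    linarith
  have hφ : 0 ≤ phW w := by
    unfold phW
    positivity
  rw [h2, Finset.prod_inv_distrib]
  rw [h3] at h1
  set P := ∏ p ∈ (Ioc w X).filter Nat.Prime, (1 - 1 / (p : ℝ)) with hP
  rw [div_le_iff₀ hlX] at h1
  have h5 : phW w * P * Real.log X ≤ phW w * P * Real.log N :=
    mul_le_mul_of_nonneg_left hlog (mul_nonneg hφ hpos.le)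
  have h6 : 1 ≤ c⁻¹ * AA w N * P := by
    have h7 : c ≤ AA w N * P := by
      unfold AA
      linarith
    have h8 := mul_le_mul_of_nonneg_left h7 (inv_pos.mpr hc).le
    rw [inv_mul_cancel₀ hc.ne'] at h8
    linarith
  rw [inv_eq_one_div, div_le_iff₀ hpos]
  exact h6

end Pool.Agent.PT
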