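import Pool.Agent.PT.StD

set_option autoImplicit false

/-!
# PT / PR

Pairs of sets with common elements; sums over the elements of a pair.
-/

namespace Pool.Agent.PT

open Finset Filter Pool.Agent.MT MeasureTheory

section

variable {ι : Type} [Fintype ι] [DecidableEq ι]

open Classical in
/-- the weight of a set -/
private noncomputable def prg (v z : ι → ℝ) (ρ : ℝ) (a : Finset ι) : ℝ :=
  if ∑ i ∈ a, z i ≤ ρ then ∏ i ∈ a, v i else 0

omit [Fintype ι] [DecidableEq ι] in
private theorem prg_nonneg {v z : ι → ℝ} (hv : ∀ i, 0 ≤ v i) (ρ : ℝ) (a : Finset ι) :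
    0 ≤ prg v z ρ a := by
  unfold prg
  split_ifs
  · exact prod_nonneg fun i _ => hv i
  · exact le_rfl

open Classical in
/-- sets which contain `i` -/
private theorem pr_mem {v z : ι → ℝ} (hv : ∀ i, 0 ≤ v i) (hz : ∀ i, 0 ≤ z i) (ρ : ℝ) (i : ι) :
    ∑ a : Finset ι, (if i ∈ a then prg v z ρ a else 0) ≤ v i * ∑ a : Finset ι, prg v z ρ a := by
  rw [← sum_filter, mul_sum]
  calc ∑ a ∈ univ.filter (fun a : Finset ι => i ∈ a), prg v z ρ a
      ≤ ∑ a ∈ univ.filter (fun a : Finset ι => i ∈ a), v i * prg v z ρ (a.erase i) := by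
        refine sum_le_sum fun a ha => ?_
        have hi : i ∈ a := (mem_filter.mp ha).2
        have h1 : ∑ l ∈ a, z l = z i + ∑ l ∈ a.erase i, z l := (add_sum_erase a z hi).symm
        have h2 : ∏ l ∈ a, v l = v i * ∏ l ∈ a.erase i, v l := (mul_prod_erase a v hi).symm
        unfold prg
        split_ifs with h3 h4
        · rw [h2]
        · exfalso
          have := hz i
          linarith
        · exact mul_nonneg (hv i) (prod_nonneg fun i _ => hv i)
        · rw [mul_zero]
    _ = ∑ b ∈ (univ.filter (fun a : Finset ι => i ∈ a)).image (fun a => a.erase i),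
          v i * prg v z ρ b := by
        rw [sum_image]
        intro a ha b hb hab
        have hi : i ∈ a := (mem_filter.mp ha).2
        have hi' : i ∈ b := (mem_filter.mp hb).2
        rw [← insert_erase hi, ← insert_erase hi']
        have h5 : a.erase i = b.erase i := hab
        rw [h5]
    _ ≤ ∑ b : Finset ι, v i * prg v z ρ b :=
        sum_le_sum_of_subset_of_nonneg (subset_univ _) fun b _ _ =>
          mul_nonneg (hv i) (prg_nonneg hv ρ b)

end

open Classical in
theorem thm_PR : St_PR := by
  intro ι _ _ v z ρ G V hv hz hG hV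
  have hG' : G = ∑ a : Finset ι, prg v z ρ a := hG
  have hG0 : 0 ≤ G := by
    rw [hG']
    exact sum_nonneg fun a _ => prg_nonneg hv ρ a
  have hn := fun a : Finset ι => prg_nonneg (z := z) hv ρ a
  constructor
  · have h1 : ∀ a b : Finset ι, (if ¬ Disjoint a b ∧ ∑ i ∈ a, z i ≤ ρ ∧ ∑ i ∈ b, z i ≤ ρ then
        (∏ i ∈ a, v i) * ∏ i ∈ b, v i else 0) ≤
        ∑ i : ι, (if i ∈ a then prg v z ρ a else 0) * (if i ∈ b then prg v z ρ b else 0) := by
      intro a b
      have h0 : ∀ i : ι, 0 ≤ (if i ∈ a then prg v z ρ a else 0) *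
          (if i ∈ b then prg v z ρ b else 0) := by
        intro i
        refine mul_nonneg ?_ ?_ <;> split_ifs
        exacts [hn a, le_rfl, hn b, le_rfl]
      split_ifs with h
      · obtain ⟨h2, h3, h4⟩ := h
        obtain ⟨i, hi, hi'⟩ := not_disjoint_iff.mp h2
        refine le_trans (le_of_eq ?_) (single_le_sum (fun i _ => h0 i) (mem_univ i))
        rw [if_pos hi, if_pos hi']
        unfold prg
        rw [if_pos h3, if_pos h4]
      · exact sum_nonneg fun i _ => h0 i
    calc _ ≤ ∑ a : Finset ι, ∑ b : Finset ι, ∑ i : ι, (if i ∈ a then prg v z ρ a else 0) *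
            (if i ∈ b then prg v z ρ b else 0) :=
          sum_le_sum fun a _ => sum_le_sum fun b _ => h1 a b
      _ = ∑ i : ι, (∑ a : Finset ι, if i ∈ a then prg v z ρ a else 0) *
            (∑ b : Finset ι, if i ∈ b then prg v z ρ b else 0) := by
          simp_rw [sum_mul_sum]
          calc _ = ∑ a : Finset ι, ∑ i : ι, ∑ b : Finset ι, (if i ∈ a then prg v z ρ a else 0) *
                (if i ∈ b then prg v z ρ b else 0) := sum_congr rfl fun a _ => sum_comm
            _ = _ := sum_comm
      _ ≤ ∑ i : ι, (v i * G) * (v i * G) := by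
          refine sum_le_sum fun i _ => ?_
          have h2 := pr_mem hv hz ρ i
          rw [← hG'] at h2
          refine mul_le_mul h2 h2 (sum_nonneg fun b _ => ?_) (mul_nonneg (hv i) hG0)
          split_ifs
          exacts [hn b, le_rfl]
      _ = V * G ^ 2 := by
          rw [hV, sum_mul]
          exact sum_congr rfl fun i _ => by ring
  · have hs : ∑ a : Finset ι, (∑ i ∈ a, v i) * prg v z ρ a ≤ V * G := by
      calc ∑ a : Finset ι, (∑ i ∈ a, v i) * prg v z ρ a =
          ∑ a : Finset ι, ∑ i : ι, v i * (if i ∈ a then prg v z ρ a else 0) := by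
            refine sum_congr rfl fun a _ => ?_
            rw [sum_mul, ← sum_filter_add_sum_filter_not univ (fun i => i ∈ a)]
            rw [sum_eq_zero (s := univ.filter fun i => i ∉ a) (fun i hi => by
              rw [if_neg (mem_filter.mp hi).2, mul_zero]), add_zero]
            have h2 : univ.filter (fun i : ι => i ∈ a) = a := by
              ext i
              simp
            rw [h2]
            exact sum_congr rfl fun i hi => by rw [if_pos hi]
        _ = ∑ i : ι, v i * ∑ a : Finset ι, (if i ∈ a then prg v z ρ a else 0) := by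
            rw [sum_comm]
            exact sum_congr rfl fun i _ => (mul_sum _ _ _).symm
        _ ≤ ∑ i : ι, v i * (v i * G) := by
            refine sum_le_sum fun i _ => mul_le_mul_of_nonneg_left ?_ (hv i)
            rw [hG']
            exact pr_mem hv hz ρ i
        _ = V * G := by
            rw [hV, sum_mul]
            exact sum_congr rfl fun i _ => by ring
    have h1 : ∀ a b : Finset ι, (if Disjoint a b ∧ ∑ i ∈ a, z i ≤ ρ ∧ ∑ i ∈ b, z i ≤ ρ then
        ((∑ i ∈ a, v i) + ∑ i ∈ b, v i) * ((∏ i ∈ a, v i) * ∏ i ∈ b, v i) else 0) ≤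
        ((∑ i ∈ a, v i) * prg v z ρ a) * prg v z ρ b +
          prg v z ρ a * ((∑ i ∈ b, v i) * prg v z ρ b) := by
      intro a b
      have ha : 0 ≤ ∑ i ∈ a, v i := sum_nonneg fun i _ => hv i
      have hb : 0 ≤ ∑ i ∈ b, v i := sum_nonneg fun i _ => hv i
      split_ifs with h
      · obtain ⟨h2, h3, h4⟩ := h
        refine le_of_eq ?_
        unfold prg
        rw [if_pos h3, if_pos h4]
        ring
      · exact add_nonneg (mul_nonneg (mul_nonneg ha (hn a)) (hn b))
          (mul_nonneg (hn a) (mul_nonneg hb (hn b)))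
    calc _ ≤ ∑ a : Finset ι, ∑ b : Finset ι, (((∑ i ∈ a, v i) * prg v z ρ a) * prg v z ρ b +
            prg v z ρ a * ((∑ i ∈ b, v i) * prg v z ρ b)) :=
          sum_le_sum fun a _ => sum_le_sum fun b _ => h1 a b
      _ = (∑ a : Finset ι, (∑ i ∈ a, v i) * prg v z ρ a) * G +
            G * ∑ b : Finset ι, (∑ i ∈ b, v i) * prg v z ρ b := by
          rw [hG', sum_mul_sum, sum_mul_sum, ← sum_add_distrib]
          exact sum_congr rfl fun a _ => sum_add_distrib
      _ ≤ (V * G) * G + G * (V * G) :=
          add_le_add (mul_le_mul_of_nonneg_right hs hG0) (mul_le_mul_of_nonneg_left hs hG0)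
      _ = 2 * V * G ^ 2 := by ring

end Pool.Agent.PT
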