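import Pool.Agent.PT.StD

set_option autoImplicit false

/-!
# PT / TB

Module of the density block of PT (see the docstring of the statement in `PT/StD.lean`).
-/

namespace Pool.Agent.PT

open Finset Filter Pool.Agent.MT MeasureTheory

section gen

variable {ι : Type} [Fintype ι] [DecidableEq ι]

theorem TB_fiber (j : Fin 3) (Φ : Finset ι → ℝ) (w : ι → Option (Fin 3) → ℝ) :
    ∑ σ : ι → Option (Fin 3), Φ (part σ j) * ∏ i, w i (σ i) =
      ∑ e : Finset ι, Φ e * ((∏ i ∈ e, w i (some j)) *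
        ∏ i ∈ eᶜ, ∑ s ∈ univ.erase (some j), w i s) := by
  rw [← Finset.sum_fiberwise (s := univ) (g := fun σ : ι → Option (Fin 3) => part σ j)]
  refine Finset.sum_congr rfl fun e _ => ?_
  have hset : univ.filter (fun σ : ι → Option (Fin 3) => part σ j = e) =
      Fintype.piFinset (fun i => if i ∈ e then {some j} else univ.erase (some j)) := by
    ext σ
    rw [mem_filter, Fintype.mem_piFinset]
    constructor
    · rintro ⟨-, h⟩ i
      split_ifs with hi
      · rw [← h, part, mem_filter] at hi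
        rw [mem_singleton]
        exact hi.2
      · rw [mem_erase]
        refine ⟨fun h1 => hi ?_, mem_univ _⟩
        rw [← h, part, mem_filter]
        exact ⟨mem_univ _, h1⟩
    · intro h
      refine ⟨mem_univ _, ?_⟩
      ext i
      rw [part, mem_filter]
      have h1 := h i
      constructor
      · rintro ⟨-, h2⟩
        by_contra h3
        rw [if_neg h3, mem_erase] at h1
        exact h1.1 h2
      · intro h2
        rw [if_pos h2, mem_singleton] at h1
        exact ⟨mem_univ _, h1⟩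
  have h1 : ∀ σ ∈ univ.filter (fun σ : ι → Option (Fin 3) => part σ j = e),
      Φ (part σ j) * ∏ i, w i (σ i) = Φ e * ∏ i, w i (σ i) := by
    intro σ hσ
    rw [(mem_filter.1 hσ).2]
  rw [Finset.sum_congr rfl h1, ← Finset.mul_sum, hset, ← Finset.prod_univ_sum,
    ← Finset.prod_mul_prod_compl e]
  congr 2
  · refine Finset.prod_congr rfl fun i hi => ?_
    rw [if_pos hi, Finset.sum_singleton]
  · refine Finset.prod_congr rfl fun i hi => ?_
    rw [if_neg (mem_compl.1 hi)]

end gen

section one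

variable {w X : ℕ}

/-- one prime factor -/
noncomputable def TBw (j : Fin 3) (i : PP w X) (s t : Option (Fin 3)) : ℝ :=
  (if s = none then 1 else -((pr i : ℝ) / ((pr i : ℝ) - 1))) * lc {j} (bb i) (qq i) s t

theorem TB_pr (i : PP w X) : w < pr i ∧ (pr i).Prime := by
  have h := i.2
  rw [mem_filter, mem_Ioc] at h
  exact ⟨h.1.1, h.2⟩

theorem TB_pr2 (i : PP w X) : (2 : ℝ) ≤ pr i := by exact_mod_cast (TB_pr i).2.two_le

theorem TB_q (i : PP w X) : 0 < qq i := by
  have := TB_pr2 i
  unfold qq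
  exact one_div_pos.2 (by linarith)

theorem TB_r (i : PP w X) : 0 < (pr i : ℝ) / ((pr i : ℝ) - 1) := by
  have := TB_pr2 i
  exact div_pos (by linarith) (by linarith)

theorem TB_nn (j : Fin 3) (i : PP w X) : TBw j i none none = 1 := by
  simp [TBw, lc]

theorem TB_ns (j h : Fin 3) (i : PP w X) : TBw j i none (some h) = 0 := by
  simp [TBw, lc]

theorem TB_jn (j : Fin 3) (i : PP w X) : TBw j i (some j) none = qq i := by
  have h1 := TB_pr2 i
  have h2 : (pr i : ℝ) ≠ 0 := by linarith
  have h3 : (pr i : ℝ) - 1 ≠ 0 := by linarith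
  simp only [TBw, lc, mem_singleton, if_true, reduceCtorEq, if_false, bb, qq]
  field_simp

theorem TB_hn (j h : Fin 3) (hh : h ≠ j) (i : PP w X) : TBw j i (some h) none = -qq i ^ 2 := by
  have h1 := TB_pr2 i
  have h2 : (pr i : ℝ) ≠ 0 := by linarith
  have h3 : (pr i : ℝ) - 1 ≠ 0 := by linarith
  simp only [TBw, lc, mem_singleton, hh, reduceCtorEq, if_false, bb, qq]
  field_simp
  ring

theorem TB_ss (j h h' : Fin 3) (i : PP w X) : TBw j i (some h) (some h') =
    if h = h' ∧ h ≠ j then -((pr i : ℝ) / ((pr i : ℝ) - 1)) else 0 := by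
  simp only [TBw, lc, mem_singleton, reduceCtorEq, if_false]
  by_cases h1 : h = h' ∧ ¬ h = j
  · rw [if_pos h1, if_pos h1, mul_one]
  · rw [if_neg h1, if_neg h1, mul_zero]

theorem TB_tB (F : (Fin 3 → ℝ) → ℝ) (M N : ℕ) (j : Fin 3) {n : ℕ} (u : Fin n → ℝ)
    (τ : PP w X → Option (Fin 3)) :
    tB F M N j u τ = ∑ σ : PP w X → Option (Fin 3), FB F j u (szs M N σ) *
      ∏ i, TBw j i (σ i) (τ i) := by
  unfold tB sbst cc sg
  refine Finset.sum_congr rfl fun σ _ => ?_
  have h1 : ∏ i ∈ supp σ, (-((pr i : ℝ) / ((pr i : ℝ) - 1))) =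
      ∏ i, (if σ i = none then 1 else -((pr i : ℝ) / ((pr i : ℝ) - 1))) := by
    unfold supp
    rw [Finset.prod_filter]
    refine Finset.prod_congr rfl fun i _ => ?_
    by_cases h : σ i = none
    · simp [h]
    · simp [h]
  rw [h1, mul_assoc, ← Finset.prod_mul_distrib]
  rfl

/-- the sum of the absolute values of the factors other than `some j` -/
theorem TB_x (j : Fin 3) (i : PP w X) (t : Option (Fin 3)) :
    ∑ s ∈ univ.erase (some j), |TBw j i s t| ≤
      (if t = none then 1 else (pr i : ℝ) / ((pr i : ℝ) - 1)) * (1 + 2 * qq i ^ 2) := by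
  have hr := TB_r i
  have hq := TB_q i
  rw [Finset.sum_erase_eq_sub (mem_univ _), Fintype.sum_option]
  cases t with
  | none =>
    have h1 : ∀ h : Fin 3, |TBw j i (some h) none| = if h = j then qq i else qq i ^ 2 := by
      intro h
      by_cases h2 : h = j
      · rw [h2, TB_jn, if_pos rfl, abs_of_pos hq]
      · rw [TB_hn j h h2, if_neg h2, abs_neg, abs_of_pos (pow_pos hq 2)]
    simp only [h1, TB_nn, abs_one, if_true]
    rw [Fin.sum_univ_three]
    fin_cases j <;> simp <;> linarith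
  | some h' =>
    have h1 : ∀ h : Fin 3, |TBw j i (some h) (some h')| =
        if h = h' ∧ h ≠ j then (pr i : ℝ) / ((pr i : ℝ) - 1) else 0 := by
      intro h
      rw [TB_ss]
      split_ifs
      · rw [abs_neg, abs_of_pos hr]
      · rw [abs_zero]
    simp only [h1, TB_ns, abs_zero, reduceCtorEq, if_false]
    have h2 : ∑ h : Fin 3, (if h = h' ∧ h ≠ j then (pr i : ℝ) / ((pr i : ℝ) - 1) else 0) ≤
        (pr i : ℝ) / ((pr i : ℝ) - 1) := by
      rw [Finset.sum_eq_single h']
      · split_ifs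
        · exact le_rfl
        · exact hr.le
      · intro b _ hb
        rw [if_neg (fun h => hb h.1)]
      · intro h
        exact absurd (mem_univ _) h
    have h3 : (0 : ℝ) ≤ if j = h' ∧ j ≠ j then (pr i : ℝ) / ((pr i : ℝ) - 1) else 0 := by
      split_ifs
      · exact hr.le
      · exact le_rfl
    have h4 : (pr i : ℝ) / ((pr i : ℝ) - 1) * 1 ≤
        (pr i : ℝ) / ((pr i : ℝ) - 1) * (1 + 2 * qq i ^ 2) :=
      mul_le_mul_of_nonneg_left (by nlinarith) hr.le
    linarith

/-- the same, only the diagonal outside the support of `τ` -/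
theorem TB_y (j : Fin 3) (i : PP w X) (t : Option (Fin 3)) (ht : t ≠ some j) :
    ∑ s ∈ univ.erase (some j), (if t ≠ none ∨ s = none ∨ s = some j then |TBw j i s t| else 0) =
      if t = none then 1 else (pr i : ℝ) / ((pr i : ℝ) - 1) := by
  have hr := TB_r i
  rw [Finset.sum_erase_eq_sub (mem_univ _), Fintype.sum_option]
  cases t with
  | none =>
    simp only [TB_nn, abs_one, if_true, ne_eq, not_true, false_or, reduceCtorEq, Option.some.injEq,
      or_true, true_or]
    rw [Finset.sum_eq_single j]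
    · simp
    · intro b _ hb
      rw [if_neg hb]
    · intro h
      exact absurd (mem_univ _) h
  | some h' =>
    have hj : h' ≠ j := fun h => ht (by rw [h])
    have h1 : ∀ h : Fin 3, |TBw j i (some h) (some h')| =
        if h = h' ∧ h ≠ j then (pr i : ℝ) / ((pr i : ℝ) - 1) else 0 := by
      intro h
      rw [TB_ss]
      split_ifs
      · rw [abs_neg, abs_of_pos hr]
      · rw [abs_zero]
    simp only [h1, TB_ns, abs_zero, reduceCtorEq, if_false, ne_eq, not_false_eq_true, true_or,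
      if_true]
    rw [Finset.sum_eq_single h']
    · rw [if_pos ⟨rfl, hj⟩]
      simp
    · intro b _ hb
      rw [if_neg (fun h => hb h.1)]
    · intro h
      exact absurd (mem_univ _) h

end one

section FB

variable {ρ K : ℝ} {F : (Fin 3 → ℝ) → ℝ}

theorem TB_K (hF : Prof ρ K F) : 0 ≤ K := (abs_nonneg _).trans (hF.bd 0)

theorem TB_FB (hF : Prof ρ K F) (j : Fin 3) {n : ℕ} (u : Fin n → ℝ) (a : Fin 3 → ℝ) :
    |FB F j u a| ≤ 2 ^ n * K := by
  unfold FB
  refine (Finset.abs_sum_le_sum_abs _ _).trans ?_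
  refine (Finset.sum_le_card_nsmul _ _ K fun S _ => ?_).trans (le_of_eq ?_)
  · rw [abs_mul, abs_pow, abs_neg, abs_one, one_pow, one_mul]
    exact hF.bd _
  · rw [Finset.card_univ, Fintype.card_finset, Fintype.card_fin, nsmul_eq_mul]
    push_cast
    ring

theorem TB_o (j : Fin 3) : o1 j ≠ j ∧ o2 j ≠ j ∧ o1 j ≠ o2 j := by
  fin_cases j <;> decide

theorem TB_zero (hF : Prof ρ K F) (j : Fin 3) {n : ℕ} (u : Fin n → ℝ) (hu : ∀ i, 0 ≤ u i)
    (a : Fin 3 → ℝ) (h : ρ < a j ∨ ρ < a (o1 j) + a (o2 j)) : FB F j u a = 0 := by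
  unfold FB
  refine Finset.sum_eq_zero fun S _ => ?_
  obtain ⟨h1, h2, h3⟩ := TB_o j
  rw [hF.zero, mul_zero]
  rintro ⟨h4, h5⟩
  have hS : 0 ≤ ∑ i ∈ S, u i := Finset.sum_nonneg fun i _ => hu i
  rcases h with h | h
  · have h6 := h5 j (o1 j) h1.symm
    have h7 := h4 (o1 j)
    rw [Function.update_self, Function.update_of_ne h1] at h6
    rw [Function.update_of_ne h1] at h7
    linarith
  · have h6 := h5 (o1 j) (o2 j) h3
    rw [Function.update_of_ne h1, Function.update_of_ne h2] at h6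
    linarith

end FB

section ssz

variable {w X : ℕ}

theorem TB_sz (M N p : ℕ) (hp : 1 ≤ p) : 0 ≤ sz M N p := by
  unfold sz
  split_ifs
  · have h1 : 0 ≤ Real.log p := Real.log_nonneg (by exact_mod_cast hp)
    have h2 : 0 ≤ Real.log N := Real.log_natCast_nonneg N
    positivity
  · positivity

theorem TB_ssmono (M N : ℕ) {e e' : Finset (PP w X)} (h : e ⊆ e') : ss M N e ≤ ss M N e' := by
  unfold ss
  exact Finset.sum_le_sum_of_subset_of_nonneg h fun i _ _ =>
    TB_sz M N _ (TB_pr i).2.one_lt.le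

theorem TB_GG (M N : ℕ) (ρ : ℝ) : 0 ≤ GG w X M N ρ := by
  unfold GG
  refine Finset.sum_nonneg fun e _ => ?_
  split_ifs
  · exact Finset.prod_nonneg fun i _ => (TB_q i).le
  · exact le_rfl

/-- the product `∏ (1 + 2 q²)` -/
theorem TB_P (hSQ : St_SQ) (hw : 8 ≤ w) :
    ∏ i : PP w X, (1 + 2 * qq i ^ 2) ≤ 1 + 8 / (w : ℝ) ∧ (8 : ℝ) / w ≤ 1 := by
  have hwr : (8 : ℝ) ≤ w := by exact_mod_cast hw
  have h1 : ∏ i : PP w X, (1 + 2 * qq i ^ 2) ≤ Real.exp (∑ i : PP w X, 2 * qq i ^ 2) :=
    Real.prod_one_add_le_exp_sum univ fun i => by positivity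
  have h2 : ∑ i : PP w X, 2 * qq i ^ 2 ≤ 4 / (w : ℝ) := by
    rw [← Finset.mul_sum]
    have h3 := hSQ w X (by omega)
    have h4 : (4 : ℝ) / w = 2 * (2 / w) := by ring
    rw [h4]
    linarith
  have h5 : Real.exp (4 / (w : ℝ)) ≤ 1 + 8 / (w : ℝ) := by
    set x : ℝ := 4 / (w : ℝ) with hx
    have hx0 : 0 ≤ x := by positivity
    have hx1 : x ≤ 1 / 2 := by
      rw [hx, div_le_div_iff₀ (by linarith) (by norm_num)]
      linarith
    have h6 : (8 : ℝ) / w = 2 * x := by rw [hx]; ring
    rw [h6]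
    have h7 := Real.one_sub_le_exp_neg x
    have h8 : Real.exp x * Real.exp (-x) = 1 := by rw [← Real.exp_add]; simp
    have h9 : 0 < 1 - x := by linarith
    have h10 : Real.exp x * (1 - x) ≤ 1 :=
      (mul_le_mul_of_nonneg_left h7 (Real.exp_pos x).le).trans h8.le
    have h11 : 1 ≤ (1 + 2 * x) * (1 - x) := by nlinarith
    exact le_of_mul_le_mul_right (h10.trans h11) h9
  refine ⟨h1.trans ((Real.exp_le_exp.2 h2).trans h5), ?_⟩
  rw [div_le_one (by linarith)]
  exact hwr

theorem TB_compl (e : Finset (PP w X)) :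
    ∏ i ∈ eᶜ, (1 + 2 * qq i ^ 2) ≤ ∏ i : PP w X, (1 + 2 * qq i ^ 2) := by
  rw [← Finset.prod_mul_prod_compl e]
  refine le_mul_of_one_le_left (Finset.prod_nonneg fun i _ => by positivity) ?_
  have h : ∏ i ∈ e, (1 : ℝ) ≤ ∏ i ∈ e, (1 + 2 * qq i ^ 2) :=
    Finset.prod_le_prod (fun _ _ => zero_le_one) fun i _ => by
      have := sq_nonneg (qq i)
      linarith
  rwa [Finset.prod_const_one] at h

/-- the size of `sg` -/
theorem TB_sg (τ : PP w X → Option (Fin 3)) :
    |sg τ| = ∏ i ∈ supp τ, (pr i : ℝ) / ((pr i : ℝ) - 1) := by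
  unfold sg
  rw [Finset.abs_prod]
  refine Finset.prod_congr rfl fun i _ => ?_
  rw [abs_neg, abs_of_pos (TB_r i)]

theorem TB_main (j : Fin 3) (τ : PP w X → Option (Fin 3)) (e : Finset (PP w X)) :
    (∏ i ∈ e, |TBw j i (some j) (τ i)|) *
      ∏ i ∈ eᶜ, (if τ i = none then 1 else (pr i : ℝ) / ((pr i : ℝ) - 1)) ≤
      (∏ i ∈ e, qq i) * |sg τ| := by
  have hq : 0 ≤ ∏ i ∈ e, qq i := Finset.prod_nonneg fun i _ => (TB_q i).le
  by_cases h : ∃ i ∈ e, τ i ≠ none
  · obtain ⟨i, hi, hτ⟩ := h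
    obtain ⟨h', hh'⟩ := Option.ne_none_iff_exists'.1 hτ
    rw [Finset.prod_eq_zero hi, zero_mul]
    · exact mul_nonneg hq (abs_nonneg _)
    · rw [hh', TB_ss, if_neg (fun h => h.2 rfl), abs_zero]
  · push Not at h
    have h1 : ∏ i ∈ e, |TBw j i (some j) (τ i)| = ∏ i ∈ e, qq i := by
      refine Finset.prod_congr rfl fun i hi => ?_
      rw [h i hi, TB_jn, abs_of_pos (TB_q i)]
    have h2 : ∏ i ∈ eᶜ, (if τ i = none then 1 else (pr i : ℝ) / ((pr i : ℝ) - 1)) = |sg τ| := by
      rw [TB_sg, supp, Finset.prod_filter]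
      have h3 : ∏ i ∈ e, (if τ i = none then 1 else (pr i : ℝ) / ((pr i : ℝ) - 1)) = 1 :=
        Finset.prod_eq_one fun i hi => by rw [if_pos (h i hi)]
      have h5 := Finset.prod_mul_prod_compl e
        (fun i => if τ i = none then (1 : ℝ) else (pr i : ℝ) / ((pr i : ℝ) - 1))
      rw [h3, one_mul] at h5
      rw [h5]
      refine Finset.prod_congr rfl fun i _ => ?_
      by_cases h4 : τ i = none
      · simp [h4]
      · simp [h4]
    rw [h1, h2]

end ssz

theorem TB_inj {w X : ℕ} (M N : ℕ) (ρ : ℝ) (i : PP w X) :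
    (∑ e : Finset (PP w X), if i ∈ e ∧ ss M N e ≤ ρ then ∏ l ∈ e, qq l else 0) ≤
      qq i * GG w X M N ρ := by
  classical
  rw [← Finset.sum_filter]
  unfold GG
  rw [← Finset.sum_filter, Finset.mul_sum]
  have hval : ∀ e ∈ univ.filter (fun e : Finset (PP w X) => i ∈ e ∧ ss M N e ≤ ρ),
      ∏ l ∈ e, qq l = qq i * ∏ l ∈ e.erase i, qq l := by
    intro e he
    rw [Finset.mul_prod_erase _ _ (mem_filter.1 he).2.1]
  have hinj : Set.InjOn (fun e : Finset (PP w X) => e.erase i)
      (univ.filter (fun e : Finset (PP w X) => i ∈ e ∧ ss M N e ≤ ρ) :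
        Finset (Finset (PP w X))) := by
    intro a ha b hb hab
    have ha1 : i ∈ a := (mem_filter.1 (Finset.mem_coe.1 ha)).2.1
    have hb1 : i ∈ b := (mem_filter.1 (Finset.mem_coe.1 hb)).2.1
    have h3 : a.erase i = b.erase i := hab
    rw [← Finset.insert_erase ha1, ← Finset.insert_erase hb1, h3]
  rw [Finset.sum_congr rfl hval,
    ← Finset.sum_image (f := fun e : Finset (PP w X) => qq i * ∏ l ∈ e, qq l) hinj]
  refine Finset.sum_le_sum_of_subset_of_nonneg ?_ ?_
  · intro e' he'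
    obtain ⟨e, he, rfl⟩ := mem_image.1 he'
    rw [mem_filter] at he ⊢
    exact ⟨mem_univ _, (TB_ssmono M N (Finset.erase_subset _ _)).trans he.2.2⟩
  · intro e _ _
    exact mul_nonneg (TB_q i).le (Finset.prod_nonneg fun l _ => (TB_q l).le)

/-- all terms -/
theorem TB_abs {w X : ℕ} {ρ K : ℝ} {F : (Fin 3 → ℝ) → ℝ} (hF : Prof ρ K F) (M N : ℕ) (j : Fin 3)
    {n : ℕ} (u : Fin n → ℝ) (hu : ∀ i, 0 ≤ u i) (τ σ : PP w X → Option (Fin 3)) :
    |FB F j u (szs M N σ) * ∏ i, TBw j i (σ i) (τ i)| ≤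
      (if ss M N (part σ j) ≤ ρ then 2 ^ n * K else 0) * ∏ i, |TBw j i (σ i) (τ i)| := by
  rw [abs_mul, Finset.abs_prod]
  refine mul_le_mul_of_nonneg_right ?_ (Finset.prod_nonneg fun i _ => abs_nonneg _)
  split_ifs with h
  · exact TB_FB hF j u _
  · rw [TB_zero hF j u hu _ (Or.inl (not_le.1 h)), abs_zero]

/-- the first bound -/
theorem TB_up (hSQ : St_SQ) {w X : ℕ} (hw : 8 ≤ w) {ρ K : ℝ} {F : (Fin 3 → ℝ) → ℝ}
    (hF : Prof ρ K F) (M N : ℕ) (j : Fin 3)
    {n : ℕ} (u : Fin n → ℝ) (hu : ∀ i, 0 ≤ u i) (τ : PP w X → Option (Fin 3)) :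
    |tB F M N j u τ| ≤ |sg τ| * (2 ^ n * K) * (2 * GG w X M N ρ) := by
  have hK := TB_K hF
  have hP := TB_P (X := X) hSQ hw
  rw [TB_tB]
  refine (Finset.abs_sum_le_sum_abs _ _).trans ?_
  refine (Finset.sum_le_sum fun σ _ => TB_abs hF M N j u hu τ σ).trans ?_
  rw [TB_fiber j (fun e => if ss M N e ≤ ρ then 2 ^ n * K else 0)
    (fun i s => |TBw j i s (τ i)|)]
  have h1 : ∀ e : Finset (PP w X), (if ss M N e ≤ ρ then 2 ^ n * K else 0) *
      ((∏ i ∈ e, |TBw j i (some j) (τ i)|) *
        ∏ i ∈ eᶜ, ∑ s ∈ univ.erase (some j), |TBw j i s (τ i)|) ≤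
      (|sg τ| * (2 ^ n * K) * 2) * (if ss M N e ≤ ρ then ∏ i ∈ e, qq i else 0) := by
    intro e
    split_ifs with h
    · have h2 : ∏ i ∈ eᶜ, ∑ s ∈ univ.erase (some j), |TBw j i s (τ i)| ≤
          (∏ i ∈ eᶜ, (if τ i = none then 1 else (pr i : ℝ) / ((pr i : ℝ) - 1))) * 2 := by
        refine (Finset.prod_le_prod (fun i _ => Finset.sum_nonneg fun s _ => abs_nonneg _)
          fun i _ => TB_x j i (τ i)).trans ?_
        rw [Finset.prod_mul_distrib]
        refine mul_le_mul_of_nonneg_left ?_ (Finset.prod_nonneg fun i _ => ?_)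
        · refine (TB_compl e).trans ?_
          linarith [hP.1, hP.2]
        · split_ifs
          · exact zero_le_one
          · exact (TB_r i).le
      have h3 := mul_le_mul_of_nonneg_left h2
        (Finset.prod_nonneg (s := e) fun i _ => abs_nonneg (TBw j i (some j) (τ i)))
      have h4 := TB_main j τ e
      have h5 : 0 ≤ 2 ^ n * K := by positivity
      calc 2 ^ n * K * ((∏ i ∈ e, |TBw j i (some j) (τ i)|) *
            ∏ i ∈ eᶜ, ∑ s ∈ univ.erase (some j), |TBw j i s (τ i)|)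
          ≤ 2 ^ n * K * (((∏ i ∈ e, |TBw j i (some j) (τ i)|) *
            (∏ i ∈ eᶜ, (if τ i = none then 1 else (pr i : ℝ) / ((pr i : ℝ) - 1)))) * 2) := by
            refine mul_le_mul_of_nonneg_left ?_ h5
            linarith
        _ ≤ 2 ^ n * K * (((∏ i ∈ e, qq i) * |sg τ|) * 2) := by
            refine mul_le_mul_of_nonneg_left ?_ h5
            linarith
        _ = _ := by ring
    · rw [zero_mul, mul_zero]
  refine (Finset.sum_le_sum fun e _ => h1 e).trans (le_of_eq ?_)
  rw [← Finset.mul_sum]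
  unfold GG
  ring

/-- the configuration `τ` on its support, `e` in the coordinate `j` outside -/
def TBphi {w X : ℕ} (j : Fin 3) (τ : PP w X → Option (Fin 3)) (e : Finset (PP w X)) :
    PP w X → Option (Fin 3) :=
  fun i => if τ i = none then (if i ∈ e then some j else none) else τ i

/-- the main part -/
theorem TB_diag {w X : ℕ} (F : (Fin 3 → ℝ) → ℝ) (M N : ℕ) (j : Fin 3)
    {n : ℕ} (u : Fin n → ℝ) (τ : PP w X → Option (Fin 3)) (hτ : ∀ i, τ i ≠ some j) :
    ∑ σ ∈ univ.filter (fun σ : PP w X → Option (Fin 3) =>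
        ∀ i, τ i ≠ none ∨ σ i = none ∨ σ i = some j),
      FB F j u (szs M N σ) * ∏ i, TBw j i (σ i) (τ i) =
    sg τ * ∑ e ∈ univ.filter (fun e : Finset (PP w X) => ∀ i ∈ e, τ i = none),
      (∏ i ∈ e, qq i) * FB F j u (cor j (szs M N τ (o1 j)) (szs M N τ (o2 j)) (ss M N e)) := by
  obtain ⟨ho1, ho2, ho3⟩ := TB_o j
  have hpart : ∀ e : Finset (PP w X), (∀ i ∈ e, τ i = none) → part (TBphi j τ e) j = e := by
    intro e he
    ext i
    rw [part, mem_filter]
    unfold TBphi
    constructor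
    · rintro ⟨-, h⟩
      by_cases h1 : τ i = none
      · rw [if_pos h1] at h
        by_contra h2
        rw [if_neg h2] at h
        exact absurd h (by simp)
      · rw [if_neg h1] at h
        exact absurd h (hτ i)
    · intro h
      exact ⟨mem_univ _, by rw [if_pos (he i h), if_pos h]⟩
  have hpart' : ∀ (e : Finset (PP w X)) (h : Fin 3), h ≠ j →
      part (TBphi j τ e) h = part τ h := by
    intro e h hh
    ext i
    rw [part, mem_filter, part, mem_filter]
    unfold TBphi
    by_cases h1 : τ i = none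
    · rw [if_pos h1, h1]
      by_cases h2 : i ∈ e
      · rw [if_pos h2]
        simp [Ne.symm hh]
      · rw [if_neg h2]
    · rw [if_neg h1]
  have hszs : ∀ e : Finset (PP w X), (∀ i ∈ e, τ i = none) → szs M N (TBphi j τ e) =
      cor j (szs M N τ (o1 j)) (szs M N τ (o2 j)) (ss M N e) := by
    intro e he
    funext h
    unfold szs cor
    by_cases h1 : h = j
    · rw [if_pos h1, h1, hpart e he]
    · rw [if_neg h1, hpart' e h h1]
      by_cases h2 : h = o1 j
      · rw [if_pos h2, h2]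
      · rw [if_neg h2]
        have h3 : h = o2 j := by
          revert h1 h2
          fin_cases j <;> fin_cases h <;> simp [o1, o2]
        rw [h3]
  have hprod : ∀ e : Finset (PP w X), (∀ i ∈ e, τ i = none) →
      ∏ i, TBw j i (TBphi j τ e i) (τ i) = sg τ * ∏ i ∈ e, qq i := by
    intro e he
    have e1 : ∏ i ∈ e, qq i = ∏ i : PP w X, (if i ∈ e then qq i else 1) := by
      rw [Finset.prod_ite_mem, Finset.univ_inter]
    unfold sg supp
    rw [Finset.prod_filter, e1, ← Finset.prod_mul_distrib]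
    refine Finset.prod_congr rfl fun i _ => ?_
    unfold TBphi
    by_cases h1 : τ i = none
    · rw [if_pos h1, h1]
      by_cases h2 : i ∈ e
      · rw [if_pos h2, TB_jn]
        simp [h2]
      · rw [if_neg h2, TB_nn]
        simp [h2]
    · obtain ⟨h, hh⟩ := Option.ne_none_iff_exists'.1 h1
      have h3 : h ≠ j := fun h4 => hτ i (by rw [hh, h4])
      have h4 : i ∉ e := fun h4 => h1 (he i h4)
      rw [if_neg h1, hh, TB_ss, if_pos ⟨rfl, h3⟩, if_neg h4]
      simp
  have hinj : Set.InjOn (TBphi j τ) (univ.filter (fun e : Finset (PP w X) =>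
      ∀ i ∈ e, τ i = none) : Finset (Finset (PP w X))) := by
    intro a ha b hb hab
    have ha1 := (mem_filter.1 (Finset.mem_coe.1 ha)).2
    have hb1 := (mem_filter.1 (Finset.mem_coe.1 hb)).2
    rw [← hpart a ha1, ← hpart b hb1, hab]
  rw [Finset.mul_sum]
  have hval : ∀ e ∈ univ.filter (fun e : Finset (PP w X) => ∀ i ∈ e, τ i = none),
      sg τ * ((∏ i ∈ e, qq i) * FB F j u (cor j (szs M N τ (o1 j)) (szs M N τ (o2 j))
        (ss M N e))) = FB F j u (szs M N (TBphi j τ e)) *
          ∏ i, TBw j i (TBphi j τ e i) (τ i) := by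
    intro e he
    have he1 := (mem_filter.1 he).2
    rw [hszs e he1, hprod e he1]
    ring
  rw [Finset.sum_congr rfl hval, ← Finset.sum_image (f := fun σ =>
    FB F j u (szs M N σ) * ∏ i, TBw j i (σ i) (τ i)) hinj]
  symm
  refine Finset.sum_subset ?_ ?_
  · intro σ hσ
    obtain ⟨e, he, rfl⟩ := mem_image.1 hσ
    rw [mem_filter]
    refine ⟨mem_univ _, fun i => ?_⟩
    unfold TBphi
    by_cases h1 : τ i = none
    · right
      rw [if_pos h1]
      by_cases h2 : i ∈ e
      · rw [if_pos h2]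
        exact Or.inr rfl
      · rw [if_neg h2]
        exact Or.inl rfl
    · exact Or.inl h1
  · intro σ hσ hσ'
    rw [mem_filter] at hσ
    have hex : ∃ i, τ i ≠ none ∧ σ i ≠ τ i := by
      by_contra hcon
      push Not at hcon
      apply hσ'
      rw [mem_image]
      refine ⟨part σ j, ?_, ?_⟩
      · rw [mem_filter]
        refine ⟨mem_univ _, fun i hi => ?_⟩
        rw [part, mem_filter] at hi
        by_contra h1
        exact hτ i ((hcon i h1).symm.trans hi.2)
      · funext i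
        unfold TBphi
        by_cases h1 : τ i = none
        · rw [if_pos h1]
          by_cases h2 : i ∈ part σ j
          · rw [if_pos h2]
            rw [part, mem_filter] at h2
            exact h2.2.symm
          · rw [if_neg h2]
            rw [part, mem_filter] at h2
            rcases hσ.2 i with h3 | h3 | h3
            · exact absurd h1 h3
            · exact h3.symm
            · exact absurd ⟨mem_univ _, h3⟩ h2
        · rw [if_neg h1]
          exact (hcon i h1).symm
    obtain ⟨i, h1, h2⟩ := hex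
    rw [Finset.prod_eq_zero (mem_univ i), mul_zero]
    obtain ⟨h, hh⟩ := Option.ne_none_iff_exists'.1 h1
    rw [hh] at h2 ⊢
    cases hσi : σ i with
    | none => exact TB_ns j h i
    | some h' =>
      rw [TB_ss, if_neg]
      rintro ⟨h3, -⟩
      exact h2 (by rw [hσi, h3])

/-- the second bound -/
theorem TB_low (hSQ : St_SQ) {w X : ℕ} (hw : 8 ≤ w) {ρ K : ℝ} {F : (Fin 3 → ℝ) → ℝ}
    (hF : Prof ρ K F) (M N : ℕ) (j : Fin 3)
    {n : ℕ} (u : Fin n → ℝ) (hu : ∀ i, 0 ≤ u i) (τ : PP w X → Option (Fin 3))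
    (hτ : ∀ i, τ i ≠ some j) :
    |tB F M N j u τ - sg τ * tm (w := w) (X := X) F M N j u (szs M N τ (o1 j))
      (szs M N τ (o2 j))| ≤
      |sg τ| * (2 ^ n * K) * GG w X M N ρ * (8 / w + ∑ i ∈ supp τ, qq i) := by
  classical
  have hK := TB_K hF
  have hP := TB_P (X := X) hSQ hw
  have hnK : 0 ≤ 2 ^ n * K := by positivity
  have hG := TB_GG (w := w) (X := X) M N ρ
  set D := univ.filter (fun σ : PP w X → Option (Fin 3) =>
        ∀ i, τ i ≠ none ∨ σ i = none ∨ σ i = some j) with hD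
  set f : (PP w X → Option (Fin 3)) → ℝ := fun σ => FB F j u (szs M N σ) *
    ∏ i, TBw j i (σ i) (τ i) with hf
  have hdiag := TB_diag F M N j u τ hτ
  -- first difference
  have h1 : |tB F M N j u τ - ∑ σ ∈ D, f σ| ≤ |sg τ| * (2 ^ n * K) * GG w X M N ρ * (8 / w) := by
    have e1 : tB F M N j u τ - ∑ σ ∈ D, f σ = ∑ σ ∈ Dᶜ, f σ := by
      rw [TB_tB, ← Finset.sum_add_sum_compl D]
      ring
    rw [e1]
    refine (Finset.abs_sum_le_sum_abs _ _).trans ?_
    refine (Finset.sum_le_sum fun σ _ => TB_abs hF M N j u hu τ σ).trans ?_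
    have e2 := Finset.sum_add_sum_compl D (fun σ : PP w X → Option (Fin 3) =>
      (if ss M N (part σ j) ≤ ρ then 2 ^ n * K else 0) * ∏ i, |TBw j i (σ i) (τ i)|)
    rw [TB_fiber j (fun e => if ss M N e ≤ ρ then 2 ^ n * K else 0)
      (fun i s => |TBw j i s (τ i)|)] at e2
    have e3 : ∑ σ ∈ D, (if ss M N (part σ j) ≤ ρ then 2 ^ n * K else 0) *
        ∏ i, |TBw j i (σ i) (τ i)| = ∑ σ : PP w X → Option (Fin 3),
        (if ss M N (part σ j) ≤ ρ then 2 ^ n * K else 0) * ∏ i,
        (if τ i ≠ none ∨ σ i = none ∨ σ i = some j then |TBw j i (σ i) (τ i)| else 0) := by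
      rw [hD, Finset.sum_filter]
      refine Finset.sum_congr rfl fun σ _ => ?_
      split_ifs with h2 h3 h3
      · congr 1
        exact Finset.prod_congr rfl fun i _ => by rw [if_pos (h2 i)]
      · rw [zero_mul, zero_mul]
      · push Not at h2
        obtain ⟨i, h4, h5, h6⟩ := h2
        rw [Finset.prod_eq_zero (mem_univ i), mul_zero]
        rw [if_neg]
        rintro (h7 | h7 | h7)
        · exact h7 h4
        · exact h5 h7
        · exact h6 h7
      · rw [zero_mul]
    rw [TB_fiber j (fun e => if ss M N e ≤ ρ then 2 ^ n * K else 0)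
      (fun i s => if τ i ≠ none ∨ s = none ∨ s = some j then |TBw j i s (τ i)| else 0)] at e3
    rw [e3] at e2
    have e4 : ∑ σ ∈ Dᶜ, (if ss M N (part σ j) ≤ ρ then 2 ^ n * K else 0) *
        ∏ i, |TBw j i (σ i) (τ i)| = ∑ e : Finset (PP w X),
        (if ss M N e ≤ ρ then 2 ^ n * K else 0) * ((∏ i ∈ e, |TBw j i (some j) (τ i)|) *
        ((∏ i ∈ eᶜ, ∑ s ∈ univ.erase (some j), |TBw j i s (τ i)|) -
          ∏ i ∈ eᶜ, (if τ i = none then 1 else (pr i : ℝ) / ((pr i : ℝ) - 1)))) := by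
      have e5 : ∀ e : Finset (PP w X), (if ss M N e ≤ ρ then 2 ^ n * K else 0) *
          ((∏ i ∈ e, (if τ i ≠ none ∨ (some j : Option (Fin 3)) = none ∨
            (some j : Option (Fin 3)) = some j then |TBw j i (some j) (τ i)| else 0)) *
          ∏ i ∈ eᶜ, ∑ s ∈ univ.erase (some j),
            (if τ i ≠ none ∨ s = none ∨ s = some j then |TBw j i s (τ i)| else 0)) =
          (if ss M N e ≤ ρ then 2 ^ n * K else 0) * ((∏ i ∈ e, |TBw j i (some j) (τ i)|) *
          ∏ i ∈ eᶜ, (if τ i = none then 1 else (pr i : ℝ) / ((pr i : ℝ) - 1))) := by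
        intro e
        congr 2
        · refine Finset.prod_congr rfl fun i _ => ?_
          rw [if_pos (Or.inr (Or.inr rfl))]
        · exact Finset.prod_congr rfl fun i _ => TB_y j i (τ i) (hτ i)
      rw [Finset.sum_congr rfl fun e _ => e5 e] at e2
      simp only [mul_sub, Finset.sum_sub_distrib]
      linarith
    rw [e4]
    have e6 : ∀ e : Finset (PP w X), (if ss M N e ≤ ρ then 2 ^ n * K else 0) *
        ((∏ i ∈ e, |TBw j i (some j) (τ i)|) *
        ((∏ i ∈ eᶜ, ∑ s ∈ univ.erase (some j), |TBw j i s (τ i)|) -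
          ∏ i ∈ eᶜ, (if τ i = none then 1 else (pr i : ℝ) / ((pr i : ℝ) - 1)))) ≤
        (|sg τ| * (2 ^ n * K) * (8 / w)) * (if ss M N e ≤ ρ then ∏ i ∈ e, qq i else 0) := by
      intro e
      split_ifs with h
      · have hy : 0 ≤ ∏ i ∈ eᶜ, (if τ i = none then 1 else (pr i : ℝ) / ((pr i : ℝ) - 1)) :=
          Finset.prod_nonneg fun i _ => by
            split_ifs
            · exact zero_le_one
            · exact (TB_r i).le
        have h2 : ∏ i ∈ eᶜ, ∑ s ∈ univ.erase (some j), |TBw j i s (τ i)| ≤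
            (∏ i ∈ eᶜ, (if τ i = none then 1 else (pr i : ℝ) / ((pr i : ℝ) - 1))) *
              (1 + 8 / w) := by
          refine (Finset.prod_le_prod (fun i _ => Finset.sum_nonneg fun s _ => abs_nonneg _)
            fun i _ => TB_x j i (τ i)).trans ?_
          rw [Finset.prod_mul_distrib]
          exact mul_le_mul_of_nonneg_left ((TB_compl e).trans hP.1) hy
        have h3 : (∏ i ∈ eᶜ, ∑ s ∈ univ.erase (some j), |TBw j i s (τ i)|) -
            ∏ i ∈ eᶜ, (if τ i = none then 1 else (pr i : ℝ) / ((pr i : ℝ) - 1)) ≤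
            (∏ i ∈ eᶜ, (if τ i = none then 1 else (pr i : ℝ) / ((pr i : ℝ) - 1))) * (8 / w) := by
          linarith
        have h4 := mul_le_mul_of_nonneg_left h3
          (Finset.prod_nonneg (s := e) fun i _ => abs_nonneg (TBw j i (some j) (τ i)))
        have h5 := TB_main j τ e
        have h6 : (0 : ℝ) ≤ 8 / w := by positivity
        have h7 := mul_le_mul_of_nonneg_right h5 h6
        calc 2 ^ n * K * ((∏ i ∈ e, |TBw j i (some j) (τ i)|) *
              ((∏ i ∈ eᶜ, ∑ s ∈ univ.erase (some j), |TBw j i s (τ i)|) -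
                ∏ i ∈ eᶜ, (if τ i = none then 1 else (pr i : ℝ) / ((pr i : ℝ) - 1))))
            ≤ 2 ^ n * K * (((∏ i ∈ e, qq i) * |sg τ|) * (8 / w)) := by
              refine mul_le_mul_of_nonneg_left ?_ hnK
              linarith
          _ = _ := by ring
      · rw [zero_mul, mul_zero]
    refine (Finset.sum_le_sum fun e _ => e6 e).trans (le_of_eq ?_)
    rw [← Finset.mul_sum]
    unfold GG
    ring
  -- second difference
  have h2 : |∑ σ ∈ D, f σ - sg τ * tm (w := w) (X := X) F M N j u (szs M N τ (o1 j))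
      (szs M N τ (o2 j))| ≤
      |sg τ| * (2 ^ n * K) * GG w X M N ρ * ∑ i ∈ supp τ, qq i := by
    rw [hD, hf, hdiag, ← mul_sub, abs_mul, mul_assoc, mul_assoc]
    refine mul_le_mul_of_nonneg_left ?_ (abs_nonneg _)
    unfold tm
    set A := univ.filter (fun e : Finset (PP w X) => ∀ i ∈ e, τ i = none) with hA
    have e1 := Finset.sum_add_sum_compl A (fun e : Finset (PP w X) => (∏ i ∈ e, qq i) *
      FB F j u (cor j (szs M N τ (o1 j)) (szs M N τ (o2 j)) (ss M N e)))
    rw [← e1, sub_add_cancel_left, abs_neg]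
    refine (Finset.abs_sum_le_sum_abs _ _).trans ?_
    have e2 : ∀ e ∈ Aᶜ, |(∏ i ∈ e, qq i) *
        FB F j u (cor j (szs M N τ (o1 j)) (szs M N τ (o2 j)) (ss M N e))| ≤
        (2 ^ n * K) * ∑ i ∈ supp τ, (if i ∈ e ∧ ss M N e ≤ ρ then ∏ l ∈ e, qq l else 0) := by
      intro e he
      have hqe : 0 ≤ ∏ i ∈ e, qq i := Finset.prod_nonneg fun i _ => (TB_q i).le
      have hnn : ∀ i ∈ supp τ, 0 ≤ (if i ∈ e ∧ ss M N e ≤ ρ then ∏ l ∈ e, qq l else 0) := by
        intro i _
        split_ifs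
        · exact hqe
        · exact le_rfl
      rw [abs_mul, abs_of_nonneg hqe]
      by_cases h3 : ss M N e ≤ ρ
      · rw [mem_compl, hA, mem_filter] at he
        push Not at he
        obtain ⟨i, hi, hτi⟩ := he (mem_univ _)
        have hi' : i ∈ supp τ := by
          rw [supp, mem_filter]
          exact ⟨mem_univ _, hτi⟩
        have h4 := Finset.single_le_sum hnn hi'
        rw [if_pos ⟨hi, h3⟩] at h4
        calc (∏ i ∈ e, qq i) * |FB F j u (cor j (szs M N τ (o1 j)) (szs M N τ (o2 j))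
              (ss M N e))| ≤ (∏ i ∈ e, qq i) * (2 ^ n * K) :=
              mul_le_mul_of_nonneg_left (TB_FB hF j u _) hqe
          _ = 2 ^ n * K * ∏ i ∈ e, qq i := mul_comm _ _
          _ ≤ _ := mul_le_mul_of_nonneg_left h4 hnK
      · rw [TB_zero hF j u hu _ (Or.inl (by
          show ρ < cor j (szs M N τ (o1 j)) (szs M N τ (o2 j)) (ss M N e) j
          unfold cor
          rw [if_pos rfl]
          exact not_le.1 h3)), abs_zero, mul_zero]
        exact mul_nonneg hnK (Finset.sum_nonneg hnn)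
    refine (Finset.sum_le_sum e2).trans ?_
    rw [← Finset.mul_sum]
    refine mul_le_mul_of_nonneg_left ?_ hnK
    refine (Finset.sum_le_sum_of_subset_of_nonneg (Finset.subset_univ _) ?_).trans ?_
    · intro e _ _
      refine Finset.sum_nonneg fun i _ => ?_
      split_ifs
      · exact Finset.prod_nonneg fun i _ => (TB_q i).le
      · exact le_rfl
    · rw [Finset.sum_comm, Finset.mul_sum]
      refine Finset.sum_le_sum fun i _ => ?_
      rw [mul_comm]
      exact TB_inj M N ρ i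
  have h3 := abs_sub_le (tB F M N j u τ) (∑ σ ∈ D, f σ)
    (sg τ * tm (w := w) (X := X) F M N j u (szs M N τ (o1 j)) (szs M N τ (o2 j)))
  rw [mul_add]
  linarith

theorem thm_TB (hSQ : St_SQ) : St_TB := by
  intro ρ K F w X M N j n u hw _ hF hu τ
  refine ⟨?_, ?_, TB_up hSQ hw hF M N j u hu τ, TB_low hSQ hw hF M N j u hu τ⟩
  · rintro ⟨i, hi⟩
    rw [TB_tB]
    refine Finset.sum_eq_zero fun σ _ => ?_
    rw [Finset.prod_eq_zero (mem_univ i), mul_zero]
    rw [hi]
    cases hσi : σ i with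
    | none => exact TB_ns j j i
    | some h' =>
      rw [TB_ss, if_neg]
      rintro ⟨h3, h4⟩
      exact h4 h3
  · intro h
    rw [TB_tB]
    refine Finset.sum_eq_zero fun σ _ => ?_
    by_cases hσ : ∀ i, τ i ≠ none → σ i = τ i
    · have hsub : ∀ g : Fin 3, part τ g ⊆ part σ g := by
        intro g i hi
        rw [part, mem_filter] at hi ⊢
        refine ⟨mem_univ _, ?_⟩
        rw [hσ i (by rw [hi.2]; simp), hi.2]
      rw [TB_zero hF j u hu _ (Or.inr ?_), zero_mul]
      have h1 : szs M N τ (o1 j) ≤ szs M N σ (o1 j) := TB_ssmono M N (hsub _)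
      have h2 : szs M N τ (o2 j) ≤ szs M N σ (o2 j) := TB_ssmono M N (hsub _)
      linarith
    · push Not at hσ
      obtain ⟨i, h1, h2⟩ := hσ
      rw [Finset.prod_eq_zero (mem_univ i), mul_zero]
      obtain ⟨g, hg⟩ := Option.ne_none_iff_exists'.1 h1
      rw [hg] at h2 ⊢
      cases hσi : σ i with
      | none => exact TB_ns j g i
      | some h' =>
        rw [TB_ss, if_neg]
        rintro ⟨h3, -⟩
        exact h2 (by rw [hσi, h3])

end Pool.Agent.PT
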