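import Pool.Agent.PT.StD

set_option autoImplicit false

/-!
# PT / TM

Module of the density block of PT (see the docstring of the statement in `PT/StD.lean`).
-/

namespace Pool.Agent.PT

open Finset Filter Pool.Agent.MT MeasureTheory

private lemma tm_o1 (j : Fin 3) : o1 j ≠ j := by
  fin_cases j <;> simp [o1]

private lemma tm_o2 (j : Fin 3) : o2 j ≠ j := by
  fin_cases j <;> simp [o2]

private lemma tm_o12 (j : Fin 3) : o1 j ≠ o2 j := by
  fin_cases j <;> simp [o1, o2]

private lemma tm_cor_j (j : Fin 3) (a b t : ℝ) : cor j a b t j = t := by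
  simp [cor]

private lemma tm_cor_o1 (j : Fin 3) (a b t : ℝ) : cor j a b t (o1 j) = a := by
  simp [cor, tm_o1 j]

private lemma tm_cor_o2 (j : Fin 3) (a b t : ℝ) : cor j a b t (o2 j) = b := by
  simp [cor, tm_o2 j, (tm_o12 j).symm]

private lemma tm_cases (j i : Fin 3) : i = j ∨ i = o1 j ∨ i = o2 j := by
  fin_cases j <;> fin_cases i <;> simp [o1, o2]

private lemma tm_update (j : Fin 3) (a b t v : ℝ) :
    Function.update (cor j a b t) j (cor j a b t j + v) = cor j a b (t + v) := by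
  funext i
  by_cases hi : i = j
  · subst hi
    rw [Function.update_self, tm_cor_j, tm_cor_j]
  · rw [Function.update_of_ne hi]
    simp only [cor, if_neg hi]

private lemma tm_reg {ρ : ℝ} {j : Fin 3} {a b t : ℝ} (ha : 0 ≤ a) (hb : 0 ≤ b) (hab : a + b ≤ ρ)
    (ht : 0 ≤ t) (ht2 : t ≤ ρ - max a b) : Reg ρ (cor j a b t) := by
  have h1 : t + a ≤ ρ := by
    have := le_max_left a b
    linarith
  have h2 : t + b ≤ ρ := by
    have := le_max_right a b
    linarith
  refine ⟨fun i => ?_, fun i i' hii' => ?_⟩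
  · rcases tm_cases j i with rfl | rfl | rfl
    · rw [tm_cor_j]; exact ht
    · rw [tm_cor_o1]; exact ha
    · rw [tm_cor_o2]; exact hb
  · rcases tm_cases j i with e | e | e <;> rcases tm_cases j i' with e' | e' | e' <;>
      rw [e, e'] at hii' ⊢
    · exact absurd rfl hii'
    · rw [tm_cor_j, tm_cor_o1]; exact h1
    · rw [tm_cor_j, tm_cor_o2]; exact h2
    · rw [tm_cor_j, tm_cor_o1]; linarith
    · exact absurd rfl hii'
    · rw [tm_cor_o1, tm_cor_o2]; exact hab
    · rw [tm_cor_j, tm_cor_o2]; linarith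
    · rw [tm_cor_o1, tm_cor_o2]; linarith
    · exact absurd rfl hii'

private lemma tm_zero {ρ K : ℝ} {F : (Fin 3 → ℝ) → ℝ} (hF : Prof ρ K F) {j : Fin 3} {a b t : ℝ}
    (ht : ρ - max a b < t) : F (cor j a b t) = 0 := by
  refine hF.zero _ fun h => ?_
  have h1 := h.2 j (o1 j) (tm_o1 j).symm
  have h2 := h.2 j (o2 j) (tm_o2 j).symm
  rw [tm_cor_j, tm_cor_o1] at h1
  rw [tm_cor_j, tm_cor_o2] at h2
  rcases max_choice a b with h3 | h3 <;> rw [h3] at ht <;> linarith

private lemma tm_zero' {ρ K : ℝ} {F : (Fin 3 → ℝ) → ℝ} (hF : Prof ρ K F) {j : Fin 3} {a b t : ℝ}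
    (hab : ρ < a + b) : F (cor j a b t) = 0 := by
  refine hF.zero _ fun h => ?_
  have h1 := h.2 (o1 j) (o2 j) (tm_o12 j)
  rw [tm_cor_o1, tm_cor_o2] at h1
  linarith

private lemma tm_int_zero {ρ K : ℝ} {F : (Fin 3 → ℝ) → ℝ} (hF : Prof ρ K F) {j : Fin 3}
    {a b x y : ℝ} (hx : ρ - max a b ≤ x) (hy : ρ - max a b ≤ y) :
    ∫ t in x..y, F (cor j a b t) = 0 := by
  refine intervalIntegral.integral_zero_ae (Filter.Eventually.of_forall fun t ht => ?_)
  rw [Set.uIoc, Set.mem_Ioc] at ht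
  exact tm_zero hF (lt_of_le_of_lt (le_min hx hy) ht.1)

/-- one summand -/
private lemma tm_one (hD1 : St_D1) (hHH : St_HH) (K ε0 : ℝ) (hε0 : 0 < ε0) :
    ∃ ε1 : ℝ, 0 < ε1 ∧ ∀ (ρ : ℝ) (F : (Fin 3 → ℝ) → ℝ) (w X M N : ℕ), 0 < ρ →
      ρ ≤ 1 → Prof ρ K F → 0 < AA w N →
      Dist (fun e : Finset (PP w X) => ∏ i ∈ e, qq i) (ss M N) (AA w N) ε1 ρ →
      ∀ (j : Fin 3) (a b v : ℝ), 0 ≤ v → 0 ≤ a → 0 ≤ b →
        |(∑ e : Finset (PP w X), (∏ i ∈ e, qq i) * F (cor j a b (ss M N e + v))) -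
          AA w N * hh F ρ j a b v| ≤ ε0 * AA w N := by
  obtain ⟨ε1, hε1, h1⟩ := hD1 K ε0 hε0
  refine ⟨ε1, hε1, fun ρ F w X M N hρ hρ1 hF hA hD j a b v hv ha hb => ?_⟩
  have hpos : 0 ≤ ε0 * AA w N := (mul_pos hε0 hA).le
  rcases lt_or_ge ρ (a + b) with hab | hab
  · have e1 : ∑ e : Finset (PP w X), (∏ i ∈ e, qq i) * F (cor j a b (ss M N e + v)) = 0 :=
      Finset.sum_eq_zero fun e _ => by rw [tm_zero' hF hab, mul_zero]
    have e2 : hh F ρ j a b v = 0 := by
      unfold hh
      rw [intervalIntegral.integral_zero_ae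
        (Filter.Eventually.of_forall fun t _ => tm_zero' hF hab)]
    rw [e1, e2, mul_zero, sub_zero, abs_zero]
    exact hpos
  rcases lt_or_ge (ρ - max a b - v) 0 with hτ | hτ
  · have e1 : ∑ e : Finset (PP w X), (∏ i ∈ e, qq i) * F (cor j a b (ss M N e + v)) = 0 := by
      refine Finset.sum_eq_zero fun e _ => ?_
      have h2 : 0 ≤ ss M N e := hD.sn e
      rw [tm_zero hF (by linarith), mul_zero]
    have e2 : hh F ρ j a b v = 0 := by
      refine tm_int_zero hF (by linarith) ?_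
      have := ha.trans (le_max_left a b)
      linarith
    rw [e1, e2, mul_zero, sub_zero, abs_zero]
    exact hpos
  · have hm : 0 ≤ max a b := ha.trans (le_max_left a b)
    have h2 := h1 (Finset (PP w X)) (fun e => ∏ i ∈ e, qq i) (ss M N) (AA w N) ρ hA hρ hρ1 hD
      (ρ - max a b - v) (fun x => F (cor j a b (x + v))) hτ (by linarith)
      (fun x _ _ => hF.bd _)
      (fun x y hx hx' hy hy' => by
        have h3 := hF.lip (cor j a b (x + v)) (cor j a b (y + v))
          (tm_reg ha hb hab (by linarith) (by linarith))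
          (tm_reg ha hb hab (by linarith) (by linarith))
        have h4 : ∑ i, |cor j a b (x + v) i - cor j a b (y + v) i| = |x - y| := by
          rw [Finset.sum_eq_single j]
          · rw [tm_cor_j, tm_cor_j]
            congr 1
            ring
          · intro i _ hi
            simp only [cor, if_neg hi, sub_self, abs_zero]
          · intro h
            exact absurd (Finset.mem_univ j) h
        rw [h4] at h3
        exact h3)
    have e1 : ∫ x in (0 : ℝ)..(ρ - max a b - v), F (cor j a b (x + v)) = hh F ρ j a b v := by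
      rw [intervalIntegral.integral_comp_add_right (fun t => F (cor j a b t))]
      have hI := (hHH ρ K F hρ hρ1 hF j).1 a b
      unfold hh
      have h5 : (0 : ℝ) + v = v := zero_add v
      have h6 : ρ - max a b - v + v = ρ - max a b := by ring
      rw [h5, h6, ← intervalIntegral.integral_add_adjacent_intervals
        (hI v (ρ - max a b) ha hb) (hI (ρ - max a b) ρ ha hb),
        tm_int_zero (x := ρ - max a b) (y := ρ) hF le_rfl (by linarith), add_zero]
    rw [e1] at h2
    have e2 : ∑ e : Finset (PP w X), (∏ i ∈ e, qq i) * F (cor j a b (ss M N e + v)) =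
        ∑ e : Finset (PP w X), if ss M N e ≤ ρ - max a b - v then
          (∏ i ∈ e, qq i) * F (cor j a b (ss M N e + v)) else 0 := by
      refine Finset.sum_congr rfl fun e _ => ?_
      split_ifs with h
      · rfl
      · rw [not_le] at h
        rw [tm_zero hF (by linarith), mul_zero]
    rw [e2]
    exact h2

theorem thm_TM (hD1 : St_D1) (hHH : St_HH) : St_TM := by
  intro K ε hε
  obtain ⟨ε1, hε1, h1⟩ := tm_one hD1 hHH K (ε / 8) (by linarith)
  refine ⟨ε1, hε1, fun ρ F w X M N hρ hρ1 hF hA hD j n u a b hn hu ha hb => ?_⟩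
  have e1 : tm (w := w) (X := X) F M N j u a b = ∑ S : Finset (Fin n), (-1 : ℝ) ^ S.card *
      ∑ e : Finset (PP w X), (∏ i ∈ e, qq i) * F (cor j a b (ss M N e + ∑ i ∈ S, u i)) := by
    unfold tm FB
    simp only [Finset.mul_sum, tm_update]
    rw [Finset.sum_comm]
    refine Finset.sum_congr rfl fun S _ => Finset.sum_congr rfl fun e _ => ?_
    ring
  unfold hB
  rw [e1, Finset.mul_sum, ← Finset.sum_sub_distrib]
  refine (Finset.abs_sum_le_sum_abs _ _).trans ?_
  have h2 : ∀ S ∈ (Finset.univ : Finset (Finset (Fin n))),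
      |(-1 : ℝ) ^ S.card * (∑ e : Finset (PP w X), (∏ i ∈ e, qq i) *
        F (cor j a b (ss M N e + ∑ i ∈ S, u i))) -
        AA w N * ((-1 : ℝ) ^ S.card * hh F ρ j a b (∑ i ∈ S, u i))| ≤ ε / 8 * AA w N := by
    intro S _
    have h3 := h1 ρ F w X M N hρ hρ1 hF hA hD j a b (∑ i ∈ S, u i)
      (Finset.sum_nonneg fun i _ => hu i) ha hb
    have h4 : (-1 : ℝ) ^ S.card * (∑ e : Finset (PP w X), (∏ i ∈ e, qq i) *
        F (cor j a b (ss M N e + ∑ i ∈ S, u i))) -
        AA w N * ((-1 : ℝ) ^ S.card * hh F ρ j a b (∑ i ∈ S, u i)) =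
        (-1 : ℝ) ^ S.card * ((∑ e : Finset (PP w X), (∏ i ∈ e, qq i) *
        F (cor j a b (ss M N e + ∑ i ∈ S, u i))) - AA w N * hh F ρ j a b (∑ i ∈ S, u i)) := by
      ring
    rw [h4, abs_mul, abs_pow, abs_neg, abs_one, one_pow, one_mul]
    exact h3
  refine (Finset.sum_le_sum h2).trans ?_
  rw [Finset.sum_const, Finset.card_univ, Fintype.card_finset, Fintype.card_fin, nsmul_eq_mul]
  have h5 : ((2 ^ n : ℕ) : ℝ) ≤ 8 := by
    have : 2 ^ n ≤ 2 ^ 3 := Nat.pow_le_pow_right (by norm_num) hn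
    exact_mod_cast this
  have h6 : 0 ≤ ε / 8 * AA w N := mul_nonneg (by linarith) hA.le
  calc ((2 ^ n : ℕ) : ℝ) * (ε / 8 * AA w N) ≤ 8 * (ε / 8 * AA w N) :=
        mul_le_mul_of_nonneg_right h5 h6
    _ = ε * AA w N := by ring

end Pool.Agent.PT
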