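import Pool.Agent.PT.D1
import Pool.Agent.PT.D2
import Pool.Agent.PT.D3
import Pool.Agent.PT.DG
import Pool.Agent.PT.DI
import Pool.Agent.PT.DJ
import Pool.Agent.PT.DP
import Pool.Agent.PT.DS
import Pool.Agent.PT.HH
import Pool.Agent.PT.HJ
import Pool.Agent.PT.IB
import Pool.Agent.PT.IJ
import Pool.Agent.PT.IR
import Pool.Agent.PT.IS
import Pool.Agent.PT.Mert
import Pool.Agent.PT.PR
import Pool.Agent.PT.SQ
import Pool.Agent.PT.TB
import Pool.Agent.PT.TM

set_option autoImplicit false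

/-!
# PT / AllD: assembly of the density block
-/

namespace Pool.Agent.PT

theorem alld_D2 : St_D2 := thm_D2 thm_D1

theorem alld_TM : St_TM := thm_TM thm_D1 thm_HH

theorem alld_TB : St_TB := thm_TB thm_SQ

theorem alld_DP (hDG : St_DG) : St_DP := thm_DP (thm_DS hDG) thm_SQ

theorem alld_S1 (hDG : St_DG) : St_S1 :=
  thm_S1 thm_DI (alld_DP hDG) (thm_D3 thm_D1 alld_D2)

theorem alld_tB (hDG : St_DG) : St_tB := thm_tB alld_TB (thm_DS hDG)

theorem alld_J (hDG : St_DG) : St_J :=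
  thm_J alld_TB alld_TM (thm_DS hDG) (alld_DP hDG) alld_D2 thm_HH thm_DJ thm_PR thm_SQ

theorem S1_holds : St_S1 := alld_S1 thm_DG

theorem tB_holds : St_tB := alld_tB thm_DG

theorem J_holds : St_J := alld_J thm_DG

theorem R_holds : St_R := thm_R (thm_HJ thm_HH)

end Pool.Agent.PT
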