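import Pool.Agent.PT.Stmts
import Pool.Agent.PT.CBd

set_option autoImplicit false

/-!
# PT / Cfg

The configuration of a box: the weight at `a` is, up to terms with a factor `1/p`, `p` a prime
factor of `a + sh j`, the weight with the profile `FB` at the configuration with `j` deleted.
-/

namespace Pool.Agent.PT

open Finset Filter Pool.Agent.MT

/-! ### One-prime factors -/

/-- the one-prime factors with sign -/
noncomputable def cfgF {w X : ℕ} (Z : PP w X → Option (Fin 3)) (i : PP w X)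
    (s : Option (Fin 3)) : ℝ :=
  (if s ≠ none then -((pr i : ℝ) / ((pr i : ℝ) - 1)) else 1) * bas (bb i) s (Z i)

lemma cfg_comb {w X : ℕ} (G : (Fin 3 → ℝ) → ℝ) (M N : ℕ) (Z : PP w X → Option (Fin 3)) :
    comb bb (cc G M N) Z = ∑ σ : PP w X → Option (Fin 3),
      G (szs M N σ) * ∏ i, cfgF Z i (σ i) := by
  unfold comb
  refine Finset.sum_congr rfl fun σ _ => ?_
  unfold cc cfgF
  rw [Finset.prod_mul_distrib, mul_assoc]
  congr 2
  unfold sg supp
  rw [Finset.prod_filter]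

lemma cfg_none {w X : ℕ} (Z : PP w X → Option (Fin 3)) (i : PP w X) : cfgF Z i none = 1 := by
  unfold cfgF
  rw [if_neg (by simp)]
  show 1 * (1 : ℝ) = 1
  simp

lemma cfg_same {w X : ℕ} (Z : PP w X → Option (Fin 3)) (i : PP w X) (h : Fin 3)
    (hz : Z i = some h) : cfgF Z i (some h) = -1 := by
  have hp := cbd_pr i
  have hp1 : (0 : ℝ) < (pr i : ℝ) - 1 := by linarith
  have hp0 : (0 : ℝ) < (pr i : ℝ) := by linarith
  unfold cfgF
  rw [if_pos (by simp)]
  show _ * ((if Z i = some h then (1 : ℝ) else 0) - bb i) = _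
  rw [if_pos hz]
  unfold bb
  field_simp

lemma cfg_abs {w X : ℕ} (Z : PP w X → Option (Fin 3)) (i : PP w X) (s : Option (Fin 3)) :
    |cfgF Z i s| = cbdG Z i s := by
  have hp := cbd_pr i
  have hp1 : (0 : ℝ) < (pr i : ℝ) - 1 := by linarith
  unfold cfgF cbdG
  rw [abs_mul]
  congr 1
  split_ifs
  · rw [abs_neg, abs_of_nonneg (by positivity)]
  · exact abs_one

lemma cfg_diff {w X : ℕ} (Z : PP w X → Option (Fin 3)) (i : PP w X) (h : Fin 3)
    (hz : Z i ≠ some h) : cbdG Z i (some h) = qq i := by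
  have hp := cbd_pr i
  have hp1 : (0 : ℝ) < (pr i : ℝ) - 1 := by linarith
  have hp0 : (0 : ℝ) < (pr i : ℝ) := by linarith
  unfold cbdG
  rw [if_pos (by simp)]
  show _ * |(if Z i = some h then (1 : ℝ) else 0) - bb i| = _
  rw [if_neg hz]
  unfold bb qq
  rw [zero_sub, abs_neg, abs_of_nonneg (by positivity)]
  field_simp

lemma cfg_nonneg {w X : ℕ} (Z : PP w X → Option (Fin 3)) (i : PP w X) (s : Option (Fin 3)) :
    0 ≤ cbdG Z i s := by
  rw [← cfg_abs]
  exact abs_nonneg _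

/-! ### The error terms -/

lemma cfg_pair {w X : ℕ} (Z : PP w X → Option (Fin 3)) (T : PP w X → ℝ)
    (hT : ∀ i, ∑ s, cbdG Z i s ≤ T i) (hT1 : ∀ i, 1 ≤ T i) (ε : ℝ) (i0 : PP w X) (h0 : Fin 3)
    (hε : cbdG Z i0 (some h0) ≤ ε) :
    ∑ σ : PP w X → Option (Fin 3), (if σ i0 = some h0 then ∏ i, cbdG Z i (σ i) else 0) ≤
      ε * ∏ i, T i := by
  have hε0 : 0 ≤ ε := (cfg_nonneg Z i0 _).trans hε
  have h1 : ∀ σ : PP w X → Option (Fin 3),
      (if σ i0 = some h0 then ∏ i, cbdG Z i (σ i) else 0) =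
      ∏ i, (if i = i0 then (if σ i = some h0 then cbdG Z i (σ i) else 0)
        else cbdG Z i (σ i)) := by
    intro σ
    split_ifs with hs
    · refine Finset.prod_congr rfl fun i _ => ?_
      by_cases hi : i = i0
      · subst hi
        rw [if_pos rfl, if_pos hs]
      · rw [if_neg hi]
    · symm
      refine Finset.prod_eq_zero (Finset.mem_univ i0) ?_
      rw [if_pos rfl, if_neg hs]
  rw [Finset.sum_congr rfl fun σ _ => h1 σ]
  have h2 : ∑ σ : PP w X → Option (Fin 3), ∏ i, (if i = i0 then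
      (if σ i = some h0 then cbdG Z i (σ i) else 0) else cbdG Z i (σ i)) =
      ∏ i, ∑ s : Option (Fin 3), (if i = i0 then (if s = some h0 then cbdG Z i s else 0)
        else cbdG Z i s) := by
    rw [Finset.prod_univ_sum, Fintype.piFinset_univ]
  rw [h2]
  have h3 : ε * ∏ i, T i = ∏ i, ((if i = i0 then ε else 1) * T i) := by
    rw [Finset.prod_mul_distrib, Finset.prod_ite_eq' Finset.univ i0, if_pos (Finset.mem_univ _)]
  rw [h3]
  refine Finset.prod_le_prod (fun i _ => Finset.sum_nonneg fun s _ => ?_) fun i _ => ?_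
  · split_ifs
    · exact cfg_nonneg Z i s
    · exact le_refl _
    · exact cfg_nonneg Z i s
  · by_cases hi : i = i0
    · subst hi
      simp only [if_true]
      rw [Finset.sum_ite_eq' Finset.univ (some h0), if_pos (Finset.mem_univ _)]
      exact hε.trans (le_mul_of_one_le_right hε0 (hT1 i))
    · simp only [if_neg hi, one_mul]
      exact hT i

lemma cfg_bad {w X : ℕ} (Z : PP w X → Option (Fin 3)) (T : PP w X → ℝ)
    (hT : ∀ i, ∑ s, cbdG Z i s ≤ T i) (hT1 : ∀ i, 1 ≤ T i) (ε : ℝ)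
    (B : Finset (PP w X × Fin 3)) (hB : ∀ p ∈ B, cbdG Z p.1 (some p.2) ≤ ε)
    (bad : Finset (PP w X → Option (Fin 3)))
    (hbad : ∀ σ ∈ bad, ∃ p ∈ B, σ p.1 = some p.2) :
    ∑ σ ∈ bad, ∏ i, cbdG Z i (σ i) ≤ B.card * (ε * ∏ i, T i) := by
  have h0 : ∀ σ : PP w X → Option (Fin 3), 0 ≤ ∏ i, cbdG Z i (σ i) := fun σ =>
    Finset.prod_nonneg fun i _ => cfg_nonneg Z i _
  have h1 : ∑ σ ∈ bad, ∏ i, cbdG Z i (σ i) ≤
      ∑ σ : PP w X → Option (Fin 3), ∑ p ∈ B,
        (if σ p.1 = some p.2 then ∏ i, cbdG Z i (σ i) else 0) := by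
    refine le_trans (Finset.sum_le_sum fun σ hσ => ?_)
      (Finset.sum_le_sum_of_subset_of_nonneg (Finset.subset_univ bad) fun σ _ _ =>
        Finset.sum_nonneg fun p _ => ?_)
    · obtain ⟨p, hp, hps⟩ := hbad σ hσ
      refine le_trans (le_of_eq ?_) (Finset.single_le_sum (f := fun p : PP w X × Fin 3 =>
        (if σ p.1 = some p.2 then ∏ i, cbdG Z i (σ i) else 0)) (fun p _ => ?_) hp)
      · rw [if_pos hps]
      · split_ifs
        · exact h0 σ
        · exact le_refl _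
    · split_ifs
      · exact h0 σ
      · exact le_refl _
  refine h1.trans ?_
  rw [Finset.sum_comm, ← nsmul_eq_mul]
  exact Finset.sum_le_card_nsmul _ _ _ fun p hp => cfg_pair Z T hT hT1 ε p.1 p.2 (hB p hp)

/-! ### The main terms -/

/-- insert the value `j` on `S` -/
def cfgJ {w X : ℕ} (j : Fin 3) (τ : PP w X → Option (Fin 3)) (S : Finset (PP w X)) :
    PP w X → Option (Fin 3) := fun i => if i ∈ S then some j else τ i

lemma cfg_part {w X : ℕ} (σ : PP w X → Option (Fin 3)) (h : Fin 3) (i : PP w X) :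
    i ∈ part σ h ↔ σ i = some h := by
  unfold part
  rw [mem_filter]
  exact ⟨fun e => e.2, fun e => ⟨mem_univ _, e⟩⟩

lemma cfg_J {w X : ℕ} (j : Fin 3) (τ : PP w X → Option (Fin 3)) (S : Finset (PP w X))
    (i : PP w X) : cfgJ j τ S i = if i ∈ S then some j else τ i := rfl

lemma cfg_szs {w X : ℕ} (M N : ℕ) (j : Fin 3) (τ : PP w X → Option (Fin 3))
    (S : Finset (PP w X)) (hS : ∀ i ∈ S, τ i = none) :
    szs M N (cfgJ j τ S) = Function.update (szs M N τ) j (szs M N τ j + ss M N S) := by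
  funext h
  by_cases hh : h = j
  · subst hh
    rw [Function.update_self]
    unfold szs
    have h1 : part (cfgJ h τ S) h = part τ h ∪ S := by
      ext i
      rw [mem_union, cfg_part, cfg_part, cfg_J]
      by_cases hi : i ∈ S
      · simp [hi]
      · simp [hi]
    have h2 : Disjoint (part τ h) S := by
      rw [Finset.disjoint_left]
      intro i hi1 hi2
      rw [cfg_part, hS i hi2] at hi1
      exact absurd hi1 (by simp)
    rw [h1]
    unfold ss
    rw [Finset.sum_union h2]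
  · rw [Function.update_of_ne hh]
    unfold szs
    have h1 : part (cfgJ j τ S) h = part τ h := by
      ext i
      rw [cfg_part, cfg_part, cfg_J]
      by_cases hi : i ∈ S
      · rw [if_pos hi, hS i hi]
        simp only [Option.some.injEq, reduceCtorEq, iff_false]
        exact fun e => hh e.symm
      · rw [if_neg hi]
    rw [h1]

lemma cfg_prod {w X : ℕ} (j : Fin 3) (Y τ : PP w X → Option (Fin 3))
    (S : Finset (PP w X)) (hS : ∀ i ∈ S, Y i = some j)
    (hτ : ∀ i, Y i = some j → τ i = none) :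
    ∏ i, cfgF Y i (cfgJ j τ S i) = (-1 : ℝ) ^ S.card * ∏ i, cfgF (dl j Y) i (τ i) := by
  have h1 : ∀ i, cfgF Y i (cfgJ j τ S i) =
      (if i ∈ S then (-1 : ℝ) else 1) * cfgF (dl j Y) i (τ i) := by
    intro i
    unfold cfgJ
    by_cases hi : i ∈ S
    · rw [if_pos hi, if_pos hi, cfg_same Y i j (hS i hi), hτ i (hS i hi), cfg_none]
      ring
    · rw [if_neg hi, if_neg hi, one_mul]
      by_cases hy : Y i = some j
      · rw [hτ i hy, cfg_none, cfg_none]
      · have h2 : dl j Y i = Y i := by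
          unfold dl
          rw [if_neg hy]
        unfold cfgF
        rw [h2]
  rw [Finset.prod_congr rfl fun i _ => h1 i, Finset.prod_mul_distrib]
  congr 1
  rw [Finset.prod_ite_mem, Finset.univ_inter, Finset.prod_const]

lemma cfg_main {w X : ℕ} (F G : (Fin 3 → ℝ) → ℝ) (M N : ℕ) (j : Fin 3)
    (Y : PP w X → Option (Fin 3)) (E : Finset (PP w X)) (hE : ∀ i, i ∈ E ↔ Y i = some j)
    (hG : ∀ τ : PP w X → Option (Fin 3),
      ∑ S ∈ E.powerset, (-1 : ℝ) ^ S.card *
        F (Function.update (szs M N τ) j (szs M N τ j + ss M N S)) = G (szs M N τ)) :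
    ∑ σ ∈ univ.filter (fun σ : PP w X → Option (Fin 3) => ∀ i ∈ E, σ i = none ∨ σ i = some j),
      F (szs M N σ) * ∏ i, cfgF Y i (σ i) =
    ∑ τ ∈ univ.filter (fun τ : PP w X → Option (Fin 3) => ∀ i ∈ E, τ i = none),
      G (szs M N τ) * ∏ i, cfgF (dl j Y) i (τ i) := by
  have h1 : ∀ τ ∈ univ.filter (fun τ : PP w X → Option (Fin 3) => ∀ i ∈ E, τ i = none),
      G (szs M N τ) * ∏ i, cfgF (dl j Y) i (τ i) =
      ∑ S ∈ E.powerset, F (szs M N (cfgJ j τ S)) * ∏ i, cfgF Y i (cfgJ j τ S i) := by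
    intro τ hτ
    rw [mem_filter] at hτ
    rw [← hG τ, Finset.sum_mul]
    refine Finset.sum_congr rfl fun S hS => ?_
    rw [Finset.mem_powerset] at hS
    rw [cfg_szs M N j τ S fun i hi => hτ.2 i (hS hi),
      cfg_prod j Y τ S (fun i hi => (hE i).1 (hS hi)) fun i hi => hτ.2 i ((hE i).2 hi)]
    ring
  rw [Finset.sum_congr rfl h1, ← Finset.sum_product']
  symm
  refine Finset.sum_nbij' (fun p => cfgJ j p.1 p.2)
    (fun σ => ((fun i => if i ∈ E then none else σ i), E.filter (fun i => σ i = some j)))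
    ?_ ?_ ?_ ?_ ?_
  · rintro ⟨τ, S⟩ hp
    rw [mem_product, mem_filter, mem_powerset] at hp
    rw [mem_filter]
    refine ⟨mem_univ _, fun i hi => ?_⟩
    unfold cfgJ
    dsimp only
    by_cases hs : i ∈ S
    · rw [if_pos hs]; exact Or.inr rfl
    · rw [if_neg hs]; exact Or.inl (hp.1.2 i hi)
  · intro σ hσ
    rw [mem_filter] at hσ
    rw [mem_product, mem_filter, mem_powerset]
    refine ⟨⟨mem_univ _, fun i hi => ?_⟩, Finset.filter_subset _ _⟩
    dsimp only
    rw [if_pos hi]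
  · rintro ⟨τ, S⟩ hp
    rw [mem_product, mem_filter, mem_powerset] at hp
    dsimp only at hp
    refine Prod.ext ?_ ?_
    · funext i
      dsimp only
      by_cases hi : i ∈ E
      · rw [if_pos hi, hp.1.2 i hi]
      · rw [if_neg hi]
        unfold cfgJ
        rw [if_neg fun hs => hi (hp.2 hs)]
    · ext i
      dsimp only
      rw [mem_filter]
      unfold cfgJ
      constructor
      · rintro ⟨hi, h2⟩
        by_contra hs
        rw [if_neg hs, hp.1.2 i hi] at h2
        exact absurd h2 (by simp)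
      · intro hs
        exact ⟨hp.2 hs, by rw [if_pos hs]⟩
  · intro σ hσ
    rw [mem_filter] at hσ
    funext i
    unfold cfgJ
    dsimp only
    by_cases hi : i ∈ E
    · rcases hσ.2 i hi with h2 | h2
      · rw [if_neg (by rw [mem_filter]; rintro ⟨-, h3⟩; rw [h2] at h3; exact absurd h3 (by simp)),
          if_pos hi, h2]
      · rw [if_pos (by rw [mem_filter]; exact ⟨hi, h2⟩), h2]
    · rw [if_neg (by rw [mem_filter]; exact fun h3 => hi h3.1), if_neg hi]
  · rintro ⟨τ, S⟩ _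
    rfl

/-! ### The signed sums -/

lemma cfg_pow {α : Type} [DecidableEq α] (E : Finset α) (g : α → ℕ) (hg : Function.Injective g)
    (Φ : ℕ → ℝ → ℝ) (s : ℕ → ℝ) :
    ∑ S ∈ E.powerset, Φ S.card (∑ i ∈ S, s (g i)) =
      ∑ Q ∈ (E.image g).powerset, Φ Q.card (∑ q ∈ Q, s q) := by
  rw [Finset.powerset_image, Finset.sum_image]
  · refine Finset.sum_congr rfl fun S _ => ?_
    rw [Finset.card_image_of_injective _ hg, Finset.sum_image fun _ _ _ _ h => hg h]
  · intro S _ S' _ h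
    exact Finset.image_injective hg h

lemma cfg_sz_nonneg (M N p : ℕ) : 0 ≤ sz M N p := by
  unfold sz
  split_ifs
  · exact div_nonneg (Real.log_natCast_nonneg _) (Real.log_natCast_nonneg _)
  · positivity

lemma cfg_szs_nonneg {w X : ℕ} (M N : ℕ) (τ : PP w X → Option (Fin 3)) (h : Fin 3) :
    0 ≤ szs M N τ h := by
  unfold szs ss
  exact Finset.sum_nonneg fun i _ => cfg_sz_nonneg _ _ _

lemma cfg_vanish {ρ K : ℝ} {F : (Fin 3 → ℝ) → ℝ} (hF : Prof ρ K F) (j : Fin 3) (x : Fin 3 → ℝ)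
    (hx : ∀ i, 0 ≤ x i) (t : ℝ) (ht : ρ < t) : F (Function.update x j (x j + t)) = 0 := by
  refine hF.zero _ fun hR => ?_
  obtain ⟨i, hi⟩ : ∃ i : Fin 3, i ≠ j := exists_ne j
  have h1 := hR.2 i j hi
  rw [Function.update_self, Function.update_of_ne hi] at h1
  linarith [hx i, hx j]

/-- the signed sum over the sieving primes in the box is the profile of the box -/
lemma cfg_sum {w X : ℕ} {ρ K : ℝ} {F : (Fin 3 → ℝ) → ℝ} (hF : Prof ρ K F) (M N : ℕ) (j : Fin 3)
    {n : ℕ} (u : Fin n → ℝ) (p : Fin n → ℕ) (hp : Function.Injective p) (hu : ∀ l, 0 ≤ u l)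
    (E : Finset (PP w X)) (hE : ∀ i, i ∈ E ↔ ∃ l, p l = pr i)
    (hsz : ∀ l, sz M N (p l) = u l) (hbig : ∀ l, (∃ i : PP w X, pr i = p l) ∨ ρ < u l)
    (x : Fin 3 → ℝ) (hx : ∀ i, 0 ≤ x i) :
    ∑ S ∈ E.powerset, (-1 : ℝ) ^ S.card * F (Function.update x j (x j + ss M N S)) =
      FB F j u x := by
  classical
  set I : Finset (Fin n) := univ.filter (fun l => ∃ i : PP w X, pr i = p l) with hI
  have h1 : FB F j u x = ∑ S ∈ I.powerset,
      (-1 : ℝ) ^ S.card * F (Function.update x j (x j + ∑ i ∈ S, u i)) := by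
    unfold FB
    symm
    refine Finset.sum_subset (Finset.subset_univ _) fun S _ hS => ?_
    rw [Finset.mem_powerset, Finset.not_subset] at hS
    obtain ⟨l, hl, hlI⟩ := hS
    have h2 : ρ < u l := by
      rcases hbig l with h3 | h3
      · exact absurd (by rw [hI, mem_filter]; exact ⟨mem_univ _, h3⟩) hlI
      · exact h3
    have h3 : u l ≤ ∑ i ∈ S, u i := Finset.single_le_sum (fun i _ => hu i) hl
    rw [cfg_vanish hF j x hx _ (lt_of_lt_of_le h2 h3), mul_zero]
  rw [h1]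
  have hpr : Function.Injective (pr : PP w X → ℕ) := Subtype.val_injective
  have h4 := cfg_pow E pr hpr
    (fun c s => (-1 : ℝ) ^ c * F (Function.update x j (x j + s))) (sz M N)
  have h5 := cfg_pow I p hp
    (fun c s => (-1 : ℝ) ^ c * F (Function.update x j (x j + s))) (sz M N)
  have h6 : E.image pr = I.image p := by
    ext q
    rw [mem_image, mem_image]
    constructor
    · rintro ⟨i, hi, rfl⟩
      obtain ⟨l, hl⟩ := (hE i).1 hi
      exact ⟨l, by rw [hI, mem_filter]; exact ⟨mem_univ _, i, hl.symm⟩, hl⟩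
    · rintro ⟨l, hl, rfl⟩
      rw [hI, mem_filter] at hl
      obtain ⟨i, hi⟩ := hl.2
      exact ⟨i, (hE i).2 ⟨l, hi.symm⟩, hi⟩
  unfold ss
  rw [h4, h6, ← h5]
  simp only [hsz]

/-! ### Arithmetic -/

/-- the data of a box: the small primes `p l` and the large prime -/
lemma cfg_box {ρ : ℝ} {M N m n : ℕ} (hM : 1 ≤ M) (hN : 1 < N)
    (h8 : (8 : ℝ) < (N : ℝ) ^ (1 / (M : ℝ))) (hm : N < 8 * m) {k : Fin n → ℕ}
    (hk : BoxOK ρ M k) (hb : bz k M N m ≠ 0) :
    ∃ (p : Fin n → ℕ) (q : ℕ), (∀ l, (p l).Prime) ∧ q.Prime ∧ m = (∏ l, p l) * q ∧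
      StrictMono p ∧ (∀ l, (N : ℝ) ^ ((k l : ℝ) / M) < p l ∧
        (p l : ℝ) ≤ (N : ℝ) ^ (((k l : ℝ) + 1) / M)) ∧ (N : ℝ) ^ ρ < q := by
  classical
  have hN' : (1 : ℝ) < N := by exact_mod_cast hN
  have hN0 : (0 : ℝ) < N := by linarith
  have hM' : (0 : ℝ) < M := by exact_mod_cast hM
  have hex : ∃ (p : Fin n → ℕ) (q : ℕ), (∀ l, (p l).Prime) ∧ q.Prime ∧ m = (∏ l, p l) * q ∧
      (∀ l, (N : ℝ) ^ ((k l : ℝ) / M) < p l ∧
        (p l : ℝ) ≤ (N : ℝ) ^ (((k l : ℝ) + 1) / M)) := by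
    by_cases hn : n = 0
    · subst hn
      unfold bz at hb
      rw [if_pos rfl] at hb
      split_ifs at hb with hprime
      · exact ⟨fun l => l.elim0, m, fun l => l.elim0, hprime, by simp, fun l => l.elim0⟩
      · exact absurd rfl hb
    · unfold bz bx BB at hb
      rw [if_neg hn] at hb
      obtain ⟨a', ha', h2⟩ := Finset.exists_ne_zero_of_sum_ne_zero hb
      have h3 : al k M N a' ≠ 0 := left_ne_zero_of_mul h2
      have h4 : (if (m / a').Prime then (1 : ℝ) else 0) ≠ 0 := right_ne_zero_of_mul h2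
      have h5 : (m / a').Prime := by
        by_contra hc
        rw [if_neg hc] at h4
        exact h4 rfl
      unfold al at h3
      split_ifs at h3 with hex
      · obtain ⟨p, hp, hap⟩ := hex
        refine ⟨p, m / a', fun l => (hp l).1, h5, ?_, fun l => (hp l).2⟩
        rw [← hap]
        exact (Nat.mul_div_cancel' (Nat.dvd_of_mem_divisors ha')).symm
      · exact absurd rfl h3
  obtain ⟨p, q, hp1, hq, hmq, hp2⟩ := hex
  obtain ⟨hk1, -, -, hk4⟩ := hk
  refine ⟨p, q, hp1, hq, hmq, ?_, hp2, ?_⟩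
  · intro i j hij
    have h1 : k i < k j := hk1 hij
    have h2 : (k i : ℝ) + 1 ≤ k j := by exact_mod_cast h1
    have h3 : (N : ℝ) ^ (((k i : ℝ) + 1) / M) ≤ (N : ℝ) ^ ((k j : ℝ) / M) :=
      Real.rpow_le_rpow_of_exponent_le hN'.le (div_le_div_of_nonneg_right h2 hM'.le)
    have h4 : (p i : ℝ) < p j := lt_of_le_of_lt ((hp2 i).2.trans h3) (hp2 j).1
    exact_mod_cast h4
  · set S : ℝ := ∑ l, ((k l : ℝ) + 1) / M with hS
    have haS : ((∏ l, p l : ℕ) : ℝ) ≤ (N : ℝ) ^ S := by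
      rw [hS, Nat.cast_prod, Real.rpow_sum_of_pos hN0]
      exact prod_le_prod (fun i _ => Nat.cast_nonneg _) (fun i _ => (hp2 i).2)
    by_contra hcon
    push Not at hcon
    have h2 : (N : ℝ) < 8 * (((∏ l, p l : ℕ) : ℝ) * (q : ℝ)) := by
      have : (N : ℝ) < 8 * (m : ℝ) := by exact_mod_cast hm
      rw [← Nat.cast_mul, ← hmq]
      exact this
    have h3 : ((∏ l, p l : ℕ) : ℝ) * (q : ℝ) ≤ (N : ℝ) ^ S * (N : ℝ) ^ ρ :=
      mul_le_mul haS hcon (Nat.cast_nonneg _) (Real.rpow_nonneg hN0.le _)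
    have h4 : 0 < (N : ℝ) ^ S * (N : ℝ) ^ ρ :=
      mul_pos (Real.rpow_pos_of_pos hN0 _) (Real.rpow_pos_of_pos hN0 _)
    have h5 : (N : ℝ) < (N : ℝ) ^ (1 / (M : ℝ)) * ((N : ℝ) ^ S * (N : ℝ) ^ ρ) := by
      refine lt_trans (lt_of_lt_of_le h2 (mul_le_mul_of_nonneg_left h3 (by norm_num))) ?_
      exact mul_lt_mul_of_pos_right h8 h4
    rw [← Real.rpow_add hN0, ← Real.rpow_add hN0] at h5
    have h7 : (N : ℝ) ^ (1 / (M : ℝ) + (S + ρ)) ≤ (N : ℝ) ^ (1 : ℝ) :=
      Real.rpow_le_rpow_of_exponent_le hN'.le (by linarith)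
    rw [Real.rpow_one] at h7
    exact absurd (lt_of_lt_of_le h5 h7) (lt_irrefl _)

/-- the size of a prime in a cell -/
lemma cfg_size {M N k p : ℕ} (hM : 1 ≤ M) (hN : 1 < N) (hk : (M : ℝ) / 1000 ≤ k)
    (h1 : (N : ℝ) ^ ((k : ℝ) / M) < p) (h2 : (p : ℝ) ≤ (N : ℝ) ^ (((k : ℝ) + 1) / M)) :
    (N : ℝ) ^ (1 / 1000 : ℝ) < p ∧ sz M N p = ((k : ℝ) + 1) / M := by
  have hN' : (1 : ℝ) < N := by exact_mod_cast hN
  have hN0 : (0 : ℝ) < N := by linarith
  have hM' : (0 : ℝ) < M := by exact_mod_cast hM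
  have hL : 0 < Real.log N := Real.log_pos hN'
  have h3 : (N : ℝ) ^ (1 / 1000 : ℝ) ≤ (N : ℝ) ^ ((k : ℝ) / M) := by
    refine Real.rpow_le_rpow_of_exponent_le hN'.le ?_
    rw [le_div_iff₀ hM']
    linarith
  have h4 : (N : ℝ) ^ (1 / 1000 : ℝ) < p := lt_of_le_of_lt h3 h1
  have hp0 : (0 : ℝ) < p := lt_trans (Real.rpow_pos_of_pos hN0 _) h4
  refine ⟨h4, ?_⟩
  unfold sz
  rw [if_neg (not_le.2 h4)]
  have h5 : (k : ℝ) / M * Real.log N < Real.log p := by
    rw [← Real.log_rpow hN0]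
    exact Real.log_lt_log (Real.rpow_pos_of_pos hN0 _) h1
  have h6 : Real.log p ≤ ((k : ℝ) + 1) / M * Real.log N := by
    rw [← Real.log_rpow hN0]
    exact Real.log_le_log hp0 h2
  have h7 : ⌈(M : ℝ) * (Real.log p / Real.log N)⌉₊ = k + 1 := by
    rw [Nat.ceil_eq_iff (Nat.succ_ne_zero k)]
    constructor
    · rw [Nat.succ_sub_one]
      rw [div_mul_eq_mul_div, div_lt_iff₀ hM'] at h5
      rw [mul_div_assoc', lt_div_iff₀ hL]
      linarith
    · push_cast
      rw [div_mul_eq_mul_div, le_div_iff₀ hM'] at h6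
      rw [mul_div_assoc', div_le_iff₀ hL]
      linarith
  rw [h7]
  push_cast
  rfl

theorem thm_Cfg : St_Cfg := by
  classical
  intro ρ K F hρ0 hρ1 hK hF
  refine ⟨162 * K, by positivity, fun sh hsh w hw hshw M hM => ?_⟩
  have hM' : (0 : ℝ) < M := by exact_mod_cast hM
  have e1 : ∀ᶠ N : ℕ in atTop, (8 : ℝ) < (N : ℝ) ^ (1 / (M : ℝ)) :=
    ((tendsto_rpow_atTop (by positivity : (0 : ℝ) < 1 / (M : ℝ))).comp
      tendsto_natCast_atTop_atTop).eventually_gt_atTop 8
  have e2 : ∀ᶠ N : ℕ in atTop, (w : ℝ) < (N : ℝ) ^ (1 / 1000 : ℝ) :=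
    ((tendsto_rpow_atTop (by norm_num : (0 : ℝ) < 1 / 1000)).comp
      tendsto_natCast_atTop_atTop).eventually_gt_atTop (w : ℝ)
  filter_upwards [e1, e2, eventually_gt_atTop 1] with N h8 hwN hN n hn k hk j a ha1 ha2 hb
  have hN' : (1 : ℝ) < N := by exact_mod_cast hN
  have hN0 : (0 : ℝ) < N := by linarith
  obtain ⟨p, q, hp1, hq, hmq, hpm, hp2, hqρ⟩ := cfg_box hM hN h8 ha1 hk hb
  have hsize : ∀ l, (N : ℝ) ^ (1 / 1000 : ℝ) < p l ∧ sz M N (p l) = uu k M l := fun l =>
    cfg_size hM hN (hk.2.1 l) (hp2 l).1 (hp2 l).2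
  -- the configuration
  set Y : PP w (XR ρ N) → Option (Fin 3) := YY pr sh a with hY
  have hi_pr : ∀ i : PP w (XR ρ N), (pr i).Prime ∧ w < pr i ∧ pr i ≤ XR ρ N := by
    intro i
    have h := i.2
    rw [mem_filter, mem_Ioc] at h
    exact ⟨h.2, h.1.1, h.1.2⟩
  have hlt : ∀ (i : PP w (XR ρ N)) (h : Fin 3), sh h < pr i := fun i h =>
    lt_of_le_of_lt (hshw h) (hi_pr i).2.1
  have hYj : ∀ i : PP w (XR ρ N), Y i = some j ↔ ∃ l, p l = pr i := by
    intro i
    rw [hY, YY_eq_some pr sh hsh hlt a i j, hmq]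
    constructor
    · intro hd
      rcases ((hi_pr i).1.dvd_mul).1 hd with h1 | h1
      · obtain ⟨l, -, hl⟩ := ((hi_pr i).1.prime.dvd_finsetProd_iff _).1 h1
        exact ⟨l, ((Nat.prime_dvd_prime_iff_eq (hi_pr i).1 (hp1 l)).1 hl).symm⟩
      · exfalso
        have h2 := (Nat.prime_dvd_prime_iff_eq (hi_pr i).1 hq).1 h1
        have h3 : (pr i : ℝ) ≤ (N : ℝ) ^ ρ :=
          le_trans (by exact_mod_cast (hi_pr i).2.2)
            (Nat.floor_le (Real.rpow_nonneg hN0.le ρ))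
        rw [h2] at h3
        linarith
    · rintro ⟨l, hl⟩
      rw [← hl]
      exact Dvd.dvd.mul_right (Finset.dvd_prod_of_mem _ (mem_univ l)) _
  set E : Finset (PP w (XR ρ N)) := univ.filter (fun i => Y i = some j) with hE
  have hE' : ∀ i, i ∈ E ↔ Y i = some j := fun i => by
    rw [hE, mem_filter]
    exact ⟨fun e => e.2, fun e => ⟨mem_univ _, e⟩⟩
  have hEl : ∀ i, i ∈ E ↔ ∃ l, p l = pr i := fun i => (hE' i).trans (hYj i)
  have hEcard : E.card ≤ 3 := by
    have h1 : E.image pr ⊆ (univ : Finset (Fin n)).image p := by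
      intro x hx
      rw [mem_image] at hx ⊢
      obtain ⟨i, hi, rfl⟩ := hx
      obtain ⟨l, hl⟩ := (hEl i).1 hi
      exact ⟨l, mem_univ _, hl⟩
    have h2 := Finset.card_le_card h1
    rw [Finset.card_image_of_injective E
      (show Function.Injective (pr : PP w (XR ρ N) → ℕ) from Subtype.val_injective)] at h2
    refine h2.trans (Finset.card_image_le.trans ?_)
    rw [Finset.card_univ, Fintype.card_fin]
    exact hn
  -- the bound for `q`
  set ε : ℝ := 2 * (N : ℝ) ^ (-(1 / 1000) : ℝ) with hε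
  have hqε : ∀ i ∈ E, qq i ≤ ε := by
    intro i hi
    obtain ⟨l, hl⟩ := (hEl i).1 hi
    have h1 := (hsize l).1
    rw [hl] at h1
    have h2 := cbd_pr i
    have h3 : 0 < (N : ℝ) ^ (1 / 1000 : ℝ) := Real.rpow_pos_of_pos hN0 _
    unfold qq
    rw [hε, Real.rpow_neg hN0.le, ← div_eq_mul_inv, div_le_div_iff₀ (by linarith) h3]
    linarith
  have hε0 : 0 ≤ ε := by
    rw [hε]
    positivity
  -- the bounds `T`
  set T : PP w (XR ρ N) → ℝ := fun i => (if Y i = none then 1 else 2) * (1 + 3 * qq i) with hT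
  have hqq0 : ∀ i : PP w (XR ρ N), 0 < qq i := by
    intro i
    have h2 := cbd_pr i
    have h3 : (0 : ℝ) < (pr i : ℝ) - 1 := by linarith
    unfold qq
    positivity
  have hT1 : ∀ i, 1 ≤ T i := by
    intro i
    rw [hT]
    dsimp only
    have h1 := hqq0 i
    split_ifs
    · linarith
    · linarith
  have hTY : ∀ i, ∑ s, cbdG Y i s ≤ T i := fun i => cbd_one Y i
  have hTd : ∀ i, ∑ s, cbdG (dl j Y) i s ≤ T i := by
    intro i
    refine (cbd_one (dl j Y) i).trans ?_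
    rw [hT]
    dsimp only
    have h1 := hqq0 i
    by_cases hy : Y i = none
    · have h2 : dl j Y i = none := by
        unfold dl
        rw [hy]
        simp
      rw [if_pos h2, if_pos hy]
    · rw [if_neg hy]
      split_ifs
      · linarith
      · exact le_refl _
  have hTprod : ∏ i, T i = 2 ^ (supp Y).card * ∏ i : PP w (XR ρ N), (1 + 3 * qq i) := by
    rw [hT, Finset.prod_mul_distrib]
    congr 1
    unfold supp
    rw [Finset.prod_ite, Finset.prod_const_one, one_mul, Finset.prod_const]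
  have hTP0 : 0 ≤ ∏ i, T i := Finset.prod_nonneg fun i _ => le_trans zero_le_one (hT1 i)
  -- the pairs
  set B : Finset (PP w (XR ρ N) × Fin 3) := E ×ˢ univ with hB
  have hBcard : (B.card : ℝ) ≤ 9 := by
    rw [hB, Finset.card_product, Finset.card_univ, Fintype.card_fin]
    have : E.card * 3 ≤ 9 := by omega
    exact_mod_cast this
  set B' : Finset (PP w (XR ρ N) × Fin 3) := B.filter (fun p => p.2 ≠ j) with hB'
  have hB'card : (B'.card : ℝ) ≤ 9 :=
    le_trans (by exact_mod_cast Finset.card_filter_le _ _) hBcard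
  -- splitting
  have hG : ∀ x : Fin 3 → ℝ, |FB F j (uu k M) x| ≤ 8 * K := by
    intro x
    unfold FB
    refine (Finset.abs_sum_le_sum_abs _ _).trans ?_
    have h1 : ∀ S ∈ (univ : Finset (Finset (Fin n))),
        |(-1 : ℝ) ^ S.card * F (Function.update x j (x j + ∑ i ∈ S, uu k M i))| ≤ K := by
      intro S _
      rw [abs_mul, abs_pow, abs_neg, abs_one, one_pow, one_mul]
      exact hF.bd _
    refine (Finset.sum_le_card_nsmul _ _ _ h1).trans ?_
    rw [Finset.card_univ, Fintype.card_finset, Fintype.card_fin, nsmul_eq_mul]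
    refine mul_le_mul_of_nonneg_right ?_ hK.le
    have h2 : 2 ^ n ≤ 2 ^ 3 := Nat.pow_le_pow_right (by norm_num) hn
    have h3 : ((2 ^ n : ℕ) : ℝ) ≤ ((2 ^ 3 : ℕ) : ℝ) := by exact_mod_cast h2
    norm_num at h3
    exact_mod_cast h3
  have huu : ∀ l, 0 ≤ uu k M l := by
    intro l
    unfold uu
    positivity
  have hbig : ∀ l, (∃ i : PP w (XR ρ N), pr i = p l) ∨ ρ < uu k M l := by
    intro l
    by_cases hl : p l ≤ XR ρ N
    · left
      have h1 : w < p l := by
        have := lt_trans hwN (hsize l).1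
        exact_mod_cast this
      exact ⟨⟨p l, by rw [mem_filter, mem_Ioc]; exact ⟨⟨h1, hl⟩, hp1 l⟩⟩, rfl⟩
    · right
      push Not at hl
      have h1 : (N : ℝ) ^ ρ < p l := Nat.lt_of_floor_lt hl
      have h2 := lt_of_lt_of_le h1 (hp2 l).2
      exact (Real.rpow_lt_rpow_left_iff hN').1 h2
  have hmain := cfg_main F (FB F j (uu k M)) M N j Y E hE' (fun τ =>
    cfg_sum hF M N j (uu k M) p hpm.injective huu E hEl (fun l => (hsize l).2) hbig
      (szs M N τ) (cfg_szs_nonneg M N τ))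
  unfold Lam
  rw [cfg_comb, cfg_comb]
  rw [← Finset.sum_filter_add_sum_filter_not univ
    (fun σ : PP w (XR ρ N) → Option (Fin 3) => ∀ i ∈ E, σ i = none ∨ σ i = some j)
    (fun σ => F (szs M N σ) * ∏ i, cfgF Y i (σ i)),
    ← Finset.sum_filter_add_sum_filter_not univ
    (fun σ : PP w (XR ρ N) → Option (Fin 3) => ∀ i ∈ E, σ i = none)
    (fun σ => FB F j (uu k M) (szs M N σ) * ∏ i, cfgF (dl j Y) i (σ i)), hmain]
  -- the errors
  have herr1 : |∑ σ ∈ univ.filter (fun σ : PP w (XR ρ N) → Option (Fin 3) =>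
      ¬ ∀ i ∈ E, σ i = none ∨ σ i = some j), F (szs M N σ) * ∏ i, cfgF Y i (σ i)| ≤
      K * (9 * (ε * ∏ i, T i)) := by
    refine (Finset.abs_sum_le_sum_abs _ _).trans ?_
    have h1 : ∀ σ ∈ univ.filter (fun σ : PP w (XR ρ N) → Option (Fin 3) =>
        ¬ ∀ i ∈ E, σ i = none ∨ σ i = some j),
        |F (szs M N σ) * ∏ i, cfgF Y i (σ i)| ≤ K * ∏ i, cbdG Y i (σ i) := by
      intro σ _
      rw [abs_mul, Finset.abs_prod, Finset.prod_congr rfl fun i _ => cfg_abs Y i (σ i)]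
      exact mul_le_mul_of_nonneg_right (hF.bd _)
        (Finset.prod_nonneg fun i _ => cfg_nonneg Y i _)
    refine (Finset.sum_le_sum h1).trans ?_
    rw [← Finset.mul_sum]
    refine mul_le_mul_of_nonneg_left ?_ hK.le
    refine (cfg_bad Y T hTY hT1 ε B' ?_ _ ?_).trans
      (mul_le_mul_of_nonneg_right hB'card (mul_nonneg hε0 hTP0))
    · intro p hp
      rw [hB', mem_filter, hB, mem_product] at hp
      rw [cfg_diff Y p.1 p.2]
      · exact hqε _ hp.1.1
      · rw [(hE' p.1).1 hp.1.1]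
        intro e
        exact hp.2 (Option.some.inj e).symm
    · intro σ hσ
      rw [mem_filter] at hσ
      have h2 := hσ.2
      push Not at h2
      obtain ⟨i, hi, h3, h4⟩ := h2
      obtain ⟨h, hh⟩ := Option.ne_none_iff_exists'.1 h3
      refine ⟨(i, h), ?_, hh⟩
      rw [hB', mem_filter, hB, mem_product]
      refine ⟨⟨hi, mem_univ _⟩, fun e => h4 ?_⟩
      rw [hh, ← e]
  have herr2 : |∑ σ ∈ univ.filter (fun σ : PP w (XR ρ N) → Option (Fin 3) =>
      ¬ ∀ i ∈ E, σ i = none), FB F j (uu k M) (szs M N σ) * ∏ i, cfgF (dl j Y) i (σ i)| ≤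
      8 * K * (9 * (ε * ∏ i, T i)) := by
    refine (Finset.abs_sum_le_sum_abs _ _).trans ?_
    have h1 : ∀ σ ∈ univ.filter (fun σ : PP w (XR ρ N) → Option (Fin 3) =>
        ¬ ∀ i ∈ E, σ i = none),
        |FB F j (uu k M) (szs M N σ) * ∏ i, cfgF (dl j Y) i (σ i)| ≤
          8 * K * ∏ i, cbdG (dl j Y) i (σ i) := by
      intro σ _
      rw [abs_mul, Finset.abs_prod, Finset.prod_congr rfl fun i _ => cfg_abs (dl j Y) i (σ i)]
      exact mul_le_mul_of_nonneg_right (hG _)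
        (Finset.prod_nonneg fun i _ => cfg_nonneg (dl j Y) i _)
    refine (Finset.sum_le_sum h1).trans ?_
    rw [← Finset.mul_sum]
    refine mul_le_mul_of_nonneg_left ?_ (by positivity)
    refine (cfg_bad (dl j Y) T hTd hT1 ε B ?_ _ ?_).trans
      (mul_le_mul_of_nonneg_right hBcard (mul_nonneg hε0 hTP0))
    · intro p hp
      rw [hB, mem_product] at hp
      rw [cfg_diff (dl j Y) p.1 p.2]
      · exact hqε _ hp.1
      · unfold dl
        rw [if_pos ((hE' p.1).1 hp.1)]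
        simp
    · intro σ hσ
      rw [mem_filter] at hσ
      have h2 := hσ.2
      push Not at h2
      obtain ⟨i, hi, h3⟩ := h2
      obtain ⟨h, hh⟩ := Option.ne_none_iff_exists'.1 h3
      refine ⟨(i, h), ?_, hh⟩
      rw [hB, mem_product]
      exact ⟨hi, mem_univ _⟩
  rw [add_sub_add_left_eq_sub]
  refine (abs_sub _ _).trans ?_
  refine (add_le_add herr1 herr2).trans (le_of_eq ?_)
  rw [hTprod, hε]
  ring

end Pool.Agent.PT
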