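import Pool.Agent.PT.AllC
import Pool.Agent.PT.Cfg

set_option autoImplicit false

/-!
# PT / AllE: the criterion
-/

namespace Pool.Agent.PT

theorem core_holds : St_Core := core_of_cfg thm_Cfg

end Pool.Agent.PT
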