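import Mathlib
import Pool.Agent.PT.Stmts

set_option autoImplicit false

/-!
# PT / FinA

Final deductions from the criterion `St_Core`.
-/

namespace Pool.Agent.PT

open Finset Filter Pool.Agent.MT
open scoped ArithmeticFunction.Omega

/-! ### The theorems -/

open Classical in
/-- two `P_2` and one `P_3`, in some order -/
def ThmA : Prop := ∀ sh : Fin 3 → ℕ, Function.Injective sh → Adm sh →
  ∃ c₀ : ℝ, 0 < c₀ ∧ ∀ᶠ x : ℕ in atTop,
    c₀ * x / Real.log x ^ 3 ≤ (((range (x + 1)).filter (fun n : ℕ =>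
      (∃ e : Equiv.Perm (Fin 3), ArithmeticFunction.cardFactors (n + sh (e 0)) ≤ 2 ∧
        ArithmeticFunction.cardFactors (n + sh (e 1)) ≤ 2 ∧
        ArithmeticFunction.cardFactors (n + sh (e 2)) ≤ 3) ∧
      ∀ j, ∀ p : ℕ, p.Prime → p ∣ n + sh j → (x : ℝ) ^ (1 / 1000 : ℝ) < p)).card : ℝ)

open Classical in
/-- `P_2` at a prescribed place, `P_3` at the two others -/
def ThmB : Prop := ∀ sh : Fin 3 → ℕ, Function.Injective sh → Adm sh → ∀ j₀ : Fin 3,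
  ∃ c₀ : ℝ, 0 < c₀ ∧ ∀ᶠ x : ℕ in atTop,
    c₀ * x / Real.log x ^ 3 ≤ (((range (x + 1)).filter (fun n : ℕ =>
      (ArithmeticFunction.cardFactors (n + sh j₀) ≤ 2 ∧
        ∀ j, j ≠ j₀ → ArithmeticFunction.cardFactors (n + sh j) ≤ 3) ∧
      ∀ j, ∀ p : ℕ, p.Prime → p ∣ n + sh j → (x : ℝ) ^ (1 / 1000 : ℝ) < p)).card : ℝ)

open Classical in
/-- a prime at a prescribed place, `P_4` at the two others -/
def ThmC : Prop := ∀ sh : Fin 3 → ℕ, Function.Injective sh → Adm sh → ∀ j₀ : Fin 3,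
  ∃ c₀ : ℝ, 0 < c₀ ∧ ∀ᶠ x : ℕ in atTop,
    c₀ * x / Real.log x ^ 3 ≤ (((range (x + 1)).filter (fun n : ℕ =>
      ((n + sh j₀).Prime ∧
        ∀ j, j ≠ j₀ → ArithmeticFunction.cardFactors (n + sh j) ≤ 4) ∧
      ∀ j, ∀ p : ℕ, p.Prime → p ∣ n + sh j → (x : ℝ) ^ (1 / 1000 : ℝ) < p)).card : ℝ)

/-! ### Symmetric profiles -/

/-- the profile does not depend on the place of the coordinate -/
def SymP (F : (Fin 3 → ℝ) → ℝ) : Prop := ∀ (j : Fin 3) (a b t : ℝ),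
  F (cor j a b t) = F (cor 0 a b t)

theorem fin_hB {F : (Fin 3 → ℝ) → ℝ} (h : SymP F) (ρ : ℝ) (j : Fin 3) {n : ℕ} (u : Fin n → ℝ)
    (a b : ℝ) : hB F ρ j u a b = hB F ρ 0 u a b := by
  unfold hB hh
  refine sum_congr rfl fun S _ => ?_
  congr 1
  exact intervalIntegral.integral_congr fun t _ => h j a b t

theorem fin_JJ {F : (Fin 3 → ℝ) → ℝ} (h : SymP F) (ρ σ : ℝ) (j : Fin 3) {n : ℕ}
    (u : Fin n → ℝ) : JJ F ρ σ j u = JJ F ρ σ 0 u := by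
  unfold JJ
  refine intervalIntegral.integral_congr fun a _ => ?_
  refine intervalIntegral.integral_congr fun b _ => ?_
  simp only [fin_hB h ρ j u a b]

theorem fin_QQ {F : (Fin 3 → ℝ) → ℝ} (h : SymP F) (ρ σ : ℝ) (j : Fin 3) (n : ℕ) :
    QQ F ρ σ j n = QQ F ρ σ 0 n := by
  unfold QQ
  congr 1
  funext u
  rw [fin_JJ h]

theorem fin_FA : SymP FA := by
  intro j a b t
  have key : ∀ x y : Fin 3 → ℝ, (Reg (27 / 100) x ↔ Reg (27 / 100) y) →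
      x 0 + x 1 + x 2 = y 0 + y 1 + y 2 →
      x 0 * x 1 + x 0 * x 2 + x 1 * x 2 = y 0 * y 1 + y 0 * y 2 + y 1 * y 2 → FA x = FA y := by
    intro x y h1 h2 h3
    unfold FA
    rw [h2, h3]
    by_cases h : Reg (27 / 100) y
    · rw [if_pos h, if_pos (h1.2 h)]
    · rw [if_neg h, if_neg fun h' => h (h1.1 h')]
  fin_cases j
  · rfl
  · refine key _ _ ?_ ?_ ?_
    · unfold Reg cor o1
      simp only [Fin.forall_fin_succ]
      simp
      constructor <;> rintro ⟨h1, h2⟩ <;> constructor <;> grind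
    · simp [cor, o1]; ring
    · simp [cor, o1]; ring
  · refine key _ _ ?_ ?_ ?_
    · unfold Reg cor o1
      simp only [Fin.forall_fin_succ]
      simp
      constructor <;> rintro ⟨h1, h2⟩ <;> constructor <;> grind
    · simp [cor, o1]; ring
    · simp [cor, o1]; ring

theorem fin_JJ0 {F : (Fin 3 → ℝ) → ℝ} {ρ σ : ℝ} (hσ : 0 ≤ σ) (j : Fin 3) {n : ℕ}
    (u : Fin n → ℝ) : 0 ≤ JJ F ρ σ j u := by
  unfold JJ
  refine intervalIntegral.integral_nonneg hσ fun a ha => ?_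
  refine intervalIntegral.integral_nonneg (by linarith [ha.2]) fun b _ => ?_
  exact sq_nonneg _

theorem fin_DD {ρ : ℝ} (n : ℕ) : MeasurableSet (DD ρ n) := by
  have : DD ρ n = (⋂ i, {u : Fin n → ℝ | 1 / 1000 < u i}) ∩
      ((⋂ i, ⋂ l, ⋂ (_ : i < l), {u : Fin n → ℝ | u i < u l}) ∩
      ((⋂ i, {u : Fin n → ℝ | u i < 1 - ∑ l, u l}) ∩
        {u : Fin n → ℝ | ρ < 1 - ∑ l, u l})) := by
    ext u
    simp [DD, StrictMono]
  rw [this]
  refine MeasurableSet.inter (MeasurableSet.iInter fun i => ?_) (MeasurableSet.inter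
    (MeasurableSet.iInter fun i => MeasurableSet.iInter fun l => MeasurableSet.iInter fun _ => ?_)
    (MeasurableSet.inter (MeasurableSet.iInter fun i => ?_) ?_))
  · exact measurableSet_lt measurable_const (measurable_pi_apply i)
  · exact measurableSet_lt (measurable_pi_apply i) (measurable_pi_apply l)
  · exact measurableSet_lt (measurable_pi_apply i) (by fun_prop)
  · exact measurableSet_lt measurable_const (by fun_prop)

theorem fin_QQ0 {F : (Fin 3 → ℝ) → ℝ} {ρ σ : ℝ} (hρ : 0 ≤ ρ) (hσ : 0 ≤ σ) (j : Fin 3) (n : ℕ) :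
    0 ≤ QQ F ρ σ j n := by
  unfold QQ
  refine MeasureTheory.setIntegral_nonneg (fin_DD n) fun u hu => ?_
  refine mul_nonneg (fin_JJ0 hσ j u) ?_
  unfold dens
  have h1 : ∀ i, 0 < u i := fun i => lt_trans (by norm_num) (hu.1 i)
  have h2 : 0 < 1 - ∑ i, u i := lt_of_le_of_lt hρ hu.2.2.2
  have h3 : 0 < ∏ i, u i := prod_pos fun i _ => h1 i
  positivity

/-! ### The deductions -/

/-- data to which the criterion applies -/
structure Dat (ρ σ K : ℝ) (F : (Fin 3 → ℝ) → ℝ) : Prop where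
  s0 : 0 < σ
  sr : σ ≤ ρ
  rs : ρ + σ < 1 / 2
  k0 : 0 < K
  pf : Prof ρ K F
  r3 : 3 * ρ < 1

theorem fin_cA (r : ℕ) : 0 ≤ cA r ∧ cA r ≤ 1 := by
  unfold cA
  split_ifs <;> norm_num

theorem fin_cA1 (r : ℕ) : (r ≤ 2 ∧ cA r = 1) ∨ (r = 3 ∧ cA r = 1 / 2) ∨ (3 < r ∧ cA r = 0) := by
  unfold cA
  rcases Nat.lt_trichotomy r 3 with h | h | h
  · left; exact ⟨by omega, if_pos (by omega)⟩
  · right; left; exact ⟨h, by rw [if_neg (by omega), if_pos h]⟩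
  · right; right; exact ⟨h, by rw [if_neg (by omega), if_neg (by omega)]⟩

theorem fin_cA2 (r : Fin 3 → ℕ) (h : 2 < ∑ j, cA (r j)) :
    ∃ e : Equiv.Perm (Fin 3), r (e 0) ≤ 2 ∧ r (e 1) ≤ 2 ∧ r (e 2) ≤ 3 := by
  rw [Fin.sum_univ_three] at h
  rcases fin_cA1 (r 0) with ⟨a, ha⟩ | ⟨a, ha⟩ | ⟨a, ha⟩ <;>
  rcases fin_cA1 (r 1) with ⟨b, hb⟩ | ⟨b, hb⟩ | ⟨b, hb⟩ <;>
  rcases fin_cA1 (r 2) with ⟨c, hc⟩ | ⟨c, hc⟩ | ⟨c, hc⟩ <;>
  rw [ha, hb, hc] at h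
  · exact ⟨Equiv.refl _, by simpa using a, by simpa using b, by
      simpa using le_trans c (by norm_num)⟩
  · exact ⟨Equiv.refl _, by simpa using a, by simpa using b, by simpa using c.le⟩
  · norm_num at h
  · exact ⟨Equiv.swap 1 2, by simpa [Equiv.swap_apply_def] using a,
      by simpa [Equiv.swap_apply_def] using c, by simpa [Equiv.swap_apply_def] using b.le⟩
  · norm_num at h
  · norm_num at h
  · norm_num at h
  · norm_num at h
  · norm_num at h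
  · exact ⟨Equiv.swap 0 2, by simpa [Equiv.swap_apply_def] using c,
      by simpa [Equiv.swap_apply_def] using b, by simpa [Equiv.swap_apply_def] using a.le⟩
  all_goals norm_num at h

theorem fin_A (hcore : St_Core) {ρ σ K : ℝ} {F : (Fin 3 → ℝ) → ℝ} (h : Dat ρ σ K F)
    (hn : 2 * II F ρ < ∑ j : Fin 3, ∑ n ∈ range 4, cA (n + 1) * QQ F ρ σ j n) : ThmA := by
  classical
  intro sh hinj hadm
  obtain ⟨c₀, h0, h1⟩ := hcore ρ σ K F h.s0 h.sr h.rs h.k0 h.pf h.r3 (fun _ r => cA r)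
    (fun _ r => fin_cA r) hn sh hinj hadm
  refine ⟨c₀, h0, h1.mono fun x hx => hx.trans ?_⟩
  refine Nat.cast_le.2 (card_le_card fun n hn => ?_)
  obtain ⟨h2, h3, h4⟩ := mem_filter.1 hn
  exact mem_filter.2 ⟨h2, fin_cA2 (fun j => ArithmeticFunction.cardFactors (n + sh j)) h3, h4⟩

/-- coefficients: `1[1 ≤ r ≤ s]` at `j₀`, `1[1 ≤ r ≤ t]` elsewhere -/
noncomputable def cG (j₀ : Fin 3) (s t : ℕ) (j : Fin 3) (r : ℕ) : ℝ :=
  if 1 ≤ r ∧ r ≤ (if j = j₀ then s else t) then 1 else 0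

theorem fin_cG (j₀ : Fin 3) (s t : ℕ) (j : Fin 3) (r : ℕ) :
    0 ≤ cG j₀ s t j r ∧ cG j₀ s t j r ≤ 1 := by
  unfold cG
  split_ifs <;> norm_num

theorem fin_cG2 (j₀ : Fin 3) (s t : ℕ) (r : Fin 3 → ℕ) (h : 2 < ∑ j, cG j₀ s t j (r j)) :
    ∀ j, 1 ≤ r j ∧ r j ≤ if j = j₀ then s else t := by
  intro j
  by_contra hj
  have h1 : ∑ j, cG j₀ s t j (r j) ≤ ∑ i : Fin 3, if i = j then (0 : ℝ) else 1 := by
    refine sum_le_sum fun i _ => ?_
    by_cases hi : i = j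
    · subst hi
      rw [if_pos rfl, cG, if_neg hj]
    · rw [if_neg hi]
      exact (fin_cG j₀ s t i (r i)).2
  have h2 : ∑ i : Fin 3, (if i = j then (0 : ℝ) else 1) = 2 := by
    fin_cases j <;> simp [Fin.sum_univ_three] <;> norm_num
  linarith

theorem fin_cs {ρ σ : ℝ} {F : (Fin 3 → ℝ) → ℝ} (hF : SymP F) (j₀ : Fin 3) (s t : ℕ) :
    ∑ j : Fin 3, ∑ n ∈ range 4, cG j₀ s t j (n + 1) * QQ F ρ σ j n =
      ∑ n ∈ range 4, ((if n + 1 ≤ s then (1 : ℝ) else 0) + 2 * (if n + 1 ≤ t then 1 else 0)) *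
        QQ F ρ σ 0 n := by
  rw [sum_comm]
  refine sum_congr rfl fun n _ => ?_
  have : ∀ j : Fin 3, cG j₀ s t j (n + 1) * QQ F ρ σ j n =
      (if j = j₀ then (if n + 1 ≤ s then (1 : ℝ) else 0) else (if n + 1 ≤ t then 1 else 0)) *
        QQ F ρ σ 0 n := by
    intro j
    rw [fin_QQ hF, cG]
    congr 1
    by_cases hj : j = j₀ <;> simp [hj]
  rw [sum_congr rfl fun j _ => this j, ← sum_mul]
  congr 1
  generalize (if n + 1 ≤ s then (1 : ℝ) else 0) = a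
  generalize (if n + 1 ≤ t then (1 : ℝ) else 0) = b
  fin_cases j₀ <;> simp [Fin.sum_univ_three] <;> ring

theorem fin_As {ρ σ : ℝ} {F : (Fin 3 → ℝ) → ℝ} (hF : SymP F) :
    ∑ j : Fin 3, ∑ n ∈ range 4, cA (n + 1) * QQ F ρ σ j n =
      3 * (QQ F ρ σ 0 0 + QQ F ρ σ 0 1) + 3 / 2 * QQ F ρ σ 0 2 := by
  have : ∀ j : Fin 3, ∑ n ∈ range 4, cA (n + 1) * QQ F ρ σ j n =
      ∑ n ∈ range 4, cA (n + 1) * QQ F ρ σ 0 n := fun j =>
    sum_congr rfl fun n _ => by rw [fin_QQ hF]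
  rw [sum_congr rfl fun j _ => this j]
  simp [sum_range_succ, cA]
  ring

/-- both `P_2`-`P_3`-`P_3` and prime-`P_4`-`P_4` are of this form -/
theorem fin_G (hcore : St_Core) {ρ σ K : ℝ} {F : (Fin 3 → ℝ) → ℝ} (h : Dat ρ σ K F)
    (hF : SymP F) (s t : ℕ)
    (hn : 2 * II F ρ < ∑ n ∈ range 4,
      ((if n + 1 ≤ s then (1 : ℝ) else 0) + 2 * (if n + 1 ≤ t then 1 else 0)) * QQ F ρ σ 0 n)
    (j₀ : Fin 3) (sh : Fin 3 → ℕ) (hinj : Function.Injective sh) (hadm : Adm sh)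
    (P : ℕ → Prop) (hP : ∀ n, (∀ j, 1 ≤ ArithmeticFunction.cardFactors (n + sh j) ∧
      ArithmeticFunction.cardFactors (n + sh j) ≤ if j = j₀ then s else t) → P n)
    [∀ x : ℕ, DecidablePred fun n : ℕ => P n ∧
      ∀ j, ∀ p : ℕ, p.Prime → p ∣ n + sh j → (x : ℝ) ^ (1 / 1000 : ℝ) < p] :
    ∃ c₀ : ℝ, 0 < c₀ ∧ ∀ᶠ x : ℕ in atTop,
    c₀ * x / Real.log x ^ 3 ≤ (((range (x + 1)).filter (fun n : ℕ => P n ∧
      ∀ j, ∀ p : ℕ, p.Prime → p ∣ n + sh j → (x : ℝ) ^ (1 / 1000 : ℝ) < p)).card : ℝ) := by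
  rw [← fin_cs hF j₀] at hn
  classical
  obtain ⟨c₀, h0, h1⟩ := hcore ρ σ K F h.s0 h.sr h.rs h.k0 h.pf h.r3 (cG j₀ s t)
    (fun j r => fin_cG j₀ s t j r) hn sh hinj hadm
  refine ⟨c₀, h0, h1.mono fun x hx => hx.trans ?_⟩
  refine Nat.cast_le.2 (card_le_card fun n hn => ?_)
  obtain ⟨h2, h3, h4⟩ := mem_filter.1 hn
  exact mem_filter.2 ⟨h2, hP n (fin_cG2 j₀ s t
    (fun j => ArithmeticFunction.cardFactors (n + sh j)) h3), h4⟩

theorem fin_B (hcore : St_Core) {ρ σ K : ℝ} {F : (Fin 3 → ℝ) → ℝ} (h : Dat ρ σ K F)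
    (hF : SymP F)
    (hn : 2 * II F ρ < ∑ j : Fin 3, ∑ n ∈ range 4, cA (n + 1) * QQ F ρ σ j n) : ThmB := by
  classical
  intro sh hinj hadm j₀
  refine fin_G hcore h hF 2 3 ?_ j₀ sh hinj hadm _ fun n hn => ⟨?_, fun j hj => ?_⟩
  · rw [fin_As hF] at hn
    have h0 := fin_QQ0 (F := F) (h.s0.le.trans h.sr) h.s0.le 0 2
    simp [sum_range_succ]
    linarith
  · have := (hn j₀).2
    rwa [if_pos rfl] at this
  · have := (hn j).2
    rwa [if_neg hj] at this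

theorem fin_C (hcore : St_Core) {ρ σ K : ℝ} {F : (Fin 3 → ℝ) → ℝ} (h : Dat ρ σ K F)
    (hF : SymP F)
    (hn : 2 * II F ρ < 3 * QQ F ρ σ 0 0 +
      2 * (QQ F ρ σ 0 1 + QQ F ρ σ 0 2 + QQ F ρ σ 0 3)) : ThmC := by
  classical
  intro sh hinj hadm j₀
  refine fin_G hcore h hF 1 4 ?_ j₀ sh hinj hadm _ fun n hn => ⟨?_, fun j hj => ?_⟩
  · simp [sum_range_succ]
    linarith
  · have h1 := hn j₀
    rw [if_pos rfl] at h1
    exact ArithmeticFunction.cardFactors_eq_one_iff_prime.1 (le_antisymm h1.2 h1.1)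
  · have := (hn j).2
    rwa [if_neg hj] at this

end Pool.Agent.PT
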