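import Pool.Agent.PT.FinA

set_option autoImplicit false

/-!
# PT / FinB

The theorems in the form of the hand-ins.
-/

namespace Pool.Agent.PT

open Finset Filter

theorem finb_card (P : ℕ → Prop) [DecidablePred P] (x : ℕ) :
    {n : ℕ | n ≤ x ∧ P n}.ncard = ((range (x + 1)).filter P).card := by
  rw [← Set.ncard_coe_finset]
  congr 1
  ext n
  simp only [coe_filter, mem_range, Set.mem_ofPred_eq, Nat.lt_succ_iff]

theorem finb_A (hA : ThmA) (h : Fin 3 → ℕ) (hinj : Function.Injective h)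
    (hadm : ∀ p : ℕ, p.Prime → ∃ a : ℕ, ∀ i, ¬ p ∣ a + h i) :
    ∃ c : ℝ, 0 < c ∧ ∀ᶠ x : ℕ in Filter.atTop,
      c * x / Real.log x ^ 3 ≤
        ({n : ℕ | n ≤ x ∧
          (∃ e : Equiv.Perm (Fin 3), ArithmeticFunction.cardFactors (n + h (e 0)) ≤ 2 ∧
            ArithmeticFunction.cardFactors (n + h (e 1)) ≤ 2 ∧
            ArithmeticFunction.cardFactors (n + h (e 2)) ≤ 3) ∧
          ∀ i, ∀ p : ℕ, p.Prime → p ∣ n + h i → (x : ℝ) ^ (1 / 1000 : ℝ) < p}.ncard : ℝ) := by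
  classical
  obtain ⟨c, h0, h1⟩ := hA h hinj hadm
  refine ⟨c, h0, h1.mono fun x hx => hx.trans (le_of_eq ?_)⟩
  rw [finb_card]

theorem finb_B (hB : ThmB) (h : Fin 3 → ℕ) (hinj : Function.Injective h)
    (hadm : ∀ p : ℕ, p.Prime → ∃ a : ℕ, ∀ i, ¬ p ∣ a + h i) (j : Fin 3) :
    ∃ c : ℝ, 0 < c ∧ ∀ᶠ x : ℕ in Filter.atTop,
      c * x / Real.log x ^ 3 ≤
        ({n : ℕ | n ≤ x ∧
          (ArithmeticFunction.cardFactors (n + h j) ≤ 2 ∧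
            ∀ i, i ≠ j → ArithmeticFunction.cardFactors (n + h i) ≤ 3) ∧
          ∀ i, ∀ p : ℕ, p.Prime → p ∣ n + h i → (x : ℝ) ^ (1 / 1000 : ℝ) < p}.ncard : ℝ) := by
  classical
  obtain ⟨c, h0, h1⟩ := hB h hinj hadm j
  refine ⟨c, h0, h1.mono fun x hx => hx.trans (le_of_eq ?_)⟩
  rw [finb_card]

theorem finb_C (hC : ThmC) (h : Fin 3 → ℕ) (hinj : Function.Injective h)
    (hadm : ∀ p : ℕ, p.Prime → ∃ a : ℕ, ∀ i, ¬ p ∣ a + h i) (j : Fin 3) :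
    ∃ c : ℝ, 0 < c ∧ ∀ᶠ x : ℕ in Filter.atTop,
      c * x / Real.log x ^ 3 ≤
        ({n : ℕ | n ≤ x ∧
          ((n + h j).Prime ∧
            ∀ i, i ≠ j → ArithmeticFunction.cardFactors (n + h i) ≤ 4) ∧
          ∀ i, ∀ p : ℕ, p.Prime → p ∣ n + h i → (x : ℝ) ^ (1 / 1000 : ℝ) < p}.ncard : ℝ) := by
  classical
  obtain ⟨c, h0, h1⟩ := hC h hinj hadm j
  refine ⟨c, h0, h1.mono fun x hx => hx.trans (le_of_eq ?_)⟩
  rw [finb_card]

end Pool.Agent.PT
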