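import Pool.Agent.PT.StD
import Pool.Agent.PTB.Stmts
import Pool.Agent.PTB.Mass

set_option autoImplicit false

/-!
# PT / MG

Module of the density block of PT (see the docstring of the statement in `PT/StD.lean`).
-/

namespace Pool.Agent.PT

open Finset Filter Pool.Agent.MT MeasureTheory

/-- `BB` of the empty box is the indicator of the primes -/
private theorem mg_bx0 (k : Fin 0 → ℕ) (M N m : ℕ) :
    bx k M N m = if m.Prime then 1 else 0 := by
  classical
  have hal : ∀ a : ℕ, al k M N a = if a = 1 then 1 else 0 := by
    intro a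
    unfold al
    by_cases h : a = 1
    · rw [if_pos h]
      exact if_pos ⟨fun i => i.elim0, fun i => i.elim0, by rw [h]; simp⟩
    · rw [if_neg h]
      refine if_neg ?_
      rintro ⟨p, -, hp⟩
      exact h (by rw [hp]; simp)
  unfold bx BB
  simp only [hal]
  by_cases hm : m = 0
  · subst hm
    simp [Nat.not_prime_zero]
  · rw [sum_eq_single 1]
    · simp
    · intro a _ ha
      rw [if_neg ha, zero_mul]
    · intro h
      exact absurd (Nat.one_mem_divisors.2 hm) h

private theorem mg_B0_nonneg {η : ℝ → ℝ} (hη : IsWt η) (N : ℕ) {b : ℕ → ℝ} (hb : ∀ m, 0 ≤ b m) :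
    0 ≤ B0 η N b :=
  sum_nonneg fun m _ => mul_nonneg (hb m) (hη.nonneg _)

private theorem mg_bx_nonneg {n : ℕ} (k : Fin n → ℕ) (M N m : ℕ) : 0 ≤ bx k M N m := by
  classical
  unfold bx BB
  refine sum_nonneg fun a _ => mul_nonneg ?_ ?_
  · unfold al
    split_ifs
    · exact zero_le_one
    · exact le_refl _
  · split_ifs
    · exact zero_le_one
    · exact le_refl _

private theorem mg_mη {η : ℝ → ℝ} (hη : IsWt η) : 0 ≤ mη η :=
  intervalIntegral.integral_nonneg zero_le_one fun t _ => hη.nonneg t

theorem thm_MG (hMC : St_MC) (hP : PTB.St_MassP) (hA : PTB.St_MassA) : St_MG := by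
  clear hMC
  intro η hη ρ ε M n k hρ hM hk hε
  classical
  have hm0 := mg_mη hη
  rcases hm0.eq_or_lt with hm | hm
  · -- `mη = 0`
    filter_upwards with N
    rw [← hm, zero_mul, zero_mul]
    exact mg_B0_nonneg hη N fun m => mg_bx_nonneg k M N m
  have hbox : BoxOK ρ M k := (mem_filter.1 hk).2
  cases n with
  | zero =>
      have hmu : mu k M = 1 := by
        unfold mu
        simp
      filter_upwards [hP η hη (mη η * ε) (mul_pos hm hε), eventually_ge_atTop 3] with N h1 h3
      have hN1 : (1 : ℝ) < N := by exact_mod_cast (by omega : 1 < N)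
      have hN0 : (0 : ℝ) < N := by linarith
      have hL : 0 < Real.log N := Real.log_pos hN1
      have h2 : PTB.w0 (PTB.wp η N) N ≤ B0 η N (bx k M N) := by
        unfold PTB.w0 B0
        refine sum_le_sum fun m hm => ?_
        rw [mg_bx0]
        unfold PTB.wp
        split_ifs with hp
        · refine mul_le_mul_of_nonneg_right ?_ (hη.nonneg _)
          rw [div_le_one hL]
          have hmN : m ≤ N := Nat.lt_succ_iff.1 (mem_range.1 hm)
          exact Real.log_le_log (by exact_mod_cast hp.pos) (by exact_mod_cast hmN)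
        · rw [zero_mul]
      refine le_trans ?_ h2
      have h4 := (abs_le.1 h1).1
      have e5 : (∫ t in (0 : ℝ)..1, η t) = mη η := rfl
      rw [e5] at h4
      rw [hmu]
      have e6 : mη η * (N / Real.log N) * (1 - ε) =
          mη η * N / Real.log N - mη η * ε * N / Real.log N := by ring
      rw [e6]
      linarith
  | succ n =>
      filter_upwards [PTB.mass_box hA η hη (Nat.succ_le_of_lt hM) hbox (mη η * ε)
        (mul_pos hm hε)] with N h1
      refine le_trans (le_of_eq ?_) h1
      ring

end Pool.Agent.PT
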