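import Pool.Agent.PT.Stmts

set_option autoImplicit false

/-!
# PT / ProfA

With x_i = a_i/rho, FA = 1 - s + (2/3) e_2 on the region x_i >= 0, x_i + x_j <= 1.
-/

namespace Pool.Agent.PT

open Finset Filter Pool.Agent.MT

private theorem profa_co {ρ : ℝ} {a : Fin 3 → ℝ} (h : Reg ρ a) :
    (0 ≤ a 0 ∧ 0 ≤ a 1 ∧ 0 ≤ a 2) ∧ (a 0 + a 1 ≤ ρ ∧ a 0 + a 2 ≤ ρ ∧ a 1 + a 2 ≤ ρ) :=
  ⟨⟨h.1 0, h.1 1, h.1 2⟩, h.2 0 1 (by decide), h.2 0 2 (by decide), h.2 1 2 (by decide)⟩

private theorem profa_pair {x y x' y' r : ℝ} (hy : 0 ≤ y) (hyr : y ≤ r) (hx' : 0 ≤ x')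
    (hxr : x' ≤ r) : |x * y - x' * y'| ≤ r * (|x - x'| + |y - y'|) := by
  have h1 : x * y - x' * y' = (x - x') * y + x' * (y - y') := by ring
  rw [h1]
  refine (abs_add_le _ _).trans ?_
  rw [abs_mul, abs_mul, abs_of_nonneg hy, abs_of_nonneg hx']
  have h2 := mul_le_mul_of_nonneg_left hyr (abs_nonneg (x - x'))
  have h3 := mul_le_mul_of_nonneg_right hxr (abs_nonneg (y - y'))
  linarith

private theorem profa_val {a : Fin 3 → ℝ} (h : Reg (27 / 100) a) : FA a =
    1 - 100 / 27 * (a 0 + a 1 + a 2) +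
      20000 / 2187 * (a 0 * a 1 + a 0 * a 2 + a 1 * a 2) := by
  unfold FA
  rw [if_pos h]
  ring

theorem thm_ProfA : St_ProfA := by
  refine ⟨fun a => ?_, fun a ha => ?_, fun a a' ha ha' => ?_⟩
  · by_cases h : Reg (27 / 100) a
    · rw [profa_val h]
      obtain ⟨⟨h0, h1, h2⟩, h01, h02, h12⟩ := profa_co h
      have e1 : a 0 * a 1 ≤ 27 / 100 * (27 / 100) :=
        mul_le_mul (by linarith) (by linarith) h1 (by norm_num)
      have e2 : a 0 * a 2 ≤ 27 / 100 * (27 / 100) :=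
        mul_le_mul (by linarith) (by linarith) h2 (by norm_num)
      have e3 : a 1 * a 2 ≤ 27 / 100 * (27 / 100) :=
        mul_le_mul (by linarith) (by linarith) h2 (by norm_num)
      have f1 := mul_nonneg h0 h1
      have f2 := mul_nonneg h0 h2
      have f3 := mul_nonneg h1 h2
      rw [abs_le]
      constructor <;> linarith
    · unfold FA
      rw [if_neg h]
      norm_num
  · unfold FA
    rw [if_neg ha]
  · rw [profa_val ha, profa_val ha', Fin.sum_univ_three]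
    obtain ⟨⟨h0, h1, h2⟩, h01, h02, h12⟩ := profa_co ha
    obtain ⟨⟨k0, k1, k2⟩, k01, k02, k12⟩ := profa_co ha'
    have e1 := profa_pair (x := a 0) (y := a 1) (x' := a' 0) (y' := a' 1) (r := 27 / 100)
      h1 (by linarith) k0 (by linarith)
    have e2 := profa_pair (x := a 0) (y := a 2) (x' := a' 0) (y' := a' 2) (r := 27 / 100)
      h2 (by linarith) k0 (by linarith)
    have e3 := profa_pair (x := a 1) (y := a 2) (x' := a' 1) (y' := a' 2) (r := 27 / 100)
      h2 (by linarith) k1 (by linarith)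
    have g0 := abs_nonneg (a 0 - a' 0)
    have g1 := abs_nonneg (a 1 - a' 1)
    have g2 := abs_nonneg (a 2 - a' 2)
    have u0 := abs_le.1 (le_refl |a 0 - a' 0|)
    have u1 := abs_le.1 (le_refl |a 1 - a' 1|)
    have u2 := abs_le.1 (le_refl |a 2 - a' 2|)
    rw [abs_le] at e1 e2 e3 ⊢
    constructor <;> linarith [e1.1, e1.2, e2.1, e2.2, e3.1, e3.2, u0.1, u0.2, u1.1, u1.2, u2.1, u2.2]

end Pool.Agent.PT
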